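import Pool.Agent.Lib.MR.Defs
import Pool.Agent.Lib.ANT.Katai
import Pool.Agent.Lib.LargeSieve.Additive

/-!
# Major and minor arcs
-/

set_option autoImplicit false
open Filter Topology Finset MeasureTheory

namespace Pool.Agent.Lib.MR

open Pool.Agent.Lib.LargeSieve Pool.Agent.Lib.ANT
open scoped ComplexConjugate

lemma arcs_sum_mul {M : Type*} [AddCommMonoid M] (f : ℕ → M) (K H : ℕ) :
    ∑ x ∈ range (K * H), f x = ∑ k ∈ range K, ∑ s ∈ range H, f (k * H + s) := by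
  induction K with
  | zero => simp
  | succ K ih => rw [add_mul, one_mul, sum_range_add, ih, sum_range_succ]

lemma arcs_abel (w : ℕ → ℂ) (hw : ∀ m, ‖w m‖ ≤ 1) (φ : ℕ → ℝ)
    (hφ : ∀ m, ‖w (m + 1) - w m‖ ≤ φ (m + 1) - φ m) (z : ℂ) (hz : ‖z‖ = 1) (M : ℕ) :
    ‖(z - 1) * ∑ m ∈ Icc 1 M, w m * z ^ m - w (M + 1) * z ^ (M + 1)‖ ≤ 1 + φ (M + 1) - φ 1 := by
  induction M with
  | zero => simpa [hz] using hw 1
  | succ M ih =>
    have e : (z - 1) * ∑ m ∈ Icc 1 (M + 1), w m * z ^ m - w (M + 1 + 1) * z ^ (M + 1 + 1) =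
        ((z - 1) * ∑ m ∈ Icc 1 M, w m * z ^ m - w (M + 1) * z ^ (M + 1)) -
          (w (M + 1 + 1) - w (M + 1)) * z ^ (M + 1 + 1) := by
      rw [sum_Icc_succ_top (by omega)]; ring
    rw [e]
    refine (norm_sub_le _ _).trans ?_
    rw [norm_mul (w _ - _), norm_pow, hz, one_pow, mul_one]
    linarith [hφ (M + 1)]

lemma arcs_step (θ : ℕ → ℂ) (hθ : ∀ k, ‖θ k‖ ≤ 1) {k k' : ℕ} (h : k ≤ k') :
    ‖θ k' - θ k‖ ≤ 2 * (k' : ℝ) - 2 * k := by
  rcases h.eq_or_lt with rfl | h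
  · simp
  · have h1 : (k : ℝ) + 1 ≤ k' := by exact_mod_cast h
    linarith [norm_sub_le (θ k') (θ k), hθ k, hθ k']

lemma arcs_corr (θ : ℕ → ℂ) (hθ : ∀ k, ‖θ k‖ ≤ 1) (H t p q M : ℕ) (α : ℝ) :
    4 * dZ (((p : ℝ) - q) * α) * ‖∑ m ∈ Icc 1 M, θ ((p * m + t) / H) * ee (α * (p * m : ℕ)) *
        conj (θ ((q * m + t) / H) * ee (α * (q * m : ℕ)))‖ ≤
      2 + 2 * ((p * (M + 1) + t) / H : ℕ) + 2 * ((q * (M + 1) + t) / H : ℕ) := by
  set z := ee (((p : ℝ) - q) * α) with hz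
  set w : ℕ → ℂ := fun m => θ ((p * m + t) / H) * conj (θ ((q * m + t) / H)) with hw
  have w1 : ∀ m, ‖w m‖ ≤ 1 := fun m => by
    rw [hw, norm_mul, Complex.norm_conj]
    exact mul_le_one₀ (hθ _) (norm_nonneg _) (hθ _)
  have e : ∑ m ∈ Icc 1 M, θ ((p * m + t) / H) * ee (α * (p * m : ℕ)) *
      conj (θ ((q * m + t) / H) * ee (α * (q * m : ℕ))) = ∑ m ∈ Icc 1 M, w m * z ^ m := by
    refine sum_congr rfl fun m _ => ?_
    rw [map_mul, conj_ee, hz, ← ee_nat_mul, mul_mul_mul_comm, ← ee_add]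
    congr 2
    push_cast
    ring
  have h := arcs_abel w w1
    (fun m => 2 * (((p * m + t) / H : ℕ) : ℝ) + 2 * (((q * m + t) / H : ℕ) : ℝ)) (fun m => by
      have mono : ∀ p : ℕ, (p * m + t) / H ≤ (p * (m + 1) + t) / H := fun p =>
        Nat.div_le_div_right (by gcongr; omega)
      have a1 := arcs_step θ hθ (mono p)
      have a2 := arcs_step θ hθ (mono q)
      have e : w (m + 1) - w m =
          (θ ((p * (m + 1) + t) / H) - θ ((p * m + t) / H)) * conj (θ ((q * (m + 1) + t) / H)) +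
          θ ((p * m + t) / H) * conj (θ ((q * (m + 1) + t) / H) - θ ((q * m + t) / H)) := by
        rw [hw, map_sub]; ring
      rw [e]
      refine (norm_add_le _ _).trans ?_
      rw [norm_mul, norm_mul, Complex.norm_conj, Complex.norm_conj]
      have b1 := mul_le_of_le_one_right (norm_nonneg
        (θ ((p * (m + 1) + t) / H) - θ ((p * m + t) / H))) (hθ ((q * (m + 1) + t) / H))
      have b2 := mul_le_of_le_one_left (norm_nonneg
        (θ ((q * (m + 1) + t) / H) - θ ((q * m + t) / H))) (hθ ((p * m + t) / H))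
      linarith) z (norm_ee _) M
  rw [e]
  refine (mul_le_mul_of_nonneg_right (four_dZ_le _) (norm_nonneg _)).trans ?_
  rw [← norm_mul, ← hz]
  have h1 := norm_add_le ((z - 1) * ∑ m ∈ Icc 1 M, w m * z ^ m - w (M + 1) * z ^ (M + 1))
    (w (M + 1) * z ^ (M + 1))
  rw [sub_add_cancel, norm_mul (w _), norm_pow, hz, norm_ee, one_pow, mul_one, ← hz] at h1
  have h2 : (0 : ℝ) ≤ ((p * 1 + t) / H : ℕ) := Nat.cast_nonneg _
  have h3 : (0 : ℝ) ≤ ((q * 1 + t) / H : ℕ) := Nat.cast_nonneg _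
  linarith [w1 (M + 1)]

lemma arcs_blocks (u : ℕ → ℂ) (u0 : u 0 = 0) (θ : ℕ → ℂ) (θ0 : θ 0 = 0) {H s t K N : ℕ}
    (hst : s + t = H) (ht : 0 < t) (hN : N + 1 = s + K * H) :
    ∑ n ∈ Icc 1 N, θ ((n + t) / H) * u n =
      ∑ k ∈ range K, θ (k + 1) * ∑ j ∈ range H, u (k * H + s + j) := by
  have e1 : ∑ n ∈ Icc 1 N, θ ((n + t) / H) * u n = ∑ n ∈ range (N + 1), θ ((n + t) / H) * u n := by
    rw [sum_range_succ', u0, mul_zero, add_zero, show Icc 1 N = Ico 1 (N + 1) from rfl,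
      sum_Ico_eq_sum_range]
    simp [add_comm]
  rw [e1, hN, sum_range_add, sum_eq_zero, zero_add, arcs_sum_mul]
  · refine sum_congr rfl fun k _ => ?_
    rw [mul_sum]
    refine sum_congr rfl fun j hj => ?_
    have hj := mem_range.1 hj
    have e2 : (s + (k * H + j) + t) / H = k + 1 := by
      rw [show s + (k * H + j) + t = j + (k + 1) * H by rw [← hst]; ring,
        Nat.add_mul_div_right _ _ (by omega), Nat.div_eq_of_lt hj, zero_add]
    rw [e2, show s + (k * H + j) = k * H + s + j by ring]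
  · intro n hn
    rw [Nat.div_eq_of_lt (by have := mem_range.1 hn; omega), θ0, zero_mul]

/-- The minor arcs. -/
lemma arcs_minor (ε : ℝ) (hε : 0 < ε) : ∃ (R : ℕ) (A : ℝ), 0 < A ∧ ∀ H : ℕ, 1 ≤ H → ∀ α : ℝ,
    (∀ r : ℕ, 1 ≤ r → r ≤ R → A / H ≤ dZ (r * α)) → ∀ᶠ X : ℕ in atTop,
      ∑ x ∈ range X, ‖∑ j ∈ range H, ((ArithmeticFunction.moebius (x + j) : ℤ) : ℂ) *
        ee (α * (x + j : ℕ))‖ ≤ ε * H * X := by
  obtain ⟨P, -, δ, hδ, N0, hP⟩ := katai_fin {p : ℕ | p.Prime} (fun _ h => h)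
    (by simpa only [one_div] using not_summable_inv_primes) (ε / 2) (half_pos hε)
  set R := P.sup id with hR
  refine ⟨R, (2 + 2 * R) / δ, by positivity, fun H hH α hα => ?_⟩
  have H0 : (0 : ℝ) < H := by exact_mod_cast hH
  filter_upwards [eventually_ge_atTop N0, eventually_ge_atTop (2 * H)] with X hX1 hX2
  set K := X / H + 1 with hK
  have hKH : X < K * H := by rw [hK, mul_comm]; exact Nat.lt_mul_div_succ X (by omega)
  have hKH' : K * H ≤ X + H := by
    rw [hK, add_mul, one_mul]; exact Nat.add_le_add_right (Nat.div_mul_le_self _ _) _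
  have key : ∀ s ∈ range H, ∑ k ∈ range K,
      ‖∑ j ∈ range H, ((ArithmeticFunction.moebius (k * H + s + j) : ℤ) : ℂ) *
        ee (α * (k * H + s + j : ℕ))‖ ≤ ε * X := by
    intro s hs
    have hs := mem_range.1 hs
    obtain ⟨t, ht⟩ : ∃ t, s + t = H := ⟨H - s, by omega⟩
    obtain ⟨N, hN⟩ : ∃ N, N + 1 = s + K * H := ⟨s + K * H - 1, by omega⟩
    choose c c1 c2 using fun k => RCLike.exists_norm_eq_mul_self
      (∑ j ∈ range H, ((ArithmeticFunction.moebius (k * H + s + j) : ℤ) : ℂ) *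
        ee (α * (k * H + s + j : ℕ)))
    let θ : ℕ → ℂ := fun k => Nat.casesOn k 0 c
    have θ1 : ∀ k, ‖θ k‖ ≤ 1 := fun k => by
      rcases k with _ | k
      · simp [θ]
      · exact (c1 k).le
    have hb := arcs_blocks (fun n => ((ArithmeticFunction.moebius n : ℤ) : ℂ) * ee (α * n))
      (by simp) θ rfl ht (by omega) hN
    have N0' : (0 : ℝ) < N := by exact_mod_cast (by omega : 0 < N)
    have hk := hP N (by omega) (fun n => θ ((n + t) / H) * ee (α * n))
      (fun n => by rw [norm_mul, norm_ee, mul_one]; exact θ1 _) (fun p hp q hq hpq M hM => by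
        have hp' : p ≤ R := Finset.le_sup (f := id) hp
        have hq' : q ≤ R := Finset.le_sup (f := id) hq
        have d1 : (2 + 2 * R) / δ / H ≤ dZ (((p : ℝ) - q) * α) := by
          rcases lt_or_gt_of_ne hpq with h | h
          · have := hα (q - p) (by omega) (by omega)
            rw [Nat.cast_sub h.le, ← dZ_neg] at this
            convert this using 2
            ring
          · have := hα (p - q) (by omega) (by omega)
            rwa [Nat.cast_sub h.le] at this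
        have d2 : ∀ p : ℕ, p ≤ R → (((p * (M + 1) + t) / H : ℕ) : ℝ) ≤ (2 * R + 1) * (N / H) := by
          intro p hp
          refine Nat.cast_div_le.trans ?_
          rw [← mul_div_assoc]
          refine div_le_div_of_nonneg_right ?_ H0.le
          have : p * (M + 1) + t ≤ (2 * R + 1) * N := by
            have : p * (M + 1) ≤ R * (2 * N) := Nat.mul_le_mul hp (by omega)
            have : t ≤ N := by omega
            nlinarith
          exact_mod_cast this
        have d3 : (1 : ℝ) ≤ N / H := by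
          rw [le_div_iff₀ H0, one_mul]
          exact_mod_cast (by omega : H ≤ N)
        have d4 := (mul_le_mul_of_nonneg_right (mul_le_mul_of_nonneg_left d1 (by norm_num))
          (norm_nonneg _)).trans (arcs_corr θ θ1 H t p q M α)
        refine le_of_mul_le_mul_left (d4.trans ?_) (by positivity)
        have e : 4 * ((2 + 2 * (R : ℝ)) / δ / H) * (δ * N) = (8 + 8 * R) * (N / H) := by
          field_simp
          ring
        rw [e]
        linarith [d2 p hp', d2 q hq'])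
    have e : ∑ n ∈ Icc 1 N, ((ArithmeticFunction.moebius n : ℤ) : ℂ) *
        (θ ((n + t) / H) * ee (α * n)) = ((∑ k ∈ range K,
        ‖∑ j ∈ range H, ((ArithmeticFunction.moebius (k * H + s + j) : ℤ) : ℂ) *
          ee (α * (k * H + s + j : ℕ))‖ : ℝ) : ℂ) := by
      rw [Complex.ofReal_sum, sum_congr rfl fun n _ => mul_left_comm _ _ _, hb]
      exact sum_congr rfl fun k _ => (c2 k).symm
    rw [e, Complex.norm_real] at hk
    refine (le_abs_self _).trans (hk.trans ?_)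
    have : (N : ℝ) ≤ 2 * X := by exact_mod_cast (by omega : N ≤ 2 * X)
    nlinarith
  refine (sum_le_sum_of_subset_of_nonneg (range_subset_range.2 hKH.le)
    fun _ _ _ => norm_nonneg _).trans ?_
  rw [arcs_sum_mul, sum_comm]
  refine (sum_le_card_nsmul _ _ _ key).trans (le_of_eq ?_)
  rw [card_range, nsmul_eq_mul]
  ring

lemma arcs_chunk (g : ℕ → ℂ) (hg : ∀ n, ‖g n‖ ≤ 1) (β : ℝ) (y L : ℕ) :
    ‖∑ j ∈ range L, g (y + j) * ee (β * (y + j : ℕ))‖ ≤
      ‖∑ j ∈ range L, g (y + j)‖ + L * (7 * |β| * L) := by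
  have e : ∑ j ∈ range L, g (y + j) * ee (β * (y + j : ℕ)) = ee (β * y) *
      (∑ j ∈ range L, g (y + j) + ∑ j ∈ range L, g (y + j) * (ee (β * j) - 1)) := by
    rw [← sum_add_distrib, mul_sum]
    refine sum_congr rfl fun j _ => ?_
    rw [Nat.cast_add, mul_add β, ee_add]
    ring
  rw [e, norm_mul, norm_ee, one_mul]
  refine (norm_add_le _ _).trans (add_le_add_right ((norm_sum_le _ _).trans ?_) _)
  refine (sum_le_card_nsmul _ _ (7 * |β| * L) fun j hj => ?_).trans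
    (by rw [card_range, nsmul_eq_mul])
  rw [norm_mul]
  refine (mul_le_of_le_one_left (norm_nonneg _) (hg _)).trans
    (Real.norm_exp_I_mul_ofReal_sub_one_le.trans ?_)
  have h1 : (j : ℝ) ≤ L := by exact_mod_cast (mem_range.1 hj).le
  rw [Real.norm_eq_abs, abs_mul, abs_mul β, Nat.abs_cast, abs_of_pos Real.two_pi_pos, mul_assoc 7]
  have := Real.pi_lt_d2
  gcongr
  linarith

lemma arcs_major (g : ℕ → ℂ) (hg : ∀ n, ‖g n‖ ≤ 1) {A ε β : ℝ} {H Q X : ℕ} (hε : 0 < ε)
    (hA : 0 < A) (hH : 0 < H) (hβ : |β| ≤ A / H) (hQ : 21 * A ≤ ε * Q) (hQH : 3 * Q ≤ ε * H)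
    (hX : H ≤ X)
    (hS : ∑ y ∈ range (X + H), ‖∑ j ∈ range (H / Q), g (y + j)‖ ≤
      ε / 6 * (H / Q : ℕ) * (X + H : ℕ)) :
    ∑ x ∈ range X, ‖∑ j ∈ range H, g (x + j) * ee (β * (x + j : ℕ))‖ ≤ ε * H * X := by
  have Q0 : 0 < Q := by
    rcases Nat.eq_zero_or_pos Q with rfl | h
    · simp at hQ; linarith
    · exact h
  have H0 : (0 : ℝ) < H := by exact_mod_cast hH
  set L := H / Q with hL
  have hQL : Q * L ≤ H := Nat.mul_div_le H Q
  have hQL' : (Q : ℝ) * L ≤ H := by exact_mod_cast hQL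
  have L0 : (0 : ℝ) ≤ L := Nat.cast_nonneg _
  have Q0' : (0 : ℝ) < Q := by exact_mod_cast Q0
  have X0 : (0 : ℝ) ≤ X := Nat.cast_nonneg _
  have h1 : ∀ x ∈ range X, ‖∑ j ∈ range H, g (x + j) * ee (β * (x + j : ℕ))‖ ≤
      ∑ i ∈ range Q, ‖∑ j ∈ range L, g (i * L + x + j)‖ + 2 * (ε / 3 * H) := by
    intro x _
    conv_lhs => rw [← Nat.div_add_mod H Q, sum_range_add, ← hL, arcs_sum_mul]
    refine (norm_add_le _ _).trans ?_
    have a1 : ‖∑ j ∈ range (H % Q), g (x + (Q * L + j)) * ee (β * (x + (Q * L + j) : ℕ))‖ ≤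
        ε / 3 * H := by
      refine (norm_sum_le _ _).trans ((sum_le_card_nsmul _ _ 1 fun j _ => ?_).trans ?_)
      · rw [norm_mul, norm_ee, mul_one]; exact hg _
      · rw [card_range, nsmul_eq_mul, mul_one]
        have : ((H % Q : ℕ) : ℝ) ≤ Q := by exact_mod_cast (Nat.mod_lt H Q0).le
        linarith
    have a2 : ‖∑ i ∈ range Q, ∑ j ∈ range L,
        g (x + (i * L + j)) * ee (β * (x + (i * L + j) : ℕ))‖ ≤
        ∑ i ∈ range Q, (‖∑ j ∈ range L, g (i * L + x + j)‖ + L * (7 * |β| * L)) := by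
      refine (norm_sum_le _ _).trans (sum_le_sum fun i _ => ?_)
      simp only [show ∀ j, x + (i * L + j) = i * L + x + j from fun j => by ring]
      exact arcs_chunk g hg β _ L
    rw [sum_add_distrib, sum_const, card_range, nsmul_eq_mul] at a2
    have a3 : (Q : ℝ) * (L * (7 * |β| * L)) ≤ ε / 3 * H := by
      have b1 : |β| * H ≤ A := (le_div_iff₀ H0).1 hβ
      have b2 : (Q : ℝ) * L * (7 * |β| * L) ≤ H * (7 * |β| * L) := by gcongr
      have b3 : |β| * H * L ≤ A * L := by gcongr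
      have b4 : 21 * A * L ≤ ε * Q * L := by gcongr
      have b5 : ε * (Q * L) ≤ ε * H := by gcongr
      linarith
    linarith
  refine (sum_le_sum h1).trans ?_
  rw [sum_add_distrib, sum_const, card_range, nsmul_eq_mul, sum_comm]
  have h2 : ∀ i ∈ range Q, ∑ x ∈ range X, ‖∑ j ∈ range L, g (i * L + x + j)‖ ≤ ε / 3 * L * X := by
    intro i hi
    have b1 : i * L ≤ H := (Nat.mul_le_mul_right L (mem_range.1 hi).le).trans hQL
    have b2 := sum_range_add (fun y => ‖∑ j ∈ range L, g (y + j)‖) (i * L) X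
    have b3 : ∑ y ∈ range (i * L + X), ‖∑ j ∈ range L, g (y + j)‖ ≤
        ∑ y ∈ range (X + H), ‖∑ j ∈ range L, g (y + j)‖ :=
      sum_le_sum_of_subset_of_nonneg (range_subset_range.2 (by omega)) fun _ _ _ => norm_nonneg _
    have b4 : 0 ≤ ∑ y ∈ range (i * L), ‖∑ j ∈ range L, g (y + j)‖ :=
      sum_nonneg fun _ _ => norm_nonneg _
    have b5 : ((X + H : ℕ) : ℝ) ≤ 2 * X := by exact_mod_cast (by omega : X + H ≤ 2 * X)
    have b6 : ε / 6 * L * (X + H : ℕ) ≤ ε / 6 * L * (2 * X) := by gcongr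
    linarith
  have h3 := sum_le_card_nsmul _ _ _ h2
  rw [card_range, nsmul_eq_mul] at h3
  have h4 : ε / 3 * X * (Q * L) ≤ ε / 3 * X * H := by gcongr
  linarith

lemma arcs_periodic {r : ℕ} [NeZero r] (b n : ℕ) :
    ee (b / r * ((n : ZMod r).val : ℕ)) = ee (b / r * n) := by
  have r0 : (r : ℝ) ≠ 0 := by exact_mod_cast NeZero.ne r
  have e : (n : ℝ) = (n % r : ℕ) + r * (n / r : ℕ) := by exact_mod_cast (Nat.mod_add_div n r).symm
  rw [ZMod.val_natCast, ← ee_add_int _ ((b * (n / r) : ℕ) : ℤ)]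
  congr 1
  rw [Int.cast_natCast, Nat.cast_mul]
  conv_rhs => rw [e]
  field_simp

theorem unif_of_short
    (h : ∀ (r : ℕ) [NeZero r] (f : ZMod r → ℂ),
      Short fun n => ((ArithmeticFunction.moebius n : ℤ) : ℂ) * f n)
    (ε : ℝ) (hε : 0 < ε) : ∃ H₀ : ℕ, ∀ H : ℕ, H₀ ≤ H → ∀ α : ℝ, ∀ᶠ X : ℕ in atTop,
      ∑ x ∈ range X, ‖∑ j ∈ range H, ((ArithmeticFunction.moebius (x + j) : ℤ) : ℂ) *
        Complex.exp (2 * Real.pi * Complex.I * α * j)‖ ≤ ε * H * X := by
  obtain ⟨R, A, hA, hm⟩ := arcs_minor ε hε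
  obtain ⟨Q, hQ⟩ := exists_nat_ge (21 * A / ε)
  rw [div_le_iff₀' hε] at hQ
  have Q0 : Q ≠ 0 := by
    rintro rfl
    simp at hQ
    linarith
  have h1 : ∀ᶠ L : ℕ in atTop, ∀ r ∈ Icc 1 R, ∀ b ∈ range r, ∀ᶠ X : ℕ in atTop,
      ∑ y ∈ range X, ‖∑ j ∈ range L, ((ArithmeticFunction.moebius (y + j) : ℤ) : ℂ) *
        ee (b / r * (y + j : ℕ))‖ ≤ ε / 6 * L * X := by
    simp only [eventually_all_finset]
    intro r hr b _
    have : NeZero r := ⟨by have := (mem_Icc.1 hr).1; omega⟩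
    have := h r (fun c => ee (b / r * (c.val : ℕ))) (ε / 6) (by positivity)
    simp only [arcs_periodic] at this
    exact eventually_atTop.2 this
  have h2 : ∀ᶠ H : ℕ in atTop, 3 * (Q : ℝ) ≤ ε * H :=
    (tendsto_natCast_atTop_atTop.const_mul_atTop hε).eventually_ge_atTop _
  obtain ⟨H₀, hH₀⟩ := eventually_atTop.1
    (((Nat.tendsto_div_const_atTop Q0).eventually h1).and (h2.and (eventually_ge_atTop 1)))
  refine ⟨H₀, fun H hH α => ?_⟩
  obtain ⟨h1, h2, h3⟩ := hH₀ H hH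
  have e : ∀ x : ℕ, ‖∑ j ∈ range H, ((ArithmeticFunction.moebius (x + j) : ℤ) : ℂ) *
      Complex.exp (2 * Real.pi * Complex.I * α * j)‖ =
      ‖∑ j ∈ range H, ((ArithmeticFunction.moebius (x + j) : ℤ) : ℂ) * ee (α * (x + j : ℕ))‖ := by
    intro x
    rw [← one_mul ‖∑ j ∈ range H, _ * Complex.exp _‖, ← norm_ee (α * x), ← norm_mul, mul_sum]
    congr 1
    refine sum_congr rfl fun j _ => ?_
    rw [Nat.cast_add, mul_add α, ee_add, mul_left_comm]
    congr 2
    unfold ee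
    congr 1
    push_cast
    ring
  simp only [e]
  by_cases hc : ∀ r : ℕ, 1 ≤ r → r ≤ R → A / H ≤ dZ (r * α)
  · exact hm H h3 α hc
  push Not at hc
  obtain ⟨r, r1, r2, hr⟩ := hc
  have r0 : (1 : ℝ) ≤ r := by exact_mod_cast r1
  set a := round (r * α) with ha
  have rz : (0 : ℤ) < r := by exact_mod_cast r1
  obtain ⟨b, hb⟩ := Int.eq_ofNat_of_zero_le (Int.emod_nonneg a rz.ne')
  have b1 : b < r := by have := Int.emod_lt_of_pos a rz; omega
  have e1 : (a : ℝ) = b + r * (a / r : ℤ) := by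
    have := Int.emod_add_mul_ediv a r
    rw [hb] at this
    exact_mod_cast this.symm
  have hβ : |α - a / r| ≤ A / H := by
    have e2 : r * α - a = r * (α - a / r) := by field_simp
    rw [dZ, ← ha, e2, abs_mul, Nat.abs_cast] at hr
    exact (le_mul_of_one_le_left (abs_nonneg _) r0).trans hr.le
  have e3 : ∀ n : ℕ, ee (α * n) = ee (b / r * n) * ee ((α - a / r) * n) := by
    intro n
    rw [← ee_add, ← ee_add_int (_ + _) (a / r * n)]
    congr 1
    rw [Int.cast_mul, Int.cast_natCast, e1]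
    field_simp
    ring
  filter_upwards [(tendsto_add_atTop_nat H).eventually
    (h1 r (mem_Icc.2 ⟨r1, r2⟩) b (mem_range.2 b1)), eventually_ge_atTop H] with X hX hXH
  simp only [e3, ← mul_assoc]
  exact arcs_major (fun n => ((ArithmeticFunction.moebius n : ℤ) : ℂ) * ee (b / r * n))
    (fun n => by rw [norm_mul, norm_ee, mul_one]; exact norm_moebius_le_one n) hε hA h3 hβ hQ h2
    hXH hX

end Pool.Agent.Lib.MR
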