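import Pool.Agent.Lib.MR.Basic

/-!
# Definitions for functions that are multiplicative only at small primes

The value attached to a prime is a separate function `c`, and `g` varies in a family.
-/

set_option autoImplicit false
open Filter Topology Finset MeasureTheory

namespace Pool.Agent.Lib.MR

/-- The bilinear approximation of `DP (Icc 1 X) g`, with prime coefficients `c`. -/
noncomputable def approx2 (c g : ℕ → ℂ) (X : ℕ) (κ P Q : ℝ) (u : ℝ) : ℂ :=
  (((LL P Q)⁻¹ : ℝ) : ℂ) * ∑ v ∈ idx κ P Q,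
    DP (piece κ P Q v) c u * DP (Icc 1 ⌊(X : ℝ) / (1 + κ) ^ v⌋₊) g u

lemma approx_eq_approx2 (g : ℕ → ℂ) (X : ℕ) (κ P Q : ℝ) :
    approx g X κ P Q = approx2 g g X κ P Q := rfl

lemma Trig.approx2 (c g : ℕ → ℂ) (X : ℕ) (κ P Q : ℝ) : Trig (approx2 c g X κ P Q) :=
  (Trig.const _).mul (Trig.sum fun _ _ => (Trig.DP _ _).mul (Trig.DP _ _))

/-- Cancellation in almost all short intervals for a family `f N`, at all scales comparable
to `N`. -/
def ShortFam (f : ℕ → ℕ → ℂ) : Prop :=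
  ∀ ε : ℝ, 0 < ε → ∃ H₀ : ℕ, ∀ H : ℕ, H₀ ≤ H → ∀ k : ℕ, ∀ᶠ N : ℕ in atTop, ∀ X : ℕ,
    N ≤ k * X → X ≤ k * N → ∑ x ∈ range X, ‖∑ j ∈ range H, f N (x + j)‖ ≤ ε * H * X

lemma Short.shortFam {f : ℕ → ℂ} (h : Short f) : ShortFam fun _ => f := by
  intro ε hε
  obtain ⟨H₀, h⟩ := h ε hε
  refine ⟨H₀, fun H hH k => ?_⟩
  obtain ⟨X₀, hX⟩ := eventually_atTop.1 (h H hH)
  filter_upwards [eventually_gt_atTop (k * X₀)] with N hN X h1 _
  refine hX X ?_
  by_contra h2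
  have : k * X ≤ k * X₀ := Nat.mul_le_mul_left k (by omega)
  omega

end Pool.Agent.Lib.MR
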