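import Pool.Agent.Lib.MR.Arcs
import Pool.Agent.Lib.MR.Gen
import Pool.Agent.Lib.ANT.Katai2

/-!
# Major and minor arcs for families
-/

set_option autoImplicit false
open Filter Topology Finset MeasureTheory

namespace Pool.Agent.Lib.MR

open Pool.Agent.Lib.LargeSieve Pool.Agent.Lib.ANT
open scoped ComplexConjugate

lemma arcs_katai (ε : ℝ) (hε : 0 < ε) :
    ∃ P : Finset ℕ, (∀ p ∈ P, p.Prime) ∧ ∃ δ > (0 : ℝ), ∀ N ≥ P.card, ∀ c g a : ℕ → ℂ,
      (∀ n, ‖c n‖ ≤ 1) → (∀ n, ‖g n‖ ≤ 1) → (∀ p ∈ P, ∀ m, ¬ p ∣ m → g (p * m) = c p * g m) →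
      (∀ n, ‖a n‖ ≤ 1) → (∀ p ∈ P, ∀ q ∈ P, p ≠ q → ∀ M ≤ N,
        ‖∑ m ∈ Icc 1 M, a (p * m) * conj (a (q * m))‖ ≤ δ * N) →
      ‖∑ n ∈ Icc 1 N, g n * a n‖ ≤ ε * N := by
  obtain ⟨F, hF, hC⟩ := exists_finset_sum_inv_ge not_summable_inv_primes (max 1 ((12 / ε) ^ 2))
  refine ⟨F, fun p hp => hF hp, (ε / 4) ^ 2 / (F.sup id + 1 : ℕ), by positivity,
    fun N hN c g a hc1 hg hm ha hc => ?_⟩
  have h := katai_at2 c g a hc1 hg ha F (fun p hp => hF hp) hm (ε := (ε / 4) ^ 2)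
    (by positivity) N hN
    (fun p hp q hq hpq => (hc p hp q hq hpq _ (Nat.div_le_self _ _)).trans (by
      have h0 : 0 < max p q := lt_max_of_lt_left (Nat.Prime.pos (hF hp))
      have h1 : max p q ≤ F.sup id + 1 :=
        (max_le (Finset.le_sup (f := id) hp) (Finset.le_sup (f := id) hq)).trans (Nat.le_succ _)
      rw [div_mul_eq_mul_div, mul_div_assoc]
      exact mul_le_mul_of_nonneg_left (div_le_div_of_nonneg_left (by positivity)
        (by exact_mod_cast h0) (by exact_mod_cast h1)) (by positivity)))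
  rw [Real.sqrt_sq (by positivity)] at h
  set L : ℝ := ∑ p ∈ F, (p : ℝ)⁻¹
  have h1 : 1 ≤ L := (le_max_left _ _).trans hC
  have h2 : 12 / ε ≤ √L := Real.le_sqrt_of_sq_le ((le_max_right _ _).trans hC)
  have h3 : 1 ≤ √L := Real.one_le_sqrt.2 h1
  have h4 : √L * √L = L := Real.mul_self_sqrt (by linarith)
  rw [div_le_iff₀ hε] at h2
  have h5 : 4 * √L + 2 ≤ ε / 2 * L := by nlinarith
  refine le_of_mul_le_mul_left (h.trans ?_) (by linarith : 0 < L)
  rw [← mul_assoc]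
  exact mul_le_mul_of_nonneg_right (by nlinarith) (by positivity)

lemma arcs_blocks2 (u : ℕ → ℂ) (θ : ℕ → ℂ) (θ0 : θ 0 = 0) {H s t K N : ℕ}
    (hst : s + 1 + t = H) (hN : N = s + K * H) :
    ∑ n ∈ Icc 1 N, θ ((n + t) / H) * u n =
      ∑ k ∈ range K, θ (k + 1) * ∑ j ∈ range H, u (k * H + s + 1 + j) := by
  have e1 : ∑ n ∈ Icc 1 N, θ ((n + t) / H) * u n =
      ∑ n ∈ range N, θ ((1 + n + t) / H) * u (1 + n) := by
    rw [show Icc 1 N = Ico 1 (N + 1) from rfl, sum_Ico_eq_sum_range, Nat.add_sub_cancel]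
  rw [e1, hN, sum_range_add, sum_eq_zero, zero_add, arcs_sum_mul]
  · refine sum_congr rfl fun k _ => ?_
    rw [mul_sum]
    refine sum_congr rfl fun j hj => ?_
    have hj := mem_range.1 hj
    have e2 : (1 + (s + (k * H + j)) + t) / H = k + 1 := by
      rw [show 1 + (s + (k * H + j)) + t = j + (k + 1) * H by rw [← hst]; ring,
        Nat.add_mul_div_right _ _ (by omega), Nat.div_eq_of_lt hj, zero_add]
    rw [e2, show 1 + (s + (k * H + j)) = k * H + s + 1 + j by ring]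
  · intro n hn
    rw [Nat.div_eq_of_lt (by have := mem_range.1 hn; omega), θ0, zero_mul]

/-- The minor arcs. -/
lemma arcs_minor2 (ε : ℝ) (hε : 0 < ε) : ∃ (P : Finset ℕ) (R X₀ : ℕ) (A : ℝ),
    (∀ p ∈ P, p.Prime) ∧ 0 < A ∧ ∀ H : ℕ, 1 ≤ H → ∀ α : ℝ,
    (∀ r : ℕ, 1 ≤ r → r ≤ R → A / H ≤ dZ (r * α)) → ∀ X : ℕ, X₀ ≤ X → 2 * H ≤ X →
      ∀ c₀ g : ℕ → ℂ, (∀ n, ‖c₀ n‖ ≤ 1) → (∀ n, ‖g n‖ ≤ 1) →
      (∀ p ∈ P, ∀ m, ¬ p ∣ m → g (p * m) = c₀ p * g m) →
      ∑ x ∈ range X, ‖∑ j ∈ range H, g (x + j) * ee (α * (x + j : ℕ))‖ ≤ ε * H * X := by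
  obtain ⟨P, Pp, δ, hδ, hP⟩ := arcs_katai (ε / 4) (by positivity)
  obtain ⟨X₁, hX₁⟩ := exists_nat_ge (2 / ε)
  set R := P.sup id with hR
  refine ⟨P, R, max P.card X₁, (2 + 2 * R) / δ, Pp, by positivity,
    fun H hH α hα X hX0 hX2 c₀ g hc₀ hg hm => ?_⟩
  have hX1 := (le_max_left _ _).trans hX0
  have hX3 : (X₁ : ℝ) ≤ X := by exact_mod_cast (le_max_right _ _).trans hX0
  have H0 : (0 : ℝ) < H := by exact_mod_cast hH
  set K := X / H + 1 with hK
  have hKH : X < K * H := by rw [hK, mul_comm]; exact Nat.lt_mul_div_succ X (by omega)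
  have hKH' : K * H ≤ X + H := by
    rw [hK, add_mul, one_mul]; exact Nat.add_le_add_right (Nat.div_mul_le_self _ _) _
  have key : ∀ s ∈ range H, ∑ k ∈ range K,
      ‖∑ j ∈ range H, g (k * H + s + 1 + j) *
        ee (α * (k * H + s + 1 + j : ℕ))‖ ≤ ε / 2 * X := by
    intro s hs
    have hs := mem_range.1 hs
    obtain ⟨t, ht⟩ : ∃ t, s + 1 + t = H := ⟨H - (s + 1), by omega⟩
    obtain ⟨N, hN⟩ : ∃ N, N = s + K * H := ⟨_, rfl⟩
    choose c c1 c2 using fun k => RCLike.exists_norm_eq_mul_self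
      (∑ j ∈ range H, g (k * H + s + 1 + j) *
        ee (α * (k * H + s + 1 + j : ℕ)))
    let θ : ℕ → ℂ := fun k => Nat.casesOn k 0 c
    have θ1 : ∀ k, ‖θ k‖ ≤ 1 := fun k => by
      rcases k with _ | k
      · simp [θ]
      · exact (c1 k).le
    have hb := arcs_blocks2 (fun n => g n * ee (α * n)) θ rfl ht hN
    have N0' : (0 : ℝ) < N := by exact_mod_cast (by omega : 0 < N)
    have hk := hP N (by omega) c₀ g (fun n => θ ((n + t) / H) * ee (α * n)) hc₀ hg hm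
      (fun n => by rw [norm_mul, norm_ee, mul_one]; exact θ1 _) (fun p hp q hq hpq M hM => by
        have hp' : p ≤ R := Finset.le_sup (f := id) hp
        have hq' : q ≤ R := Finset.le_sup (f := id) hq
        have d1 : (2 + 2 * R) / δ / H ≤ dZ (((p : ℝ) - q) * α) := by
          rcases lt_or_gt_of_ne hpq with h | h
          · have := hα (q - p) (by omega) (by omega)
            rw [Nat.cast_sub h.le, ← dZ_neg] at this
            convert this using 2
            ring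
          · have := hα (p - q) (by omega) (by omega)
            rwa [Nat.cast_sub h.le] at this
        have d2 : ∀ p : ℕ, p ≤ R → (((p * (M + 1) + t) / H : ℕ) : ℝ) ≤ (2 * R + 1) * (N / H) := by
          intro p hp
          refine Nat.cast_div_le.trans ?_
          rw [← mul_div_assoc]
          refine div_le_div_of_nonneg_right ?_ H0.le
          have : p * (M + 1) + t ≤ (2 * R + 1) * N := by
            have : p * (M + 1) ≤ R * (2 * N) := Nat.mul_le_mul hp (by omega)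
            have : t ≤ N := by omega
            nlinarith
          exact_mod_cast this
        have d3 : (1 : ℝ) ≤ N / H := by
          rw [le_div_iff₀ H0, one_mul]
          exact_mod_cast (by omega : H ≤ N)
        have d4 := (mul_le_mul_of_nonneg_right (mul_le_mul_of_nonneg_left d1 (by norm_num))
          (norm_nonneg _)).trans (arcs_corr θ θ1 H t p q M α)
        refine le_of_mul_le_mul_left (d4.trans ?_) (by positivity)
        have e : 4 * ((2 + 2 * (R : ℝ)) / δ / H) * (δ * N) = (8 + 8 * R) * (N / H) := by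
          field_simp
          ring
        rw [e]
        linarith [d2 p hp', d2 q hq'])
    have e : ∑ n ∈ Icc 1 N, g n *
        (θ ((n + t) / H) * ee (α * n)) = ((∑ k ∈ range K,
        ‖∑ j ∈ range H, g (k * H + s + 1 + j) *
          ee (α * (k * H + s + 1 + j : ℕ))‖ : ℝ) : ℂ) := by
      rw [Complex.ofReal_sum, sum_congr rfl fun n _ => mul_left_comm _ _ _, hb]
      exact sum_congr rfl fun k _ => (c2 k).symm
    rw [e, Complex.norm_real] at hk
    refine (le_abs_self _).trans (hk.trans ?_)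
    have : (N : ℝ) ≤ 2 * X := by exact_mod_cast (by omega : N ≤ 2 * X)
    nlinarith
  refine (sum_le_sum_of_subset_of_nonneg (range_subset_range.2 (hKH.le.trans (Nat.le_succ _)))
    fun _ _ _ => norm_nonneg _).trans ?_
  rw [sum_range_succ', arcs_sum_mul, sum_comm]
  have k1 := sum_le_card_nsmul _ _ _ key
  rw [card_range, nsmul_eq_mul] at k1
  have k2 : ‖∑ j ∈ range H, g (0 + j) * ee (α * (0 + j : ℕ))‖ ≤ H := by
    refine (norm_sum_le _ _).trans ((sum_le_card_nsmul _ _ 1 fun j _ => ?_).trans (by simp))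
    rw [norm_mul, norm_ee, mul_one]; exact hg _
  have k3 : 2 ≤ ε * X := (div_le_iff₀' hε).1 (hX₁.trans hX3)
  have k4 := mul_le_mul_of_nonneg_left k3 H0.le
  linarith

theorem unif_of_shortFam (G : ℕ → ℕ → ℂ) (c : ℕ → ℂ) (hG : ∀ N n, ‖G N n‖ ≤ 1)
    (hc : ∀ n, ‖c n‖ ≤ 1)
    (hm : ∀ p : ℕ, p.Prime → ∀ᶠ N : ℕ in atTop, ∀ m, ¬ p ∣ m → G N (p * m) = c p * G N m)
    (h : ∀ (r : ℕ) [NeZero r] (f : ZMod r → ℂ), ShortFam fun N n => G N n * f n)
    (ε : ℝ) (hε : 0 < ε) : ∃ H₀ : ℕ, ∀ H : ℕ, H₀ ≤ H → ∀ α : ℝ, ∀ k : ℕ, ∀ᶠ N : ℕ in atTop,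
      ∀ X : ℕ, N ≤ k * X → X ≤ k * N → ∑ x ∈ range X, ‖∑ j ∈ range H, G N (x + j) *
        Complex.exp (2 * Real.pi * Complex.I * α * j)‖ ≤ ε * H * X := by
  obtain ⟨P, R, X₀, A, Pp, hA, hmin⟩ := arcs_minor2 ε hε
  obtain ⟨Q, hQ⟩ := exists_nat_ge (21 * A / ε)
  rw [div_le_iff₀' hε] at hQ
  have Q0 : Q ≠ 0 := by
    rintro rfl
    simp at hQ
    linarith
  have h1 : ∀ᶠ L : ℕ in atTop, ∀ r ∈ Icc 1 R, ∀ b ∈ range r, ∀ k : ℕ, ∀ᶠ N : ℕ in atTop,
      ∀ X : ℕ, N ≤ k * X → X ≤ k * N → ∑ y ∈ range X, ‖∑ j ∈ range L, G N (y + j) *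
        ee (b / r * (y + j : ℕ))‖ ≤ ε / 6 * L * X := by
    simp only [eventually_all_finset]
    intro r hr b _
    have : NeZero r := ⟨by have := (mem_Icc.1 hr).1; omega⟩
    have := h r (fun c => ee (b / r * (c.val : ℕ))) (ε / 6) (by positivity)
    simp only [arcs_periodic] at this
    exact eventually_atTop.2 this
  have h2 : ∀ᶠ H : ℕ in atTop, 3 * (Q : ℝ) ≤ ε * H :=
    (tendsto_natCast_atTop_atTop.const_mul_atTop hε).eventually_ge_atTop _
  obtain ⟨H₀, hH₀⟩ := eventually_atTop.1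
    (((Nat.tendsto_div_const_atTop Q0).eventually h1).and (h2.and (eventually_ge_atTop 1)))
  refine ⟨H₀, fun H hH α k => ?_⟩
  obtain ⟨h1, h2, h3⟩ := hH₀ H hH
  have big : ∀ Y : ℕ, ∀ᶠ N : ℕ in atTop, ∀ X, N ≤ k * X → Y ≤ X := fun Y => by
    filter_upwards [eventually_gt_atTop (k * Y)] with N hN X h1
    by_contra h2
    have : k * X ≤ k * Y := Nat.mul_le_mul_left k (by omega)
    omega
  have e : ∀ N x : ℕ, ‖∑ j ∈ range H, G N (x + j) *
      Complex.exp (2 * Real.pi * Complex.I * α * j)‖ =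
      ‖∑ j ∈ range H, G N (x + j) * ee (α * (x + j : ℕ))‖ := by
    intro N x
    rw [← one_mul ‖∑ j ∈ range H, _ * Complex.exp _‖, ← norm_ee (α * x), ← norm_mul, mul_sum]
    congr 1
    refine sum_congr rfl fun j _ => ?_
    rw [Nat.cast_add, mul_add α, ee_add, mul_left_comm]
    congr 2
    unfold ee
    congr 1
    push_cast
    ring
  simp only [e]
  by_cases hcs : ∀ r : ℕ, 1 ≤ r → r ≤ R → A / H ≤ dZ (r * α)
  · filter_upwards [big X₀, big (2 * H), (eventually_all_finset P).2 fun p hp => hm p (Pp p hp)]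
      with N b1 b2 b3 X x1 _
    exact hmin H h3 α hcs X (b1 X x1) (b2 X x1) c (G N) hc (hG N) b3
  push Not at hcs
  obtain ⟨r, r1, r2, hr⟩ := hcs
  have r0 : (1 : ℝ) ≤ r := by exact_mod_cast r1
  set a := round (r * α) with ha
  have rz : (0 : ℤ) < r := by exact_mod_cast r1
  obtain ⟨b, hb⟩ := Int.eq_ofNat_of_zero_le (Int.emod_nonneg a rz.ne')
  have b1 : b < r := by have := Int.emod_lt_of_pos a rz; omega
  have e1 : (a : ℝ) = b + r * (a / r : ℤ) := by
    have := Int.emod_add_mul_ediv a r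
    rw [hb] at this
    exact_mod_cast this.symm
  have hβ : |α - a / r| ≤ A / H := by
    have e2 : r * α - a = r * (α - a / r) := by field_simp
    rw [dZ, ← ha, e2, abs_mul, Nat.abs_cast] at hr
    exact (le_mul_of_one_le_left (abs_nonneg _) r0).trans hr.le
  have e3 : ∀ n : ℕ, ee (α * n) = ee (b / r * n) * ee ((α - a / r) * n) := by
    intro n
    rw [← ee_add, ← ee_add_int (_ + _) (a / r * n)]
    congr 1
    rw [Int.cast_mul, Int.cast_natCast, e1]
    field_simp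
    ring
  filter_upwards [h1 r (mem_Icc.2 ⟨r1, r2⟩) b (mem_range.2 b1) (2 * k), big H] with N hX hXH X x1 x2
  have x3 := hXH X x1
  simp only [e3, ← mul_assoc]
  exact arcs_major (fun n => G N n * ee (b / r * n))
    (fun n => by rw [norm_mul, norm_ee, mul_one]; exact hG N n) hε hA h3 hβ hQ h2 x3
    (hX (X + H) (x1.trans (Nat.mul_le_mul (by omega) (by omega))) (by rw [mul_assoc]; omega))

end Pool.Agent.Lib.MR
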