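import Pool.Agent.Lib.MR.Defs

/-!
# Basic properties of the weighted mean square
-/

set_option autoImplicit false
open Filter Topology Finset MeasureTheory

namespace Pool.Agent.Lib.MR

@[simp] lemma norm_nit (n : ℕ) (u : ℝ) : ‖nit n u‖ = 1 := by
  rw [nit, mul_comm, Complex.norm_exp_ofReal_mul_I]

lemma nit_mul {m n : ℕ} (hm : m ≠ 0) (hn : n ≠ 0) (u : ℝ) : nit (m * n) u = nit m u * nit n u := by
  simp only [nit]
  rw [← Complex.exp_add, Nat.cast_mul, Real.log_mul (by exact_mod_cast hm) (by exact_mod_cast hn)]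
  congr 1; push_cast; ring

lemma nit_add (n : ℕ) (u v : ℝ) : nit n (u + v) = nit n u * nit n v := by
  simp only [nit]
  rw [← Complex.exp_add]
  congr 1; push_cast; ring

lemma conj_nit (n : ℕ) (u : ℝ) : (starRingEnd ℂ) (nit n u) = nit n (-u) := by
  simp only [nit]
  rw [← Complex.exp_conj, map_mul, Complex.conj_I, Complex.conj_ofReal]
  congr 1; push_cast; ring

lemma continuous_nit (n : ℕ) : Continuous (nit n) := by
  unfold nit; fun_prop

lemma norm_DP_le (S : Finset ℕ) (a : ℕ → ℂ) (u : ℝ) : ‖DP S a u‖ ≤ ∑ n ∈ S, ‖a n‖ := by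
  refine (norm_sum_le _ _).trans (le_of_eq (sum_congr rfl fun n _ => ?_))
  rw [norm_mul, norm_nit, mul_one]

lemma norm_DP_le_card (S : Finset ℕ) {a : ℕ → ℂ} (ha : ∀ n, ‖a n‖ ≤ 1) (u : ℝ) :
    ‖DP S a u‖ ≤ S.card := by
  refine (norm_DP_le S a u).trans ?_
  simpa using sum_le_sum fun n (_ : n ∈ S) => ha n

lemma Trig.const (c : ℂ) : Trig fun _ => c := ⟨continuous_const, ‖c‖, fun _ => le_rfl⟩

lemma Trig.nit (n : ℕ) : Trig (nit n) := ⟨continuous_nit n, 1, fun u => (norm_nit n u).le⟩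

lemma Trig.add {F G : ℝ → ℂ} (hF : Trig F) (hG : Trig G) : Trig fun u => F u + G u := by
  obtain ⟨h1, C, hC⟩ := hF
  obtain ⟨h2, D, hD⟩ := hG
  exact ⟨h1.add h2, C + D, fun u => (norm_add_le _ _).trans (add_le_add (hC u) (hD u))⟩

lemma Trig.sub {F G : ℝ → ℂ} (hF : Trig F) (hG : Trig G) : Trig fun u => F u - G u := by
  obtain ⟨h1, C, hC⟩ := hF
  obtain ⟨h2, D, hD⟩ := hG
  exact ⟨h1.sub h2, C + D, fun u => (norm_sub_le _ _).trans (add_le_add (hC u) (hD u))⟩

lemma Trig.mul {F G : ℝ → ℂ} (hF : Trig F) (hG : Trig G) : Trig fun u => F u * G u := by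
  obtain ⟨h1, C, hC⟩ := hF
  obtain ⟨h2, D, hD⟩ := hG
  refine ⟨h1.mul h2, C * D, fun u => ?_⟩
  rw [norm_mul]
  exact mul_le_mul (hC u) (hD u) (norm_nonneg _) ((norm_nonneg _).trans (hC u))

lemma Trig.pow {F : ℝ → ℂ} (hF : Trig F) (k : ℕ) : Trig fun u => F u ^ k := by
  induction k with
  | zero => simpa using Trig.const 1
  | succ k ih => simpa [pow_succ] using ih.mul hF

lemma Trig.sum {ι : Type*} {s : Finset ι} {F : ι → ℝ → ℂ} (hF : ∀ i ∈ s, Trig (F i)) :
    Trig fun u => ∑ i ∈ s, F i u := by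
  classical
  induction s using Finset.induction_on with
  | empty => simpa using Trig.const 0
  | insert i s hi ih =>
    simp only [sum_insert hi]
    exact (hF i (mem_insert_self _ _)).add (ih fun j hj => hF j (mem_insert_of_mem hj))

lemma Trig.DP (S : Finset ℕ) (a : ℕ → ℂ) : Trig (DP S a) :=
  Trig.sum (F := fun n u => a n * MR.nit n u) fun n _ => (Trig.const (a n)).mul (Trig.nit n)

lemma Trig.approx (g : ℕ → ℂ) (X : ℕ) (κ P Q : ℝ) : Trig (approx g X κ P Q) :=
  (Trig.const _).mul (Trig.sum fun _ _ => (Trig.DP _ _).mul (Trig.DP _ _))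

lemma wt_nonneg (T u : ℝ) : 0 ≤ wt T u := by unfold wt; positivity

lemma wt_le_one (T u : ℝ) : wt T u ≤ 1 := by
  unfold wt
  exact div_le_one_of_le₀ (by nlinarith [sq_nonneg u]) (by positivity)

lemma measurable_wt (T : ℝ) : Measurable (wt T) := by unfold wt; fun_prop

lemma integrable_wt (T : ℝ) : Integrable (wt T) := by
  rcases eq_or_ne T 0 with rfl | hT
  · have : wt 0 = fun _ => 0 := by ext u; simp [wt]
    rw [this]; exact integrable_zero _ _ _
  · have h := integrable_inv_one_add_sq.comp_div hT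
    refine h.congr (Eventually.of_forall fun u => ?_)
    simp only [wt]
    field_simp

instance isFiniteMeasure_cm (T : ℝ) : IsFiniteMeasure (cm T) :=
  isFiniteMeasure_withDensity_ofReal (integrable_wt T).2

lemma cm_le_volume (T : ℝ) : cm T ≤ volume := by
  have h : cm T ≤ volume.withDensity 1 :=
    withDensity_mono (Eventually.of_forall fun u => ENNReal.ofReal_le_one.2 (wt_le_one T u))
  rwa [withDensity_one] at h

lemma cm_real (T : ℝ) {U : Set ℝ} (hU : MeasurableSet U) :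
    (cm T).real U = ∫ u in U, wt T u := by
  rw [Measure.real, cm, withDensity_apply _ hU, integral_eq_lintegral_of_nonneg_ae
    (Eventually.of_forall fun u => wt_nonneg T u) (measurable_wt T).aestronglyMeasurable]

lemma integral_cm (T : ℝ) (F : ℝ → ℂ) : ∫ u, F u ∂(cm T) = ∫ u, (wt T u : ℂ) * F u := by
  rw [cm, integral_withDensity_eq_integral_toReal_smul (measurable_wt T).ennreal_ofReal
    (Eventually.of_forall fun _ => ENNReal.ofReal_lt_top)]
  refine integral_congr_ae (Eventually.of_forall fun u => ?_)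
  simp only [ENNReal.toReal_ofReal (wt_nonneg T u), Complex.real_smul]

lemma cm_tail (T : ℝ) {Y : ℝ} (hY : 0 < Y) : (cm T).real {u | Y < |u|} ≤ 2 * T ^ 2 / Y := by
  have h1 : ∫ u in Set.Ioi Y, wt T u ≤ T ^ 2 / Y := by
    have hi : IntegrableOn (fun u : ℝ => u ^ (-2 : ℝ)) (Set.Ioi Y) :=
      integrableOn_Ioi_rpow_of_lt (by norm_num) hY
    calc ∫ u in Set.Ioi Y, wt T u ≤ ∫ u in Set.Ioi Y, T ^ 2 * u ^ (-2 : ℝ) := by
          refine setIntegral_mono_on (integrable_wt T).integrableOn (hi.const_mul _)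
            measurableSet_Ioi fun u hu => ?_
          have hu0 : 0 < u := hY.trans hu
          rw [Real.rpow_neg hu0.le, Real.rpow_two, ← div_eq_mul_inv, wt]
          gcongr
          nlinarith [sq_nonneg T]
      _ = T ^ 2 / Y := by
          rw [integral_const_mul, integral_Ioi_rpow_of_lt (by norm_num) hY]
          norm_num [Real.rpow_neg_one, div_eq_mul_inv]
  have h2 : ∫ u in Set.Iio (-Y), wt T u = ∫ u in Set.Ioi Y, wt T u := by
    rw [← integral_Iic_eq_integral_Iio, ← integral_comp_neg_Ioi]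
    simp [wt]
  have h3 : {u : ℝ | Y < |u|} = Set.Ioi Y ∪ Set.Iio (-Y) := by
    ext u; simp [lt_abs, lt_neg]
  calc (cm T).real {u | Y < |u|} ≤ (cm T).real (Set.Ioi Y) + (cm T).real (Set.Iio (-Y)) := by
        rw [h3]; exact measureReal_union_le _ _
    _ ≤ 2 * T ^ 2 / Y := by
        rw [cm_real T measurableSet_Ioi, cm_real T measurableSet_Iio, h2, mul_div_assoc]
        linarith

lemma Trig.integrable {F : ℝ → ℂ} (hF : Trig F) (ν : Measure ℝ) [IsFiniteMeasure ν] :
    Integrable F ν := by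
  obtain ⟨h1, C, hC⟩ := hF
  exact Integrable.of_bound h1.aestronglyMeasurable C (Eventually.of_forall hC)

lemma Trig.integrable_sq {F : ℝ → ℂ} (hF : Trig F) (ν : Measure ℝ) [IsFiniteMeasure ν] :
    Integrable (fun u => ‖F u‖ ^ 2) ν := by
  simpa [norm_pow] using ((hF.pow 2).integrable ν).norm

lemma MS_nonneg (T : ℝ) (U : Set ℝ) (F : ℝ → ℂ) : 0 ≤ MS T U F :=
  integral_nonneg fun _ => by positivity

lemma MS_mono {F : ℝ → ℂ} (hF : Trig F) (T : ℝ) {U V : Set ℝ} (h : U ⊆ V) :
    MS T U F ≤ MS T V F :=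
  setIntegral_mono_set (hF.integrable_sq _).integrableOn
    (Eventually.of_forall fun _ => by positivity) h.eventuallyLE

lemma MS_union_le {F : ℝ → ℂ} (hF : Trig F) (T : ℝ) (U V : Set ℝ) :
    MS T (U ∪ V) F ≤ MS T U F + MS T V F := by
  unfold MS
  rw [← integral_add_measure (hF.integrable_sq _) (hF.integrable_sq _)]
  exact integral_mono_measure (Measure.restrict_union_le U V)
    (Eventually.of_forall fun _ => by positivity) (hF.integrable_sq _)

lemma MS_biUnion_le {ι : Type*} {F : ℝ → ℂ} (hF : Trig F) (T : ℝ) (s : Finset ι) (U : ι → Set ℝ) :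
    MS T (⋃ i ∈ s, U i) F ≤ ∑ i ∈ s, MS T (U i) F := by
  classical
  induction s using Finset.induction_on with
  | empty => simp [MS]
  | insert i s hi ih =>
    rw [set_biUnion_insert, sum_insert hi]
    exact (MS_union_le hF T _ _).trans (by linarith)

lemma MS_add_le {F G : ℝ → ℂ} (hF : Trig F) (hG : Trig G) (T : ℝ) (U : Set ℝ) :
    MS T U (fun u => F u + G u) ≤ 2 * MS T U F + 2 * MS T U G := by
  unfold MS
  rw [← integral_const_mul, ← integral_const_mul, ← integral_add
    ((hF.integrable_sq _).const_mul _) ((hG.integrable_sq _).const_mul _)]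
  refine integral_mono ((hF.add hG).integrable_sq _)
    (((hF.integrable_sq _).const_mul _).add ((hG.integrable_sq _).const_mul _)) fun u => ?_
  have h := pow_le_pow_left₀ (norm_nonneg _) (norm_add_le (F u) (G u)) 2
  nlinarith [sq_nonneg (‖F u‖ - ‖G u‖)]

lemma MS_sum_le {ι : Type*} {s : Finset ι} {F : ι → ℝ → ℂ} (hF : ∀ i ∈ s, Trig (F i)) (T : ℝ)
    (U : Set ℝ) : MS T U (fun u => ∑ i ∈ s, F i u) ≤ s.card * ∑ i ∈ s, MS T U (F i) := by
  unfold MS
  rw [← integral_finsetSum _ fun i hi => (hF i hi).integrable_sq _, ← integral_const_mul]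
  refine integral_mono ((Trig.sum hF).integrable_sq _)
    ((integrable_finsetSum _ fun i hi => (hF i hi).integrable_sq _).const_mul _) fun u => ?_
  exact (pow_le_pow_left₀ (norm_nonneg _) (norm_sum_le _ _) 2).trans sq_sum_le_card_mul_sum_sq

lemma MS_le_of_le {F G : ℝ → ℂ} (hF : Trig F) (hG : Trig G) (T : ℝ) {U : Set ℝ}
    (hU : MeasurableSet U) {c : ℝ} (h : ∀ u ∈ U, ‖F u‖ ≤ c * ‖G u‖) :
    MS T U F ≤ c ^ 2 * MS T U G := by
  unfold MS
  rw [← integral_const_mul]
  refine setIntegral_mono_on (hF.integrable_sq _).integrableOn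
    ((hG.integrable_sq _).const_mul _).integrableOn hU fun u hu => ?_
  rw [← mul_pow]
  exact pow_le_pow_left₀ (norm_nonneg _) (h u hu) 2

lemma MS_one (T : ℝ) (U : Set ℝ) : MS T U (fun _ => 1) = (cm T).real U := by
  simp [MS]

lemma MS_le_const {F : ℝ → ℂ} (hF : Trig F) (T : ℝ) {U : Set ℝ} (hU : MeasurableSet U) {c : ℝ}
    (h : ∀ u ∈ U, ‖F u‖ ≤ c) : MS T U F ≤ c ^ 2 * (cm T).real U := by
  rw [← MS_one]
  exact MS_le_of_le hF (Trig.const 1) T hU (by simpa using h)

end Pool.Agent.Lib.MR
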