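import Pool.Agent.Lib.MR.VdcA

/-!
# Van der Corput's method for sums of n ^ (i t)
-/

set_option autoImplicit false
open Filter Topology Finset MeasureTheory

namespace Pool.Agent.Lib.MR

/-- the derivatives of `t * log x` -/
noncomputable def LF (t : ℝ) : ℕ → ℝ → ℝ
  | 0, x => t * Real.log x
  | j + 1, x => t * (-1) ^ j * j.factorial / x ^ (j + 1)

lemma LF_deriv (t : ℝ) (j : ℕ) (x : ℝ) (hx : 0 < x) :
    HasDerivAt (LF t j) (LF t (j + 1) x) x := by
  cases j with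
  | zero =>
    have := (Real.hasDerivAt_log hx.ne').const_mul t
    have e : LF t 0 = fun y => t * Real.log y := by funext y; rfl
    rw [e]
    refine this.congr_deriv ?_
    simp [LF, div_eq_mul_inv]
  | succ j =>
    have := ((hasDerivAt_pow (j + 1) x).inv (pow_pos hx _).ne').const_mul
      (t * (-1) ^ j * j.factorial)
    have e : LF t (j + 1) = fun y => t * (-1) ^ j * j.factorial * (y ^ (j + 1))⁻¹ := by
      funext y; simp only [LF, div_eq_mul_inv]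
    rw [e]
    refine this.congr_deriv ?_
    simp only [LF, Nat.factorial_succ, Nat.add_sub_cancel]
    push_cast
    field_simp
    ring

lemma log_block (k : ℕ) (τ x0 X : ℝ) (n N H H0 : ℕ) (η : ℝ) (hτ : τ ≠ 0) (hx : 0 < x0)
    (hX : x0 + n + k + 2 ≤ X) (hn : n ≤ N) (h0 : 1 ≤ H0) (h1 : 1 ≤ H) (hHN : H ≤ N)
    (hη : 0 < η) (hη1 : η ≤ 1)
    (a1 : (H : ℝ) ^ k * (k.factorial * |τ| / x0 ^ (k + 1)) ≤ Real.pi)
    (a2 : (H0 : ℝ) ≤ η ^ 2 ^ k * H) (a3 : 1 ≤ η ^ 2 ^ k * N * H0 ^ k * (|τ| / X ^ (k + 1))) :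
    ‖∑ m ∈ range n, ce (τ * Real.log (x0 + m))‖ ≤ 8 * N * η := by
  have hτ' : 0 < |τ| := abs_pos.2 hτ
  have hX0 : 0 < X := by linarith [(Nat.cast_nonneg n : (0 : ℝ) ≤ n), (Nat.cast_nonneg k : (0 : ℝ) ≤ k)]
  have hf : (1 : ℝ) ≤ k.factorial := by exact_mod_cast k.factorial_pos
  have hs : ((-1 : ℝ) ^ k) * (-1) ^ k = 1 := by rw [← mul_pow]; simp
  have key := deriv_test k (LF ((-1) ^ k * |τ|) 0) x0 n N H H0 (|τ| / X ^ (k + 1))
    (k.factorial * |τ| / x0 ^ (k + 1)) η hn h0 h1 hHN (by positivity) hη hη1 a1 a2 a3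
    fun m hm => by
      have hm' : (m : ℝ) ≤ n := by exact_mod_cast hm
      have hm0 : (0 : ℝ) ≤ m := Nat.cast_nonneg _
      obtain ⟨ξ, b1, b2, b3⟩ := fd_mvt _ (LF_deriv ((-1) ^ k * |τ|)) (k + 1) 0 (x0 + m)
        (by linarith)
      obtain ⟨ζ, c1, c2, c3⟩ := fd_mvt _ (LF_deriv ((-1) ^ k * |τ|)) (k + 2) 0 (x0 + m)
        (by linarith)
      have hξ : 0 < ξ := by linarith
      have hζ : 0 < ζ := by linarith
      push_cast at b2
      rw [b3, c3, zero_add, zero_add]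
      simp only [LF]
      have e1 : (-1) ^ k * |τ| * (-1) ^ k * (k.factorial : ℝ) = k.factorial * |τ| := by
        linear_combination (|τ| * k.factorial) * hs
      have e2 : (-1) ^ k * |τ| * (-1) ^ (k + 1) * ((k + 1).factorial : ℝ) =
          -((k + 1).factorial * |τ|) := by
        rw [pow_succ]; linear_combination (-(|τ| * (k + 1).factorial)) * hs
      rw [e1, e2]
      refine ⟨div_le_div₀ (by positivity) (by nlinarith) (by positivity)
        (pow_le_pow_left₀ hξ.le (by linarith) _), div_le_div_of_nonneg_left (by positivity)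
        (by positivity) (pow_le_pow_left₀ hx.le (by linarith) _), ?_⟩
      rw [neg_div, neg_nonpos]; positivity
  simp only [LF] at key
  have hcase : (-1) ^ k * |τ| = τ ∨ (-1) ^ k * |τ| = -τ := by
    rcases neg_one_pow_eq_or ℝ k with e | e <;> rcases abs_cases τ with e' | e' <;>
      rw [e, e'.1] <;> simp
  rcases hcase with e | e
  · rwa [e] at key
  · rw [e] at key
    rw [← Complex.norm_conj, map_sum]
    simpa only [conj_ce, neg_mul] using key

lemma norm_main (x τ : ℝ) (hx : 0 ≤ x) :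
    ‖(x : ℂ) * ce (τ * Real.log x) / (1 + Complex.I * τ)‖ ≤ x ∧
      ‖(x : ℂ) * ce (τ * Real.log x) / (1 + Complex.I * τ)‖ * |τ| ≤ x := by
  have h1 : 1 ≤ ‖(1 + Complex.I * τ : ℂ)‖ := by
    have := Complex.abs_re_le_norm (1 + Complex.I * τ); simpa using this
  have h2 : |τ| ≤ ‖(1 + Complex.I * τ : ℂ)‖ := by
    have := Complex.abs_im_le_norm (1 + Complex.I * τ); simpa using this
  rw [norm_div, norm_mul, norm_ce, mul_one, Complex.norm_real, Real.norm_of_nonneg hx]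
  refine ⟨div_le_self hx h1, ?_⟩
  rw [div_mul_eq_mul_div, div_le_iff₀ (by linarith)]
  exact mul_le_mul_of_nonneg_left h2 hx

lemma step_small (τ x : ℝ) (hx : 0 < x) :
    ‖ce (τ * Real.log (x + 1)) - (((x + 1 : ℝ) : ℂ) * ce (τ * Real.log (x + 1)) /
      (1 + Complex.I * τ) - (x : ℂ) * ce (τ * Real.log x) / (1 + Complex.I * τ))‖ ≤ |τ| / x := by
  have hne : (1 + Complex.I * τ : ℂ) ≠ 0 := fun h => by
    have := congrArg Complex.re h; simp at this
  have hd : ∀ s : ℝ, 0 < s → HasDerivAt (fun s : ℝ => (s : ℂ) * ce (τ * Real.log (x + 1)) -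
      (s : ℂ) * ce (τ * Real.log s) / (1 + Complex.I * τ))
      (ce (τ * Real.log (x + 1)) - ce (τ * Real.log s)) s := fun s hs => by
    have d1 : HasDerivAt (fun s : ℝ => (s : ℂ)) 1 s := Complex.ofRealCLM.hasDerivAt
    have d2 := (((Real.hasDerivAt_log hs.ne').const_mul τ).ofReal_comp.const_mul
      Complex.I).cexp
    have d3 := (d1.mul_const (ce (τ * Real.log (x + 1)))).sub
      ((d1.mul d2).div_const (1 + Complex.I * τ))
    refine HasDerivAt.congr_deriv d3 ?_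
    have : (s : ℂ) ≠ 0 := by exact_mod_cast hs.ne'
    unfold ce
    push_cast
    field_simp
  have := norm_image_sub_le_of_norm_deriv_le_segment' (a := x) (b := x + 1) (C := |τ| / x)
    (fun s hs => (hd s (by linarith [hs.1])).hasDerivWithinAt) (fun s hs => by
      refine (norm_ce_sub _ _).trans ?_
      have hs0 : 0 < s := by linarith [hs.1]
      rw [← mul_sub, abs_mul, ← Real.log_div (by linarith) hs0.ne', div_eq_mul_inv |τ|]
      refine mul_le_mul_of_nonneg_left ?_ (abs_nonneg _)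
      rw [abs_of_nonneg (Real.log_nonneg (by rw [le_div_iff₀ hs0]; linarith [hs.2]))]
      refine (Real.log_le_sub_one_of_pos (by positivity)).trans ?_
      have : (x + 1) / s ≤ (x + 1) / x := div_le_div_of_nonneg_left (by linarith) hx hs.1
      have e : (x + 1) / x = 1 + x⁻¹ := by field_simp
      linarith) (x + 1) ⟨by linarith, le_rfl⟩
  rw [add_sub_cancel_left, mul_one] at this
  refine le_trans (le_of_eq ?_) this
  congr 1
  push_cast; ring

lemma small_bound (τ β : ℝ) (h0 : 0 ≤ β) (h1 : β ≤ 1) (y : ℕ) :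
    ‖∑ m ∈ Icc 1 (y + 1), ce (τ * Real.log (m + β)) - ((((y + 1 : ℕ) : ℝ) + β : ℝ) : ℂ) *
      ce (τ * Real.log ((y + 1 : ℕ) + β)) / (1 + Complex.I * τ)‖ ≤
        3 + 2 * |τ| * Real.log (y + 1 : ℕ) := by
  induction y with
  | zero =>
    refine (norm_sub_le _ _).trans ?_
    have := (norm_main (((0 + 1 : ℕ) : ℝ) + β) τ (by positivity)).1
    simp only [zero_add, Icc_self, sum_singleton, norm_ce, Nat.cast_one, Real.log_one] at this ⊢
    linarith
  | succ y ih =>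
    have hy : (0 : ℝ) < ((y + 1 : ℕ) : ℝ) := by positivity
    have hy1 : (1 : ℝ) ≤ ((y + 1 : ℕ) : ℝ) := by exact_mod_cast Nat.le_add_left 1 y
    have s := step_small τ (((y + 1 : ℕ) : ℝ) + β) (by linarith)
    have e : (((y + 1 + 1 : ℕ) : ℝ) + β) = ((y + 1 : ℕ) : ℝ) + β + 1 := by push_cast; ring
    rw [sum_Icc_succ_top (by omega), e]
    have t := norm_add_le_of_le ih s
    refine le_trans (le_of_eq ?_) (t.trans ?_)
    · congr 1; ring
    · have l1 := Real.one_sub_inv_le_log_of_pos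
        (show 0 < ((y + 1 + 1 : ℕ) : ℝ) / ((y + 1 : ℕ) : ℝ) by positivity)
      rw [Real.log_div (by positivity) hy.ne', inv_div] at l1
      have l2 : (((y + 1 : ℕ) : ℝ) + β)⁻¹ ≤ 2 * (1 - ((y + 1 : ℕ) : ℝ) / ((y + 1 + 1 : ℕ) : ℝ)) := by
        have e2 : ((y + 1 + 1 : ℕ) : ℝ) = ((y + 1 : ℕ) : ℝ) + 1 := by push_cast; ring
        rw [e2]
        set u := ((y + 1 : ℕ) : ℝ)
        rw [show 2 * (1 - u / (u + 1)) = 2 / (u + 1) by field_simp; ring, inv_eq_one_div,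
          div_le_div_iff₀ (by linarith) (by linarith)]
        linarith
      have l3 := mul_le_mul_of_nonneg_left (l2.trans (mul_le_mul_of_nonneg_left l1 (by norm_num)))
        (abs_nonneg τ)
      rw [div_eq_mul_inv]
      linarith

lemma sum_ce_le (s : Finset ℕ) (g : ℕ → ℝ) : ‖∑ m ∈ s, ce (g m)‖ ≤ s.card := by
  refine (norm_sum_le _ _).trans ?_
  simp [norm_ce]

lemma large_bound (K : ℕ) (B : ℝ) (hB : (K.factorial : ℝ) + K + 5 ≤ B) (β : ℝ) (h0 : 0 ≤ β)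
    (h1 : β ≤ 1) (τ : ℝ) (q e : ℕ) (he : e = 2 ^ K + 1) (hq : q = 2 * (K + 1) * (e + 4))
    (hτ1 : B ^ (3 * q) < |τ|) (hτ2 : |τ| ≤ B ^ (4 * q * K)) (y : ℕ) (hy : (y : ℝ) ≤ B ^ (4 * q)) :
    ‖∑ m ∈ Icc 1 y, ce (τ * Real.log (m + β))‖ ≤ 18 * B ^ (4 * q - 1) := by
  have hK0 : (0 : ℝ) ≤ K := Nat.cast_nonneg _
  have hF : (1 : ℝ) ≤ K.factorial := by exact_mod_cast K.factorial_pos
  have hB2 : 2 ≤ B := by linarith
  have hB1 : 1 < B := by linarith
  have hB0 : 0 < B := by linarith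
  have mono : ∀ {a b : ℕ}, a ≤ b → B ^ a ≤ B ^ b := fun h => pow_le_pow_right₀ hB1.le h
  have one_le : ∀ a : ℕ, 1 ≤ B ^ a := fun a => one_le_pow₀ hB1.le
  obtain ⟨j, j1, j2⟩ := exists_nat_pow_near ((one_le _).trans hτ1.le) hB1
  have j3 : 3 * q ≤ j := by
    have := (pow_lt_pow_iff_right₀ hB1).1 (hτ1.trans j2); omega
  have j4 : j ≤ 4 * q * K := (pow_le_pow_iff_right₀ hB1).1 (j1.trans hτ2)
  have he1 : 2 ≤ e := by have := Nat.one_le_two_pow (n := K); omega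
  have hq' : q = 2 * (K * e) + 8 * K + 2 * e + 8 := by rw [hq]; ring
  have hq0 : 0 < 4 * q := by omega
  obtain ⟨k, k1, k2⟩ : ∃ k, 4 * q * k ≤ j + q ∧ j + q < 4 * q * (k + 1) :=
    ⟨(j + q) / (4 * q), Nat.mul_div_le _ _, Nat.lt_mul_div_succ _ hq0⟩
  have k3 : 1 ≤ k := by
    rcases Nat.eq_zero_or_pos k with h | h
    · subst h; omega
    · exact h
  have k4 : k ≤ K := by
    by_contra hc
    have := Nat.mul_le_mul_left (4 * q) (show K + 1 ≤ k by omega)
    rw [mul_add] at this; omega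
  obtain ⟨U, hU⟩ : ∃ U, U + j = 4 * q * (k + 1) := ⟨4 * q * (k + 1) - j, by omega⟩
  obtain ⟨a, a1, a2⟩ : ∃ a, 2 * k * a ≤ U ∧ U < 2 * k * (a + 1) :=
    ⟨U / (2 * k), Nat.mul_div_le _ _, Nat.lt_mul_div_succ _ (by omega)⟩
  have U1 : q < U ∧ U ≤ 5 * q := by rw [mul_add] at k2 hU; omega
  have ke : k * e ≤ K * e := Nat.mul_le_mul_right e k4
  have a3 : e + 1 ≤ a := by
    by_contra hc
    have := Nat.mul_le_mul_left (2 * k) (show a + 1 ≤ e + 1 by omega)
    rw [mul_add (2 * k) e, mul_assoc 2 k e] at this; omega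
  have a4 : a ≤ 4 * q := by
    have := Nat.mul_le_mul_right a (show 2 ≤ 2 * k by omega); omega
  have p2 : 2 ^ k + 1 ≤ e := by have := Nat.pow_le_pow_right (show 0 < 2 by omega) k4; omega
  obtain ⟨b, rfl⟩ : ∃ b, a = b + 1 + e := ⟨a - e - 1, by omega⟩
  obtain ⟨r, hr⟩ : ∃ r, 4 * q = r + e := ⟨4 * q - e, by omega⟩
  have fl : ∀ c : ℕ, B ^ c ≤ 2 * (⌊B ^ c⌋₊ : ℝ) ∧ (⌊B ^ c⌋₊ : ℝ) ≤ B ^ c ∧ 1 ≤ ⌊B ^ c⌋₊ := by
    intro c
    have f1 : 1 ≤ ⌊B ^ c⌋₊ := Nat.le_floor (by simpa using one_le c)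
    have f2 := Nat.lt_floor_add_one (B ^ c)
    have f3 : (1 : ℝ) ≤ ⌊B ^ c⌋₊ := by exact_mod_cast f1
    exact ⟨by linarith, Nat.floor_le (by positivity), f1⟩
  set M := ⌈B ^ r⌉₊ with hM
  have M1 : B ^ r ≤ M := Nat.le_ceil _
  have M2 : (M : ℝ) ≤ 2 * B ^ (4 * q - 1) := by
    have := Nat.ceil_lt_add_one (show 0 ≤ B ^ r by positivity)
    have := mono (show r ≤ 4 * q - 1 by omega)
    have := one_le (4 * q - 1)
    linarith
  have M3 : 1 ≤ M := by
    have : (1 : ℝ) ≤ M := (one_le r).trans M1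
    exact_mod_cast this
  have P0 : 0 < B ^ (4 * q - 1) := by positivity
  by_cases hyM : y < M
  · refine (sum_ce_le _ _).trans ?_
    have : (y : ℝ) ≤ M := by exact_mod_cast hyM.le
    simp only [Nat.card_Icc, Nat.add_sub_cancel]; linarith
  rw [← Finset.Ico_add_one_right_eq_Icc, ← sum_Ico_consecutive _ M3 (show M ≤ y + 1 by omega)]
  refine (norm_add_le _ _).trans ?_
  have t1 : ‖∑ m ∈ Ico 1 M, ce (τ * Real.log (m + β))‖ ≤ 2 * B ^ (4 * q - 1) := by
    refine (sum_ce_le _ _).trans (le_trans ?_ M2)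
    rw [Nat.card_Ico]; exact_mod_cast Nat.sub_le _ _
  set N := ⌈B ^ (4 * q)⌉₊ with hN
  have N1 : B ^ (4 * q) ≤ N := Nat.le_ceil _
  have N2 : (N : ℝ) ≤ 2 * B ^ (4 * q) := by
    have := Nat.ceil_lt_add_one (show 0 ≤ B ^ (4 * q) by positivity)
    have := one_le (4 * q)
    linarith
  have yN : y ≤ N := by exact_mod_cast hy.trans N1
  have hkK : (k : ℝ) ≤ K := by exact_mod_cast k4
  have hkF : (k.factorial : ℝ) ≤ K.factorial := by exact_mod_cast Nat.factorial_le k4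
  obtain ⟨H1, H2, H3⟩ := fl (b + 1 + e)
  obtain ⟨G1, G2, G3⟩ := fl (b + 1)
  have t2 := log_block k τ (M + β) (B ^ (4 * q + 1)) (y + 1 - M) N ⌊B ^ (b + 1 + e)⌋₊
    ⌊B ^ (b + 1)⌋₊ B⁻¹ (abs_pos.1 (by linarith [one_le (3 * q)])) (by linarith [one_le r])
    (by
      rw [Nat.cast_sub (by omega), pow_succ]
      push_cast
      have := one_le (4 * q)
      nlinarith)
    (by omega) G3 H3 (by exact_mod_cast H2.trans ((mono a4).trans N1)) (inv_pos.2 hB0)
    (inv_le_one_of_one_le₀ hB1.le)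
    (by
      have c1 : (⌊B ^ (b + 1 + e)⌋₊ : ℝ) ^ k ≤ B ^ ((b + 1 + e) * k) := by
        rw [pow_mul]; exact pow_le_pow_left₀ (by positivity) H2 k
      have c2 : B ^ (r * (k + 1)) ≤ (M + β) ^ (k + 1) := by
        rw [pow_mul]; exact pow_le_pow_left₀ (by positivity) (by linarith) _
      have c3 : B ^ ((b + 1 + e) * k) * (B * B ^ (j + 1)) ≤ B ^ (r * (k + 1)) := by
        rw [← pow_succ', ← pow_add]
        refine mono ?_
        rw [hr] at hU
        nlinarith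
      have c4 : (k.factorial : ℝ) * |τ| ≤ B * B ^ (j + 1) :=
        mul_le_mul (by linarith) j2.le (abs_nonneg _) hB0.le
      refine le_trans ?_ (show (1 : ℝ) ≤ Real.pi by linarith [Real.pi_gt_three])
      rw [← mul_div_assoc, div_le_one (by positivity)]
      exact (mul_le_mul c1 c4 (by positivity) (by positivity)).trans (c3.trans c2))
    (by
      rw [inv_pow, ← div_eq_inv_mul, le_div_iff₀ (by positivity)]
      have c1 : B ^ (b + 1) * (B ^ 2 ^ k * B) ≤ B ^ (b + 1 + e) := by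
        rw [← pow_succ, ← pow_add]; exact mono (by omega)
      have c2 : (⌊B ^ (b + 1)⌋₊ : ℝ) * B ^ 2 ^ k ≤ B ^ (b + 1) * B ^ 2 ^ k :=
        mul_le_mul_of_nonneg_right G2 (by positivity)
      have c3 : 0 < B ^ (b + 1) * B ^ 2 ^ k := by positivity
      nlinarith)
    (by
      have c0 : B ^ b ≤ ⌊B ^ (b + 1)⌋₊ := by
        have : 0 < B ^ b := by positivity
        rw [pow_succ] at G1 ⊢; nlinarith
      have c1 : B ^ (b * k) ≤ (⌊B ^ (b + 1)⌋₊ : ℝ) ^ k := by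
        rw [pow_mul]; exact pow_le_pow_left₀ (by positivity) c0 k
      have c2 : B ^ 2 ^ k * (B ^ (4 * q + 1)) ^ (k + 1) ≤ B ^ (4 * q) * B ^ (b * k) * B ^ j := by
        rw [← pow_mul, ← pow_add, ← pow_add, ← pow_add]
        refine mono ?_
        nlinarith
      have c3 : B ^ (4 * q) * B ^ (b * k) * B ^ j ≤ N * (⌊B ^ (b + 1)⌋₊ : ℝ) ^ k * |τ| :=
        mul_le_mul (mul_le_mul N1 c1 (by positivity) (by positivity)) j1 (by positivity)
          (by positivity)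
      rw [inv_pow, show (B ^ 2 ^ k)⁻¹ * N * (⌊B ^ (b + 1)⌋₊ : ℝ) ^ k *
        (|τ| / (B ^ (4 * q + 1)) ^ (k + 1)) = N * (⌊B ^ (b + 1)⌋₊ : ℝ) ^ k * |τ| /
          (B ^ 2 ^ k * (B ^ (4 * q + 1)) ^ (k + 1)) by field_simp, one_le_div (by positivity)]
      exact c2.trans c3)
  rw [sum_Ico_eq_sum_range (m := M)]
  have e1 : ∀ m : ℕ, ((M + m : ℕ) : ℝ) + β = M + β + m := fun m => by push_cast; ring
  simp only [e1]
  have e2 : B ^ (4 * q) * B⁻¹ = B ^ (4 * q - 1) := by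
    rw [show 4 * q = 4 * q - 1 + 1 by omega, pow_succ, Nat.add_sub_cancel]; field_simp
  have e3 := mul_le_mul_of_nonneg_right N2 (inv_pos.2 hB0).le
  nlinarith

theorem exp_sum_log (K : ℕ) : ∃ c : ℝ, 0 < c ∧ ∃ C : ℝ, ∀ A : ℝ, 1 ≤ A → ∀ β : ℝ, 0 ≤ β → β ≤ 1 →
    ∀ τ : ℝ, |τ| ≤ A ^ K → ∀ y : ℕ, (y : ℝ) ≤ A →
      ‖∑ m ∈ Icc 1 y, Complex.exp (Complex.I * ((τ * Real.log (m + β) : ℝ) : ℂ))
        - ((y + β : ℝ) : ℂ) * Complex.exp (Complex.I * ((τ * Real.log (y + β) : ℝ) : ℂ))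
          / (1 + Complex.I * τ)‖ ≤ C * A ^ (1 - c) := by
  obtain ⟨e, he⟩ : ∃ e : ℕ, e = 2 ^ K + 1 := ⟨_, rfl⟩
  obtain ⟨q, hq⟩ : ∃ q : ℕ, q = 2 * (K + 1) * (e + 4) := ⟨_, rfl⟩
  have hq8 : 8 ≤ q := by rw [hq]; nlinarith
  have hq0 : (0 : ℝ) < ((4 * q : ℕ) : ℝ) := by exact_mod_cast (by omega : 0 < 4 * q)
  set B0 : ℝ := (K.factorial : ℝ) + K + 5 with hB0
  have hB00 : 0 ≤ B0 := by positivity
  refine ⟨((4 * q : ℕ) : ℝ)⁻¹, inv_pos.2 hq0, 3 * B0 + 20 + 8 * q, ?_⟩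
  intro A hA β h0 h1 τ hτ y hy
  set B := A ^ (((4 * q : ℕ) : ℝ)⁻¹) with hB
  have hB1 : 1 ≤ B := Real.one_le_rpow hA (inv_pos.2 hq0).le
  have hBA : B ^ (4 * q) = A := Real.rpow_inv_natCast_pow (by linarith) (by omega)
  have hP : A ^ (1 - ((4 * q : ℕ) : ℝ)⁻¹) = B ^ (4 * q - 1) := by
    rw [Real.rpow_sub (by linarith), Real.rpow_one, ← hB, ← hBA,
      show 4 * q = 4 * q - 1 + 1 by omega, pow_succ, Nat.add_sub_cancel]
    field_simp
  have hAP : A = B ^ (4 * q - 1) * B := by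
    rw [← hBA, ← pow_succ]; congr 1; omega
  rw [hP]
  have mono : ∀ {a b : ℕ}, a ≤ b → B ^ a ≤ B ^ b := fun h => pow_le_pow_right₀ hB1 h
  have P1 : 1 ≤ B ^ (4 * q - 1) := one_le_pow₀ hB1
  have hq' : (0 : ℝ) ≤ q := Nat.cast_nonneg _
  change ‖∑ m ∈ Icc 1 y, ce (τ * Real.log (m + β)) - ((y + β : ℝ) : ℂ) *
    ce (τ * Real.log (y + β)) / (1 + Complex.I * τ)‖ ≤ _
  obtain ⟨n1, n2⟩ := norm_main (y + β) τ (by positivity)
  by_cases c1 : B < B0
  · refine (norm_sub_le _ _).trans ?_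
    have s1 := sum_ce_le (Icc 1 y) fun m => τ * Real.log (m + β)
    simp only [Nat.card_Icc, Nat.add_sub_cancel] at s1
    nlinarith
  by_cases c2 : |τ| ≤ B ^ (3 * q)
  · rcases y with _ | y
    · refine (norm_sub_le _ _).trans ?_
      simp only [Nat.cast_zero, zero_add] at n1 ⊢
      rw [Icc_eq_empty (by omega), sum_empty, norm_zero]
      nlinarith
    · refine (small_bound τ β h0 h1 y).trans ?_
      have l0 : 0 ≤ Real.log (y + 1 : ℕ) := Real.log_natCast_nonneg _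
      have l1 : Real.log (y + 1 : ℕ) ≤ 4 * q * B := by
        refine (Real.log_le_log (by positivity) hy).trans ?_
        rw [← hBA, Real.log_pow]
        push_cast
        have := Real.log_le_sub_one_of_pos (show 0 < B by linarith)
        nlinarith
      have l2 := mul_le_mul c2 l1 l0 (by positivity)
      have l3 : B ^ (3 * q) * B ≤ B ^ (4 * q - 1) := by rw [← pow_succ]; exact mono (by omega)
      nlinarith
  · refine (norm_sub_le _ _).trans ?_
    have s1 := large_bound K B (not_lt.1 c1) β h0 h1 τ q e he hq (not_le.1 c2)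
      (by rwa [pow_mul, hBA]) y (by rwa [hBA])
    have s2 : B ≤ |τ| := le_trans (by simpa using mono (show 1 ≤ 3 * q by omega)) (not_le.1 c2).le
    have s3 : ‖((y + β : ℝ) : ℂ) * ce (τ * Real.log (y + β)) / (1 + Complex.I * τ)‖ ≤
        2 * B ^ (4 * q - 1) := by
      refine le_of_mul_le_mul_right ?_ (show 0 < B by linarith)
      have := mul_le_mul_of_nonneg_left s2
        (norm_nonneg (((y + β : ℝ) : ℂ) * ce (τ * Real.log (y + β)) / (1 + Complex.I * τ)))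
      linarith
    nlinarith

end Pool.Agent.Lib.MR
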