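import Pool.Agent.Lib.MR.Basic
import Pool.Agent.Lib.MR.Vdc
import Pool.Agent.Lib.ANT.Selberg
import Pool.Agent.Lib.ANT.Mertens
import Pool.Agent.Lib.ANT.SieveSums

/-!
# An inequality of Halasz and Montgomery type for primes
-/

set_option autoImplicit false

open Filter Topology Finset MeasureTheory

namespace Pool.Agent.Lib.MR

namespace PrimeHM

lemma one_le_norm (t : ℝ) : 1 ≤ ‖(1 + Complex.I * t : ℂ)‖ := by
  have := Complex.abs_re_le_norm (1 + Complex.I * t : ℂ)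
  simpa using this

lemma ne_zero (t : ℝ) : (1 + Complex.I * t : ℂ) ≠ 0 := by
  rw [← norm_pos_iff]; linarith [one_le_norm t]

lemma norm_sq (t : ℝ) : ‖(1 + Complex.I * t : ℂ)‖ ^ 2 = 1 + t ^ 2 := by
  rw [← Complex.normSq_eq_norm_sq, Complex.normSq_apply]; simp; ring

/-- the main term -/
noncomputable def mt (n : ℕ) (t : ℝ) : ℂ := (n : ℂ) * nit n t / (1 + Complex.I * t)

lemma norm_mt (n : ℕ) (t : ℝ) : ‖mt n t‖ = n / ‖(1 + Complex.I * t : ℂ)‖ := by
  rw [mt, norm_div, norm_mul, norm_nit, mul_one, Complex.norm_natCast]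

lemma mt_lip {a b : ℕ} (h : a ≤ b) (t : ℝ) : ‖mt b t - mt a t‖ ≤ (b : ℝ) - a := by
  rcases Nat.eq_zero_or_pos a with rfl | ha
  · have : mt 0 t = 0 := by simp [mt]
    rw [this, sub_zero, norm_mt, Nat.cast_zero, sub_zero]
    exact div_le_self (Nat.cast_nonneg b) (one_le_norm t)
  have ha' : (0 : ℝ) < a := by exact_mod_cast ha
  have hab : (a : ℝ) ≤ b := by exact_mod_cast h
  let f : ℝ → ℂ := fun x =>
    (x : ℂ) * Complex.exp (Complex.I * ((t * Real.log x : ℝ) : ℂ)) / (1 + Complex.I * t)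
  have hf : ∀ x ∈ Set.Icc (a : ℝ) b, HasDerivWithinAt f
      (Complex.exp (Complex.I * ((t * Real.log x : ℝ) : ℂ))) (Set.Icc (a : ℝ) b) x := by
    intro x hx
    have hx0 : x ≠ 0 := (ha'.trans_le hx.1).ne'
    have h1 := ((((Real.hasDerivAt_log hx0).const_mul t).ofReal_comp).const_mul Complex.I).cexp
    have h2 := (((hasDerivAt_id x).ofReal_comp).mul h1).div_const (1 + Complex.I * t)
    refine HasDerivAt.hasDerivWithinAt (HasDerivAt.congr_deriv h2 ?_)
    have h3 := ne_zero t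
    have h4 : (x : ℂ) ≠ 0 := by exact_mod_cast hx0
    simp only [id]
    generalize Complex.exp _ = E
    push_cast
    field_simp
  have := norm_image_sub_le_of_norm_deriv_le_segment' (C := 1) hf (fun x _ => by
    rw [Complex.norm_exp]; simp) b (Set.right_mem_Icc.2 hab)
  simpa [f, mt, nit] using this

/-- partial sums over multiples of `d` -/
lemma part {e t : ℝ} {N : ℕ} (h : ∀ y ≤ N, ‖∑ m ∈ Icc 1 y, nit m t - mt y t‖ ≤ e) {d j : ℕ}
    (hd : 0 < d) (hj : j ≤ N) :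
    ‖∑ n ∈ (Icc 1 j).filter (d ∣ ·), nit n t - mt j t / d‖ ≤ e + 1 := by
  have hd' : (0 : ℝ) < d := by exact_mod_cast hd
  have hdc : (d : ℂ) ≠ 0 := by exact_mod_cast hd.ne'
  have e1 : ∑ n ∈ (Icc 1 j).filter (d ∣ ·), nit n t = nit d t * ∑ m ∈ Icc 1 (j / d), nit m t := by
    rw [mul_sum]
    symm
    refine sum_bij (fun m _ => d * m) (fun m hm => ?_) (fun a _ b _ e => ?_) (fun n hn => ?_)
      (fun m hm => ?_)
    · obtain ⟨a1, a2⟩ := mem_Icc.1 hm
      refine mem_filter.2 ⟨mem_Icc.2 ⟨Nat.mul_pos hd a1, ?_⟩, dvd_mul_right _ _⟩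
      rw [mul_comm]; exact (Nat.le_div_iff_mul_le hd).1 a2
    · exact Nat.eq_of_mul_eq_mul_left hd e
    · obtain ⟨a1, m, rfl⟩ := mem_filter.1 hn
      obtain ⟨a2, a3⟩ := mem_Icc.1 a1
      refine ⟨m, mem_Icc.2 ⟨Nat.pos_of_mul_pos_left a2, ?_⟩, rfl⟩
      rw [Nat.le_div_iff_mul_le hd, mul_comm]; exact a3
    · rw [nit_mul hd.ne' (by have := (mem_Icc.1 hm).1; omega)]
  have e2 : nit d t * mt (j / d) t = mt (d * (j / d)) t / d := by
    rcases Nat.eq_zero_or_pos (j / d) with h0 | h0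
    · simp [h0, mt]
    · rw [mt, mt, nit_mul hd.ne' h0.ne']
      push_cast
      field_simp
  have h1 := h (j / d) ((Nat.div_le_self _ _).trans hj)
  have h2 := mt_lip (Nat.mul_div_le j d) t
  have h3 : (j : ℝ) - (d * (j / d) : ℕ) ≤ d := by
    have : j < d * (j / d) + d := by have := Nat.lt_mul_div_succ j hd; rwa [mul_add, mul_one] at this
    have : (j : ℝ) ≤ (d * (j / d) : ℕ) + d := by exact_mod_cast this.le
    linarith
  calc _ = ‖nit d t * (∑ m ∈ Icc 1 (j / d), nit m t - mt (j / d) t) -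
        (mt j t - mt (d * (j / d)) t) / d‖ := by
        rw [e1, mul_sub, e2]; congr 1; ring
    _ ≤ _ := by
        refine (norm_sub_le _ _).trans (add_le_add ?_ ?_)
        · rwa [norm_mul, norm_nit, one_mul]
        · rw [norm_div, Complex.norm_natCast, div_le_one hd']
          exact h2.trans h3

/-- the kernel -/
noncomputable def Kd (N d : ℕ) (t : ℝ) : ℂ :=
  ∑ n ∈ (Icc 1 N).filter (d ∣ ·), (((N : ℝ) - n + 1 : ℝ) : ℂ) * nit n t

lemma Kd_eq (N d : ℕ) (t : ℝ) :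
    Kd N d t = ∑ j ∈ Icc 1 N, ∑ n ∈ (Icc 1 j).filter (d ∣ ·), nit n t := by
  induction N with
  | zero => simp [Kd]
  | succ N ih =>
    rw [sum_Icc_succ_top (Nat.le_add_left 1 N), ← ih, Kd, Kd]
    have : ∑ n ∈ (Icc 1 N).filter (d ∣ ·), (((N : ℝ) - n + 1 : ℝ) : ℂ) * nit n t =
        ∑ n ∈ (Icc 1 (N + 1)).filter (d ∣ ·), (((N : ℝ) - n + 1 : ℝ) : ℂ) * nit n t := by
      rw [sum_filter, sum_filter, sum_Icc_succ_top (Nat.le_add_left 1 N)]
      simp
    rw [this, ← sum_add_distrib]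
    refine sum_congr rfl fun n _ => ?_
    push_cast
    ring

lemma Kd_sub {e t : ℝ} {N : ℕ} (h : ∀ y ≤ N, ‖∑ m ∈ Icc 1 y, nit m t - mt y t‖ ≤ e) {d : ℕ}
    (hd : 0 < d) : ‖Kd N d t - (∑ j ∈ Icc 1 N, mt j t) / d‖ ≤ N * (e + 1) := by
  rw [Kd_eq, sum_div, ← sum_sub_distrib]
  refine (norm_sum_le _ _).trans ((sum_le_card_nsmul _ _ (e + 1) fun j hj =>
    part h hd (mem_Icc.1 hj).2).trans ?_)
  rw [Nat.card_Icc, Nat.add_sub_cancel, nsmul_eq_mul]

lemma Kd_rem {e t : ℝ} {N : ℕ} (h : ∀ y ≤ N, ‖∑ m ∈ Icc 1 y, nit m t - mt y t‖ ≤ e) {d : ℕ}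
    (hd : 0 < d) : ‖Kd N d t - Kd N 1 t / d‖ ≤ 2 * N * (e + 1) := by
  have h1 := Kd_sub h hd
  have h2 := Kd_sub h Nat.one_pos
  rw [Nat.cast_one, div_one] at h2
  have hd' : (1 : ℝ) ≤ d := by exact_mod_cast hd
  calc _ = ‖(Kd N d t - (∑ j ∈ Icc 1 N, mt j t) / d) -
        (Kd N 1 t - ∑ j ∈ Icc 1 N, mt j t) / d‖ := by congr 1; ring
    _ ≤ N * (e + 1) + N * (e + 1) := by
        refine (norm_sub_le _ _).trans (add_le_add h1 ?_)
        rw [norm_div, Complex.norm_natCast]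
        exact (div_le_self (norm_nonneg _) hd').trans h2
    _ = _ := by ring

lemma Kd_one {e t : ℝ} {N : ℕ} (h : ∀ y ≤ N, ‖∑ m ∈ Icc 1 y, nit m t - mt y t‖ ≤ e) :
    ‖Kd N 1 t‖ ≤ N * (N + 1) * (1 + t ^ 2)⁻¹ + (3 * N + 1) * (e + 1) := by
  have h2 := Kd_sub h Nat.one_pos
  rw [Nat.cast_one, div_one] at h2
  have h0 := h N le_rfl
  have he : 0 ≤ e := (norm_nonneg _).trans h0
  set s : ℂ := 1 + Complex.I * t with hs
  have s1 : 1 ≤ ‖s‖ := one_le_norm t
  have s0 : s ≠ 0 := ne_zero t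
  set V : ℂ := ∑ j ∈ Icc 1 N, mt j t with hV
  have e1 : Kd N 1 t = (N + 1) * ∑ m ∈ Icc 1 N, nit m t - s * V := by
    rw [Kd, filter_true_of_mem fun n _ => one_dvd n, hV, mul_sum, mul_sum, ← sum_sub_distrib]
    refine sum_congr rfl fun n _ => ?_
    rw [mt, ← hs]
    push_cast
    field_simp
    ring
  have s2 : ‖s‖ ≤ ‖s + 1‖ := by
    refine (sq_le_sq₀ (norm_nonneg _) (norm_nonneg _)).1 ?_
    rw [← Complex.normSq_eq_norm_sq, ← Complex.normSq_eq_norm_sq, hs, Complex.normSq_apply,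
      Complex.normSq_apply]
    simp
    norm_num
  have hE : ‖∑ m ∈ Icc 1 N, nit m t‖ ≤ N / ‖s‖ + e := by
    have := norm_add_le (mt N t) (∑ m ∈ Icc 1 N, nit m t - mt N t)
    rw [add_sub_cancel, norm_mt] at this
    linarith
  have h3 : ‖s‖ * ‖V‖ ≤ (N + 1) * (N / ‖s‖ + e) + N * (e + 1) := by
    have e2 : (s + 1) * V = (N + 1) * ∑ m ∈ Icc 1 N, nit m t - (Kd N 1 t - V) := by
      rw [e1]; ring
    have e3 : ‖((N : ℂ) + 1)‖ = N + 1 := by exact_mod_cast Complex.norm_natCast (N + 1)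
    calc ‖s‖ * ‖V‖ ≤ ‖(s + 1) * V‖ := by
          rw [norm_mul]; exact mul_le_mul_of_nonneg_right s2 (norm_nonneg _)
      _ ≤ _ := by
          rw [e2]
          refine (norm_sub_le _ _).trans (add_le_add ?_ h2)
          rw [norm_mul, e3]
          exact mul_le_mul_of_nonneg_left hE (by positivity)
  have h4 : ‖V‖ ≤ N * (N + 1) * (1 + t ^ 2)⁻¹ + (2 * N + 1) * (e + 1) := by
    rw [← norm_sq, ← hs]
    refine le_of_mul_le_mul_left (h3.trans ?_) (by linarith : 0 < ‖s‖)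
    have a1 : ‖s‖ * (N * (N + 1) * (‖s‖ ^ 2)⁻¹) = (N + 1) * (N / ‖s‖) := by field_simp
    have a2 : (2 * N + 1) * (e + 1) ≤ ‖s‖ * ((2 * N + 1) * (e + 1)) :=
      le_mul_of_one_le_left (by positivity) s1
    have a3 : (0 : ℝ) ≤ N := Nat.cast_nonneg N
    rw [mul_add ‖s‖, a1]
    nlinarith
  have := norm_add_le V (Kd N 1 t - V)
  rw [add_sub_cancel] at this
  linarith

/-- the dual coefficients -/
noncomputable def GG (ν : Measure ℝ) (Q : ℝ → ℂ) (n : ℕ) : ℂ :=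
  ∫ u, (starRingEnd ℂ) (Q u) * nit n u ∂ν

lemma Trig.conj {F : ℝ → ℂ} (hF : Trig F) : Trig fun u => (starRingEnd ℂ) (F u) :=
  ⟨Complex.continuous_conj.comp hF.1, hF.2.imp fun _ h u => by simpa using h u⟩

lemma schur (ν : Measure ℝ) [IsFiniteMeasure ν] (hν : ν ≤ volume) {α β : ℝ} (hα : 0 ≤ α) (u : ℝ) :
    ∫ v, (α * (1 + (u - v) ^ 2)⁻¹ + β) ∂ν ≤ α * Real.pi + β * ν.real Set.univ := by
  have i1 : Integrable (fun v : ℝ => (1 + (u - v) ^ 2)⁻¹) volume :=
    integrable_inv_one_add_sq.comp_sub_left u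
  rw [integral_add ((i1.mono_measure hν).const_mul α) (integrable_const β), integral_const,
    integral_const_mul, smul_eq_mul, mul_comm _ β]
  refine add_le_add (mul_le_mul_of_nonneg_left ?_ hα) le_rfl
  refine (integral_mono_measure hν (Eventually.of_forall fun v => by positivity) i1).trans ?_
  rw [integral_sub_left_eq_self (fun v : ℝ => (1 + v ^ 2)⁻¹) volume u,
    integral_univ_inv_one_add_sq]

lemma bil (μ : Measure ℝ) [IsFiniteMeasure μ] (hμ : μ ≤ volume) {U : Set ℝ} (hU : MeasurableSet U)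
    {Q : ℝ → ℂ} (hQ : Trig Q) (S : Finset ℕ) (b : ℕ → ℝ) {α β : ℝ} (hα : 0 ≤ α) (hβ : 0 ≤ β)
    (h : ∀ u ∈ U, ∀ v ∈ U, ‖∑ n ∈ S, (b n : ℂ) * nit n (u - v)‖ ≤ α * (1 + (u - v) ^ 2)⁻¹ + β) :
    |∑ n ∈ S, b n * ‖GG (μ.restrict U) Q n‖ ^ 2| ≤
      (α * Real.pi + β * μ.real U) * ∫ u in U, ‖Q u‖ ^ 2 ∂μ := by
  set ν := μ.restrict U with hν
  have hν' : ν ≤ volume := Measure.restrict_le_self.trans hμ
  have hr : ν.real Set.univ = μ.real U := by rw [hν, measureReal_restrict_apply_univ]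
  obtain ⟨B, hB⟩ := hQ.2
  have c1 := hQ.1
  have c2 := continuous_nit
  have e1 : ∀ n, ((‖GG ν Q n‖ ^ 2 : ℝ) : ℂ) =
      ∫ z : ℝ × ℝ, (starRingEnd ℂ) (Q z.1) * Q z.2 * nit n (z.1 - z.2) ∂ν.prod ν := by
    intro n
    rw [← Complex.normSq_eq_norm_sq, ← Complex.mul_conj, GG, ← integral_conj, ← integral_prod_mul]
    refine integral_congr_ae (Eventually.of_forall fun z => ?_)
    simp only [map_mul, conj_nit, Complex.conj_conj, sub_eq_add_neg, nit_add]
    ring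
  have i1 : ∀ n, Integrable (fun z : ℝ × ℝ =>
      (b n : ℂ) * ((starRingEnd ℂ) (Q z.1) * Q z.2 * nit n (z.1 - z.2))) (ν.prod ν) := by
    intro n
    refine Integrable.const_mul (Integrable.of_bound (Continuous.aestronglyMeasurable ?_) (B * B)
      (Eventually.of_forall fun z => ?_)) _
    · have := c2 n
      exact ((Complex.continuous_conj.comp (c1.comp continuous_fst)).mul
        (c1.comp continuous_snd)).mul (this.comp (continuous_fst.sub continuous_snd))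
    · rw [norm_mul, norm_mul, norm_nit, mul_one, Complex.norm_conj]
      exact mul_le_mul (hB _) (hB _) (norm_nonneg _) ((norm_nonneg _).trans (hB 0))
  have e2 : ((∑ n ∈ S, b n * ‖GG ν Q n‖ ^ 2 : ℝ) : ℂ) = ∫ z : ℝ × ℝ,
      (starRingEnd ℂ) (Q z.1) * Q z.2 * ∑ n ∈ S, (b n : ℂ) * nit n (z.1 - z.2) ∂ν.prod ν := by
    rw [Complex.ofReal_sum]
    simp only [Complex.ofReal_mul, e1, ← integral_const_mul]
    rw [← integral_finsetSum _ fun n _ => i1 n]
    refine integral_congr_ae (Eventually.of_forall fun z => ?_)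
    simp only [mul_sum]
    exact sum_congr rfl fun n _ => by ring
  let g : ℝ × ℝ → ℝ := fun z => ‖Q z.1‖ ^ 2 * (α * (1 + (z.1 - z.2) ^ 2)⁻¹ + β)
  have i2 : Integrable g (ν.prod ν) := by
    refine Integrable.of_bound (Continuous.aestronglyMeasurable ?_) (B ^ 2 * (α + β))
      (Eventually.of_forall fun z => ?_)
    · refine ((c1.comp continuous_fst).norm.pow 2).mul (Continuous.add (continuous_const.mul
        (Continuous.inv₀ (by fun_prop) fun z => by positivity)) continuous_const)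
    · have a1 : (1 + (z.1 - z.2) ^ 2)⁻¹ ≤ 1 := inv_le_one_of_one_le₀ (by nlinarith)
      rw [Real.norm_of_nonneg (by positivity)]
      exact mul_le_mul (pow_le_pow_left₀ (norm_nonneg _) (hB _) 2) (by nlinarith) (by positivity)
        (by positivity)
  have b2 : ∫ z, g z ∂ν.prod ν ≤ (α * Real.pi + β * μ.real U) * ∫ u, ‖Q u‖ ^ 2 ∂ν := by
    rw [integral_prod g i2, ← integral_const_mul]
    refine integral_mono i2.integral_prod_left ((hQ.integrable_sq ν).const_mul _) fun u => ?_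
    simp only [g]
    rw [integral_const_mul, mul_comm, ← hr]
    exact mul_le_mul_of_nonneg_right (schur ν hν' hα u) (by positivity)
  have i3 : Integrable (fun z : ℝ × ℝ => g z.swap) (ν.prod ν) := i2.swap
  rw [← Real.norm_eq_abs, ← Complex.norm_real, e2]
  refine (norm_integral_le_of_norm_le (g := fun z => (g z + g z.swap) / 2)
    ((i2.add i3).div_const 2) ?_).trans ?_
  · rw [hν, Measure.prod_restrict]
    filter_upwards [ae_restrict_mem (hU.prod hU)] with z hz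
    rw [norm_mul, norm_mul, Complex.norm_conj]
    have a1 := h _ hz.1 _ hz.2
    have a2 : (z.2 - z.1) ^ 2 = (z.1 - z.2) ^ 2 := by ring
    simp only [g, Prod.fst_swap, Prod.snd_swap, a2]
    have a3 : 0 ≤ α * (1 + (z.1 - z.2) ^ 2)⁻¹ + β := by positivity
    calc _ ≤ ‖Q z.1‖ * ‖Q z.2‖ * (α * (1 + (z.1 - z.2) ^ 2)⁻¹ + β) :=
          mul_le_mul_of_nonneg_left a1 (by positivity)
      _ ≤ _ := by nlinarith [mul_nonneg a3 (sq_nonneg (‖Q z.1‖ - ‖Q z.2‖))]
  · rw [integral_div, integral_add i2 i3, integral_prod_swap g]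
    linarith

lemma dual (ν : Measure ℝ) [IsFiniteMeasure ν] (I : Finset ℕ) {a : ℕ → ℂ} (ha : ∀ n, ‖a n‖ ≤ 1) :
    (∫ u, ‖DP I a u‖ ^ 2 ∂ν) ^ 2 ≤ I.card * ∑ p ∈ I, ‖GG ν (DP I a) p‖ ^ 2 := by
  have hQ := Trig.DP I a
  have e : ((∫ u, ‖DP I a u‖ ^ 2 ∂ν : ℝ) : ℂ) = ∑ p ∈ I, a p * GG ν (DP I a) p := by
    simp only [GG, ← integral_const_mul]
    rw [← integral_finsetSum _ fun p _ =>
      (((Trig.conj hQ).mul (Trig.nit p)).integrable ν).const_mul (a p), ← integral_complex_ofReal]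
    refine integral_congr_ae (Eventually.of_forall fun u => ?_)
    simp only
    rw [← Complex.normSq_eq_norm_sq, ← Complex.mul_conj]
    nth_rewrite 1 [DP]
    rw [sum_mul]
    exact sum_congr rfl fun n _ => by ring
  have h0 : 0 ≤ ∫ u, ‖DP I a u‖ ^ 2 ∂ν := integral_nonneg fun u => by positivity
  refine le_trans (pow_le_pow_left₀ h0 ?_ 2) sq_sum_le_card_mul_sum_sq
  rw [← Real.norm_of_nonneg h0, ← Complex.norm_real, e]
  refine (norm_sum_le _ _).trans (sum_le_sum fun p _ => ?_)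
  rw [norm_mul]
  exact mul_le_of_le_one_left (norm_nonneg _) (ha p)

lemma sieve (N : ℕ) (w : ℕ → ℝ) (hw : ∀ n ∈ Icc 1 N, 0 ≤ w n) {z r : ℝ} (hz : 1 < z) (hr : 0 ≤ r)
    (hrem : ∀ d : ℕ, 0 < d →
      |∑ n ∈ (Icc 1 N).filter (d ∣ ·), w n - (d : ℝ)⁻¹ * ∑ n ∈ Icc 1 N, w n| ≤ r)
    (I : Finset ℕ) (hI : ∀ p ∈ I, p.Prime ∧ z < p ∧ p ≤ N) :
    ∑ p ∈ I, w p ≤ (∑ n ∈ Icc 1 N, w n) / Real.log z + z ^ 2 * r := by
  classical
  set Ps := (range (⌊z⌋₊ + 1)).filter Nat.Prime with hPs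
  have hP : ∀ p ∈ Ps, p.Prime := fun p hp => (mem_filter.1 hp).2
  have hsq := ANT.squarefree_prod_primes Ps hP
  have h1 := ANT.selberg_sieve (Icc 1 N) id w hw _ hsq (fun p => (p : ℝ)⁻¹)
    (fun p hp _ => inv_pos.2 (by exact_mod_cast hp.pos))
    (fun p hp _ => inv_lt_one_of_one_lt₀ (by exact_mod_cast hp.one_lt)) (∑ n ∈ Icc 1 N, w n) z hz.le
  have h2 := ANT.log_le_sqfSum Ps hP z (by linarith) fun p hp hpz =>
    mem_filter.2 ⟨mem_range.2 (Nat.lt_succ_of_le (Nat.le_floor hpz)), hp⟩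
  rw [ANT.sqfSum_eq_sum_divisors Ps hP] at h2
  have h3 : ∑ p ∈ I, w p ≤ ∑ i ∈ (Icc 1 N).filter fun i => Nat.Coprime (∏ p ∈ Ps, p) (id i), w i := by
    refine sum_le_sum_of_subset_of_nonneg (fun p hp => ?_) fun n hn _ => hw n (mem_filter.1 hn).1
    obtain ⟨a1, a2, a3⟩ := hI p hp
    refine mem_filter.2 ⟨mem_Icc.2 ⟨a1.pos, a3⟩, Nat.Coprime.prod_left fun q hq => ?_⟩
    refine (Nat.coprime_primes (hP q hq) a1).2 ?_
    rintro rfl
    have := (Nat.le_floor_iff (by linarith)).1 (Nat.lt_succ_iff.1 (mem_range.1 (mem_filter.1 hq).1))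
    linarith
  set D := (∏ p ∈ Ps, p).divisors.filter fun d : ℕ => (d : ℝ) ≤ z with hD
  have hc : (D.card : ℝ) ≤ z := by
    have : D ⊆ Icc 1 ⌊z⌋₊ := fun d hd => mem_Icc.2
      ⟨Nat.pos_of_mem_divisors (mem_filter.1 hd).1, Nat.le_floor (mem_filter.1 hd).2⟩
    have h4 := card_le_card this
    rw [Nat.card_Icc, Nat.add_sub_cancel] at h4
    exact (Nat.cast_le.2 h4).trans (Nat.floor_le (by linarith))
  refine h3.trans (h1.trans (add_le_add ?_ ?_))
  · refine div_le_div_of_nonneg_left (sum_nonneg hw) (Real.log_pos hz) (h2.trans (le_of_eq ?_))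
    refine sum_congr rfl fun l _ => prod_congr rfl fun p hp => ?_
    have : (1 : ℝ) < p := by exact_mod_cast (Nat.prime_of_mem_primeFactors hp).one_lt
    have a1 : (p : ℝ) - 1 ≠ 0 := by linarith
    have a2 : (p : ℝ) ≠ 0 := by linarith
    field_simp
  · refine (sum_le_card_nsmul _ _ (D.card * r) fun d1 h1 => ?_).trans ?_
    · refine (sum_le_card_nsmul _ _ r fun d2 h2 => ?_).trans (by rw [nsmul_eq_mul])
      have a1 := Nat.dvd_of_mem_divisors (mem_filter.1 h1).1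
      have a2 := Nat.dvd_of_mem_divisors (mem_filter.1 h2).1
      have a3 := hsq.squarefree_of_dvd (Nat.lcm_dvd a1 a2)
      rw [prod_inv_distrib, ← Nat.cast_prod, Nat.prod_primeFactors_of_squarefree a3]
      exact hrem _ (Nat.pos_of_ne_zero a3.ne_zero)
    · rw [nsmul_eq_mul, ← mul_assoc, ← sq]
      exact mul_le_mul_of_nonneg_right (pow_le_pow_left₀ (Nat.cast_nonneg _) hc 2) hr

lemma card_le {A : ℝ} (hA : 1 < A) (I : Finset ℕ)
    (hI : ∀ p ∈ I, p.Prime ∧ A ≤ p ∧ (p : ℝ) ≤ 2 * A) : (I.card : ℝ) ≤ 12 * (A / Real.log A) := by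
  have h1 := ANT.sum_vonMangoldt_le ⌊2 * A⌋₊
  have h2 : (⌊2 * A⌋₊ : ℝ) ≤ 2 * A := Nat.floor_le (by linarith)
  have h3 : ∑ p ∈ I, ArithmeticFunction.vonMangoldt p ≤
      ∑ d ∈ Ioc 0 ⌊2 * A⌋₊, ArithmeticFunction.vonMangoldt d :=
    sum_le_sum_of_subset_of_nonneg (fun p hp => mem_Ioc.2
      ⟨(hI p hp).1.pos, Nat.le_floor (hI p hp).2.2⟩) fun _ _ _ =>
        ArithmeticFunction.vonMangoldt_nonneg
  have h4 := card_nsmul_le_sum I ArithmeticFunction.vonMangoldt (Real.log A) fun p hp => by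
    rw [ArithmeticFunction.vonMangoldt_apply_prime (hI p hp).1]
    exact Real.log_le_log (by linarith) (hI p hp).2.1
  rw [nsmul_eq_mul] at h4
  rw [← mul_div_assoc, le_div_iff₀ (Real.log_pos hA)]
  linarith

end PrimeHM

open PrimeHM in
theorem prime_HM (K : ℕ) : ∃ c : ℝ, 0 < c ∧ ∃ C : ℝ, ∀ᶠ A : ℝ in atTop, ∀ T : ℝ, ∀ U : Set ℝ,
    MeasurableSet U → (∀ u ∈ U, |u| ≤ A ^ K) → (cm T).real U ≤ A ^ c → ∀ I : Finset ℕ,
    (∀ p ∈ I, p.Prime ∧ A ≤ p ∧ (p : ℝ) ≤ 2 * A) → ∀ a : ℕ → ℂ, (∀ n, ‖a n‖ ≤ 1) →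
      MS T U (DP I a) ≤ C * (A / Real.log A) ^ 2 := by
  obtain ⟨c0, hc0, C0, H⟩ := exp_sum_log (K + 1)
  set c : ℝ := min c0 1 with hc
  have c1 : 0 < c := lt_min hc0 one_pos
  have c2 : c ≤ 1 := min_le_right _ _
  set C1 : ℝ := 3 * max C0 0 + 1 with hC1
  have C10 : 0 < C1 := by have := le_max_right C0 0; linarith
  have hpi := Real.pi_pos
  refine ⟨c / 4, by positivity, 12 * ((12 * Real.pi + 16 * C1) / (c / 4)), ?_⟩
  filter_upwards [eventually_gt_atTop 1] with A hA T U hU hUK hUc I hI a ha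
  have hA0 : 0 < A := by linarith
  have lA := Real.log_pos hA
  obtain ⟨N, hN⟩ : ∃ N, N = ⌊3 * A⌋₊ := ⟨_, rfl⟩
  have N1 : (N : ℝ) ≤ 3 * A := hN ▸ Nat.floor_le (by linarith)
  have N2 : 3 * A < N + 1 := hN ▸ Nat.lt_floor_add_one _
  have N0 : (0 : ℝ) ≤ N := Nat.cast_nonneg N
  obtain ⟨z, hz⟩ : ∃ z, z = A ^ (c / 4) := ⟨_, rfl⟩
  have z1 : 1 < z := hz ▸ Real.one_lt_rpow hA (by positivity)
  have z2 : z < A := by
    rw [hz]
    exact (Real.rpow_lt_rpow_of_exponent_lt hA (by linarith)).trans_eq (Real.rpow_one A)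
  have lz : Real.log z = c / 4 * Real.log A := by rw [hz, Real.log_rpow hA0]
  have z4 : A ^ (1 - c) * z ^ 4 = A := by
    rw [hz, ← Real.rpow_natCast, ← Real.rpow_mul hA0.le, ← Real.rpow_add hA0]
    norm_num
  have y1 : 1 ≤ A ^ (1 - c) := Real.one_le_rpow hA.le (by linarith)
  generalize hy : A ^ (1 - c) = y at z4 y1
  rw [← hz] at hUc
  have hexp : ∀ u ∈ U, ∀ v ∈ U, ∀ j ≤ N,
      ‖∑ m ∈ Icc 1 j, nit m (u - v) - mt j (u - v)‖ ≤ C1 * y - 1 := by
    intro u hu v hv j hj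
    have a1 : |u - v| ≤ (3 * A) ^ (K + 1) := by
      have b1 : A ^ K ≤ (3 * A) ^ K := pow_le_pow_left₀ hA0.le (by linarith) K
      have b2 := abs_sub u v
      have b3 := hUK u hu
      have b4 := hUK v hv
      have b5 : 0 ≤ A ^ K := by positivity
      rw [pow_succ]
      nlinarith
    have a2 := H (3 * A) (by linarith) 0 le_rfl zero_le_one _ a1 j
      ((Nat.cast_le.2 hj).trans N1)
    simp only [add_zero, Complex.ofReal_natCast] at a2
    have a3 : (3 * A) ^ (1 - c0) ≤ 3 * y := by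
      calc (3 * A) ^ (1 - c0) ≤ (3 * A) ^ (1 - c) :=
            Real.rpow_le_rpow_of_exponent_le (by linarith) (by linarith [min_le_left c0 1])
        _ = 3 ^ (1 - c) * y := by rw [Real.mul_rpow (by norm_num) hA0.le, hy]
        _ ≤ 3 * y := by
            refine mul_le_mul_of_nonneg_right ?_ (by linarith)
            exact (Real.rpow_le_rpow_of_exponent_le (by norm_num) (by linarith)).trans_eq
              (Real.rpow_one 3)
    have a4 : C0 * (3 * A) ^ (1 - c0) ≤ max C0 0 * (3 * y) :=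
      mul_le_mul (le_max_left _ _) a3 (by positivity) (le_max_right _ _)
    refine a2.trans (a4.trans ?_)
    rw [hC1]; nlinarith
  have hQ := Trig.DP I a
  have hle := cm_le_volume T
  set M : ℝ := MS T U (DP I a) with hM
  have M0 : 0 ≤ M := MS_nonneg _ _ _
  have m0 : 0 ≤ (cm T).real U := measureReal_nonneg
  let g : ℕ → ℝ := fun n => ‖GG ((cm T).restrict U) (DP I a) n‖ ^ 2
  have X1 := bil (cm T) hle hU hQ (Icc 1 N) (fun n => (N : ℝ) - n + 1) (α := N * (N + 1))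
    (β := (3 * N + 1) * (C1 * y)) (by positivity) (by positivity) fun u hu v hv => by
      have := Kd_one (hexp u hu v hv)
      rwa [Kd, filter_true_of_mem fun n _ => one_dvd n, sub_add_cancel] at this
  have X2 : ∀ d : ℕ, 0 < d → |∑ n ∈ (Icc 1 N).filter (d ∣ ·), ((N : ℝ) - n + 1) * g n -
      (d : ℝ)⁻¹ * ∑ n ∈ Icc 1 N, ((N : ℝ) - n + 1) * g n| ≤ 2 * N * (C1 * y) * z * M := by
    intro d hd
    have := bil (cm T) hle hU hQ (Icc 1 N)
      (fun n => (if d ∣ n then (N : ℝ) - n + 1 else 0) - (d : ℝ)⁻¹ * ((N : ℝ) - n + 1)) (α := 0)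
      (β := 2 * N * (C1 * y)) le_rfl (by positivity) fun u hu v hv => by
        have := Kd_rem (hexp u hu v hv) hd
        rw [Kd, Kd, filter_true_of_mem fun n _ => one_dvd n, sub_add_cancel, sum_filter, sum_div,
          ← sum_sub_distrib] at this
        rw [zero_mul, zero_add]
        convert this using 3 with n
        split_ifs <;> push_cast <;> ring
    rw [zero_mul, zero_add] at this
    refine le_trans (le_of_eq ?_) (this.trans (mul_le_mul_of_nonneg_right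
      (mul_le_mul_of_nonneg_left hUc (by positivity)) M0))
    rw [sum_filter, mul_sum, ← sum_sub_distrib]
    congr 1
    refine sum_congr rfl fun n _ => ?_
    split_ifs <;> ring
  have S1 := sieve N (fun n => ((N : ℝ) - n + 1) * g n) (fun n hn => by
      have : (n : ℝ) ≤ N := by exact_mod_cast (mem_Icc.1 hn).2
      exact mul_nonneg (by linarith) (by positivity)) z1 (by positivity) X2 I fun p hp =>
    ⟨(hI p hp).1, z2.trans_le (hI p hp).2.1, hN ▸ Nat.le_floor (by linarith [(hI p hp).2.2])⟩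
  have S2 : A * ∑ p ∈ I, g p ≤ ∑ p ∈ I, ((N : ℝ) - p + 1) * g p := by
    rw [mul_sum]
    exact sum_le_sum fun p hp =>
      mul_le_mul_of_nonneg_right (by linarith [(hI p hp).2.2]) (by positivity)
  have lz0 : 0 < Real.log z := Real.log_pos z1
  have yz : y * z ≤ A := by
    rw [← z4]
    exact mul_le_mul_of_nonneg_left (le_self_pow₀ z1.le (by norm_num)) (by linarith)
  have X3 : ∑ n ∈ Icc 1 N, ((N : ℝ) - n + 1) * g n ≤ (12 * Real.pi + 10 * C1) * A ^ 2 * M := by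
    refine ((le_abs_self _).trans X1).trans (mul_le_mul_of_nonneg_right ?_ M0)
    have a1 : (N : ℝ) * (N + 1) ≤ 3 * A * (4 * A) :=
      mul_le_mul N1 (by linarith) (by positivity) (by positivity)
    have a2 : (3 * N + 1) * (C1 * y) * (cm T).real U ≤ 10 * A * (C1 * y) * z :=
      mul_le_mul (mul_le_mul_of_nonneg_right (by linarith) (by positivity)) hUc m0 (by positivity)
    have a3 := mul_le_mul_of_nonneg_left yz (by positivity : 0 ≤ 10 * A * C1)
    nlinarith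
  have X4 : z ^ 2 * (2 * N * (C1 * y) * z * M) ≤ 6 * C1 * A ^ 2 * M / Real.log z := by
    rw [le_div_iff₀ lz0]
    have a1 : Real.log z ≤ z := (Real.log_le_sub_one_of_pos (by linarith)).trans (by linarith)
    calc z ^ 2 * (2 * N * (C1 * y) * z * M) * Real.log z
        ≤ z ^ 2 * (2 * (3 * A) * (C1 * y) * z * M) * z := by gcongr
      _ = 6 * C1 * A * M * (y * z ^ 4) := by ring
      _ = _ := by rw [z4]; ring
  have S3 : ∑ p ∈ I, g p ≤ (12 * Real.pi + 16 * C1) / (c / 4) * (A / Real.log A) * M := by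
    refine le_of_mul_le_mul_left (S2.trans (S1.trans ((add_le_add
      (div_le_div_of_nonneg_right X3 lz0.le) X4).trans (le_of_eq ?_)))) hA0
    rw [lz]
    field_simp
    ring
  have S4 := (dual ((cm T).restrict U) I ha).trans (mul_le_mul (card_le hA I hI) S3
    (sum_nonneg fun p _ => by positivity) (by positivity))
  change M ^ 2 ≤ _ at S4
  rcases M0.eq_or_lt with h | h
  · rw [← h]; positivity
  · refine le_of_mul_le_mul_right ?_ h
    rw [← sq]
    refine S4.trans (le_of_eq ?_)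
    ring

end Pool.Agent.Lib.MR
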