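import Pool.Agent.Lib.MR.Decomp
import Pool.Agent.Lib.MR.PrimeHM

/-!
# The mean square over a sparse set of frequencies
-/

set_option autoImplicit false
open Filter Topology Finset MeasureTheory

namespace Pool.Agent.Lib.MR

lemma last_tail {g : ℕ → ℂ} (hg : ∀ n, ‖g n‖ ≤ 1) {X : ℕ} (hX : 1 ≤ X) {T : ℝ} (hT : 0 < T)
    (hTX : T ≤ X) : MS T {u | (X : ℝ) ^ 3 < |u|} (DP (Icc 1 X) g) ≤ 2 * X := by
  have hX0 : (0 : ℝ) < X := by exact_mod_cast hX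
  have hm : MeasurableSet {u : ℝ | (X : ℝ) ^ 3 < |u|} :=
    (isOpen_lt continuous_const continuous_abs).measurableSet
  have h1 := MS_le_const (Trig.DP (Icc 1 X) g) T hm (c := X) fun u _ => by
    simpa using norm_DP_le_card (Icc 1 X) hg u
  have h2 := cm_tail T (Y := (X : ℝ) ^ 3) (by positivity)
  have h3 : 2 * T ^ 2 / (X : ℝ) ^ 3 ≤ 2 * (X : ℝ) ^ 2 / (X : ℝ) ^ 3 := by gcongr
  calc _ ≤ _ := h1
    _ ≤ (X : ℝ) ^ 2 * (2 * (X : ℝ) ^ 2 / (X : ℝ) ^ 3) :=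
        mul_le_mul_of_nonneg_left (h2.trans h3) (by positivity)
    _ = 2 * X := by field_simp

lemma last_approx {g : ℕ → ℂ} {X : ℕ} {κ P Q T B : ℝ} {U : Set ℝ} (hU : MeasurableSet U)
    (hL : 1 ≤ LL P Q) (h : ∀ v ∈ idx κ P Q,
      MS T U (fun u => DP (piece κ P Q v) g u * DP (Icc 1 ⌊(X : ℝ) / (1 + κ) ^ v⌋₊) g u) ≤ B) :
    MS T U (approx g X κ P Q) ≤ ((idx κ P Q).card : ℝ) ^ 2 * B := by
  have hF : ∀ v ∈ idx κ P Q, Trig
      fun u => DP (piece κ P Q v) g u * DP (Icc 1 ⌊(X : ℝ) / (1 + κ) ^ v⌋₊) g u :=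
    fun v _ => (Trig.DP _ _).mul (Trig.DP _ _)
  have h1 := MS_le_of_le (Trig.approx g X κ P Q) (Trig.sum hF) T hU (c := 1) fun u _ => by
    unfold approx
    rw [norm_mul, Complex.norm_real, Real.norm_eq_abs, abs_of_nonneg (by positivity)]
    exact mul_le_mul_of_nonneg_right (inv_le_one_of_one_le₀ hL) (norm_nonneg _)
  have h2 := MS_sum_le hF T U
  have h3 := Finset.sum_le_card_nsmul _ _ _ h
  rw [nsmul_eq_mul] at h3
  calc _ ≤ _ := h1
    _ ≤ _ := by rw [one_pow, one_mul]; exact h2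
    _ ≤ ((idx κ P Q).card : ℝ) * (((idx κ P Q).card : ℝ) * B) :=
        mul_le_mul_of_nonneg_left h3 (by positivity)
    _ = _ := by ring

lemma last_piece {g : ℕ → ℂ} {I : Finset ℕ} {M : ℕ} {X R T η C l : ℝ} {U : Set ℝ}
    (hU : MeasurableSet U) (hR : 0 < R) (hη : 0 ≤ η) (hC : 0 ≤ C) (hM : (M : ℝ) ≤ X / R)
    (hl : 0 < l) (hlR : l ≤ Real.log R) (h1 : ∀ u ∈ U, ‖DP (Icc 1 M) g u‖ ≤ η * M)
    (h2 : MS T U (DP I g) ≤ C * (R / Real.log R) ^ 2) :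
    MS T U (fun u => DP I g u * DP (Icc 1 M) g u) ≤ η ^ 2 * X ^ 2 * C / l ^ 2 := by
  have h3 := MS_le_of_le ((Trig.DP I g).mul (Trig.DP (Icc 1 M) g)) (Trig.DP I g) T hU
    (c := η * (X / R)) fun u hu => by
      rw [norm_mul, mul_comm]
      exact mul_le_mul_of_nonneg_right
        ((h1 u hu).trans (mul_le_mul_of_nonneg_left hM hη)) (norm_nonneg _)
  have h4 : C * (R / Real.log R) ^ 2 ≤ C * (R / l) ^ 2 := by
    have : 0 < Real.log R := by linarith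
    gcongr
  calc _ ≤ _ := h3
    _ ≤ (η * (X / R)) ^ 2 * (C * (R / l) ^ 2) :=
        mul_le_mul_of_nonneg_left (h2.trans h4) (by positivity)
    _ = _ := by field_simp

theorem Adm.last {g : ℕ → ℂ} (hg : Adm g) {ε : ℝ} (hε : 0 < ε) : ∃ β : ℝ, 0 < β ∧
    ∀ᶠ X : ℕ in atTop, ∀ T : ℝ, 0 < T → T ≤ X → ∀ U : Set ℝ, MeasurableSet U →
      (cm T).real U ≤ (X : ℝ) ^ β → MS T U (DP (Icc 1 X) g) ≤ ε * (X : ℝ) ^ 2 := by
  obtain ⟨L0, hL1, hL2⟩ : ∃ L0 : ℝ, 1 ≤ L0 ∧ 12000 / ε ≤ L0 :=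
    ⟨max 1 (12000 / ε), le_max_left _ _, le_max_right _ _⟩
  obtain ⟨κ, hκ, hκ1, hκ2⟩ : ∃ κ : ℝ, 0 < κ ∧ κ ≤ 1 ∧ κ ≤ ε / 12000 :=
    ⟨min 1 (ε / 12000), by positivity, min_le_left _ _, min_le_right _ _⟩
  obtain ⟨δ, hδ, hδ1, hδ2⟩ : ∃ δ : ℝ, 0 < δ ∧ δ ≤ 1 / 4 ∧ Real.log (2 * δ) = -(L0 + 50) := by
    refine ⟨Real.exp (-(L0 + 50)) / 2, by positivity, ?_, ?_⟩
    · have h1 : L0 + 50 + 1 ≤ Real.exp (L0 + 50) := Real.add_one_le_exp _
      have h2 : Real.exp (-(L0 + 50)) ≤ 1 / 2 := by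
        rw [Real.exp_neg, one_div]
        exact inv_anti₀ (by norm_num) (by linarith)
      linarith
    · rw [mul_div_cancel₀ _ (by norm_num : (2 : ℝ) ≠ 0), Real.log_exp]
  obtain ⟨c, hc, C, hC⟩ := prime_HM ⌈6 / δ⌉₊
  obtain ⟨C', hC1, hC2⟩ : ∃ C' : ℝ, 1 ≤ C' ∧ C ≤ C' := ⟨max 1 C, le_max_left _ _, le_max_right _ _⟩
  obtain ⟨η, hη, hη1, hη2⟩ : ∃ η : ℝ, 0 < η ∧ η ≤ 1 ∧ η ≤ ε * (κ * δ) ^ 2 / (96 * C') :=
    ⟨min 1 (ε * (κ * δ) ^ 2 / (96 * C')), by positivity, min_le_left _ _, min_le_right _ _⟩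
  obtain ⟨A0, hA0⟩ := eventually_atTop.1 hC
  obtain ⟨Y0, hY0⟩ := eventually_atTop.1 (hg.small 12 η hη)
  refine ⟨δ / 2 * c, by positivity, ?_⟩
  have hz : Tendsto (fun X : ℕ => (X : ℝ) ^ (δ / 2)) atTop atTop :=
    (tendsto_rpow_atTop (by positivity)).comp tendsto_natCast_atTop_atTop
  filter_upwards [hz.eventually_ge_atTop A0, hz.eventually_ge_atTop Y0, hz.eventually_ge_atTop 3,
    tendsto_natCast_atTop_atTop.eventually_ge_atTop (6 / ε), eventually_ge_atTop 3]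
    with X hzA hzY hz3 hXε hX3 T hT hTX U hU hUβ
  have hX3' : (3 : ℝ) ≤ X := by exact_mod_cast hX3
  have hX0 : (0 : ℝ) < X := by linarith
  have hX1 : (1 : ℝ) ≤ X := by linarith
  have hlog : 1 ≤ Real.log X := by
    rw [Real.le_log_iff_exp_le hX0]
    linarith [Real.exp_one_lt_d9]
  obtain ⟨z, hzdef⟩ : ∃ z, z = (X : ℝ) ^ (δ / 2) := ⟨_, rfl⟩
  obtain ⟨y, hydef⟩ : ∃ y, y = (X : ℝ) ^ (1 / 4 : ℝ) := ⟨_, rfl⟩
  rw [← hzdef] at hzA hzY hz3
  have hzy : z ≤ y := by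
    rw [hzdef, hydef]; exact Real.rpow_le_rpow_of_exponent_le hX1 (by linarith)
  have hz2y : z ^ 2 ≤ y := by
    rw [hzdef, hydef, ← Real.rpow_natCast, ← Real.rpow_mul hX0.le]
    exact Real.rpow_le_rpow_of_exponent_le hX1 (by push_cast; linarith)
  have hy4 : y ^ 4 = X := by
    rw [hydef, ← Real.rpow_natCast, ← Real.rpow_mul hX0.le]; norm_num
  have hlz : Real.log z = δ / 2 * Real.log X := by rw [hzdef, Real.log_rpow hX0]
  have hly : Real.log y = 1 / 4 * Real.log X := by rw [hydef, Real.log_rpow hX0]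
  have hy3 : 3 ≤ y := by linarith
  have hL : L0 ≤ LL (z ^ 2) (y ^ 2) := by
    have h1 := LL_ge (P := z ^ 2) (Q := y ^ 2) (by nlinarith) (by nlinarith)
    have e1 : Real.log (z ^ 2) = 2 * δ * Real.log (y ^ 2) := by
      rw [Real.log_pow, Real.log_pow, hlz, hly]; push_cast; ring
    have e2 : 0 < Real.log (y ^ 2) := by
      rw [Real.log_pow, hly]; push_cast; linarith
    rw [e1, Real.log_mul (by positivity) e2.ne', hδ2] at h1
    linarith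
  have hQX : y ^ 2 ≤ X := by rw [← hy4]; exact pow_le_pow_right₀ (by linarith) (by norm_num)
  have hdec := decomp hg.norm_le hg.mul hκ hκ1 (hL1.trans hL) hQX hT hTX
  obtain ⟨U', hU'⟩ : ∃ U', U' = U ∩ {u | |u| ≤ (X : ℝ) ^ 3} := ⟨_, rfl⟩
  have hU'm : MeasurableSet U' := by
    rw [hU']; exact hU.inter (isClosed_le continuous_abs continuous_const).measurableSet
  have hU'b : ∀ u ∈ U', |u| ≤ (X : ℝ) ^ 3 := by rw [hU']; exact fun u hu => hu.2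
  have hU'c : (cm T).real U' ≤ (X : ℝ) ^ (δ / 2 * c) := by
    refine le_trans (measureReal_mono ?_ (measure_ne_top _ _)) hUβ
    rw [hU']; exact Set.inter_subset_left
  have hap : MS T U' (approx g X κ (z ^ 2) (y ^ 2)) ≤ ((idx κ (z ^ 2) (y ^ 2)).card : ℝ) ^ 2 *
      (η ^ 2 * (X : ℝ) ^ 2 * C' / (δ / 2 * Real.log X) ^ 2) := by
    refine last_approx hU'm (hL1.trans hL) fun v hv => ?_
    obtain ⟨hv1, hv2⟩ := mem_idx hκ hκ1 hv
    have hR0 : 0 < (1 + κ) ^ v := by positivity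
    have hzR : z ≤ (1 + κ) ^ v := by nlinarith
    have hXR : y ^ 2 ≤ (X : ℝ) / (1 + κ) ^ v := by
      rw [le_div_iff₀ hR0, ← hy4]
      calc y ^ 2 * (1 + κ) ^ v ≤ y ^ 2 * y ^ 2 := mul_le_mul_of_nonneg_left hv2 (by positivity)
        _ = _ := by ring
    have hM : y ≤ (⌊(X : ℝ) / (1 + κ) ^ v⌋₊ : ℝ) := by
      have := Nat.lt_floor_add_one ((X : ℝ) / (1 + κ) ^ v)
      nlinarith
    refine last_piece hU'm hR0 hη.le (by linarith) (Nat.floor_le (by positivity))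
      (by positivity) ?_ (fun u hu => hY0 _ ?_ u ?_) ?_
    · rw [← hlz]; exact Real.log_le_log (by linarith) hzR
    · have : (Y0 : ℝ) ≤ (⌊(X : ℝ) / (1 + κ) ^ v⌋₊ : ℝ) := by linarith
      exact_mod_cast this
    · refine (hU'b u hu).trans ?_
      calc (X : ℝ) ^ 3 = y ^ 12 := by rw [← hy4]; ring
        _ ≤ _ := pow_le_pow_left₀ (by linarith) hM _
    · refine (hA0 _ (hzA.trans hzR) T U' hU'm (fun u hu => (hU'b u hu).trans ?_) (hU'c.trans ?_) _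
        (fun p hp => mem_piece hκ hκ1 hp) g hg.norm_le).trans
        (mul_le_mul_of_nonneg_right hC2 (by positivity))
      · refine le_trans ?_ (pow_le_pow_left₀ (by linarith) hzR _)
        rw [hzdef, ← Real.rpow_natCast, ← Real.rpow_natCast, ← Real.rpow_mul hX0.le]
        apply Real.rpow_le_rpow_of_exponent_le hX1
        have h1 : 6 / δ ≤ (⌈6 / δ⌉₊ : ℝ) := Nat.le_ceil _
        rw [div_le_iff₀ hδ] at h1
        push_cast
        linarith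
      · rw [Real.rpow_mul hX0.le, ← hzdef]
        exact Real.rpow_le_rpow (by linarith) hzR hc.le
  have hn : ((idx κ (z ^ 2) (y ^ 2)).card : ℝ) ≤ 2 * Real.log X / κ := by
    have h1 := card_idx_le hκ hκ1 (z ^ 2) (Q := y ^ 2) (by nlinarith)
    have e1 : 2 * Real.log (y ^ 2) = Real.log X := by
      rw [Real.log_pow, hly]; push_cast; ring
    rw [e1] at h1
    have h2 : 1 ≤ Real.log X / κ := by rw [le_div_iff₀ hκ]; linarith
    rw [mul_div_assoc]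
    linarith
  have hap2 : MS T U' (approx g X κ (z ^ 2) (y ^ 2)) ≤ ε / 6 * (X : ℝ) ^ 2 := by
    have hl0 : 0 < Real.log X := by linarith
    have h1 : η ^ 2 ≤ ε * (κ * δ) ^ 2 / (96 * C') := by nlinarith
    calc _ ≤ _ := hap
      _ ≤ (2 * Real.log X / κ) ^ 2 * (ε * (κ * δ) ^ 2 / (96 * C') * (X : ℝ) ^ 2 * C' /
            (δ / 2 * Real.log X) ^ 2) := by gcongr
      _ = _ := by field_simp; ring
  have hD := Trig.DP (Icc 1 X) g
  have hA := Trig.approx g X κ (z ^ 2) (y ^ 2)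
  have h1 : MS T U (DP (Icc 1 X) g) ≤ MS T U' (DP (Icc 1 X) g) +
      MS T {u | (X : ℝ) ^ 3 < |u|} (DP (Icc 1 X) g) := by
    refine (MS_mono hD T ?_).trans (MS_union_le hD T _ _)
    intro u hu
    by_cases h : |u| ≤ (X : ℝ) ^ 3
    · left; rw [hU']; exact ⟨hu, h⟩
    · right; exact not_le.1 h
  have h2 := MS_add_le (hD.sub hA) hA T U'
  simp only [sub_add_cancel] at h2
  have h3 := MS_mono (hD.sub hA) T (Set.subset_univ U')
  have h4 := last_tail hg.norm_le (by omega : 1 ≤ X) hT hTX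
  have h5 : 1 / LL (z ^ 2) (y ^ 2) ≤ ε / 12000 := by
    rw [div_le_iff₀ (by linarith)]
    rw [div_le_iff₀ hε] at hL2
    nlinarith
  have h6 : 1000 * (X : ℝ) ^ 2 * (1 / LL (z ^ 2) (y ^ 2) + κ) ≤
      1000 * (X : ℝ) ^ 2 * (ε / 12000 + ε / 12000) := by gcongr
  have h7 : 2 * (X : ℝ) ≤ ε / 3 * (X : ℝ) ^ 2 := by
    rw [div_le_iff₀ hε] at hXε
    nlinarith
  have h8 : MS T U' (fun u => DP (Icc 1 X) g u) = MS T U' (DP (Icc 1 X) g) := rfl
  linarith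

end Pool.Agent.Lib.MR
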