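import Pool.Agent.Lib.MR.Levels
import Pool.Agent.Lib.MR.Gen

/-!
# The level estimates with separate coefficients at the primes
-/

set_option autoImplicit false
open Filter Topology Finset MeasureTheory

namespace Pool.Agent.Lib.MR

/-- Reduction to the bilinear pieces. -/
lemma Levels2_split {cc g : ℕ → ℂ} (hcc : ∀ n, ‖cc n‖ ≤ 1) (hg : ∀ n, ‖g n‖ ≤ 1)
    {X : ℕ} {κ P Q T B : ℝ}
    (hm : ∀ p ∈ primesIn P Q, ∀ m : ℕ, ¬ p ∣ m → g (p * m) = cc p * g m)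
    (hκ : 0 < κ) (hκ1 : κ ≤ 1) (hL : 1 ≤ LL P Q) (hQ : Q ≤ X)
    (hT : 0 < T) (hTX : T ≤ X) {U : Set ℝ} (hU : MeasurableSet U)
    (hB : ∀ v ∈ idx κ P Q, MS T U (fun u => DP (piece κ P Q v) cc u *
      DP (Icc 1 ⌊(X : ℝ) / (1 + κ) ^ v⌋₊) g u) ≤ B) :
    MS T U (DP (Icc 1 X) g) ≤ 2000 * (X : ℝ) ^ 2 * (1 / LL P Q + κ)
      + 2 * ((idx κ P Q).card : ℝ) ^ 2 * B := by
  have t1 := (Trig.DP (Icc 1 X) g).sub (Trig.approx2 cc g X κ P Q)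
  have t2 : ∀ v ∈ idx κ P Q, Trig fun u => DP (piece κ P Q v) cc u *
      DP (Icc 1 ⌊(X : ℝ) / (1 + κ) ^ v⌋₊) g u := fun v _ => (Trig.DP _ _).mul (Trig.DP _ _)
  have h1 := MS_add_le t1 (Trig.approx2 cc g X κ P Q) T U
  simp only [sub_add_cancel] at h1
  have h2 := (MS_mono t1 T (Set.subset_univ U)).trans (decomp2 hcc hg hm hκ hκ1 hL hQ hT hTX)
  have h3 := MS_le_of_le (Trig.approx2 cc g X κ P Q) (Trig.sum t2) T hU (c := 1) fun u _ => by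
    unfold approx2
    rw [norm_mul, Complex.norm_real, Real.norm_eq_abs, abs_of_nonneg (by positivity)]
    exact mul_le_mul_of_nonneg_right (inv_le_one_of_one_le₀ hL) (norm_nonneg _)
  have h4 := MS_sum_le t2 T U
  have h5 := Finset.sum_le_card_nsmul _ _ _ hB
  rw [nsmul_eq_mul] at h5
  have h6 := mul_le_mul_of_nonneg_left h5 (Nat.cast_nonneg (α := ℝ) (idx κ P Q).card)
  change MS T U (DP (Icc 1 X) g) ≤ _ at h1
  nlinarith

theorem level_first2 {cc g : ℕ → ℂ} (hcc : ∀ n, ‖cc n‖ ≤ 1) (hg : ∀ n, ‖g n‖ ≤ 1)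
    {X : ℕ} {κ P Q T α : ℝ}
    (hm : ∀ p ∈ primesIn P Q, ∀ m : ℕ, ¬ p ∣ m → g (p * m) = cc p * g m)
    (hκ : 0 < κ) (hκ1 : κ ≤ 1) (hL : 1 ≤ LL P Q) (hP : 2 ≤ P) (hQ1 : 1 ≤ Q)
    (hQ : Q ≤ X) (hT : 0 < T) (hTX : T ≤ X / Q) (hα : 0 ≤ α) :
    MS T (Good cc κ P Q α) (DP (Icc 1 X) g) ≤ 2000 * (X : ℝ) ^ 2 * (1 / LL P Q + κ)
      + 20 * ((idx κ P Q).card : ℝ) ^ 2 * (X : ℝ) ^ 2 * (P / 2) ^ (-(2 * α)) := by
  have hX : (0 : ℝ) ≤ X := Nat.cast_nonneg X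
  refine (Levels2_split hcc hg hm hκ hκ1 hL hQ hT (hTX.trans (div_le_self hX hQ1))
    (measurableSet_Good cc κ P Q α) (B := 10 * (X : ℝ) ^ 2 * (P / 2) ^ (-(2 * α)))
    fun v hv => ?_).trans (le_of_eq (by ring))
  obtain ⟨r1, r2⟩ := mem_idx hκ hκ1 hv
  have h1 := MS_le_of_le ((Trig.DP (piece κ P Q v) cc).mul
    (Trig.DP (Icc 1 ⌊(X : ℝ) / (1 + κ) ^ v⌋₊) g)) (Trig.DP (Icc 1 ⌊(X : ℝ) / (1 + κ) ^ v⌋₊) g) T
    (measurableSet_Good cc κ P Q α) (c := ((1 + κ) ^ v) ^ (1 - α)) fun u hu => by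
      rw [norm_mul]
      exact mul_le_mul_of_nonneg_right (hu v hv) (norm_nonneg _)
  have h2 := (MS_mono (Trig.DP (Icc 1 ⌊(X : ℝ) / (1 + κ) ^ v⌋₊) g) T
    (Set.subset_univ (Good cc κ P Q α))).trans (mean_value (Finset.Subset.refl _) g hT)
  have hR := Levels_one_le hκ v
  generalize (1 + κ) ^ v = R at *
  have hR0 : 0 < R := by linarith
  have hM : (⌊(X : ℝ) / R⌋₊ : ℝ) ≤ X / R := Nat.floor_le (by positivity)
  have h3 : ∑ n ∈ Icc 1 ⌊(X : ℝ) / R⌋₊, ‖g n‖ ^ 2 ≤ X / R := by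
    have := Finset.sum_le_card_nsmul (Icc 1 ⌊(X : ℝ) / R⌋₊) (fun n => ‖g n‖ ^ 2) 1
      fun n _ => pow_le_one₀ (norm_nonneg _) (hg n)
    rw [Nat.card_Icc, Nat.add_sub_cancel, nsmul_eq_mul, mul_one] at this
    exact this.trans hM
  have h4 : T ≤ X / R := hTX.trans (div_le_div_of_nonneg_left hX hR0 r2)
  have h5 : Real.pi * (T + 2 * (⌊(X : ℝ) / R⌋₊ : ℝ)) * ∑ n ∈ Icc 1 ⌊(X : ℝ) / R⌋₊, ‖g n‖ ^ 2 ≤
      Real.pi * (X / R + 2 * (X / R)) * (X / R) := by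
    have := Real.pi_pos
    gcongr
  have h6 : (R ^ (1 - α)) ^ 2 = R ^ 2 * R ^ (-(2 * α)) := by
    rw [← Real.rpow_natCast, ← Real.rpow_natCast, ← Real.rpow_mul hR0.le, ← Real.rpow_add hR0]
    congr 1; push_cast; ring
  have h7 : R ^ (-(2 * α)) ≤ (P / 2) ^ (-(2 * α)) :=
    Real.rpow_le_rpow_of_nonpos (by linarith) r1 (by linarith)
  refine h1.trans ((mul_le_mul_of_nonneg_left (h2.trans h5) (sq_nonneg _)).trans ?_)
  calc _ = 3 * Real.pi * (X : ℝ) ^ 2 * R ^ (-(2 * α)) := by rw [h6]; field_simp; ring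
    _ ≤ _ := by gcongr; exact Levels_pi

theorem level_step2 {cc g : ℕ → ℂ} (hcc : ∀ n, ‖cc n‖ ≤ 1) (hg : ∀ n, ‖g n‖ ≤ 1)
    {X : ℕ} {κ P Q κ' P' Q' T α α' : ℝ}
    (hm : ∀ p ∈ primesIn P Q, ∀ m : ℕ, ¬ p ∣ m → g (p * m) = cc p * g m)
    (hκ : 0 < κ) (hκ1 : κ ≤ 1) (hκ' : 0 < κ') (hκ1' : κ' ≤ 1)
    (hL : 1 ≤ LL P Q) (hP : 2 ≤ P) (hP' : 2 ≤ P') (hQ1 : 1 ≤ Q) (hQ : Q ≤ X) (hT : 0 < T)
    (hTX : T ≤ X) (hα' : 0 ≤ α') (hαα : α' < α) (hα : α ≤ 1 / 2)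
    (h1 : Q' ≤ (P / 2) ^ ((α - α') / 2))
    (h2 : 4 * Real.log (8 * Real.log Q + 16) ≤ (α - α') * Real.log (P' / 2)) :
    MS T (Good cc κ P Q α \ Good cc κ' P' Q' α') (DP (Icc 1 X) g)
      ≤ 2000 * (X : ℝ) ^ 2 * (1 / LL P Q + κ) + 20 * ((idx κ P Q).card : ℝ) ^ 2 *
        (idx κ' P' Q').card * (X : ℝ) ^ 2 * (P / 2) ^ (-(α - α')) := by
  have hX : (0 : ℝ) ≤ X := Nat.cast_nonneg X
  refine (Levels2_split hcc hg hm hκ hκ1 hL hQ hT hTX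
    ((measurableSet_Good cc κ P Q α).diff (measurableSet_Good cc κ' P' Q' α'))
    (B := (idx κ' P' Q').card * (10 * (X : ℝ) ^ 2 * (P / 2) ^ (-(α - α'))))
    fun v hv => ?_).trans (le_of_eq (by ring))
  have t := (Trig.DP (piece κ P Q v) cc).mul (Trig.DP (Icc 1 ⌊(X : ℝ) / (1 + κ) ^ v⌋₊) g)
  have sub : Good cc κ P Q α \ Good cc κ' P' Q' α' ⊆ ⋃ w ∈ idx κ' P' Q', (Good cc κ P Q α ∩
      {u : ℝ | ((1 + κ') ^ w) ^ (1 - α') < ‖DP (piece κ' P' Q' w) cc u‖}) := by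
    rintro u ⟨u1, u2⟩
    by_contra hc
    refine u2 fun w hw => ?_
    by_contra hw'
    exact hc (Set.mem_biUnion hw ⟨u1, not_le.1 hw'⟩)
  refine (MS_mono t T sub).trans ((MS_biUnion_le t T _ _).trans ?_)
  rw [← nsmul_eq_mul]
  refine Finset.sum_le_card_nsmul _ _ _ fun w hw => ?_
  obtain ⟨r1, r2⟩ := mem_idx hκ hκ1 hv
  obtain ⟨r1', r2'⟩ := mem_idx hκ' hκ1' hw
  have hR := Levels_one_le hκ v
  have hR' := Levels_one_le hκ' w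
  have hP2 : 0 < P / 2 := by linarith
  obtain ⟨x, hx⟩ : ∃ x, (1 + κ) ^ v = Real.exp x := ⟨_, (Real.exp_log (by linarith)).symm⟩
  obtain ⟨a, ha⟩ : ∃ a, (1 + κ') ^ w = Real.exp a := ⟨_, (Real.exp_log (by linarith)).symm⟩
  have z0 : 0 ≤ Real.log (P / 2) := Real.log_nonneg (by linarith)
  have z0' : 0 ≤ Real.log (P' / 2) := Real.log_nonneg (by linarith)
  have z1 : Real.log (P / 2) ≤ x := by rw [Real.log_le_iff_le_exp hP2, ← hx]; exact r1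
  have z1' : Real.log (P' / 2) ≤ a := by rw [Real.log_le_iff_le_exp (by linarith), ← ha]; exact r1'
  have z2 : x ≤ Real.log Q := by rw [Real.le_log_iff_exp_le (by linarith), ← hx]; exact r2
  have z3 : a ≤ Real.log (P / 2) * ((α - α') / 2) := by
    rw [← Real.exp_le_exp, ← ha, ← Real.rpow_def_of_pos hP2]; exact r2'.trans h1
  have z4 := Levels_log (Real.log_nonneg hQ1)
  have z5 : (α - α') * Real.log (P' / 2) ≤ (α - α') * a :=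
    mul_le_mul_of_nonneg_left z1' (by linarith)
  have z6 : 1 ≤ a := by nlinarith
  have z7 : a ≤ (α - α') / 2 * x := by nlinarith
  have z8 : a ≤ x := by nlinarith
  obtain ⟨l, l1, l2, l3⟩ := Levels_ceil (γ := (α - α') / 2) z6 z8 z2 (by linarith)
  have hb := Levels_bad hcc hg hκ' hκ1' hT (α := α') (P := P') (Q := Q') (l := l) ha
    (Nat.floor_le (show 0 ≤ (X : ℝ) / (1 + κ) ^ v by positivity))
    (by
      rw [hx]
      refine hTX.trans ?_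
      rw [mul_div_assoc', le_div_iff₀ (Real.exp_pos x), mul_comm]
      gcongr)
    ((measurableSet_Good cc κ P Q α).inter (Levels_meas_bad _ cc _)) t
    (c := ((1 + κ) ^ v) ^ (1 - α)) (by positivity) (fun u hu => hu.2) fun u hu => by
      rw [norm_mul]
      exact mul_le_mul_of_nonneg_right (hu.1 v hv) (norm_nonneg _)
  refine hb.trans ?_
  have e1 : (((1 + κ) ^ v) ^ (1 - α) * ((X : ℝ) / (1 + κ) ^ v)) ^ 2 =
      (X : ℝ) ^ 2 * Real.exp (-(2 * α * x)) := by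
    rw [hx, ← Real.exp_mul, div_eq_mul_inv, ← Real.exp_neg, mul_left_comm, ← Real.exp_add, mul_pow,
      ← Real.exp_nat_mul]
    congr 2; push_cast; ring
  rw [e1, Real.rpow_def_of_pos hP2]
  calc 10 * ((X : ℝ) ^ 2 * Real.exp (-(2 * α * x))) *
        (Real.exp (2 * α' * (l * a)) * (8 * l + 8) ^ l)
      ≤ 10 * ((X : ℝ) ^ 2 * Real.exp (-(2 * α * x))) *
        (Real.exp (2 * α' * (l * a)) * Real.exp ((α - α') / 2 * x)) := by gcongr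
    _ = 10 * (X : ℝ) ^ 2 * Real.exp (-(2 * α * x) + (2 * α' * (l * a) + (α - α') / 2 * x)) := by
      rw [Real.exp_add, Real.exp_add]; ring
    _ ≤ _ := by
      gcongr
      have e2 := mul_le_mul_of_nonneg_left l2 hα'
      have e3 : α' * a ≤ 1 / 2 * a := by gcongr; linarith
      have e4 := mul_le_mul_of_nonneg_left z1 (show 0 ≤ α - α' by linarith)
      nlinarith

end Pool.Agent.Lib.MR
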