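import Pool.Agent.Lib.MR.Core
import Pool.Agent.Lib.MR.Levels2

/-!
# The theorem of Matomaki and Radziwill: the deterministic part

Outside a sparse set of frequencies the mean square is small, for every function that is
multiplicative at the small primes.
-/

set_option autoImplicit false
open Filter Topology Finset MeasureTheory

namespace Pool.Agent.Lib.MR

lemma Core2_first {c g : ℕ → ℂ} (hc : ∀ n, ‖c n‖ ≤ 1) (hg : ∀ n, ‖g n‖ ≤ 1) {ε α r : ℝ}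
    (hm : ∀ p ∈ primesIn (Real.exp (r ^ 2)) (Real.exp (r ^ 4)), ∀ m : ℕ, ¬ p ∣ m →
      g (p * m) = c p * g m) (hε : 0 < ε) (hε1 : ε ≤ 1) (hα : 0 < α)
    (hr : 2 ≤ r) (hlog : 50 + 48000 / ε ≤ Real.log r)
    (hC : 20 * 9 * 24 / ((ε / 48000) ^ 2 * ε) * r ^ 8 ≤ Real.exp (α / 2 * r))
    {X : ℕ} (hQ : Real.exp (r ^ 4) ≤ X) :
    MS (X / Real.exp (r ^ 4)) (Core_G c (ε / 48000) α r 1) (DP (Icc 1 X) g)
      ≤ ε / 8 * (X : ℝ) ^ 2 := by
  set κ : ℝ := ε / 48000 with hκdef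
  have hκ : 0 < κ := by positivity
  have hκ1 : κ ≤ 1 := by rw [hκdef]; linarith
  have hX : (0 : ℝ) < X := lt_of_lt_of_le (Real.exp_pos _) hQ
  have hLL := Core_LL hr
  have hdiv : 0 < 48000 / ε := by positivity
  have hL1 : 48000 / ε ≤ LL (Real.exp (r ^ 2)) (Real.exp (r ^ 4)) := by linarith
  have hL2 : 1 ≤ LL (Real.exp (r ^ 2)) (Real.exp (r ^ 4)) := by linarith
  have h := level_first2 hc hg hm (X := X) (κ := κ / 1) (P := Real.exp (r ^ 2))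
    (Q := Real.exp (r ^ 4)) (T := X / Real.exp (r ^ 4)) (α := α * (1 - 1 / (2 * 1)))
    (by positivity) (by linarith) hL2 (Core_two_le hr) (Real.one_le_exp (by positivity)) hQ
    (by positivity) le_rfl (by positivity)
  refine h.trans ?_
  have hinv : 1 / LL (Real.exp (r ^ 2)) (Real.exp (r ^ 4)) ≤ ε / 48000 := by
    rw [div_le_iff₀ (by linarith)]
    have : ε / 48000 * (48000 / ε) = 1 := by field_simp
    nlinarith
  have hn := Core_card (r := r) hκ hκ1 (le_refl (1 : ℝ)) (Real.exp (r ^ 2))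
  set n : ℝ := ((idx (κ / 1) (Real.exp (r ^ 2)) (Real.exp (r ^ 4))).card : ℝ) with hndef
  have hn0 : 0 ≤ n := by positivity
  have hr4 : 1 ≤ r ^ 4 := one_le_pow₀ (by linarith)
  have hn1 : n ≤ 3 * r ^ 4 / κ := by
    have h1 : 1 ≤ r ^ 4 / κ := by rw [le_div_iff₀ hκ]; linarith
    have h2 : 2 * r ^ 4 * 1 / κ = 2 * (r ^ 4 / κ) := by ring
    have h3 : 3 * r ^ 4 / κ = 3 * (r ^ 4 / κ) := by ring
    linarith
  have hp := Core_rpow_le (t := r ^ 2) (a := 2 * (α * (1 - 1 / (2 * 1)))) (by nlinarith)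
    (by positivity)
  have hp2 : Real.exp (-(2 * (α * (1 - 1 / (2 * 1))) * r ^ 2 / 2)) ≤ Real.exp (-(α / 2 * r)) := by
    apply Real.exp_le_exp.mpr
    have : r ≤ r ^ 2 := by nlinarith
    nlinarith
  set p : ℝ := (Real.exp (r ^ 2) / 2) ^ (-(2 * (α * (1 - 1 / (2 * 1))))) with hpdef
  have hp0 : 0 ≤ p := by positivity
  have hp3 : p ≤ Real.exp (-(α / 2 * r)) := hp.trans hp2
  have hE := Real.exp_pos (α / 2 * r)
  have key : 20 * n ^ 2 * p ≤ ε / 24 := by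
    have h1 : n ^ 2 ≤ (3 * r ^ 4 / κ) ^ 2 := pow_le_pow_left₀ hn0 hn1 2
    have h2 : 20 * n ^ 2 * p ≤ 20 * (3 * r ^ 4 / κ) ^ 2 * Real.exp (-(α / 2 * r)) := by gcongr
    refine h2.trans ?_
    rw [Real.exp_neg, ← div_eq_mul_inv, div_le_iff₀ hE]
    have h3 : 20 * (3 * r ^ 4 / κ) ^ 2 = ε / 24 * (20 * 9 * 24 / (κ ^ 2 * ε) * r ^ 8) := by
      field_simp
      ring
    rw [h3]
    gcongr
  have hX2 : (0 : ℝ) ≤ (X : ℝ) ^ 2 := by positivity
  have e1 : 20 * n ^ 2 * (X : ℝ) ^ 2 * p = (20 * n ^ 2 * p) * (X : ℝ) ^ 2 := by ring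
  have e2 : 2000 * (X : ℝ) ^ 2 * (1 / LL (Real.exp (r ^ 2)) (Real.exp (r ^ 4)) + κ / 1)
      ≤ 2000 * (X : ℝ) ^ 2 * (ε / 48000 + ε / 48000) := by
    apply mul_le_mul_of_nonneg_left _ (by positivity)
    rw [div_one]
    linarith
  rw [e1]
  nlinarith [mul_le_mul_of_nonneg_right key hX2]

lemma Core2_step {c g : ℕ → ℂ} (hc : ∀ n, ‖c n‖ ≤ 1) (hg : ∀ n, ‖g n‖ ≤ 1) {ε α r W T : ℝ}
    (hm : ∀ p ∈ primesIn (Real.exp ((r ^ 3) ^ 2)) (Real.exp ((r ^ 3) ^ 4)), ∀ m : ℕ, ¬ p ∣ m →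
      g (p * m) = c p * g m) (hε : 0 < ε) (hε1 : ε ≤ 1) (hα : 0 < α)
    (hα1 : α ≤ 1 / 2) (hr : 2 ≤ r) (hW : 1 ≤ W) (hWr : W ≤ r)
    (hlog : W * (50 + 48000 / ε) ≤ Real.log r) (hA : 16 ≤ α * r)
    (hB : 24 * r ^ 12 ≤ Real.exp (α / 32 * r))
    (hC : 2500 * 48 / ((ε / 48000) ^ 3 * ε) * r ^ 40 ≤ Real.exp (α / 8 * r))
    {X : ℕ} (hQ : Real.exp ((r ^ 3) ^ 4) ≤ X) (hT : 0 < T) (hTX : T ≤ X) :
    MS T (Core_G c (ε / 48000) α (r ^ 3) (2 * W) \ Core_G c (ε / 48000) α r W) (DP (Icc 1 X) g)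
      ≤ ε / (16 * W) * (X : ℝ) ^ 2 := by
  set κ : ℝ := ε / 48000 with hκdef
  have hκ : 0 < κ := by positivity
  have hκ1 : κ ≤ 1 := by rw [hκdef]; linarith
  have hW0 : 0 < W := by linarith
  have hr0 : 0 < r := by linarith
  have hr1 : 1 ≤ r := by linarith
  have hr3 : 2 ≤ r ^ 3 := le_trans hr (le_self_pow₀ hr1 (by norm_num))
  have hLL := Core_LL hr3
  rw [Real.log_pow] at hLL
  push_cast at hLL
  have hdiv : 0 < 48000 / ε := by positivity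
  have hdiv1 : 1 ≤ 48000 / ε := by rw [le_div_iff₀ hε]; linarith
  have hL1 : 2 * W * (48000 / ε) ≤ LL (Real.exp ((r ^ 3) ^ 2)) (Real.exp ((r ^ 3) ^ 4)) := by
    nlinarith
  have hL2 : 1 ≤ LL (Real.exp ((r ^ 3) ^ 2)) (Real.exp ((r ^ 3) ^ 4)) := by nlinarith
  have hd : α * (1 - 1 / (2 * (2 * W))) - α * (1 - 1 / (2 * W)) = α / (4 * W) := by
    field_simp
    ring
  have hdpos : 0 < α / (4 * W) := by positivity
  have hw2 : 1 / (2 * W) ≤ 1 := by rw [div_le_one (by positivity)]; linarith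
  have hw4 : 0 ≤ 1 / (2 * (2 * W)) := by positivity
  have hr6 : 2 ≤ (r ^ 3) ^ 2 := by nlinarith
  have hr2 : 2 ≤ r ^ 2 := by nlinarith
  have hq : r ≤ r ^ 2 / W := by rw [le_div_iff₀ hW0]; nlinarith
  have h := level_step2 hc hg hm (X := X) (κ := κ / (2 * W))
    (P := Real.exp ((r ^ 3) ^ 2)) (Q := Real.exp ((r ^ 3) ^ 4)) (κ' := κ / W)
    (P' := Real.exp (r ^ 2)) (Q' := Real.exp (r ^ 4)) (T := T)
    (α := α * (1 - 1 / (2 * (2 * W)))) (α' := α * (1 - 1 / (2 * W)))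
    (by positivity) (by rw [div_le_one (by positivity)]; linarith) (by positivity)
    (by rw [div_le_one hW0]; linarith) hL2 (Core_two_le hr3) (Core_two_le hr)
    (Real.one_le_exp (by positivity)) hQ hT hTX (mul_nonneg hα.le (by linarith))
    (by linarith) (by nlinarith)
    (by
      rw [hd]
      refine le_trans ?_ (Real.rpow_le_rpow (Real.exp_pos _).le (Core_half hr6) (by positivity))
      rw [← Real.exp_mul]
      apply Real.exp_le_exp.mpr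
      have e : (r ^ 3) ^ 2 / 2 * (α / (4 * W) / 2) = r ^ 4 * (α * (r ^ 2 / W) / 16) := by
        field_simp
        ring
      rw [e]
      have : 1 ≤ α * (r ^ 2 / W) / 16 := by nlinarith
      nlinarith [pow_pos hr0 4])
    (by
      rw [hd, Real.log_exp]
      have h1 : r ^ 2 / 2 ≤ Real.log (Real.exp (r ^ 2) / 2) := by
        rw [Real.le_log_iff_exp_le (by positivity)]
        exact Core_half hr2
      have h2 : Real.log (8 * (r ^ 3) ^ 4 + 16) ≤ α / 32 * r := by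
        rw [Real.log_le_iff_le_exp (by positivity)]
        have : 1 ≤ r ^ 12 := one_le_pow₀ hr1
        have e : (r ^ 3) ^ 4 = r ^ 12 := by ring
        rw [e]
        linarith
      have h3 : α / (4 * W) * (r ^ 2 / 2) ≤ α / (4 * W) * Real.log (Real.exp (r ^ 2) / 2) := by
        gcongr
      have e : α / (4 * W) * (r ^ 2 / 2) = α / 8 * (r ^ 2 / W) := by field_simp; ring
      have h4 : α / 8 * r ≤ α / 8 * (r ^ 2 / W) := by gcongr
      linarith)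
  refine h.trans ?_
  have hinv : 1 / LL (Real.exp ((r ^ 3) ^ 2)) (Real.exp ((r ^ 3) ^ 4)) ≤ κ / (2 * W) := by
    rw [div_le_iff₀ (by linarith)]
    have e : κ / (2 * W) * (2 * W * (48000 / ε)) = 1 := by rw [hκdef]; field_simp
    have : 0 < κ / (2 * W) := by positivity
    nlinarith
  have hn := Core_card (r := r ^ 3) hκ hκ1 (W := 2 * W) (by linarith) (Real.exp ((r ^ 3) ^ 2))
  have hn' := Core_card (r := r) hκ hκ1 hW (Real.exp (r ^ 2))
  set n : ℝ := ((idx (κ / (2 * W)) (Real.exp ((r ^ 3) ^ 2)) (Real.exp ((r ^ 3) ^ 4))).card : ℝ)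
    with hndef
  set n' : ℝ := ((idx (κ / W) (Real.exp (r ^ 2)) (Real.exp (r ^ 4))).card : ℝ) with hn'def
  have hn0 : 0 ≤ n := by positivity
  have hn0' : 0 ≤ n' := by positivity
  have hr13 : 1 ≤ r ^ 13 := one_le_pow₀ hr1
  have hk1 : 1 ≤ r ^ 13 / κ := by rw [le_div_iff₀ hκ]; linarith
  have hn1 : n ≤ 5 * (r ^ 13 / κ) := by
    have h2 : 2 * (r ^ 3) ^ 4 * (2 * W) / κ ≤ 2 * (r ^ 3) ^ 4 * (2 * r) / κ := by gcongr
    have h3 : 2 * (r ^ 3) ^ 4 * (2 * r) / κ = 4 * (r ^ 13 / κ) := by ring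
    linarith
  have hn1' : n' ≤ 5 * (r ^ 13 / κ) := by
    have h1 : r ^ 4 ≤ r ^ 12 := pow_le_pow_right₀ hr1 (by norm_num)
    have h2 : 2 * r ^ 4 * W / κ ≤ 2 * r ^ 12 * r / κ := by gcongr
    have h3 : 2 * r ^ 12 * r / κ = 2 * (r ^ 13 / κ) := by ring
    linarith
  rw [hd]
  have hp := Core_rpow_le (t := (r ^ 3) ^ 2) (a := α / (4 * W)) hr6 hdpos.le
  have hp2 : Real.exp (-(α / (4 * W) * (r ^ 3) ^ 2 / 2)) ≤ Real.exp (-(α / 8 * r)) := by
    apply Real.exp_le_exp.mpr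
    have e : α / (4 * W) * (r ^ 3) ^ 2 / 2 = α / 8 * (r ^ 4 * (r ^ 2 / W)) := by
      field_simp
      ring
    have h1 : 1 ≤ r ^ 4 := one_le_pow₀ hr1
    have h2 : r ≤ r ^ 4 * (r ^ 2 / W) := by nlinarith
    have h3 : α / 8 * r ≤ α / 8 * (r ^ 4 * (r ^ 2 / W)) := by gcongr
    linarith
  set p : ℝ := (Real.exp ((r ^ 3) ^ 2) / 2) ^ (-(α / (4 * W))) with hpdef
  have hp0 : 0 ≤ p := by positivity
  have hp3 : p ≤ Real.exp (-(α / 8 * r)) := hp.trans hp2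
  have hE := Real.exp_pos (α / 8 * r)
  have key : 20 * n ^ 2 * n' * p ≤ ε / (48 * W) := by
    have h2 : 20 * n ^ 2 * n' * p
        ≤ 20 * (5 * (r ^ 13 / κ)) ^ 2 * (5 * (r ^ 13 / κ)) * Real.exp (-(α / 8 * r)) := by gcongr
    refine h2.trans ?_
    have h5 : ε / (48 * r) ≤ ε / (48 * W) := by gcongr
    refine le_trans ?_ h5
    rw [Real.exp_neg, ← div_eq_mul_inv, div_le_iff₀ hE]
    have h3 : 20 * (5 * (r ^ 13 / κ)) ^ 2 * (5 * (r ^ 13 / κ))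
        = ε / (48 * r) * (2500 * 48 / (κ ^ 3 * ε) * r ^ 40) := by
      field_simp
      ring
    rw [h3]
    gcongr
  have hX2 : (0 : ℝ) ≤ (X : ℝ) ^ 2 := by positivity
  have e1 : 20 * n ^ 2 * n' * (X : ℝ) ^ 2 * p = (20 * n ^ 2 * n' * p) * (X : ℝ) ^ 2 := by ring
  have e2 : 2000 * (X : ℝ) ^ 2 *
      (1 / LL (Real.exp ((r ^ 3) ^ 2)) (Real.exp ((r ^ 3) ^ 4)) + κ / (2 * W))
      ≤ 2000 * (X : ℝ) ^ 2 * (κ / (2 * W) + κ / (2 * W)) := by gcongr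
  have e3 : 2000 * (X : ℝ) ^ 2 * (κ / (2 * W) + κ / (2 * W)) + ε / (48 * W) * (X : ℝ) ^ 2
      = ε / (16 * W) * (X : ℝ) ^ 2 := by
    rw [hκdef]
    field_simp
    ring
  rw [e1]
  linarith [mul_le_mul_of_nonneg_right key hX2]

lemma Core2_meas {g : ℕ → ℂ} (hg : ∀ n, ‖g n‖ ≤ 1) {κ α β r W T l : ℝ} (hκ : 0 < κ) (hκ1 : κ ≤ 1)
    (hα : 0 < α) (hα1 : α ≤ 1 / 2) (hαβ : 6 * α ≤ β) (hW : 1 ≤ W) (hWr : W ≤ r) (hl : 2 ≤ l)
    (hlr : l ≤ r) (hrl : r ≤ l ^ 3) {X : ℕ} (hX : 1 ≤ X) (hXl : Real.log X = Real.exp l)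
    (hQ : Real.exp (r ^ 4) ≤ X) (hT : 0 < T) (hTX : T ≤ X)
    (hA : 200 ≤ α * l) (hB : 30 / κ * l ^ 15 ≤ Real.exp (α * l)) :
    (cm T).real (Core_G g κ α r W)ᶜ ≤ (X : ℝ) ^ β := by
  have hW0 : 0 < W := by linarith
  have hr : 2 ≤ r := by linarith
  have hr1 : 1 ≤ r := by linarith
  have hX1 : (1 : ℝ) ≤ X := by exact_mod_cast hX
  have hw2 : 1 / (2 * W) ≤ 1 / 2 := by
    apply one_div_le_one_div_of_le (by norm_num)
    linarith
  have hw0 : 0 ≤ 1 / (2 * W) := by positivity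
  have hr2 : 2 ≤ r ^ 2 := by nlinarith
  have h := level_meas hg (X := X) (κ := κ / W) (P := Real.exp (r ^ 2))
    (Q := Real.exp (r ^ 4)) (T := T) (α := α * (1 - 1 / (2 * W))) (by positivity)
    (by rw [div_le_one hW0]; linarith) (Core_two_le hr) hX hQ hT hTX
    (mul_nonneg hα.le (by linarith)) (by nlinarith)
    (by
      have h1 : r ^ 2 / 2 ≤ Real.log (Real.exp (r ^ 2) / 2) := by
        rw [Real.le_log_iff_exp_le (by positivity)]
        exact Core_half hr2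
      have h2 : Real.log (8 * Real.log X + 16) ≤ 23 + l := by
        rw [hXl, Real.log_le_iff_le_exp (by positivity), Real.exp_add]
        have h3 := Real.add_one_le_exp (23 : ℝ)
        have h4 : 1 ≤ Real.exp l := Real.one_le_exp (by linarith)
        nlinarith
      have h3 : α / 2 * (r ^ 2 / 2)
          ≤ α * (1 - 1 / (2 * W)) * Real.log (Real.exp (r ^ 2) / 2) := by
        apply mul_le_mul (by nlinarith) h1 (by positivity) (mul_nonneg hα.le (by linarith))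
      have h4 : l ^ 2 ≤ r ^ 2 := pow_le_pow_left₀ (by linarith) hlr 2
      have h5 : α * l ^ 2 ≤ α * r ^ 2 := by gcongr
      nlinarith)
  refine h.trans ?_
  have hn := Core_card (r := r) hκ hκ1 hW (Real.exp (r ^ 2))
  set n : ℝ := ((idx (κ / W) (Real.exp (r ^ 2)) (Real.exp (r ^ 4))).card : ℝ) with hndef
  have hr5 : r ^ 5 ≤ l ^ 15 := by
    have := pow_le_pow_left₀ (by linarith) hrl 5
    rw [← pow_mul] at this
    exact this
  have hn1 : 10 * n ≤ 30 / κ * l ^ 15 := by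
    have h0 : 1 ≤ r ^ 5 := one_le_pow₀ hr1
    have h1 : 1 ≤ r ^ 5 / κ := by rw [le_div_iff₀ hκ]; linarith
    have h2 : 2 * r ^ 4 * W / κ ≤ 2 * r ^ 4 * r / κ := by gcongr
    have h3 : 2 * r ^ 4 * r / κ = 2 * (r ^ 5 / κ) := by ring
    have h4 : r ^ 5 / κ ≤ l ^ 15 / κ := by gcongr
    have h5 : 30 / κ * l ^ 15 = 30 * (l ^ 15 / κ) := by ring
    linarith
  have hn2 : Real.exp (α * l) ≤ (X : ℝ) ^ α := by
    rw [Real.rpow_def_of_pos (by linarith), hXl]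
    apply Real.exp_le_exp.mpr
    have := Real.add_one_le_exp l
    nlinarith
  have h5 : (X : ℝ) ^ (5 * (α * (1 - 1 / (2 * W)))) ≤ (X : ℝ) ^ (5 * α) :=
    Real.rpow_le_rpow_of_exponent_le hX1 (by nlinarith)
  have h6 : (X : ℝ) ^ α * (X : ℝ) ^ (5 * α) ≤ (X : ℝ) ^ β := by
    rw [← Real.rpow_add (by linarith)]
    exact Real.rpow_le_rpow_of_exponent_le hX1 (by linarith)
  refine le_trans ?_ h6
  exact mul_le_mul (by linarith) h5 (by positivity) (by positivity)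

lemma Core2_small {ε β : ℝ} (hε : 0 < ε) (hε1 : ε ≤ 1) (hβ : 0 < β) : ∃ h : ℝ, 1 ≤ h ∧
    ∀ η : ℝ, 0 < η → ∀ᶠ X : ℕ in atTop, ∀ c g : ℕ → ℂ, (∀ n, ‖c n‖ ≤ 1) → (∀ n, ‖g n‖ ≤ 1) →
      (∀ p : ℕ, p.Prime → (p : ℝ) ≤ (X : ℝ) ^ η → ∀ m : ℕ, ¬ p ∣ m → g (p * m) = c p * g m) →
      ∃ U : Set ℝ, MeasurableSet U ∧ (cm (X / h)).real U ≤ (X : ℝ) ^ β ∧
        MS (X / h) Uᶜ (DP (Icc 1 X) g) ≤ ε * (X : ℝ) ^ 2 := by
  set α : ℝ := min (β / 6) (1 / 2) with hαdef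
  have hα : 0 < α := lt_min (by positivity) (by norm_num)
  have hα1 : α ≤ 1 / 2 := min_le_right _ _
  have hαβ : 6 * α ≤ β := by
    have : α ≤ β / 6 := min_le_left _ _
    linarith
  set κ : ℝ := ε / 48000 with hκdef
  have hκ : 0 < κ := by positivity
  have hκ1 : κ ≤ 1 := by rw [hκdef]; linarith
  have hev : ∀ᶠ r : ℝ in atTop, 2 ≤ r ∧ 50 + 48000 / ε ≤ Real.log r ∧ 16 ≤ α * r ∧
      20 * 9 * 24 / (κ ^ 2 * ε) * r ^ 8 ≤ Real.exp (α / 2 * r) ∧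
      24 * r ^ 12 ≤ Real.exp (α / 32 * r) ∧
      2500 * 48 / (κ ^ 3 * ε) * r ^ 40 ≤ Real.exp (α / 8 * r) := by
    filter_upwards [eventually_ge_atTop (2 : ℝ),
      Real.tendsto_log_atTop.eventually_ge_atTop (50 + 48000 / ε),
      (tendsto_id.const_mul_atTop hα).eventually_ge_atTop 16,
      Core_poly_exp (20 * 9 * 24 / (κ ^ 2 * ε)) 8 (c := α / 2) (by positivity),
      Core_poly_exp 24 12 (c := α / 32) (by positivity),
      Core_poly_exp (2500 * 48 / (κ ^ 3 * ε)) 40 (c := α / 8) (by positivity)]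
      with r h1 h2 h3 h4 h5 h6
    exact ⟨h1, h2, h3, h4, h5, h6⟩
  obtain ⟨r, hr⟩ := eventually_atTop.mp hev
  obtain ⟨hr2, hrlog, -, hrC, -, -⟩ := hr r le_rfl
  have hr1 : 1 ≤ r := by linarith
  refine ⟨Real.exp (r ^ 4), Real.one_le_exp (by positivity), fun η hη => ?_⟩
  have hll : Tendsto (fun X : ℕ => Real.log (Real.log X)) atTop atTop :=
    Real.tendsto_log_atTop.comp (Real.tendsto_log_atTop.comp tendsto_natCast_atTop_atTop)
  have hevl : ∀ᶠ l : ℝ in atTop, r ≤ l ∧ 200 ≤ α * l ∧ 30 / κ * l ^ 15 ≤ Real.exp (α * l) ∧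
      1 * l ^ 12 ≤ Real.exp (1 * l) ∧ 1 / η * l ^ 12 ≤ Real.exp (1 * l) := by
    filter_upwards [eventually_ge_atTop r,
      (tendsto_id.const_mul_atTop hα).eventually_ge_atTop 200,
      Core_poly_exp (30 / κ) 15 hα, Core_poly_exp 1 12 (c := 1) one_pos,
      Core_poly_exp (1 / η) 12 (c := 1) one_pos] with l h1 h2 h3 h4 h5
    exact ⟨h1, h2, h3, h4, h5⟩
  filter_upwards [hll.eventually hevl, eventually_ge_atTop 2] with X hl hX2 c g hc hg hmul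
  obtain ⟨hl1, hl2, hl3, hl4, hl5⟩ := hl
  set l : ℝ := Real.log (Real.log X) with hldef
  have hX1 : (1 : ℝ) < X := by exact_mod_cast hX2
  have hXl : Real.log X = Real.exp l := (Real.exp_log (Real.log_pos hX1)).symm
  have hl0 : 2 ≤ l := hr2.trans hl1
  have hQ : ∀ s : ℝ, 0 ≤ s → s ≤ l ^ 3 → Real.exp (s ^ 4) ≤ X := by
    intro s hs0 hs
    rw [← Real.le_log_iff_exp_le (by linarith), hXl]
    have := pow_le_pow_left₀ hs0 hs 4
    rw [← pow_mul] at this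
    rw [one_mul, one_mul] at hl4
    exact this.trans hl4
  have hM : ∀ s : ℝ, 0 ≤ s → s ≤ l ^ 3 → ∀ p ∈ primesIn (Real.exp (s ^ 2)) (Real.exp (s ^ 4)),
      ∀ m : ℕ, ¬ p ∣ m → g (p * m) = c p * g m := by
    intro s hs0 hs p hp
    obtain ⟨hp1, -, hp2⟩ := mem_primesIn.1 hp
    refine hmul p hp1 (hp2.trans ?_)
    rw [Real.rpow_def_of_pos (by linarith), hXl]
    apply Real.exp_le_exp.mpr
    have := pow_le_pow_left₀ hs0 hs 4
    rw [← pow_mul] at this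
    rw [one_mul, div_mul_eq_mul_div, one_mul, div_le_iff₀ hη] at hl5
    exact this.trans hl5
  have hll3 : l ≤ l ^ 3 := le_self_pow₀ (by linarith) (by norm_num)
  set T : ℝ := X / Real.exp (r ^ 4) with hTdef
  have hT : 0 < T := by positivity
  have hTX : T ≤ X := div_le_self (by positivity) (Real.one_le_exp (by positivity))
  have hW : ∀ j : ℕ, (2 : ℝ) ^ j ≤ r ^ 3 ^ j := by
    intro j
    have h1 : (2 : ℝ) ^ j ≤ r ^ j := pow_le_pow_left₀ (by norm_num) hr2 j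
    exact h1.trans (pow_le_pow_right₀ hr1 (Nat.lt_pow_self (by norm_num)).le)
  have hge : ∀ j : ℕ, r ≤ r ^ 3 ^ j := fun j => le_self_pow₀ hr1 (by positivity)
  have hsucc : ∀ j : ℕ, r ^ 3 ^ (j + 1) = (r ^ 3 ^ j) ^ 3 := by
    intro j
    rw [pow_succ 3 j, pow_mul]
  have hTrig := Trig.DP (Icc 1 X) g
  have hind : ∀ j : ℕ, r ^ 3 ^ j ≤ l ^ 3 →
      MS T (Core_G c κ α (r ^ 3 ^ j) (2 ^ j)) (DP (Icc 1 X) g)
        ≤ (ε / 4 - ε / (8 * 2 ^ j)) * (X : ℝ) ^ 2 := by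
    intro j
    induction j with
    | zero =>
      intro hj
      simp only [pow_zero, pow_one] at hj ⊢
      have := Core2_first hc hg (hM r (by linarith) hj) hε hε1 hα hr2 hrlog hrC (hQ r (by linarith) hj)
      refine this.trans (le_of_eq ?_)
      ring
    | succ j ih =>
      intro hj
      rw [hsucc] at hj ⊢
      obtain ⟨hs2, -, hsA, -, hsB, hsC⟩ := hr _ (hge j)
      have hs3 : r ^ 3 ^ j ≤ (r ^ 3 ^ j) ^ 3 := le_self_pow₀ (by linarith) (by norm_num)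
      have h1 := ih (hs3.trans hj)
      have hlog : (2 : ℝ) ^ j * (50 + 48000 / ε) ≤ Real.log (r ^ 3 ^ j) := by
        rw [Real.log_pow]
        push_cast
        have : (2 : ℝ) ^ j ≤ 3 ^ j := pow_le_pow_left₀ (by norm_num) (by norm_num) j
        exact mul_le_mul this hrlog (by positivity) (by positivity)
      have h2 := Core2_step hc hg (hM _ (by positivity) hj) hε hε1 hα hα1 hs2
        (one_le_pow₀ (by norm_num)) (hW j) hlog hsA hsB hsC (hQ _ (by positivity) hj) hT hTX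
      have e : (2 : ℝ) ^ (j + 1) = 2 * 2 ^ j := by ring
      rw [e]
      have h3 := MS_mono hTrig T (U := Core_G c κ α ((r ^ 3 ^ j) ^ 3) (2 * 2 ^ j))
        (V := (Core_G c κ α ((r ^ 3 ^ j) ^ 3) (2 * 2 ^ j) \ Core_G c κ α (r ^ 3 ^ j) (2 ^ j)) ∪
          Core_G c κ α (r ^ 3 ^ j) (2 ^ j)) (by
            intro u hu
            by_cases h : u ∈ Core_G c κ α (r ^ 3 ^ j) (2 ^ j)
            · exact Or.inr h
            · exact Or.inl ⟨hu, h⟩)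
      have h4 := MS_union_le hTrig T
        (Core_G c κ α ((r ^ 3 ^ j) ^ 3) (2 * 2 ^ j) \ Core_G c κ α (r ^ 3 ^ j) (2 ^ j))
        (Core_G c κ α (r ^ 3 ^ j) (2 ^ j))
      have e2 : ε / (16 * 2 ^ j) * (X : ℝ) ^ 2 + (ε / 4 - ε / (8 * 2 ^ j)) * (X : ℝ) ^ 2
          = (ε / 4 - ε / (8 * (2 * 2 ^ j))) * (X : ℝ) ^ 2 := by
        field_simp
        ring
      linarith
  have hex : ∃ j : ℕ, l ≤ r ^ 3 ^ j := by
    obtain ⟨j, hj⟩ := pow_unbounded_of_one_lt l (show (1 : ℝ) < 2 by norm_num)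
    exact ⟨j, hj.le.trans (hW j)⟩
  have hJ : ∃ J : ℕ, l ≤ r ^ 3 ^ J ∧ r ^ 3 ^ J ≤ l ^ 3 := by
    classical
    refine ⟨Nat.find hex, Nat.find_spec hex, ?_⟩
    rcases hf : Nat.find hex with _ | j
    · simp only [pow_zero, pow_one]
      linarith
    · have hm := Nat.find_min hex (m := j) (by omega)
      rw [hsucc]
      exact pow_le_pow_left₀ (by positivity) (not_le.mp hm).le 3
  obtain ⟨J, hJ1, hJ2⟩ := hJ
  have hm := Core2_meas hc hκ hκ1 hα hα1 hαβ (W := 2 ^ J) (one_le_pow₀ (by norm_num)) (hW J) hl0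
    hJ1 hJ2 (by omega) hXl (hQ _ (by positivity) hJ2) hT hTX hl2 hl3
  refine ⟨_, (measurableSet_Good _ _ _ _ _).compl, hm, ?_⟩
  rw [compl_compl]
  have h2 := hind J hJ2
  have h4 : 0 ≤ ε / (8 * 2 ^ J) * (X : ℝ) ^ 2 := by positivity
  have h5 : 0 ≤ ε * (X : ℝ) ^ 2 := by positivity
  change MS T (Core_G c κ α (r ^ 3 ^ J) (2 ^ J)) (DP (Icc 1 X) g) ≤ _
  nlinarith

theorem core2 {ε β : ℝ} (hε : 0 < ε) (hβ : 0 < β) : ∃ h : ℝ, 1 ≤ h ∧
    ∀ η : ℝ, 0 < η → ∀ᶠ X : ℕ in atTop, ∀ c g : ℕ → ℂ, (∀ n, ‖c n‖ ≤ 1) → (∀ n, ‖g n‖ ≤ 1) →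
      (∀ p : ℕ, p.Prime → (p : ℝ) ≤ (X : ℝ) ^ η → ∀ m : ℕ, ¬ p ∣ m → g (p * m) = c p * g m) →
      ∃ U : Set ℝ, MeasurableSet U ∧ (cm (X / h)).real U ≤ (X : ℝ) ^ β ∧
        MS (X / h) Uᶜ (DP (Icc 1 X) g) ≤ ε * (X : ℝ) ^ 2 := by
  obtain ⟨h, h1, h2⟩ := Core2_small (lt_min hε one_pos) (min_le_right ε 1) hβ
  refine ⟨h, h1, fun η hη => (h2 η hη).mono fun X hX c g hc hg hm => ?_⟩
  obtain ⟨U, u1, u2, u3⟩ := hX c g hc hg hm
  exact ⟨U, u1, u2, u3.trans (mul_le_mul_of_nonneg_right (min_le_left _ _) (by positivity))⟩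

end Pool.Agent.Lib.MR
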