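import Pool.Agent.Lib.MR.Basic
import Pool.Agent.Lib.ANT.Mertens

/-!
# Ranges of primes cut into short pieces
-/

set_option autoImplicit false
open Filter Topology Finset MeasureTheory

namespace Pool.Agent.Lib.MR

lemma mem_primesIn {P Q : ℝ} {p : ℕ} : p ∈ primesIn P Q ↔ p.Prime ∧ P ≤ p ∧ (p : ℝ) ≤ Q := by
  simp only [primesIn, mem_filter, mem_Icc]
  constructor
  · rintro ⟨⟨h1, h2⟩, h3, h4⟩
    exact ⟨h3, h4, (Nat.le_floor_iff' h3.ne_zero).1 h2⟩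
  · rintro ⟨h1, h2, h3⟩
    exact ⟨⟨h1.one_le, (Nat.le_floor_iff' h1.ne_zero).2 h3⟩, h1, h2⟩

lemma lev_spec {κ : ℝ} (hκ : 0 < κ) {p : ℕ} (hp : 1 ≤ p) :
    (1 + κ) ^ lev κ p ≤ p ∧ (p : ℝ) < (1 + κ) ^ (lev κ p + 1) := by
  have hl : 0 < Real.log (1 + κ) := Real.log_pos (by linarith)
  have hp' : (0 : ℝ) < p := by exact_mod_cast hp
  have h0 : 0 ≤ Real.log p / Real.log (1 + κ) := div_nonneg (Real.log_natCast_nonneg p) hl.le
  constructor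
  · rw [← Real.log_le_log_iff (by positivity) hp', Real.log_pow, ← le_div_iff₀ hl]
    exact Nat.floor_le h0
  · rw [← Real.log_lt_log_iff hp' (by positivity), Real.log_pow, ← div_lt_iff₀ hl]
    push_cast
    exact Nat.lt_floor_add_one _

lemma mem_piece {κ P Q : ℝ} (hκ : 0 < κ) (hκ1 : κ ≤ 1) {v p : ℕ} (hp : p ∈ piece κ P Q v) :
    p.Prime ∧ (1 + κ) ^ v ≤ p ∧ (p : ℝ) ≤ 2 * (1 + κ) ^ v := by
  obtain ⟨h1, rfl⟩ := mem_filter.1 hp
  have h2 := (mem_primesIn.1 h1).1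
  obtain ⟨h3, h4⟩ := lev_spec hκ h2.one_le
  refine ⟨h2, h3, h4.le.trans ?_⟩
  rw [pow_succ]
  have : 0 < (1 + κ) ^ lev κ p := by positivity
  nlinarith

lemma mem_idx {κ P Q : ℝ} (hκ : 0 < κ) (hκ1 : κ ≤ 1) {v : ℕ} (hv : v ∈ idx κ P Q) :
    P / 2 ≤ (1 + κ) ^ v ∧ (1 + κ) ^ v ≤ Q := by
  obtain ⟨p, hp, rfl⟩ := mem_image.1 hv
  obtain ⟨-, h2, h3⟩ := mem_piece hκ hκ1 (v := lev κ p) (mem_filter.2 ⟨hp, rfl⟩)
  obtain ⟨-, h4, h5⟩ := mem_primesIn.1 hp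
  constructor <;> linarith

lemma card_idx_le {κ Q : ℝ} (hκ : 0 < κ) (hκ1 : κ ≤ 1) (P : ℝ) (hQ : 1 ≤ Q) :
    ((idx κ P Q).card : ℝ) ≤ 2 * Real.log Q / κ + 1 := by
  have hl : κ / 2 ≤ Real.log (1 + κ) := by
    have h := Real.one_sub_inv_le_log_of_pos (x := 1 + κ) (by linarith)
    refine le_trans ?_ h
    have : 1 - (1 + κ)⁻¹ = κ / (1 + κ) := by field_simp; ring
    rw [this]
    gcongr
    linarith
  have h0 : 0 ≤ 2 * Real.log Q / κ := by have := Real.log_nonneg hQ; positivity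
  have hs : idx κ P Q ⊆ range (⌊2 * Real.log Q / κ⌋₊ + 1) := fun v hv => by
    rw [mem_range, Nat.lt_add_one_iff, Nat.le_floor_iff h0, le_div_iff₀ hκ]
    have h := Real.log_le_log (by positivity) (mem_idx hκ hκ1 hv).2
    rw [Real.log_pow] at h
    nlinarith [mul_le_mul_of_nonneg_left hl (Nat.cast_nonneg v)]
  calc ((idx κ P Q).card : ℝ) ≤ (⌊2 * Real.log Q / κ⌋₊ + 1 : ℕ) := by
        exact_mod_cast (card_le_card hs).trans_eq (card_range _)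
    _ ≤ _ := by push_cast; linarith [Nat.floor_le h0]

lemma measurableSet_Good (g : ℕ → ℂ) (κ P Q α : ℝ) : MeasurableSet (Good g κ P Q α) := by
  have : Good g κ P Q α
      = ⋂ v ∈ idx κ P Q, {u | ‖DP (piece κ P Q v) g u‖ ≤ ((1 + κ) ^ v) ^ (1 - α)} := by
    ext u; simp [Good]
  rw [this]
  exact (isClosed_biInter fun v _ =>
    isClosed_le (Trig.DP _ _).1.norm continuous_const).measurableSet

lemma LL_ge {P Q : ℝ} (hP : 3 ≤ P) (hPQ : P + 2 ≤ Q) :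
    Real.log (Real.log Q) - Real.log (Real.log P) - 50 ≤ LL P Q := by
  have h1 : P ≤ ⌈P⌉₊ := Nat.le_ceil P
  have h2 : (⌈P⌉₊ : ℝ) < P + 1 := Nat.ceil_lt_add_one (by linarith)
  have h3 : Q < ⌊Q⌋₊ + 1 := Nat.lt_floor_add_one Q
  have h4 : (⌊Q⌋₊ : ℝ) ≤ Q := Nat.floor_le (by linarith)
  have hy : 2 ≤ ⌈P⌉₊ := by exact_mod_cast (by linarith : (2 : ℝ) ≤ ⌈P⌉₊)
  have hyz : ⌈P⌉₊ ≤ ⌊Q⌋₊ := by exact_mod_cast (by linarith : (⌈P⌉₊ : ℝ) ≤ ⌊Q⌋₊)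
  have h := (abs_le.1 (ANT.abs_sum_inv_prime_Ioc_sub_le _ _ hy hyz)).1
  have hs : ∑ p ∈ (Ioc ⌈P⌉₊ ⌊Q⌋₊).filter Nat.Prime, (p : ℝ)⁻¹ ≤ LL P Q := by
    refine sum_le_sum_of_subset_of_nonneg (fun p hp => ?_) fun _ _ _ => by positivity
    obtain ⟨h5, h6⟩ := mem_filter.1 hp
    obtain ⟨h7, h8⟩ := mem_Ioc.1 h5
    have h9 : (⌈P⌉₊ : ℝ) < p := by exact_mod_cast h7
    have h10 : (p : ℝ) ≤ ⌊Q⌋₊ := by exact_mod_cast h8
    exact mem_primesIn.2 ⟨h6, by linarith, by linarith⟩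
  have l2 := Real.log_two_lt_d9
  have l3 : 1 ≤ Real.log P := by
    rw [Real.le_log_iff_exp_le (by linarith)]
    linarith [Real.exp_one_lt_d9]
  have l4 : Real.log P ≤ Real.log ⌈P⌉₊ := Real.log_le_log (by linarith) h1
  have l5 : 48 / Real.log ⌈P⌉₊ ≤ 48 := div_le_self (by norm_num) (by linarith)
  have l6 : Real.log (Real.log ⌈P⌉₊) ≤ Real.log 2 + Real.log (Real.log P) := by
    rw [← Real.log_mul (by norm_num) (by linarith)]
    refine Real.log_le_log (by linarith) ?_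
    have : Real.log ⌈P⌉₊ ≤ Real.log (P ^ 2) := Real.log_le_log (by linarith) (by nlinarith)
    rwa [Real.log_pow] at this
  have l7 : Real.log (Real.log Q) ≤ Real.log 2 + Real.log (Real.log ⌊Q⌋₊) := by
    have hz : 0 < Real.log ⌊Q⌋₊ := Real.log_pos (by linarith)
    rw [← Real.log_mul (by norm_num) hz.ne']
    refine Real.log_le_log (Real.log_pos (by linarith)) ?_
    have : Real.log Q ≤ Real.log ((⌊Q⌋₊ : ℝ) ^ 2) := Real.log_le_log (by linarith) (by nlinarith)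
    rwa [Real.log_pow] at this
  linarith

end Pool.Agent.Lib.MR
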