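import Pool.Agent.Lib.MR.Kernel
import Pool.Agent.Lib.MR.Pieces
import Pool.Agent.Lib.MR.Gen
import Pool.Agent.Lib.ANT.Katai

/-!
# The bilinear decomposition
-/

set_option autoImplicit false
open Filter Topology Finset MeasureTheory

namespace Pool.Agent.Lib.MR

/-- Second moment of the number of prime squares dividing `n`. -/
lemma decomp_sq_count (S : Finset ℕ) (hS : ∀ p ∈ S, p.Prime) (N : ℕ) :
    ∑ n ∈ Icc 1 N, (∑ p ∈ S, if p * p ∣ n then (1 : ℝ) else 0) ^ 2 ≤ 2 * N := by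
  set s : ℝ := ∑ p ∈ S, ((p : ℝ)⁻¹) ^ 2 with hs
  have hs1 : s ≤ 1 := ANT.sum_inv_sq_le_one S fun p hp => (hS p hp).two_le
  have hs0 : 0 ≤ s := Finset.sum_nonneg fun p _ => by positivity
  have hN0 : (0 : ℝ) ≤ N := by positivity
  have h2 : ∑ n ∈ Icc 1 N, (∑ p ∈ S, if p * p ∣ n then (1 : ℝ) else 0) ^ 2 ≤
      N * s + N * (s * s) := by
    simp_rw [sq (∑ p ∈ S, if p * p ∣ _ then (1 : ℝ) else 0), Finset.sum_mul_sum]
    rw [Finset.sum_comm, hs, Finset.sum_mul_sum, Finset.mul_sum, Finset.mul_sum,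
      ← Finset.sum_add_distrib]
    refine Finset.sum_le_sum fun p hp => ?_
    rw [Finset.sum_comm]
    have hp0 : (0 : ℝ) < p := by exact_mod_cast (hS p hp).pos
    have h3 : ∀ q ∈ S, ∑ n ∈ Icc 1 N,
        (if p * p ∣ n then (1 : ℝ) else 0) * (if q * q ∣ n then 1 else 0) ≤
        (if q = p then (N : ℝ) * ((p : ℝ)⁻¹) ^ 2 else 0) +
          N * (((p : ℝ)⁻¹) ^ 2 * ((q : ℝ)⁻¹) ^ 2) := by
      intro q hq
      have hq0 : (0 : ℝ) < q := by exact_mod_cast (hS q hq).pos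
      by_cases hqp : q = p
      · subst hqp
        rw [if_pos rfl]
        have : ∑ n ∈ Icc 1 N, (if q * q ∣ n then (1 : ℝ) else 0) * (if q * q ∣ n then 1 else 0) =
            (N / (q * q) : ℕ) := by
          rw [← ANT.card_Icc_dvd]
          exact Finset.sum_congr rfl fun n _ => by split_ifs <;> simp
        rw [this]
        have h4 : ((N / (q * q) : ℕ) : ℝ) ≤ N / (q * q : ℕ) := Nat.cast_div_le
        push_cast at h4
        rw [div_eq_mul_inv, mul_inv, ← sq ((q : ℝ)⁻¹)] at h4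
        have : (0 : ℝ) ≤ N * (((q : ℝ)⁻¹) ^ 2 * ((q : ℝ)⁻¹) ^ 2) := by positivity
        linarith
      · rw [if_neg hqp, zero_add]
        have hc0 : p.Coprime q := (Nat.coprime_primes (hS p hp) (hS q hq)).2 (Ne.symm hqp)
        have hc : (p * p).Coprime (q * q) :=
          Nat.Coprime.mul_left (hc0.mul_right hc0) (hc0.mul_right hc0)
        have : ∑ n ∈ Icc 1 N, (if p * p ∣ n then (1 : ℝ) else 0) * (if q * q ∣ n then 1 else 0) =
            (N / (p * p * (q * q)) : ℕ) := by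
          rw [← ANT.card_Icc_dvd]
          refine Finset.sum_congr rfl fun n _ => ?_
          by_cases h5 : p * p ∣ n
          · by_cases h6 : q * q ∣ n
            · simp [h5, h6, hc.mul_dvd_of_dvd_of_dvd h5 h6]
            · have : ¬ p * p * (q * q) ∣ n := fun h => h6 (dvd_of_mul_left_dvd h)
              simp [h6, this]
          · have : ¬ p * p * (q * q) ∣ n := fun h => h5 (dvd_of_mul_right_dvd h)
            simp [h5, this]
        rw [this]
        have h4 : ((N / (p * p * (q * q)) : ℕ) : ℝ) ≤ N / (p * p * (q * q) : ℕ) := Nat.cast_div_le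
        push_cast at h4
        rwa [div_eq_mul_inv, mul_inv, mul_inv, mul_inv, ← sq ((p : ℝ)⁻¹), ← sq ((q : ℝ)⁻¹)] at h4
    refine (Finset.sum_le_sum h3).trans (le_of_eq ?_)
    rw [Finset.sum_add_distrib, Finset.sum_ite_eq' S p, if_pos hp, Finset.mul_sum]
  have h5 : s * s ≤ 1 := mul_le_one₀ hs1 hs0 hs1
  nlinarith [mul_le_mul_of_nonneg_left hs1 hN0, mul_le_mul_of_nonneg_left h5 hN0]

/-- Collecting the coefficients of a bilinear sum. -/
lemma decomp_collect (S : Finset ℕ) (hS : ∀ p ∈ S, p.Prime) (M : ℕ → ℕ) (N : ℕ)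
    (hM : ∀ p ∈ S, p * M p ≤ N) (c g : ℕ → ℂ) (u : ℝ) :
    ∑ p ∈ S, c p * nit p u * DP (Icc 1 (M p)) g u =
      DP (Icc 1 N) (fun n => ∑ p ∈ S, if p ∣ n ∧ n / p ≤ M p then c p * g (n / p) else 0) u := by
  unfold DP
  simp_rw [Finset.sum_mul]
  rw [Finset.sum_comm]
  refine Finset.sum_congr rfl fun p hp => ?_
  have hp0 : 0 < p := (hS p hp).pos
  have h7 := ANT.sum_Icc_ite_dvd hp0 N
    fun n => if n / p ≤ M p then c p * g (n / p) * nit n u else 0
  have hsub : Icc 1 (M p) = (Icc 1 (N / p)).filter (· ≤ M p) := by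
    ext m
    have : M p ≤ N / p := (Nat.le_div_iff_mul_le hp0).2 (by rw [mul_comm]; exact hM p hp)
    simp only [Finset.mem_Icc, Finset.mem_filter]
    omega
  calc c p * nit p u * ∑ n ∈ Icc 1 (M p), g n * nit n u
      = ∑ m ∈ Icc 1 (N / p),
          if p * m / p ≤ M p then c p * g (p * m / p) * nit (p * m) u else 0 := by
        rw [hsub, Finset.sum_filter, Finset.mul_sum]
        refine Finset.sum_congr rfl fun m hm => ?_
        have hm0 : m ≠ 0 := by
          have := (Finset.mem_Icc.1 hm).1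
          omega
        rw [Nat.mul_div_cancel_left _ hp0, nit_mul hp0.ne' hm0]
        split_ifs
        · ring
        · simp
    _ = _ := h7.symm
    _ = _ := by
        refine Finset.sum_congr rfl fun n _ => ?_
        by_cases h1 : p ∣ n
        · by_cases h2 : n / p ≤ M p
          · simp [h1, h2]
          · simp [h1, h2]
        · simp [h1]

/-- The approximation as a sum over the primes. -/
lemma decomp_approx (c g : ℕ → ℂ) (X : ℕ) (κ P Q u : ℝ) :
    approx2 c g X κ P Q u = (((LL P Q)⁻¹ : ℝ) : ℂ) * ∑ p ∈ primesIn P Q,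
      c p * nit p u * DP (Icc 1 ⌊(X : ℝ) / (1 + κ) ^ lev κ p⌋₊) g u := by
  unfold approx2
  congr 1
  have hmaps : ∀ p ∈ primesIn P Q, lev κ p ∈ idx κ P Q := fun p hp =>
    Finset.mem_image_of_mem _ hp
  rw [← Finset.sum_fiberwise_of_maps_to hmaps]
  refine Finset.sum_congr rfl fun v _ => ?_
  rw [DP, Finset.sum_mul]
  refine Finset.sum_congr rfl fun p hp => ?_
  rw [(Finset.mem_filter.1 hp).2]

/-- The size of one collected coefficient. -/
lemma decomp_coeff {c g : ℕ → ℂ} (hc : ∀ n, ‖c n‖ ≤ 1) (hg : ∀ n, ‖g n‖ ≤ 1)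
    (S : Finset ℕ) (hS : ∀ p ∈ S, p.Prime)
    (hm : ∀ p ∈ S, ∀ m : ℕ, ¬ p ∣ m → g (p * m) = c p * g m) (M : ℕ → ℕ) (X Y : ℕ)
    (h1 : ∀ p ∈ S, X / p ≤ M p) (h2 : ∀ p ∈ S, p * M p ≤ Y) (L : ℝ) (n : ℕ) :
    ‖(L : ℂ) * (if n ≤ X then g n else 0) -
        ∑ p ∈ S, if p ∣ n ∧ n / p ≤ M p then c p * g (n / p) else 0‖ ^ 2 ≤
      2 * ((∑ p ∈ S, if p ∣ n then (1 : ℝ) else 0) - L) ^ 2 +
        8 * (∑ p ∈ S, if p * p ∣ n then (1 : ℝ) else 0) ^ 2 +
        2 * L ^ 2 * (if n ∈ Ioc X Y then 1 else 0) := by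
  set om : ℝ := ∑ p ∈ S, if p ∣ n then (1 : ℝ) else 0 with hom
  set w : ℝ := ∑ p ∈ S, if p * p ∣ n then (1 : ℝ) else 0 with hw
  have hw0 : 0 ≤ w := Finset.sum_nonneg fun p _ => by split_ifs <;> norm_num
  have hgg : ∀ a b, ‖c a * g b‖ ≤ 1 := fun a b => by
    rw [norm_mul]
    exact mul_le_one₀ (hc a) (norm_nonneg _) (hg b)
  by_cases hn : n ≤ X
  · rw [if_pos hn, if_neg (fun h => absurd (Finset.mem_Ioc.1 h).1 (not_lt.2 hn))]
    have e : (L : ℂ) * g n - ∑ p ∈ S, (if p ∣ n ∧ n / p ≤ M p then c p * g (n / p) else 0) =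
        ((L - om : ℝ) : ℂ) * g n + ∑ p ∈ S, (if p ∣ n then g n - c p * g (n / p) else 0) := by
      rw [hom]
      push_cast
      rw [sub_mul, Finset.sum_mul, sub_add, ← Finset.sum_sub_distrib]
      congr 1
      refine Finset.sum_congr rfl fun p hp => ?_
      have h3 : n / p ≤ M p := (Nat.div_le_div_right hn).trans (h1 p hp)
      by_cases h4 : p ∣ n
      · simp [h3, h4]
      · simp [h4]
    have b1 : ‖((L - om : ℝ) : ℂ) * g n‖ ≤ |L - om| := by
      rw [norm_mul, Complex.norm_real]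
      exact mul_le_of_le_one_right (norm_nonneg _) (hg n)
    have b2 : ‖∑ p ∈ S, (if p ∣ n then g n - c p * g (n / p) else 0)‖ ≤ 2 * w := by
      rw [hw, Finset.mul_sum]
      refine (norm_sum_le _ _).trans (Finset.sum_le_sum fun p hp => ?_)
      by_cases h4 : p ∣ n
      · rw [if_pos h4]
        by_cases h5 : p * p ∣ n
        · rw [if_pos h5]
          refine (norm_sub_le _ _).trans ?_
          linarith [hg n, hgg p (n / p)]
        · rw [if_neg h5]
          obtain ⟨m, rfl⟩ := h4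
          have h6 : ¬ p ∣ m := fun h => h5 (Nat.mul_dvd_mul_left p h)
          rw [Nat.mul_div_cancel_left _ (hS p hp).pos, hm p hp m h6]
          simp
      · rw [if_neg h4, norm_zero]
        split_ifs <;> norm_num
    rw [e]
    have b3 := (norm_add_le _ _).trans (add_le_add b1 b2)
    have b4 := pow_le_pow_left₀ (norm_nonneg _) b3 2
    have b5 : |L - om| ^ 2 = (om - L) ^ 2 := by rw [sq_abs]; ring
    nlinarith [sq_nonneg (|L - om| - 2 * w)]
  · rw [if_neg hn, mul_zero, zero_sub, norm_neg]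
    by_cases hY : n ≤ Y
    · rw [if_pos (Finset.mem_Ioc.2 ⟨not_le.1 hn, hY⟩)]
      have b2 : ‖∑ p ∈ S, (if p ∣ n ∧ n / p ≤ M p then c p * g (n / p) else 0)‖ ≤ om := by
        rw [hom]
        refine (norm_sum_le _ _).trans (Finset.sum_le_sum fun p _ => ?_)
        by_cases h4 : p ∣ n ∧ n / p ≤ M p
        · rw [if_pos h4, if_pos h4.1]
          exact hgg _ _
        · rw [if_neg h4, norm_zero]
          split_ifs <;> norm_num
      have b4 := pow_le_pow_left₀ (norm_nonneg _) b2 2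
      nlinarith [sq_nonneg (om - 2 * L), sq_nonneg w]
    · have e : ∑ p ∈ S, (if p ∣ n ∧ n / p ≤ M p then c p * g (n / p) else 0) = 0 := by
        refine Finset.sum_eq_zero fun p hp => if_neg fun h => hY ?_
        calc n = p * (n / p) := (Nat.mul_div_cancel' h.1).symm
          _ ≤ p * M p := Nat.mul_le_mul_left _ h.2
          _ ≤ Y := h2 p hp
      rw [e, norm_zero, if_neg fun h => hY (Finset.mem_Ioc.1 h).2]
      nlinarith [sq_nonneg (om - L), sq_nonneg w]

/-- The decomposition for separate prime coefficients `c`. -/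
theorem decomp2 {c g : ℕ → ℂ} (hc : ∀ n, ‖c n‖ ≤ 1) (hg : ∀ n, ‖g n‖ ≤ 1)
    {X : ℕ} {κ P Q T : ℝ}
    (hm : ∀ p ∈ primesIn P Q, ∀ m : ℕ, ¬ p ∣ m → g (p * m) = c p * g m)
    (hκ : 0 < κ) (hκ1 : κ ≤ 1) (hL : 1 ≤ LL P Q) (hQ : Q ≤ X)
    (hT : 0 < T) (hTX : T ≤ X) :
    MS T Set.univ (fun u => DP (Icc 1 X) g u - approx2 c g X κ P Q u)
      ≤ 1000 * (X : ℝ) ^ 2 * (1 / LL P Q + κ) := by
  set S := primesIn P Q with hSdef
  set L := LL P Q with hLdef
  have hL0 : 0 < L := by linarith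
  have hS : ∀ p ∈ S, p.Prime := fun p hp => (mem_primesIn.1 hp).1
  set M : ℕ → ℕ := fun p => ⌊(X : ℝ) / (1 + κ) ^ lev κ p⌋₊ with hM
  set Y : ℕ := ⌊(1 + κ) * X⌋₊ with hY
  have hX0 : (0 : ℝ) ≤ X := by positivity
  have hYle : (Y : ℝ) ≤ (1 + κ) * X := Nat.floor_le (by positivity)
  have hXY : X ≤ Y := Nat.le_floor (by nlinarith)
  have hY2 : Y ≤ 2 * X := by
    have : (Y : ℝ) ≤ (2 * X : ℕ) := by
      push_cast
      nlinarith
    exact_mod_cast this
  have h1 : ∀ p ∈ S, X / p ≤ M p := by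
    intro p hp
    have hl := (lev_spec hκ (hS p hp).one_le).1
    refine Nat.le_floor (Nat.cast_div_le.trans ?_)
    exact div_le_div_of_nonneg_left hX0 (by positivity) hl
  have h2 : ∀ p ∈ S, p * M p ≤ Y := by
    intro p hp
    have hl := (lev_spec hκ (hS p hp).one_le).2
    refine Nat.le_floor ?_
    have h3 : (M p : ℝ) ≤ (X : ℝ) / (1 + κ) ^ lev κ p := Nat.floor_le (by positivity)
    have h4 : (0 : ℝ) < (1 + κ) ^ lev κ p := by positivity
    push_cast
    calc (p : ℝ) * M p ≤ (1 + κ) ^ (lev κ p + 1) * ((X : ℝ) / (1 + κ) ^ lev κ p) :=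
          mul_le_mul hl.le h3 (by positivity) (by positivity)
      _ = (1 + κ) * X := by
          rw [pow_succ]
          field_simp
  have hcard : (S.card : ℝ) ≤ X := by
    have h3 : S ⊆ Icc 1 X := by
      intro p hp
      refine Finset.mem_Icc.2 ⟨(hS p hp).one_le, ?_⟩
      have := (mem_primesIn.1 hp).2.2.trans hQ
      exact_mod_cast this
    have := Finset.card_le_card h3
    rw [Nat.card_Icc, Nat.add_sub_cancel] at this
    exact_mod_cast this
  set d : ℕ → ℂ := fun n => (L : ℂ) * (if n ≤ X then g n else 0) -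
    ∑ p ∈ S, if p ∣ n ∧ n / p ≤ M p then c p * g (n / p) else 0 with hd
  have hLc : ((L⁻¹ : ℝ) : ℂ) * (L : ℂ) = 1 := by
    rw [← Complex.ofReal_mul, inv_mul_cancel₀ hL0.ne', Complex.ofReal_one]
  have hE : (fun u => DP (Icc 1 X) g u - approx2 c g X κ P Q u) =
      DP (Icc 1 (2 * X)) fun n => ((L⁻¹ : ℝ) : ℂ) * d n := by
    funext u
    rw [decomp_approx, decomp_collect S hS M (2 * X) (fun p hp => (h2 p hp).trans hY2)]
    have h3 : DP (Icc 1 X) g u = DP (Icc 1 (2 * X)) (fun n => if n ≤ X then g n else 0) u := by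
      have h4 : Icc 1 X = (Icc 1 (2 * X)).filter (· ≤ X) := by
        ext n
        simp only [Finset.mem_Icc, Finset.mem_filter]
        omega
      unfold DP
      rw [h4, Finset.sum_filter]
      refine Finset.sum_congr rfl fun n _ => ?_
      by_cases h5 : n ≤ X
      · simp [h5]
      · simp [h5]
    rw [h3]
    unfold DP
    rw [Finset.mul_sum, ← Finset.sum_sub_distrib]
    refine Finset.sum_congr rfl fun n _ => ?_
    simp only [hd]
    rw [mul_sub, ← mul_assoc ((L⁻¹ : ℝ) : ℂ) (L : ℂ), hLc]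
    ring
  rw [hE]
  refine (mean_value (Finset.Subset.refl _) _ hT).trans ?_
  have hsum : ∑ n ∈ Icc 1 (2 * X), ‖d n‖ ^ 2 ≤ 40 * X * L + 2 * L ^ 2 * (κ * X) := by
    refine (Finset.sum_le_sum fun n _ => decomp_coeff hc hg S hS hm M X Y h1 h2 L n).trans ?_
    rw [Finset.sum_add_distrib, Finset.sum_add_distrib, ← Finset.mul_sum, ← Finset.mul_sum,
      ← Finset.mul_sum]
    have a1 := ANT.turan_kubilius S hS (2 * X)
    have a2 := decomp_sq_count S hS (2 * X)
    have a3 : ∑ n ∈ Icc 1 (2 * X), (if n ∈ Ioc X Y then (1 : ℝ) else 0) ≤ κ * X := by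
      rw [Finset.sum_boole]
      have a4 : ((Icc 1 (2 * X)).filter (· ∈ Ioc X Y)).card ≤ Y - X := by
        rw [← Nat.card_Ioc]
        exact Finset.card_le_card fun n hn => (Finset.mem_filter.1 hn).2
      have a5 : (((Icc 1 (2 * X)).filter (· ∈ Ioc X Y)).card : ℝ) ≤ (Y - X : ℕ) := by
        exact_mod_cast a4
      rw [Nat.cast_sub hXY] at a5
      linarith
    have a6 : ∑ p ∈ S, (p : ℝ)⁻¹ = L := rfl
    rw [a6] at a1
    push_cast at a1 a2
    have a7 := mul_le_mul_of_nonneg_left hcard hL0.le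
    have a8 := mul_le_mul_of_nonneg_left hL hX0
    have a9 := mul_le_mul_of_nonneg_left a3 (show 0 ≤ 2 * L ^ 2 by positivity)
    nlinarith
  have hsum2 : ∑ n ∈ Icc 1 (2 * X), ‖((L⁻¹ : ℝ) : ℂ) * d n‖ ^ 2 ≤ 40 * X * (1 / L + κ) := by
    have e1 : ∑ n ∈ Icc 1 (2 * X), ‖((L⁻¹ : ℝ) : ℂ) * d n‖ ^ 2 =
        (L⁻¹) ^ 2 * ∑ n ∈ Icc 1 (2 * X), ‖d n‖ ^ 2 := by
      rw [Finset.mul_sum]
      refine Finset.sum_congr rfl fun n _ => ?_
      rw [norm_mul, mul_pow, Complex.norm_real, Real.norm_eq_abs, sq_abs]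
    rw [e1]
    refine (mul_le_mul_of_nonneg_left hsum (by positivity)).trans ?_
    have e2 : (L⁻¹) ^ 2 * (40 * X * L + 2 * L ^ 2 * (κ * X)) = 40 * X * (1 / L) + 2 * (κ * X) := by
      field_simp
    rw [e2]
    nlinarith [mul_nonneg hκ.le hX0]
  have hpi : Real.pi * (T + 2 * ((2 * X : ℕ) : ℝ)) ≤ 20 * X := by
    push_cast
    nlinarith [Real.pi_le_four, Real.pi_pos]
  have hpos : 0 ≤ 1 / L + κ := by positivity
  calc _ ≤ 20 * (X : ℝ) * (40 * X * (1 / L + κ)) :=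
        mul_le_mul hpi hsum2 (Finset.sum_nonneg fun _ _ => by positivity) (by positivity)
    _ = 800 * (X : ℝ) ^ 2 * (1 / L + κ) := by ring
    _ ≤ _ := by gcongr; norm_num

theorem decomp {g : ℕ → ℂ} (hg : ∀ n, ‖g n‖ ≤ 1)
    (hm : ∀ p : ℕ, p.Prime → ∀ m : ℕ, ¬ p ∣ m → g (p * m) = g p * g m)
    {X : ℕ} {κ P Q T : ℝ} (hκ : 0 < κ) (hκ1 : κ ≤ 1) (hL : 1 ≤ LL P Q) (hQ : Q ≤ X)
    (hT : 0 < T) (hTX : T ≤ X) :
    MS T Set.univ (fun u => DP (Icc 1 X) g u - approx g X κ P Q u)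
      ≤ 1000 * (X : ℝ) ^ 2 * (1 / LL P Q + κ) :=
  decomp2 hg hg (fun p hp => hm p (mem_primesIn.1 hp).1) hκ hκ1 hL hQ hT hTX

end Pool.Agent.Lib.MR
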