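import Mathlib

/-!
# Multiplicative functions in short intervals: definitions

Dirichlet polynomials, the Cauchy weight and the properties used in the qualitative theorem of
Matomaki and Radziwill.
-/

set_option autoImplicit false
open Filter Topology Finset MeasureTheory

namespace Pool.Agent.Lib.MR

/-- `n ^ (i u)`. -/
noncomputable def nit (n : ℕ) (u : ℝ) : ℂ := Complex.exp (Complex.I * ((u * Real.log n : ℝ) : ℂ))

/-- The Dirichlet polynomial `∑ a n * n ^ (i u)`. -/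
noncomputable def DP (S : Finset ℕ) (a : ℕ → ℂ) (u : ℝ) : ℂ := ∑ n ∈ S, a n * nit n u

/-- The Cauchy weight. -/
noncomputable def wt (T u : ℝ) : ℝ := T ^ 2 / (T ^ 2 + u ^ 2)

/-- The finite measure with density `wt T`. -/
noncomputable def cm (T : ℝ) : Measure ℝ := volume.withDensity fun u => ENNReal.ofReal (wt T u)

/-- Weighted mean square over the set `U`. -/
noncomputable def MS (T : ℝ) (U : Set ℝ) (F : ℝ → ℂ) : ℝ := ∫ u in U, ‖F u‖ ^ 2 ∂(cm T)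

/-- Continuous and bounded. -/
def Trig (F : ℝ → ℂ) : Prop := Continuous F ∧ ∃ C : ℝ, ∀ u, ‖F u‖ ≤ C

/-- The primes of `[P, Q]`. -/
noncomputable def primesIn (P Q : ℝ) : Finset ℕ :=
  (Icc 1 ⌊Q⌋₊).filter fun p => p.Prime ∧ P ≤ (p : ℝ)

/-- The level: the exponent of the largest power of `1 + κ` that is at most `p`. -/
noncomputable def lev (κ : ℝ) (p : ℕ) : ℕ := ⌊Real.log p / Real.log (1 + κ)⌋₊

/-- The primes of `[P, Q]` of level `v`. -/
noncomputable def piece (κ P Q : ℝ) (v : ℕ) : Finset ℕ := (primesIn P Q).filter fun p => lev κ p = v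

/-- The levels that occur. -/
noncomputable def idx (κ P Q : ℝ) : Finset ℕ := (primesIn P Q).image (lev κ)

/-- Sum of the reciprocals of the primes of `[P, Q]`. -/
noncomputable def LL (P Q : ℝ) : ℝ := ∑ p ∈ primesIn P Q, (p : ℝ)⁻¹

/-- The bilinear approximation of `DP (Icc 1 X) g`. -/
noncomputable def approx (g : ℕ → ℂ) (X : ℕ) (κ P Q : ℝ) (u : ℝ) : ℂ :=
  (((LL P Q)⁻¹ : ℝ) : ℂ) * ∑ v ∈ idx κ P Q,
    DP (piece κ P Q v) g u * DP (Icc 1 ⌊(X : ℝ) / (1 + κ) ^ v⌋₊) g u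

/-- The frequencies at which all the prime polynomials have a power saving. -/
def Good (g : ℕ → ℂ) (κ P Q α : ℝ) : Set ℝ :=
  {u | ∀ v ∈ idx κ P Q, ‖DP (piece κ P Q v) g u‖ ≤ ((1 + κ) ^ v) ^ (1 - α)}

/-- The Dirichlet series of `g` is `o(x)` on the line `re s = 1 + 1 / x`. -/
def NonPret (g : ℕ → ℂ) : Prop :=
  ∀ K η : ℝ, 0 < η → ∀ᶠ x : ℝ in atTop, ∀ᶠ Y : ℕ in atTop, ∀ u : ℝ, |u| ≤ Real.exp (K * x) →
    ‖DP (Icc 1 Y) (fun n => g n * (((n : ℝ) ^ (-(1 + 1 / x)) : ℝ) : ℂ)) u‖ ≤ η * x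

/-- Twisted sums of `g` are small, uniformly for polynomially large twists. -/
def Small (g : ℕ → ℂ) : Prop :=
  ∀ (K : ℕ) (η : ℝ), 0 < η → ∀ᶠ Y : ℕ in atTop, ∀ u : ℝ, |u| ≤ (Y : ℝ) ^ K →
    ‖DP (Icc 1 Y) g u‖ ≤ η * Y

/-- Admissible functions. -/
structure Adm (g : ℕ → ℂ) : Prop where
  norm_le : ∀ n, ‖g n‖ ≤ 1
  mul : ∀ p : ℕ, p.Prime → ∀ m : ℕ, ¬ p ∣ m → g (p * m) = g p * g m
  small : Small g

/-- Cancellation in almost all short intervals. -/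
def Short (f : ℕ → ℂ) : Prop :=
  ∀ ε : ℝ, 0 < ε → ∃ H₀ : ℕ, ∀ H : ℕ, H₀ ≤ H → ∀ᶠ X : ℕ in atTop,
    ∑ x ∈ range X, ‖∑ j ∈ range H, f (x + j)‖ ≤ ε * H * X

end Pool.Agent.Lib.MR
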