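import Pool.Agent.Lib.MR.ShortOps
import Pool.Agent.Lib.MR.Gen

/-!
# Operations on families with cancellation in short intervals
-/

set_option autoImplicit false
open Filter Topology Finset MeasureTheory

namespace Pool.Agent.Lib.MR

lemma eventually_scale {p : ℕ → Prop} (h : ∀ᶠ X in atTop, p X) (k : ℕ) :
    ∀ᶠ N : ℕ in atTop, ∀ X : ℕ, N ≤ k * X → p X := by
  obtain ⟨X₀, hX⟩ := eventually_atTop.1 h
  filter_upwards [eventually_gt_atTop (k * X₀)] with N hN X h1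
  refine hX X ?_
  by_contra h2
  have : k * X ≤ k * X₀ := Nat.mul_le_mul_left k (by omega)
  omega

theorem shortFam_of_MS {G : ℕ → ℕ → ℂ} (hG : ∀ N n, ‖G N n‖ ≤ 1)
    (h : ∀ ε : ℝ, 0 < ε → ∃ h : ℝ, 1 ≤ h ∧ ∀ k : ℕ, ∀ᶠ N : ℕ in atTop, ∀ X : ℕ,
      N ≤ k * X → X ≤ k * N →
        MS (X / h) Set.univ (DP (Icc 1 X) (G N)) ≤ ε * (X : ℝ) ^ 2) : ShortFam G := by
  intro ε hε
  obtain ⟨η, hη, rfl⟩ : ∃ η : ℝ, 0 < η ∧ ε = 6 * η := ⟨ε / 6, by positivity, by ring⟩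
  obtain ⟨k, hk, hX⟩ := h (η ^ 3 / 8) (by positivity)
  refine ⟨⌈3 * (1 + k) / η⌉₊, fun H hH K => ?_⟩
  have hH' : 3 * (1 + k) / η ≤ H := (Nat.le_ceil _).trans (by exact_mod_cast hH)
  have hH1 : 3 * (1 + k) ≤ η * H := by rwa [div_le_iff₀ hη, mul_comm (H : ℝ)] at hH'
  have Hpos : (0 : ℝ) < H := by
    by_contra hc
    have : η * H ≤ 0 := mul_nonpos_of_nonneg_of_nonpos hη.le (not_lt.1 hc)
    linarith
  have e2 : ∀ᶠ X : ℕ in atTop, 2 / η ≤ (X : ℝ) :=
    tendsto_natCast_atTop_atTop.eventually_ge_atTop _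
  filter_upwards [hX (2 * K), eventually_scale (e2.and ((eventually_ge_atTop H).and
    (eventually_ge_atTop 1))) K] with N a0 a0' X s1 s2
  obtain ⟨a2, a3, a4⟩ := a0' X s1
  have a1 := a0 (X + H) (by nlinarith) (by nlinarith)
  set g := G N with hgdef
  have hg : ∀ n, ‖g n‖ ≤ 1 := hG N
  have a2' : 2 ≤ η * X := by rwa [div_le_iff₀ hη, mul_comm (X : ℝ)] at a2
  have a3' : (H : ℝ) ≤ X := by exact_mod_cast a3
  have a4' : (1 : ℝ) ≤ X := by exact_mod_cast a4
  set x₀ := ⌈η * X⌉₊ with hx₀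
  have x1 : η * X ≤ x₀ := Nat.le_ceil _
  have x2 : (x₀ : ℝ) < η * X + 1 := Nat.ceil_lt_add_one (by positivity)
  have x3 : 1 ≤ x₀ := Nat.ceil_pos.2 (by positivity)
  have kpos : 0 < k := by linarith
  have Tpos : (0 : ℝ) < ((X + H : ℕ) : ℝ) / k := by push_cast; positivity
  have b1 := short_le_MS hg Tpos x3 X H
  have b2 : ((X : ℝ) + H) / (((X + H : ℕ) : ℝ) / k) = k := by
    push_cast; field_simp
  rw [b2] at b1
  have b3 : 2 * (H : ℝ) ^ 2 / (Real.pi * x₀) *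
      MS (((X + H : ℕ) : ℝ) / k) Set.univ (DP (Icc 1 (X + H)) g) ≤ η ^ 2 * H ^ 2 * X := by
    have c1 : 2 * (H : ℝ) ^ 2 / (Real.pi * x₀) ≤ 2 * (H : ℝ) ^ 2 / (1 * (η * X)) := by
      gcongr
      linarith [Real.pi_gt_three]
    have c2 : η ^ 3 / 8 * ((X + H : ℕ) : ℝ) ^ 2 ≤ η ^ 3 / 8 * (2 * X) ^ 2 := by
      gcongr; push_cast; linarith
    calc _ ≤ 2 * (H : ℝ) ^ 2 / (1 * (η * X)) * (η ^ 3 / 8 * (2 * X) ^ 2) :=
          mul_le_mul c1 (a1.trans c2) (MS_nonneg _ _ _) (by positivity)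
      _ = _ := by field_simp; ring
  have b4 : 8 * (X : ℝ) * (1 + k) ^ 2 ≤ η ^ 2 * H ^ 2 * X := by
    have : (3 * (1 + k)) ^ 2 ≤ (η * H) ^ 2 := by gcongr
    have : 8 * (1 + k) ^ 2 ≤ η ^ 2 * H ^ 2 := by nlinarith [sq_nonneg (1 + k)]
    nlinarith
  have b5 := shortOps_split (F := fun x => ‖∑ j ∈ range H, g (x + j)‖) (B := H)
    (fun _ => norm_nonneg _) (fun x => shortOps_norm_le hg x H) x₀ X
  have ηH : 0 < η * H := by positivity
  have b6 : ∑ x ∈ Icc x₀ X, ‖∑ j ∈ range H, g (x + 1 + j)‖ ≤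
      X * (η * H) + (∑ x ∈ Icc x₀ X, ‖∑ j ∈ range H, g (x + 1 + j)‖ ^ 2) / (η * H) := by
    have c1 : ∑ x ∈ Icc x₀ X, η * H ≤ X * (η * H) := by
      rw [sum_const, nsmul_eq_mul]
      gcongr
      rw [Nat.card_Icc]
      exact_mod_cast (by omega : X + 1 - x₀ ≤ X)
    refine le_trans ?_ (add_le_add c1 le_rfl)
    rw [sum_div, ← sum_add_distrib]
    refine sum_le_sum fun x _ => ?_
    generalize ‖∑ j ∈ range H, g (x + 1 + j)‖ = a
    rw [← sub_le_iff_le_add', le_div_iff₀ ηH]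
    nlinarith [sq_nonneg (a - η * H), sq_nonneg a]
  have b7 : (∑ x ∈ Icc x₀ X, ‖∑ j ∈ range H, g (x + 1 + j)‖ ^ 2) / (η * H) ≤ 2 * η * H * X := by
    rw [div_le_iff₀ ηH]
    calc _ ≤ _ := b1
      _ ≤ η ^ 2 * H ^ 2 * X + η ^ 2 * H ^ 2 * X := add_le_add b3 b4
      _ = _ := by ring
  have b8 : ((x₀ : ℝ) + 1) * H ≤ 2 * (η * X) * H := by
    gcongr; linarith
  have b9 : 0 ≤ η * H * X := by positivity
  linarith

lemma ShortFam.add {f g : ℕ → ℕ → ℂ} (hf : ShortFam f) (hg : ShortFam g) : ShortFam fun N n => f N n + g N n := by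
  intro ε hε
  obtain ⟨H₁, h₁⟩ := hf (ε / 2) (by positivity)
  obtain ⟨H₂, h₂⟩ := hg (ε / 2) (by positivity)
  refine ⟨max H₁ H₂, fun H hH k => ?_⟩
  filter_upwards [h₁ H (le_of_max_le_left hH) k, h₂ H (le_of_max_le_right hH) k]
    with N a b X s1 s2
  have a := a X s1 s2
  have b := b X s1 s2
  have : ∑ x ∈ range X, ‖∑ j ∈ range H, (f N (x + j) + g N (x + j))‖ ≤
      ∑ x ∈ range X, ‖∑ j ∈ range H, f N (x + j)‖
        + ∑ x ∈ range X, ‖∑ j ∈ range H, g N (x + j)‖ := by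
    rw [← sum_add_distrib]
    refine sum_le_sum fun x _ => ?_
    rw [sum_add_distrib]
    exact norm_add_le _ _
  linarith

lemma ShortFam.zero : ShortFam fun _ _ => 0 := by
  intro ε hε
  refine ⟨0, fun H _ k => Eventually.of_forall fun N X _ _ => ?_⟩
  simp only [sum_const_zero, norm_zero]
  positivity

lemma ShortFam.const_mul {f : ℕ → ℕ → ℂ} (hf : ShortFam f) (c : ℂ) : ShortFam fun N n => c * f N n := by
  intro ε hε
  have hc : 0 < ‖c‖ + 1 := by positivity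
  obtain ⟨H₁, h₁⟩ := hf (ε / (‖c‖ + 1)) (by positivity)
  refine ⟨H₁, fun H hH k => ?_⟩
  filter_upwards [h₁ H hH k] with N a X s1 s2
  have a := a X s1 s2
  simp only [← mul_sum, norm_mul]
  have h0 : 0 ≤ ∑ x ∈ range X, ‖∑ j ∈ range H, f N (x + j)‖ :=
    sum_nonneg fun _ _ => norm_nonneg _
  calc _ ≤ (‖c‖ + 1) * (ε / (‖c‖ + 1) * H * X) := mul_le_mul (by linarith) a h0 hc.le
    _ = _ := by field_simp

lemma ShortFam.sum {ι : Type*} {s : Finset ι} {f : ι → ℕ → ℕ → ℂ}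
    (hf : ∀ i ∈ s, ShortFam (f i)) : ShortFam fun N n => ∑ i ∈ s, f i N n := by
  classical
  induction s using Finset.induction_on with
  | empty => simpa using ShortFam.zero
  | insert i s hi ih =>
    simp only [sum_insert hi]
    exact (hf i (mem_insert_self _ _)).add (ih fun j hj => hf j (mem_insert_of_mem hj))

lemma ShortFam.dil {F : ℕ → ℕ → ℂ} (hf : ShortFam F) (hB : ∀ N n, ‖F N n‖ ≤ 1) {d : ℕ}
    (hd : 0 < d) : ShortFam fun N n => if d ∣ n then F N (n / d) else 0 := by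
  obtain ⟨e, rfl⟩ : ∃ e, d = e + 1 := ⟨d - 1, by omega⟩
  intro ε hε
  obtain ⟨η, hη, rfl⟩ : ∃ η : ℝ, 0 < η ∧ ε = 3 * η := ⟨ε / 3, by positivity, by ring⟩
  obtain ⟨H₁, h₁⟩ := hf η hη
  refine ⟨max (H₁ * (e + 1)) ⌈1 / η⌉₊, fun H hH K => ?_⟩
  have hH1 : H₁ ≤ H / (e + 1) := (Nat.le_div_iff_mul_le hd).2 (le_of_max_le_left hH)
  have hH2 : 1 / η ≤ H := (Nat.le_ceil _).trans (by exact_mod_cast le_of_max_le_right hH)
  have hH3 : 1 ≤ η * H := by rwa [div_le_iff₀ hη, mul_comm (H : ℝ)] at hH2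
  filter_upwards [h₁ _ hH1 (2 * K), eventually_scale (eventually_ge_atTop 1) K]
    with N a0 b0 X s1 s2
  have b := b0 X s1
  have a := a0 (X + 1) (by nlinarith) (by nlinarith)
  set f := F N with hfdef
  have hb : ∀ n, ‖f n‖ ≤ 1 := hB N
  set H' := H / (e + 1) with hH'
  let G : ℕ → ℝ := fun y => ‖∑ j ∈ range H', f (y + j)‖
  have k1 : ∀ x, ‖∑ j ∈ range H, (if e + 1 ∣ x + j then f ((x + j) / (e + 1)) else 0)‖ ≤
      G ((e + x) / (e + 1)) + 1 := by
    intro x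
    have c1 := shortOps_init f e (x + H)
    rw [sum_range_add, shortOps_init f e x] at c1
    have c2 : (x + H + e) / (e + 1) = (x + e) / (e + 1) + H' ∨
        (x + H + e) / (e + 1) = (x + e) / (e + 1) + H' + 1 := by
      rw [show x + H + e = x + e + H by ring, Nat.add_div hd]
      split_ifs
      exacts [Or.inr rfl, Or.inl rfl]
    rw [add_comm e x]
    rcases c2 with c2 | c2
    · rw [c2, sum_range_add] at c1
      rw [add_left_cancel c1]
      simp [G]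
    · rw [c2, sum_range_succ, sum_range_add, add_assoc] at c1
      rw [add_left_cancel c1]
      exact (norm_add_le _ _).trans (add_le_add le_rfl (hb _))
  have k2 : ∑ x ∈ range X, G ((e + x) / (e + 1)) ≤ ((e + 1 : ℕ) : ℝ) * ∑ y ∈ range (X + 1), G y := by
    rw [← shortOps_blocks G hd]
    have c1 : ∑ x ∈ range X, G ((e + x) / (e + 1)) ≤ ∑ z ∈ range (e + X), G (z / (e + 1)) := by
      rw [sum_range_add]
      exact le_add_of_nonneg_left (sum_nonneg fun _ _ => norm_nonneg _)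
    refine c1.trans (sum_le_sum_of_subset_of_nonneg ?_ fun _ _ _ => norm_nonneg _)
    exact range_mono (by nlinarith)
  have k3 : ((e + 1 : ℕ) : ℝ) * H' ≤ H := by exact_mod_cast Nat.mul_div_le H (e + 1)
  have b' : (1 : ℝ) ≤ X := by exact_mod_cast b
  have k4 : ((e + 1 : ℕ) : ℝ) * ∑ y ∈ range (X + 1), G y ≤ η * H * (2 * X) := by
    calc _ ≤ ((e + 1 : ℕ) : ℝ) * (η * H' * (X + 1 : ℕ)) := by gcongr
      _ = η * (((e + 1 : ℕ) : ℝ) * H') * (X + 1) := by push_cast; ring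
      _ ≤ _ := by gcongr; linarith
  calc _ ≤ ∑ x ∈ range X, (G ((e + x) / (e + 1)) + 1) := sum_le_sum fun x _ => k1 x
    _ = ∑ x ∈ range X, G ((e + x) / (e + 1)) + X := by simp [sum_add_distrib]
    _ ≤ η * H * (2 * X) + η * H * X := by
      refine add_le_add (k2.trans k4) ?_
      nlinarith
    _ = _ := by ring

lemma ShortFam.congr {f g : ℕ → ℕ → ℂ} (hf : ShortFam f)
    (h : ∀ᶠ N in atTop, ∀ n, f N n = g N n) : ShortFam g := by
  intro ε hε
  obtain ⟨H₁, h₁⟩ := hf ε hε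
  refine ⟨H₁, fun H hH k => ?_⟩
  filter_upwards [h₁ H hH k, h] with N a b X s1 s2
  simpa only [b] using a X s1 s2

/-- Periodic twists of a family that is invariant under dilations. -/
theorem shortFam_periodic {G : ℕ → ℕ → ℂ} (hG : ∀ N n, ‖G N n‖ ≤ 1)
    (hinv : ∀ d : ℕ, 0 < d → ∀ᶠ N in atTop, ∀ m, G N (d * m) = G N m)
    (h : ∀ (q : ℕ) [NeZero q] (χ : DirichletCharacter ℂ q), ShortFam fun N n => G N n * χ n)
    (r : ℕ) [NeZero r] (f : ZMod r → ℂ) : ShortFam fun N n => G N n * f n := by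
  classical
  have hr : 0 < r := NeZero.pos r
  have key : ∀ d ∈ r.divisors, ShortFam fun N n =>
      if Nat.gcd n r = d then G N n * f n else 0 := by
    intro d hd
    have hd0 : 0 < d := Nat.pos_of_mem_divisors hd
    obtain ⟨q, rfl⟩ := Nat.dvd_of_mem_divisors hd
    have : NeZero q := ⟨by rintro rfl; simp at hr⟩
    have hb : ∀ (χ : DirichletCharacter ℂ q) (N n : ℕ), ‖G N n * χ n‖ ≤ 1 := by
      intro χ N n
      rw [norm_mul]
      exact mul_le_one₀ (hG N n) (norm_nonneg _) (χ.norm_le_one _)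
    let g : ZMod q → ℂ := fun a => if IsUnit a then f ((d * a.val : ℕ) : ZMod (d * q)) else 0
    have h1 : ShortFam fun N n => ∑ a : ZMod q, ∑ χ : DirichletCharacter ℂ q,
        (g a * χ a⁻¹ / q.totient) * (if d ∣ n then G N (n / d) * χ ((n / d : ℕ) : ZMod q) else 0) :=
      ShortFam.sum fun a _ => ShortFam.sum fun χ _ => ((h q χ).dil (hb χ) hd0).const_mul _
    refine h1.congr ?_
    filter_upwards [hinv d hd0] with N hN n
    by_cases hdn : d ∣ n
    · obtain ⟨m, rfl⟩ := hdn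
      simp only [dvd_mul_right, if_true, Nat.mul_div_cancel_left _ hd0]
      have e1 := shortOps_expand g (fun a ha => if_neg ha) ((m : ℕ) : ZMod q)
      have e2 : ∑ a : ZMod q, ∑ χ : DirichletCharacter ℂ q, (g a * χ a⁻¹ / q.totient) *
          (G N m * χ ((m : ℕ) : ZMod q)) = G N m * g ((m : ℕ) : ZMod q) := by
        rw [e1, mul_sum]
        refine sum_congr rfl fun a _ => ?_
        rw [mul_sum]
        exact sum_congr rfl fun χ _ => by ring
      rw [e2, hN]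
      have e3 : ((d * ((m : ℕ) : ZMod q).val : ℕ) : ZMod (d * q)) = ((d * m : ℕ) : ZMod (d * q)) := by
        rw [ZMod.natCast_eq_natCast_iff, ZMod.val_natCast]
        exact (Nat.mod_modEq m q).mul_left' d
      have e4 : Nat.gcd (d * m) (d * q) = d ↔ Nat.Coprime m q := by
        rw [Nat.gcd_mul_left, Nat.Coprime]
        constructor
        · intro h2
          exact Nat.eq_of_mul_eq_mul_left hd0 (by rw [h2, mul_one])
        · intro h2
          rw [h2, mul_one]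
      simp only [g, ZMod.isUnit_iff_coprime, e3, e4]
      split_ifs <;> simp
    · have : Nat.gcd n (d * q) ≠ d := fun h2 => hdn (h2 ▸ Nat.gcd_dvd_left _ _)
      simp [hdn, this]
  refine (ShortFam.sum key).congr (Eventually.of_forall fun N n => ?_)
  rw [sum_ite_eq, if_pos (Nat.mem_divisors.2 ⟨Nat.gcd_dvd_right _ _, hr.ne'⟩)]

end Pool.Agent.Lib.MR
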