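import Pool.Agent.Lib.MR.Kernel
import Pool.Agent.Lib.ANT.Mertens

/-!
# A qualitative form of the theorem of Halasz
-/

set_option autoImplicit false
open Filter Topology Finset MeasureTheory

namespace Pool.Agent.Lib.MR

open ArithmeticFunction Pool.Agent.Lib.ANT

lemma halasz_Icc (N : ℕ) : Icc 1 N = Ioc 0 N := by
  ext n; simp only [mem_Icc, mem_Ioc]; omega

lemma halasz_harm (N : ℕ) : ∑ j ∈ Icc 1 N, ((j : ℝ))⁻¹ ≤ 1 + Real.log N := by
  have h := harmonic_le_one_add_log N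
  rw [harmonic_eq_sum_Icc] at h
  push_cast at h
  exact h

/-- the convolution identity, summed -/
lemma halasz_conv (a b : ℕ → ℂ)
    (hc : ∀ n : ℕ, 1 ≤ n → a n * (Real.log n : ℝ) = ∑ x ∈ n.divisorsAntidiagonal, b x.1 * a x.2)
    {j D Z : ℕ} (hD : j ≤ D) (hZ : j ≤ Z) :
    ∑ n ∈ Icc 1 j, a n * (Real.log n : ℝ) =
      ∑ x ∈ Icc 1 D ×ˢ Icc 1 Z with x.1 * x.2 ≤ j, b x.1 * a x.2 := by
  rw [← sum_fiberwise_of_maps_to (s := {x ∈ Icc 1 D ×ˢ Icc 1 Z | x.1 * x.2 ≤ j}) (t := Icc 1 j)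
    (g := fun x : ℕ × ℕ => x.1 * x.2)]
  · refine sum_congr rfl fun n hn => ?_
    have hn' := mem_Icc.1 hn
    rw [hc n hn'.1]
    refine sum_congr ?_ fun _ _ => rfl
    ext ⟨d, m⟩
    simp only [Nat.mem_divisorsAntidiagonal, mem_filter, mem_product, mem_Icc]
    constructor
    · rintro ⟨e, -⟩
      have h1 : 1 ≤ d := Nat.pos_of_ne_zero (by rintro rfl; omega)
      have h2 : 1 ≤ m := Nat.pos_of_ne_zero (by rintro rfl; omega)
      have h3 : d ≤ d * m := Nat.le_mul_of_pos_right d h2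
      have h4 : m ≤ d * m := Nat.le_mul_of_pos_left m h1
      omega
    · rintro ⟨-, e⟩
      exact ⟨e, by omega⟩
  · rintro ⟨d, m⟩ hx
    simp only [mem_filter, mem_product, mem_Icc] at hx ⊢
    exact ⟨Nat.mul_pos hx.1.1.1 hx.1.2.1, hx.2⟩

lemma halasz_pair (f : ℕ → ℕ → ℝ) (M : ℕ) :
    ∑ d ∈ Icc 1 M, ∑ j ∈ Icc 1 (M / d), f d j = ∑ j ∈ Icc 1 M, ∑ d ∈ Icc 1 (M / j), f d j := by
  refine sum_comm' fun d j => ?_
  simp only [mem_Icc]
  constructor
  · rintro ⟨⟨h1, h2⟩, h3, h4⟩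
    rw [Nat.le_div_iff_mul_le h1] at h4
    refine ⟨⟨h1, ?_⟩, h3, ?_⟩
    · rw [Nat.le_div_iff_mul_le h3, mul_comm]; exact h4
    · exact (Nat.le_mul_of_pos_right j h1).trans h4
  · rintro ⟨⟨h1, h2⟩, h3, h4⟩
    rw [Nat.le_div_iff_mul_le h3] at h2
    refine ⟨⟨h1, (Nat.le_mul_of_pos_right d h3).trans h2⟩, h3, ?_⟩
    rw [Nat.le_div_iff_mul_le h1, mul_comm]; exact h2

lemma halasz_N_le (a b : ℕ → ℂ) (hb : ∀ n, ‖b n‖ ≤ vonMangoldt n)
    (hc : ∀ n : ℕ, 1 ≤ n → a n * (Real.log n : ℝ) = ∑ x ∈ n.divisorsAntidiagonal, b x.1 * a x.2)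
    {j D : ℕ} (hD : j ≤ D) :
    ‖∑ n ∈ Icc 1 j, a n * (Real.log n : ℝ)‖ ≤
      ∑ d ∈ Icc 1 D, vonMangoldt d * ‖∑ m ∈ Icc 1 (j / d), a m‖ := by
  rw [halasz_conv a b hc hD le_rfl, sum_filter, sum_product]
  refine (norm_sum_le _ _).trans (sum_le_sum fun d hd => ?_)
  have hd1 := (mem_Icc.1 hd).1
  rw [← sum_filter]
  have e : {m ∈ Icc 1 j | d * m ≤ j} = Icc 1 (j / d) := by
    ext m
    simp only [mem_filter, mem_Icc, Nat.le_div_iff_mul_le hd1]
    constructor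
    · rintro ⟨⟨h1, -⟩, h3⟩
      exact ⟨h1, by rwa [mul_comm]⟩
    · rintro ⟨h1, h2⟩
      exact ⟨⟨h1, (Nat.le_mul_of_pos_right m hd1).trans h2⟩, by rwa [mul_comm]⟩
  simp only [e, ← mul_sum, norm_mul]
  exact mul_le_mul_of_nonneg_right (hb d) (norm_nonneg _)

lemma halasz_fiber (f : ℕ → ℝ) (hf : ∀ j, 0 ≤ f j) (h0 : f 0 = 0) (M : ℕ) {d : ℕ} (hd : 1 ≤ d) :
    ∑ y ∈ Icc 1 M, f (y / d) ≤ d * ∑ j ∈ Icc 1 (M / d), f j := by
  rw [← sum_fiberwise_of_maps_to (s := Icc 1 M) (t := Icc 0 (M / d)) (g := fun y => y / d)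
    (fun y hy => mem_Icc.2 ⟨Nat.zero_le _, Nat.div_le_div_right (mem_Icc.1 hy).2⟩)]
  have e : ∑ j ∈ Icc 0 (M / d), f j = ∑ j ∈ Icc 1 (M / d), f j := by
    rw [halasz_Icc, ← Finset.Ioc_insert_left (Nat.zero_le _), sum_insert (by simp), h0, zero_add]
  rw [← e, mul_sum]
  refine sum_le_sum fun j _ => ?_
  rw [sum_congr rfl (g := fun _ => f j) (fun y hy => by rw [(mem_filter.1 hy).2]), sum_const,
    nsmul_eq_mul]
  refine mul_le_mul_of_nonneg_right ?_ (hf j)
  have : {y ∈ Icc 1 M | y / d = j} ⊆ Ico (j * d) (j * d + d) := by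
    intro y hy
    have e := (mem_filter.1 hy).2
    have h1 := Nat.div_add_mod y d
    have h2 := Nat.mod_lt y hd
    rw [e, mul_comm] at h1
    rw [mem_Ico]
    omega
  have := card_le_card this
  rw [Nat.card_Ico, Nat.add_sub_cancel_left] at this
  exact_mod_cast this

lemma halasz_sumN (a b : ℕ → ℂ) (hb : ∀ n, ‖b n‖ ≤ vonMangoldt n)
    (hc : ∀ n : ℕ, 1 ≤ n → a n * (Real.log n : ℝ) = ∑ x ∈ n.divisorsAntidiagonal, b x.1 * a x.2)
    (M : ℕ) :
    ∑ y ∈ Icc 1 M, ‖∑ n ∈ Icc 1 y, a n * (Real.log n : ℝ)‖ ≤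
      6 * (M : ℝ) ^ 2 * ∑ j ∈ Icc 1 M, ‖∑ m ∈ Icc 1 j, a m‖ / (j : ℝ) ^ 2 := by
  calc _ ≤ ∑ y ∈ Icc 1 M, ∑ d ∈ Icc 1 M, vonMangoldt d * ‖∑ m ∈ Icc 1 (y / d), a m‖ :=
        sum_le_sum fun y hy => halasz_N_le a b hb hc (mem_Icc.1 hy).2
    _ = ∑ d ∈ Icc 1 M, vonMangoldt d * ∑ y ∈ Icc 1 M, ‖∑ m ∈ Icc 1 (y / d), a m‖ := by
        rw [sum_comm]; simp only [mul_sum]
    _ ≤ ∑ d ∈ Icc 1 M, ∑ j ∈ Icc 1 (M / d), vonMangoldt d * d * ‖∑ m ∈ Icc 1 j, a m‖ := by
        refine sum_le_sum fun d hd => ?_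
        have := halasz_fiber (fun j => ‖∑ m ∈ Icc 1 j, a m‖) (fun _ => norm_nonneg _) (by simp) M
          (mem_Icc.1 hd).1
        rw [← mul_sum, mul_assoc]
        exact mul_le_mul_of_nonneg_left this vonMangoldt_nonneg
    _ = ∑ j ∈ Icc 1 M, ∑ d ∈ Icc 1 (M / j), vonMangoldt d * d * ‖∑ m ∈ Icc 1 j, a m‖ :=
        halasz_pair _ M
    _ ≤ _ := by
        rw [mul_sum]
        refine sum_le_sum fun j hj => ?_
        have hj1 : (0 : ℝ) < j := by exact_mod_cast (mem_Icc.1 hj).1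
        rw [← sum_mul, ← mul_div_assoc, mul_div_right_comm]
        refine mul_le_mul_of_nonneg_right ?_ (norm_nonneg _)
        have h1 : ((M / j : ℕ) : ℝ) ≤ M / j := Nat.cast_div_le
        have h2 := sum_vonMangoldt_le (M / j)
        rw [← halasz_Icc] at h2
        calc ∑ d ∈ Icc 1 (M / j), vonMangoldt d * (d : ℝ)
            ≤ ∑ d ∈ Icc 1 (M / j), vonMangoldt d * ((M / j : ℕ) : ℝ) :=
              sum_le_sum fun d hd => mul_le_mul_of_nonneg_left
                (by exact_mod_cast (mem_Icc.1 hd).2) vonMangoldt_nonneg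
          _ ≤ 6 * ((M / j : ℕ) : ℝ) * ((M / j : ℕ) : ℝ) := by
              rw [← sum_mul]
              exact mul_le_mul_of_nonneg_right h2 (Nat.cast_nonneg _)
          _ ≤ 6 * (M / j) * (M / j) := by gcongr
          _ = _ := by field_simp

lemma halasz_SN (a : ℕ → ℂ) (ha : ∀ n, ‖a n‖ ≤ 1) (j : ℕ) :
    ‖∑ m ∈ Icc 1 j, a m‖ * Real.log j ≤ ‖∑ n ∈ Icc 1 j, a n * (Real.log n : ℝ)‖ + j := by
  have hl : 0 ≤ Real.log j := Real.log_natCast_nonneg j
  have e : (∑ m ∈ Icc 1 j, a m) * (Real.log j : ℝ) = ∑ n ∈ Icc 1 j, a n * (Real.log n : ℝ) +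
      ∑ n ∈ Icc 1 j, a n * ((Real.log j - Real.log n : ℝ) : ℂ) := by
    rw [sum_mul, ← sum_add_distrib]
    refine sum_congr rfl fun n _ => ?_
    push_cast; ring
  have h1 : ‖∑ n ∈ Icc 1 j, a n * ((Real.log j - Real.log n : ℝ) : ℂ)‖ ≤ j := by
    refine (norm_sum_le _ _).trans ?_
    have h2 := le_sum_log j
    rw [← halasz_Icc] at h2
    calc _ ≤ ∑ n ∈ Icc 1 j, (Real.log j - Real.log n) := by
          refine sum_le_sum fun n hn => ?_
          have hn' := mem_Icc.1 hn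
          have : Real.log n ≤ Real.log j :=
            Real.log_le_log (by exact_mod_cast hn'.1) (by exact_mod_cast hn'.2)
          rw [norm_mul, Complex.norm_real, Real.norm_of_nonneg (by linarith only [this])]
          exact mul_le_of_le_one_left (by linarith only [this]) (ha n)
      _ ≤ j := by
          rw [sum_sub_distrib, sum_const, Nat.card_Icc, nsmul_eq_mul, Nat.add_sub_cancel]
          linarith
  have h3 := congrArg norm e
  rw [norm_mul, Complex.norm_real, Real.norm_of_nonneg hl] at h3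
  rw [h3]
  exact (norm_add_le _ _).trans (by linarith)

lemma halasz_lip (a : ℕ → ℂ) (ha : ∀ n, ‖a n‖ ≤ 1) {Y y M : ℕ} (h1 : Y ≤ y) (h2 : y ≤ M) :
    ‖∑ n ∈ Icc 1 Y, a n * (Real.log n : ℝ)‖ ≤
      ‖∑ n ∈ Icc 1 y, a n * (Real.log n : ℝ)‖ + ((y : ℝ) - Y) * Real.log M := by
  rw [halasz_Icc, halasz_Icc, ← sum_Ioc_consecutive _ (Nat.zero_le Y) h1]
  have h3 : ‖∑ n ∈ Ioc Y y, a n * (Real.log n : ℝ)‖ ≤ ((y : ℝ) - Y) * Real.log M := by
    refine (norm_sum_le _ _).trans ?_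
    calc _ ≤ ∑ n ∈ Ioc Y y, Real.log M := by
          refine sum_le_sum fun n hn => ?_
          have hn' := mem_Ioc.1 hn
          have : Real.log n ≤ Real.log M :=
            Real.log_le_log (by exact_mod_cast (by omega : 0 < n))
              (by exact_mod_cast hn'.2.trans h2)
          rw [norm_mul, Complex.norm_real, Real.norm_of_nonneg (Real.log_natCast_nonneg n)]
          exact (mul_le_of_le_one_left (Real.log_natCast_nonneg n) (ha n)).trans this
      _ = _ := by rw [sum_const, Nat.card_Ioc, nsmul_eq_mul, Nat.cast_sub h1]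
  have := norm_sub_le (∑ n ∈ Ioc 0 Y, a n * (Real.log n : ℝ) + ∑ n ∈ Ioc Y y, a n * (Real.log n : ℝ))
    (∑ n ∈ Ioc Y y, a n * (Real.log n : ℝ))
  rw [add_sub_cancel_right] at this
  linarith only [h3, this]

lemma halasz_avg (a : ℕ → ℂ) (ha : ∀ n, ‖a n‖ ≤ 1) {Y k : ℕ} (hk : k ≤ Y) :
    k * ‖∑ n ∈ Icc 1 Y, a n * (Real.log n : ℝ)‖ ≤
      ∑ y ∈ Icc 1 (2 * Y), ‖∑ n ∈ Icc 1 y, a n * (Real.log n : ℝ)‖ +
        (k : ℝ) ^ 2 * Real.log (2 * Y : ℕ) := by
  have hl : 0 ≤ Real.log (2 * Y : ℕ) := Real.log_natCast_nonneg _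
  calc _ = ∑ _y ∈ Ioc Y (Y + k), ‖∑ n ∈ Icc 1 Y, a n * (Real.log n : ℝ)‖ := by
        rw [sum_const, Nat.card_Ioc, nsmul_eq_mul, Nat.add_sub_cancel_left]
    _ ≤ ∑ y ∈ Ioc Y (Y + k), (‖∑ n ∈ Icc 1 y, a n * (Real.log n : ℝ)‖ +
          k * Real.log (2 * Y : ℕ)) := by
        refine sum_le_sum fun y hy => ?_
        have hy' := mem_Ioc.1 hy
        have h1 := halasz_lip a ha (M := 2 * Y) hy'.1.le (by omega)
        have h2 : (y : ℝ) - Y ≤ k := by
          have : (y : ℝ) ≤ Y + k := by exact_mod_cast hy'.2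
          linarith only [this]
        have := mul_le_mul_of_nonneg_right h2 hl
        linarith only [h1, this]
    _ ≤ _ := by
        rw [sum_add_distrib, sum_const, Nat.card_Ioc, nsmul_eq_mul, Nat.add_sub_cancel_left]
        have : ∑ y ∈ Ioc Y (Y + k), ‖∑ n ∈ Icc 1 y, a n * (Real.log n : ℝ)‖ ≤
            ∑ y ∈ Icc 1 (2 * Y), ‖∑ n ∈ Icc 1 y, a n * (Real.log n : ℝ)‖ := by
          refine sum_le_sum_of_subset_of_nonneg (fun y hy => ?_) fun _ _ _ => norm_nonneg _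
          rw [mem_Ioc] at hy
          rw [mem_Icc]
          omega
        linarith only [this]

lemma halasz_W (a : ℕ → ℂ) (ha : ∀ n, ‖a n‖ ≤ 1) (M : ℕ) {w t : ℝ} (hw : 0 < w) (ht : 0 < t) :
    ∑ j ∈ Icc 1 M, ‖∑ m ∈ Icc 1 j, a m‖ / (j : ℝ) ^ 2 ≤ 1 + w + ((t / 2 + 1) * (1 + Real.log M) +
      (∑ j ∈ Icc 1 M, ‖∑ n ∈ Icc 1 j, a n * (Real.log n : ℝ)‖ ^ 2 / (j : ℝ) ^ 3) / (2 * t)) / w := by
  have h1 : ∑ j ∈ (Icc 1 M).filter (fun j : ℕ => Real.log j ≤ w), ((j : ℝ))⁻¹ ≤ 1 + w := by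
    have h2 := halasz_harm ⌊Real.exp w⌋₊
    have h3 : Real.log ⌊Real.exp w⌋₊ ≤ w := by
      have h4 : 1 ≤ Real.exp w := Real.one_le_exp hw.le
      have h5 : (0 : ℝ) < ⌊Real.exp w⌋₊ := by exact_mod_cast Nat.floor_pos.2 h4
      exact (Real.log_le_iff_le_exp h5).2 (Nat.floor_le (Real.exp_pos w).le)
    refine le_trans (sum_le_sum_of_subset_of_nonneg (fun j hj => ?_) fun _ _ _ => by positivity)
      (h2.trans (by linarith only [h3]))
    obtain ⟨h4, h5⟩ := mem_filter.1 hj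
    have h6 := (mem_Icc.1 h4).1
    exact mem_Icc.2 ⟨h6, Nat.le_floor ((Real.log_le_iff_le_exp (by exact_mod_cast h6)).1 h5)⟩
  have h2 := halasz_harm M
  calc _ ≤ ∑ j ∈ Icc 1 M, ((if Real.log j ≤ w then ((j : ℝ))⁻¹ else 0) + ((t / 2 + 1) * (j : ℝ)⁻¹ +
        ‖∑ n ∈ Icc 1 j, a n * (Real.log n : ℝ)‖ ^ 2 / (j : ℝ) ^ 3 / (2 * t)) / w) := by
        refine sum_le_sum fun j hj => ?_
        have hj1 : (0 : ℝ) < j := by exact_mod_cast (mem_Icc.1 hj).1
        set N := ‖∑ n ∈ Icc 1 j, a n * (Real.log n : ℝ)‖ with hN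
        set S := ‖∑ m ∈ Icc 1 j, a m‖ with hS
        have hN0 : 0 ≤ N := norm_nonneg _
        have hS0 : 0 ≤ S := norm_nonneg _
        split_ifs with c
        · have : S ≤ j := by
            refine (norm_sum_le _ _).trans ?_
            refine (sum_le_sum fun n _ => ha n).trans ?_
            simp
          have h3 : S / (j : ℝ) ^ 2 ≤ (j : ℝ)⁻¹ := by
            rw [div_le_iff₀ (by positivity)]
            calc S ≤ j := this
              _ = _ := by field_simp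
          have : 0 ≤ ((t / 2 + 1) * (j : ℝ)⁻¹ + N ^ 2 / (j : ℝ) ^ 3 / (2 * t)) / w := by positivity
          linarith only [h3, this]
        · have h3 := halasz_SN a ha j
          rw [← hN, ← hS] at h3
          have h4 : S * w ≤ N + j := le_trans (mul_le_mul_of_nonneg_left (not_le.1 c).le hS0) h3
          rw [zero_add, le_div_iff₀ hw]
          have h5 : S / (j : ℝ) ^ 2 * w ≤ (N + j) / (j : ℝ) ^ 2 := by
            rw [div_mul_eq_mul_div]; gcongr
          refine h5.trans ?_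
          rw [← sub_nonneg]
          have : (t / 2 + 1) * (j : ℝ)⁻¹ + N ^ 2 / (j : ℝ) ^ 3 / (2 * t) - (N + j) / (j : ℝ) ^ 2 =
              (t * j - N) ^ 2 / (2 * t * (j : ℝ) ^ 3) := by
            field_simp; ring
          rw [this]; positivity
    _ ≤ _ := by
        rw [sum_add_distrib, ← sum_filter, ← sum_div, sum_add_distrib, ← mul_sum, ← sum_div]
        gcongr

lemma halasz_zeta {x : ℝ} (hx : 0 < x) (Z : ℕ) :
    ∑ m ∈ Icc 1 Z, (m : ℝ) ^ (-(1 + 1 / x)) ≤ 1 + x := by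
  have key : ∀ Z : ℕ, 1 ≤ Z →
      ∑ m ∈ Icc 1 Z, (m : ℝ) ^ (-(1 + 1 / x)) ≤ 1 + x - x * (Z : ℝ) ^ (-(1 / x)) := by
    intro Z hZ
    induction Z, hZ using Nat.le_induction with
    | base => simp
    | succ Z hZ ih =>
      rw [sum_Icc_succ_top (by omega)]
      have hZ0 : (0 : ℝ) < Z := by exact_mod_cast hZ
      have h1 : (0 : ℝ) < (Z + 1 : ℕ) := by positivity
      have h2 : ((Z + 1 : ℕ) : ℝ)⁻¹ ≤ Real.log (Z + 1 : ℕ) - Real.log Z := by
        have := Real.log_le_sub_one_of_pos (div_pos hZ0 h1)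
        rw [Real.log_div hZ0.ne' h1.ne'] at this
        have e : (Z : ℝ) / (Z + 1 : ℕ) - 1 = -((Z + 1 : ℕ) : ℝ)⁻¹ := by
          push_cast; field_simp; ring
        linarith only [this, e]
      have h3 : (Z : ℝ) ^ (-(1 / x)) = ((Z + 1 : ℕ) : ℝ) ^ (-(1 / x)) *
          Real.exp ((Real.log (Z + 1 : ℕ) - Real.log Z) / x) := by
        rw [Real.rpow_def_of_pos hZ0, Real.rpow_def_of_pos h1, ← Real.exp_add]
        congr 1; ring
      have h4 : ((Z + 1 : ℕ) : ℝ) ^ (-(1 + 1 / x)) =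
          ((Z + 1 : ℕ) : ℝ) ^ (-(1 / x)) * ((Z + 1 : ℕ) : ℝ)⁻¹ := by
        rw [← Real.rpow_neg_one, ← Real.rpow_add h1]
        congr 1; ring
      have h5 := Real.add_one_le_exp ((Real.log (Z + 1 : ℕ) - Real.log Z) / x)
      have h6 : 0 < ((Z + 1 : ℕ) : ℝ) ^ (-(1 / x)) := Real.rpow_pos_of_pos h1 _
      have h7 : ((Z + 1 : ℕ) : ℝ)⁻¹ + x ≤ x * Real.exp ((Real.log (Z + 1 : ℕ) - Real.log Z) / x) := by
        have := mul_le_mul_of_nonneg_left h5 hx.le
        rw [mul_add, mul_div_cancel₀ _ hx.ne'] at this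
        linarith only [h2, this]
      have h8 := mul_le_mul_of_nonneg_left h7 h6.le
      rw [h4]
      rw [h3] at ih
      linarith only [ih, h8]
  rcases Nat.eq_zero_or_pos Z with rfl | hZ
  · simp; linarith
  · have := key Z hZ
    have h2 : 0 ≤ x * (Z : ℝ) ^ (-(1 / x)) := by positivity
    linarith only [this, h2]

lemma halasz_MS_A (b : ℕ → ℂ) (hb : ∀ n, ‖b n‖ ≤ vonMangoldt n) {T : ℝ} (hT : 1 ≤ T) {D : ℕ}
    (hD : 0 < D) :
    MS T Set.univ (DP (Icc 1 D) fun n => b n * (((n : ℝ) ^ (-T) : ℝ) : ℂ)) ≤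
      Real.pi * T * (12 * (Real.log D + 6)) := by
  have h := MS_eq (Icc 1 D) (fun n => n) (fun n => b n * (((n : ℝ) ^ (-T) : ℝ) : ℂ))
    (T := T) (by linarith only [hT])
  refine (le_of_eq h).trans (mul_le_mul_of_nonneg_left ?_ (by positivity))
  have h1 : ∀ d ∈ Icc 1 D, ∑ d' ∈ Icc 1 D,
      (if d' ≤ d then vonMangoldt d * vonMangoldt d' / (d : ℝ) ^ 2 else 0) ≤
        6 * (vonMangoldt d / d) := by
    intro d hd
    have hd' := mem_Icc.1 hd
    have hd0 : (0 : ℝ) < d := by exact_mod_cast hd'.1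
    rw [← sum_filter, ← sum_div, ← mul_sum]
    have e : {d' ∈ Icc 1 D | d' ≤ d} = Ioc 0 d := by
      ext m; simp only [mem_filter, mem_Icc, mem_Ioc]; omega
    rw [e, div_le_iff₀ (by positivity)]
    calc _ ≤ vonMangoldt d * (6 * d) :=
          mul_le_mul_of_nonneg_left (sum_vonMangoldt_le d) vonMangoldt_nonneg
      _ = _ := by field_simp
  have h2 : ∑ d ∈ Icc 1 D, ∑ d' ∈ Icc 1 D,
      (if d' ≤ d then vonMangoldt d * vonMangoldt d' / (d : ℝ) ^ 2 else 0) ≤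
        6 * (Real.log D + 6) := by
    refine (sum_le_sum h1).trans ?_
    have := (abs_le.1 (abs_sum_vonMangoldt_div_sub_log_le D hD)).2
    rw [← mul_sum, halasz_Icc]
    linarith only [this]
  calc _ ≤ ∑ d ∈ Icc 1 D, ∑ d' ∈ Icc 1 D,
        ((if d' ≤ d then vonMangoldt d * vonMangoldt d' / (d : ℝ) ^ 2 else 0) +
          (if d ≤ d' then vonMangoldt d' * vonMangoldt d / (d' : ℝ) ^ 2 else 0)) := by
        refine sum_le_sum fun d hd => sum_le_sum fun d' hd' => ?_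
        have hd0 : (1 : ℝ) ≤ d := by exact_mod_cast (mem_Icc.1 hd).1
        have hd0' : (1 : ℝ) ≤ d' := by exact_mod_cast (mem_Icc.1 hd').1
        have l0 := Real.log_nonneg hd0
        have l0' := Real.log_nonneg hd0'
        have n0 : 0 ≤ vonMangoldt d * vonMangoldt d' :=
          mul_nonneg vonMangoldt_nonneg vonMangoldt_nonneg
        have k1 : (b d * (((d : ℝ) ^ (-T) : ℝ) : ℂ) *
            (starRingEnd ℂ) (b d' * (((d' : ℝ) ^ (-T) : ℝ) : ℂ))).re ≤
            vonMangoldt d * vonMangoldt d' *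
              (Real.exp (Real.log d * -T) * Real.exp (Real.log d' * -T)) := by
          refine (Complex.re_le_norm _).trans ?_
          rw [norm_mul, Complex.norm_conj, norm_mul, norm_mul, Complex.norm_real, Complex.norm_real,
            Real.rpow_def_of_pos (by linarith only [hd0]), Real.rpow_def_of_pos (by linarith only [hd0']),
            Real.norm_of_nonneg (Real.exp_pos _).le, Real.norm_of_nonneg (Real.exp_pos _).le,
            mul_mul_mul_comm]
          gcongr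
          · exact hb d
          · exact hb d'
        refine (mul_le_mul_of_nonneg_right k1 (Real.exp_pos _).le).trans ?_
        rw [mul_assoc, ← Real.exp_add, ← Real.exp_add]
        have k2 : ∀ e : ℝ, 1 ≤ e → Real.exp (-(2 * Real.log e)) = (e ^ 2)⁻¹ := by
          intro e he
          rw [Real.exp_neg, show 2 * Real.log e = Real.log (e ^ 2) by simp,
            Real.exp_log (by positivity)]
        rcases le_total d' d with c | c
        · have c' : Real.log d' ≤ Real.log d :=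
            Real.log_le_log (by linarith only [hd0']) (by exact_mod_cast c)
          have k3 : Real.exp (Real.log d * -T + Real.log d' * -T +
              -(T * |Real.log d - Real.log d'|)) ≤ ((d : ℝ) ^ 2)⁻¹ := by
            rw [← k2 d hd0, abs_of_nonneg (by linarith only [c'])]
            exact Real.exp_le_exp.2 (by linarith only [hT, l0, mul_nonneg_of_nonpos_of_nonpos (Mathlib.Tactic.Linarith.sub_nonpos_of_le hT) (Mathlib.Tactic.Linarith.sub_nonpos_of_le l0)])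
          have k4 := mul_le_mul_of_nonneg_left k3 n0
          have k5 : 0 ≤ (if d ≤ d' then vonMangoldt d' * vonMangoldt d / (d' : ℝ) ^ 2 else 0) := by
            split_ifs
            · rw [mul_comm]; positivity
            · exact le_rfl
          rw [if_pos c, div_eq_mul_inv]
          linarith only [k4, k5]
        · have c' : Real.log d ≤ Real.log d' :=
            Real.log_le_log (by linarith only [hd0]) (by exact_mod_cast c)
          have k3 : Real.exp (Real.log d * -T + Real.log d' * -T +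
              -(T * |Real.log d - Real.log d'|)) ≤ ((d' : ℝ) ^ 2)⁻¹ := by
            rw [← k2 d' hd0', abs_of_nonpos (by linarith only [c'])]
            exact Real.exp_le_exp.2 (by linarith only [hT, l0', mul_nonneg_of_nonpos_of_nonpos (Mathlib.Tactic.Linarith.sub_nonpos_of_le hT) (Mathlib.Tactic.Linarith.sub_nonpos_of_le l0')])
          have k4 := mul_le_mul_of_nonneg_left k3 n0
          have k5 : 0 ≤ (if d' ≤ d then vonMangoldt d * vonMangoldt d' / (d : ℝ) ^ 2 else 0) := by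
            split_ifs
            · positivity
            · exact le_rfl
          rw [if_pos c, mul_comm (vonMangoldt d'), div_eq_mul_inv _ ((d' : ℝ) ^ 2)]
          linarith only [k4, k5]
    _ ≤ _ := by
        simp only [sum_add_distrib]
        rw [sum_comm (f := fun d d' =>
          if d ≤ d' then vonMangoldt d' * vonMangoldt d / (d' : ℝ) ^ 2 else 0)]
        linarith only [h2]

/-- the weighted mean square of the logarithmic sums -/
lemma halasz_Q (a b : ℕ → ℂ) (ha : ∀ n, ‖a n‖ ≤ 1) (hb : ∀ n, ‖b n‖ ≤ vonMangoldt n)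
    (hc : ∀ n : ℕ, 1 ≤ n → a n * (Real.log n : ℝ) = ∑ x ∈ n.divisorsAntidiagonal, b x.1 * a x.2)
    {M Z : ℕ} (hM : 0 < M) (hZ : M ≤ Z) {x η : ℝ} (hx : 1 ≤ x) (hl : Real.log M + 6 ≤ 2 * x)
    (hη : 256 ≤ η ^ 2 * x)
    (hG : ∀ u : ℝ, |u| ≤ Real.exp x →
      ‖DP (Icc 1 Z) (fun n => a n * (((n : ℝ) ^ (-(1 + 1 / x)) : ℝ) : ℂ)) u‖ ≤ η * x) :
    ∑ j ∈ Icc 1 M, ‖∑ n ∈ Icc 1 j, a n * (Real.log n : ℝ)‖ ^ 2 / (j : ℝ) ^ 3 ≤
      4050 * η ^ 2 * x ^ 3 := by
  set T : ℝ := 1 + 1 / x with hT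
  have x0 : 0 < x := by linarith only [hx]
  have hx1 : 0 < 1 / x := by positivity
  have hx2 : 1 / x ≤ 1 := by rw [div_le_one x0]; exact hx
  have T1 : 1 ≤ T := by linarith only [hx1]
  have T2 : T ≤ 2 := by linarith only [hx2]
  have pT : 1 ≤ Real.pi * T := by linarith only [hx1, Real.pi_gt_three, mul_pos_of_neg_of_neg (Mathlib.Tactic.Linarith.sub_neg_of_lt hx1) (Mathlib.Tactic.Linarith.sub_neg_of_lt Real.pi_gt_three)]
  set A := DP (Icc 1 M) fun n => b n * (((n : ℝ) ^ (-T) : ℝ) : ℂ) with hA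
  set G := DP (Icc 1 Z) fun n => a n * (((n : ℝ) ^ (-T) : ℝ) : ℂ) with hG'
  have h1 := sum_sq_le_MS (Icc 1 M ×ˢ Icc 1 Z) (fun i => i.1 * i.2)
    (fun i hi => by
      simp only [mem_product, mem_Icc] at hi
      exact Nat.mul_pos hi.1.1 hi.2.1)
    (fun i => b i.1 * (((i.1 : ℝ) ^ (-T) : ℝ) : ℂ) * (a i.2 * (((i.2 : ℝ) ^ (-T) : ℝ) : ℂ)))
    (T := T) (by linarith only [hx1]) M
  have e1 : (fun u => ∑ i ∈ Icc 1 M ×ˢ Icc 1 Z, b i.1 * (((i.1 : ℝ) ^ (-T) : ℝ) : ℂ) *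
      (a i.2 * (((i.2 : ℝ) ^ (-T) : ℝ) : ℂ)) * nit (i.1 * i.2) u) = fun u => A u * G u := by
    funext u
    simp only [hA, hG', DP]
    rw [sum_mul_sum, sum_product]
    refine sum_congr rfl fun d hd => sum_congr rfl fun m hm => ?_
    rw [nit_mul (by have := (mem_Icc.1 hd).1; omega) (by have := (mem_Icc.1 hm).1; omega)]
    ring
  rw [e1] at h1
  have tA : Trig A := Trig.DP _ _
  have tG : Trig G := Trig.DP _ _
  have m1 : MeasurableSet {u : ℝ | |u| ≤ Real.exp x} :=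
    measurableSet_le (by fun_prop) measurable_const
  have m2 : MeasurableSet {u : ℝ | Real.exp x < |u|} :=
    measurableSet_lt measurable_const (by fun_prop)
  have h2 : MS T {u : ℝ | |u| ≤ Real.exp x} (fun u => A u * G u) ≤
      (η * x) ^ 2 * (Real.pi * T * (24 * x)) := by
    refine (MS_le_of_le (tA.mul tG) tA T m1 (c := η * x) fun u hu => ?_).trans ?_
    · rw [norm_mul, mul_comm]
      exact mul_le_mul_of_nonneg_right (hG u hu) (norm_nonneg _)
    · refine mul_le_mul_of_nonneg_left ((MS_mono tA T (Set.subset_univ _)).trans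
        ((halasz_MS_A b hb T1 hM).trans ?_)) (sq_nonneg _)
      exact mul_le_mul_of_nonneg_left (by linarith only [hl]) (by linarith only [pT])
  have bA : ∀ u, ‖A u‖ ≤ 2 * x := by
    intro u
    refine (norm_DP_le _ _ u).trans ?_
    have := (abs_le.1 (abs_sum_vonMangoldt_div_sub_log_le M hM)).2
    rw [← halasz_Icc] at this
    refine le_trans (sum_le_sum fun d hd => ?_) (by linarith only [hl, this] : ∑ d ∈ Icc 1 M,
      vonMangoldt d / (d : ℝ) ≤ 2 * x)
    have hd0 : (1 : ℝ) ≤ d := by exact_mod_cast (mem_Icc.1 hd).1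
    rw [norm_mul, Complex.norm_real, Real.norm_of_nonneg (by positivity), div_eq_mul_inv,
      ← Real.rpow_neg_one]
    exact mul_le_mul (hb d) (Real.rpow_le_rpow_of_exponent_le hd0 (by linarith only [hx1])) (by positivity)
      vonMangoldt_nonneg
  have bG : ∀ u, ‖G u‖ ≤ 2 * x := by
    intro u
    refine (norm_DP_le _ _ u).trans ?_
    have := halasz_zeta x0 Z
    refine le_trans (sum_le_sum fun d hd => ?_) (by linarith only [hx, this] : ∑ d ∈ Icc 1 Z,
      (d : ℝ) ^ (-(1 + 1 / x)) ≤ 2 * x)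
    rw [norm_mul, Complex.norm_real, Real.norm_of_nonneg (by positivity)]
    exact mul_le_of_le_one_left (by positivity) (ha d)
  have h3 : MS T {u : ℝ | Real.exp x < |u|} (fun u => A u * G u) ≤ η ^ 2 * x ^ 3 := by
    clear * - T x A G η tA tG m2 bA bG hx x0 hx2 hx1 hη
    refine (MS_le_const (tA.mul tG) T m2 (c := 2 * x * (2 * x)) fun u _ => ?_).trans ?_
    · rw [norm_mul]
      exact mul_le_mul (bA u) (bG u) (norm_nonneg _) (by linarith only [hx])
    · have k1 := cm_tail T (Real.exp_pos x)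
      have k2 : x ^ 2 / 2 ≤ Real.exp x := by
        have := Real.quadratic_le_exp_of_nonneg x0.le
        linarith only [hx, this]
      have k3 : 2 * T ^ 2 / Real.exp x ≤ 16 / x ^ 2 := by
        rw [div_le_div_iff₀ (Real.exp_pos x) (by positivity)]
        have : T ^ 2 ≤ 4 := by linarith only [hx2, hx1, mul_nonneg_of_nonpos_of_nonpos (le_of_lt (Mathlib.Tactic.Linarith.sub_neg_of_lt hx1)) (Mathlib.Tactic.Linarith.sub_nonpos_of_le hx2)]
        linarith only [k2, this, sq_nonneg x, mul_nonneg_of_nonpos_of_nonpos (Mathlib.Tactic.Linarith.sub_nonpos_of_le (sq_nonneg x)) (Mathlib.Tactic.Linarith.sub_nonpos_of_le this)]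
      calc _ ≤ (2 * x * (2 * x)) ^ 2 * (16 / x ^ 2) :=
            mul_le_mul_of_nonneg_left (k1.trans k3) (sq_nonneg _)
        _ = 256 * x ^ 2 := by field_simp; ring
        _ ≤ η ^ 2 * x * x ^ 2 := by gcongr
        _ = _ := by ring
  have h4 : MS T Set.univ (fun u => A u * G u) ≤ Real.pi * T * (25 * η ^ 2 * x ^ 3) := by
    have e : (Set.univ : Set ℝ) = {u : ℝ | |u| ≤ Real.exp x} ∪ {u : ℝ | Real.exp x < |u|} := by
      ext u; simp [le_or_gt]
    rw [e]
    refine (MS_union_le (tA.mul tG) T _ _).trans ?_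
    have : η ^ 2 * x ^ 3 ≤ Real.pi * T * (η ^ 2 * x ^ 3) :=
      le_mul_of_one_le_left (by positivity) pT
    linarith only [h2, h3, this]
  have h5 := le_of_mul_le_mul_left (h1.trans h4) (by linarith only [pT])
  have h6 : ∑ j ∈ Icc 1 M, ‖∑ n ∈ Icc 1 j, a n * (Real.log n : ℝ)‖ ^ 2 / (j : ℝ) ^ 3 ≤
      162 * ∑ j ∈ Icc 1 M, ‖∑ i ∈ Icc 1 M ×ˢ Icc 1 Z with i.1 * i.2 ≤ j,
        b i.1 * (((i.1 : ℝ) ^ (-T) : ℝ) : ℂ) * (a i.2 * (((i.2 : ℝ) ^ (-T) : ℝ) : ℂ)) *
          (((((i.1 * i.2 : ℕ) : ℝ) / j) ^ T : ℝ) : ℂ)‖ ^ 2 *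
        (1 - ((j : ℝ) / (j + 1)) ^ (2 * T)) := by
    clear * - M a Z b T hc hZ x hx1 hl x0 hT
    rw [mul_sum]
    refine sum_le_sum fun j hj => ?_
    have hj' := mem_Icc.1 hj
    have hj1 : (1 : ℝ) ≤ j := by exact_mod_cast hj'.1
    have e2 : ∑ i ∈ Icc 1 M ×ˢ Icc 1 Z with i.1 * i.2 ≤ j,
        b i.1 * (((i.1 : ℝ) ^ (-T) : ℝ) : ℂ) * (a i.2 * (((i.2 : ℝ) ^ (-T) : ℝ) : ℂ)) *
          (((((i.1 * i.2 : ℕ) : ℝ) / j) ^ T : ℝ) : ℂ) =
        (∑ n ∈ Icc 1 j, a n * (Real.log n : ℝ)) * (((j : ℝ) ^ (-T) : ℝ) : ℂ) := by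
      rw [halasz_conv a b hc hj'.2 (hj'.2.trans hZ), sum_mul]
      refine sum_congr rfl fun i hi => ?_
      simp only [mem_filter, mem_product, mem_Icc] at hi
      have i1 : (0 : ℝ) < i.1 := by exact_mod_cast hi.1.1.1
      have i2 : (0 : ℝ) < i.2 := by exact_mod_cast hi.1.2.1
      have e3 : (i.1 : ℝ) ^ (-T) * (i.2 : ℝ) ^ (-T) * (((i.1 * i.2 : ℕ) : ℝ) / j) ^ T =
          (j : ℝ) ^ (-T) := by
        rw [Nat.cast_mul, Real.div_rpow (by positivity) (by positivity),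
          Real.mul_rpow i1.le i2.le, Real.rpow_neg i1.le, Real.rpow_neg i2.le,
          Real.rpow_neg (by linarith only [hj1])]
        have := Real.rpow_pos_of_pos i1 T
        have := Real.rpow_pos_of_pos i2 T
        field_simp
      rw [← e3]
      push_cast; ring
    rw [e2, norm_mul, Complex.norm_real, Real.norm_of_nonneg (by positivity), mul_pow]
    set N := ‖∑ n ∈ Icc 1 j, a n * (Real.log n : ℝ)‖
    have k1 : 1 / (2 * j) ≤ 1 - ((j : ℝ) / (j + 1)) ^ (2 * T) := by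
      have : ((j : ℝ) / (j + 1)) ^ (2 * T) ≤ ((j : ℝ) / (j + 1)) ^ (1 : ℝ) :=
        Real.rpow_le_rpow_of_exponent_ge (by positivity)
          (by rw [div_le_one (by positivity)]; linarith only []) (by linarith only [hx1])
      rw [Real.rpow_one] at this
      have k : 1 / (2 * (j : ℝ)) ≤ 1 - (j : ℝ) / (j + 1) := by
        rw [one_sub_div (by positivity), div_le_div_iff₀ (by positivity) (by positivity)]
        linarith only [hj1]
      linarith only [this, k]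
    have k2 : 1 / (81 * (j : ℝ) ^ 2) ≤ ((j : ℝ) ^ (-T)) ^ 2 := by
      have l1 : Real.log j ≤ 2 * x := by
        have : Real.log j ≤ Real.log M :=
          Real.log_le_log (by linarith only [hj1]) (by exact_mod_cast hj'.2)
        linarith only [hl, this]
      have l2 : Real.exp 4 ≤ 81 := by
        have := Real.exp_one_lt_d9
        have e4 : Real.exp 4 = Real.exp 1 ^ 4 := by rw [← Real.exp_nat_mul]; norm_num
        rw [e4]
        calc Real.exp 1 ^ 4 ≤ 3 ^ 4 := by gcongr; linarith only [this]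
          _ = 81 := by norm_num
      have l3 : Real.log j * (1 / x) ≤ 2 := by
        rw [mul_one_div, div_le_iff₀ x0]; exact l1
      have l4 : (j : ℝ) ^ 2 = Real.exp (2 * Real.log j) := by
        rw [show 2 * Real.log j = Real.log ((j : ℝ) ^ 2) by simp, Real.exp_log (by positivity)]
      rw [Real.rpow_def_of_pos (by linarith only [hj1]), ← Real.exp_nat_mul, l4,
        div_le_iff₀ (by positivity)]
      calc (1 : ℝ) = Real.exp 0 := by simp
        _ ≤ Real.exp (((2 : ℕ) : ℝ) * (Real.log j * -T) + (4 + 2 * Real.log j)) := by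
            refine Real.exp_le_exp.2 ?_
            rw [hT]; push_cast; linarith only [l3]
        _ ≤ _ := by
            rw [Real.exp_add, Real.exp_add]
            gcongr
    calc N ^ 2 / (j : ℝ) ^ 3 = 162 * (N ^ 2 * (1 / (81 * (j : ℝ) ^ 2)) * (1 / (2 * j))) := by
          field_simp; ring
      _ ≤ _ := by gcongr
  linarith only [h5, h6]

theorem small_of_nonPret (g Lg : ℕ → ℂ) (hg : ∀ n, ‖g n‖ ≤ 1)
    (hL : ∀ n, ‖Lg n‖ ≤ ArithmeticFunction.vonMangoldt n)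
    (hconv : ∀ n : ℕ, g n * (Real.log n : ℝ) = ∑ x ∈ n.divisorsAntidiagonal, Lg x.1 * g x.2)
    (hN : NonPret g) : Small g := by
  intro K ε hε
  set κ : ℝ := min (ε / 16) (1 / 2) with hκ
  have κ0 : 0 < κ := lt_min (by linarith only [hε]) (by norm_num)
  have κ1 : κ ≤ ε / 16 := min_le_left _ _
  have κ2 : κ ≤ 1 / 2 := min_le_right _ _
  set θ : ℝ := κ * ε / 192 with hθ
  have θ0 : 0 < θ := by positivity
  set η : ℝ := θ ^ 2 / 2026 with hη
  have η0 : 0 < η := by positivity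
  have tl : Tendsto (fun Y : ℕ => Real.log Y) atTop atTop :=
    Real.tendsto_log_atTop.comp tendsto_natCast_atTop_atTop
  filter_upwards [tl.eventually (hN (K + 2) η η0), tl.eventually_ge_atTop 7,
    tl.eventually_ge_atTop (256 / η ^ 2), tl.eventually_ge_atTop (4 / ε),
    tl.eventually_ge_atTop ((1 + 2 / θ) / (2 * θ)),
    tendsto_natCast_atTop_atTop.eventually_ge_atTop (1 / κ), eventually_ge_atTop 1]
    with Y h1 h2 h3 h4 h5 h6 h7 u hu
  obtain ⟨Z, hZ, hZ'⟩ := (h1.and (eventually_ge_atTop (2 * Y))).exists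
  set x := Real.log Y with hx
  have Y0 : (0 : ℝ) < Y := by exact_mod_cast h7
  have x0 : 0 < x := by linarith only [κ0, κ2, h2]
  have eY : Real.exp x = Y := Real.exp_log Y0
  set a : ℕ → ℂ := fun n => g n * nit n u with ha'
  set b : ℕ → ℂ := fun n => Lg n * nit n u with hb'
  have ha : ∀ n, ‖a n‖ ≤ 1 := fun n => by simp only [ha', norm_mul, norm_nit, mul_one]; exact hg n
  have hb : ∀ n, ‖b n‖ ≤ vonMangoldt n := fun n => by
    simp only [hb', norm_mul, norm_nit, mul_one]; exact hL n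
  have hc : ∀ n : ℕ, 1 ≤ n →
      a n * (Real.log n : ℝ) = ∑ x ∈ n.divisorsAntidiagonal, b x.1 * a x.2 := by
    intro n hn
    simp only [ha', hb']
    rw [mul_right_comm, hconv n, sum_mul]
    refine sum_congr rfl fun i hi => ?_
    obtain ⟨e, n0⟩ := Nat.mem_divisorsAntidiagonal.1 hi
    rw [← e] at n0
    rw [← e, nit_mul (left_ne_zero_of_mul n0) (right_ne_zero_of_mul n0)]
    ring
  have l2 : Real.log (2 * Y : ℕ) ≤ x + 1 := by
    have := Real.log_two_lt_d9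
    rw [Nat.cast_mul, Real.log_mul (by norm_num) Y0.ne']
    push_cast; linarith only [κ0, κ2, this]
  have hQ := halasz_Q a b ha hb hc (M := 2 * Y) (by omega) hZ' (x := x) (η := η) (by linarith only [κ0, κ2, h2])
    (by linarith only [h2, l2]) (by rw [div_le_iff₀ (by positivity)] at h3; linarith only [h3]) (by
      clear * - x Z a g u ha' η hZ K Y eY κ κ0 κ2 h2 hu
      intro v hv
      have e : DP (Icc 1 Z) (fun n => a n * (((n : ℝ) ^ (-(1 + 1 / x)) : ℝ) : ℂ)) v =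
          DP (Icc 1 Z) (fun n => g n * (((n : ℝ) ^ (-(1 + 1 / x)) : ℝ) : ℂ)) (u + v) := by
        simp only [DP, ha', nit_add]
        exact sum_congr rfl fun n _ => by ring
      rw [e]
      refine hZ _ ((abs_add_le u v).trans ?_)
      have k1 : (Y : ℝ) ^ K = Real.exp (K * x) := by rw [← eY, ← Real.exp_nat_mul]
      have k2 : Real.exp (K * x) ≤ Real.exp ((K + 1) * x) := Real.exp_le_exp.2 (by linarith only [κ0, κ2, h2])
      have k3 : Real.exp x ≤ Real.exp ((K + 1) * x) :=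
        Real.exp_le_exp.2 (by linarith only [h2, Nat.cast_nonneg (α := ℝ) K, mul_nonneg_of_nonpos_of_nonpos (Mathlib.Tactic.Linarith.sub_nonpos_of_le (Mathlib.Tactic.Linarith.natCast_nonneg ℝ K)) (Mathlib.Tactic.Linarith.sub_nonpos_of_le h2)])
      have k4 : Real.exp ((K + 2) * x) = Real.exp ((K + 1) * x) * Real.exp x := by
        rw [← Real.exp_add]; congr 1; ring
      have k5 := Real.add_one_le_exp x
      have k6 := Real.exp_pos ((K + 1) * x)
      rw [k4]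
      (refine le_of_not_gt fun h_nl => ?_; linarith only [h_nl, κ2, hu, h2, eY, hv, k1, k2, k5, k3, κ0, mul_nonneg_of_nonpos_of_nonpos (Mathlib.Tactic.Linarith.sub_nonpos_of_le (Mathlib.Tactic.Linarith.natCast_nonneg ℝ Y)) (Mathlib.Tactic.Linarith.sub_nonpos_of_le h2), Mathlib.Tactic.Linarith.mul_zero_eq (Mathlib.Tactic.Linarith.sub_nonpos_of_le (Mathlib.Tactic.Linarith.natCast_nonneg ℝ Y)) (sub_eq_zero_of_eq eY), mul_nonneg_of_nonpos_of_nonpos (Mathlib.Tactic.Linarith.sub_nonpos_of_le (Mathlib.Tactic.Linarith.natCast_nonneg ℝ Y)) (Mathlib.Tactic.Linarith.sub_nonpos_of_le k3), mul_nonneg_of_nonpos_of_nonpos (Mathlib.Tactic.Linarith.sub_nonpos_of_le (Mathlib.Tactic.Linarith.natCast_nonneg ℝ Y)) (Mathlib.Tactic.Linarith.sub_nonpos_of_le k5), mul_pos_of_neg_of_neg (Mathlib.Tactic.Linarith.sub_neg_of_lt κ0) (Mathlib.Tactic.Linarith.sub_neg_of_lt κ0), mul_nonneg_of_nonpos_of_nonpos (le_of_lt (Mathlib.Tactic.Linarith.sub_neg_of_lt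 κ0)) (Mathlib.Tactic.Linarith.sub_nonpos_of_le κ2), mul_pos_of_neg_of_neg (Mathlib.Tactic.Linarith.sub_neg_of_lt κ0) (Mathlib.Tactic.Linarith.sub_neg_of_lt h_nl), mul_nonneg_of_nonpos_of_nonpos (Mathlib.Tactic.Linarith.sub_nonpos_of_le κ2) (le_of_lt (Mathlib.Tactic.Linarith.sub_neg_of_lt h_nl)), mul_nonneg_of_nonpos_of_nonpos (Mathlib.Tactic.Linarith.sub_nonpos_of_le h2) (Mathlib.Tactic.Linarith.sub_nonpos_of_le k3), Mathlib.Tactic.Linarith.zero_mul_eq (sub_eq_zero_of_eq eY) (sub_eq_zero_of_eq eY), Mathlib.Tactic.Linarith.zero_mul_eq (sub_eq_zero_of_eq eY) (Mathlib.Tactic.Linarith.sub_nonpos_of_le k3), mul_nonneg_of_nonpos_of_nonpos (Mathlib.Tactic.Linarith.sub_nonpos_of_le k3) (Mathlib.Tactic.Linarith.sub_nonpos_of_le k5)]))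
  have hW := halasz_W a ha (2 * Y) (w := θ * x) (t := η * x) (by positivity) (by positivity)
  set W := ∑ j ∈ Icc 1 (2 * Y), ‖∑ m ∈ Icc 1 j, a m‖ / (j : ℝ) ^ 2 with hW'
  set Q := ∑ j ∈ Icc 1 (2 * Y), ‖∑ n ∈ Icc 1 j, a n * (Real.log n : ℝ)‖ ^ 2 / (j : ℝ) ^ 3
  have W1 : W ≤ 4 * θ * x := by
    clear * - Q η x θ κ ε hε h2 hQ Y κ0 κ2 l2 hη θ0 g u h5 hW
    have k1 : Q / (2 * (η * x)) ≤ 2025 * η * x ^ 2 := by
      rw [div_le_iff₀ (by positivity)]; linarith only [hQ]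
    have k2 : (η * x / 2 + 1) * (1 + Real.log (2 * Y : ℕ)) ≤ (η * x / 2 + 1) * (2 * x) :=
      mul_le_mul_of_nonneg_left (by linarith only [κ0, κ2, h2, l2]) (by positivity)
    have k3 : ((η * x / 2 + 1) * (1 + Real.log (2 * Y : ℕ)) + Q / (2 * (η * x))) / (θ * x) ≤
        θ * x + 2 / θ := by
      rw [div_le_iff₀ (by positivity)]
      have : (θ * x + 2 / θ) * (θ * x) = 2026 * η * x ^ 2 + 2 * x := by
        rw [hη]; field_simp
      rw [this]; linarith only [k1, k2]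
    rw [div_le_iff₀ (by positivity)] at h5
    linarith only [h5, hW, k3]
  have hS := halasz_sumN a b hb hc (2 * Y)
  rw [← hW'] at hS
  set k := ⌈κ * Y⌉₊ with hk
  have k1 : κ * Y ≤ k := Nat.le_ceil _
  have k2 : (k : ℝ) ≤ 2 * κ * Y := by
    have := Nat.ceil_lt_add_one (a := κ * Y) (by positivity)
    rw [div_le_iff₀ κ0] at h6
    linarith only [h6, this]
  have k3 : k ≤ Y := by
    have : (k : ℝ) ≤ Y := by linarith only [k2, κ2, mul_nonneg_of_nonpos_of_nonpos (Mathlib.Tactic.Linarith.sub_nonpos_of_le (Mathlib.Tactic.Linarith.natCast_nonneg ℝ Y)) (Mathlib.Tactic.Linarith.sub_nonpos_of_le κ2)]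
    exact_mod_cast this
  have k0 : (0 : ℝ) < k := lt_of_lt_of_le (by positivity) k1
  have hA := halasz_avg a ha k3
  have hB := halasz_SN a ha Y
  set N := ‖∑ n ∈ Icc 1 Y, a n * (Real.log n : ℝ)‖
  have N1 : N ≤ (3 / 4) * ε * Y * x := by
    clear * - Y W k ε x κ θ W1 h7 hθ k1 hε h2 k2 κ0 κ2 l2 κ1 N a hS hA k0
    have c1 : 6 * ((2 * Y : ℕ) : ℝ) ^ 2 * W ≤ k * (ε / 2 * Y * x) := by
      clear * - Y W κ ε x k θ W1 h7 hθ k1 hε h2
      calc _ ≤ 6 * ((2 * Y : ℕ) : ℝ) ^ 2 * (4 * θ * x) := by gcongr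
        _ = κ * Y * (ε / 2 * Y * x) := by rw [hθ]; push_cast; ring
        _ ≤ _ := by gcongr
    have c2 : (k : ℝ) ^ 2 * Real.log (2 * Y : ℕ) ≤ k * (ε / 4 * Y * x) := by
      clear * - k Y κ x ε k2 hε h7 κ0 κ2 h2 l2 κ1
      calc _ ≤ (k : ℝ) * (2 * κ * Y) * (2 * x) := by
            rw [sq]; gcongr
            linarith only [κ0, κ2, h2, l2]
        _ = k * (4 * κ * Y * x) := by ring
        _ ≤ _ := by gcongr; linarith only [κ1]
    refine le_of_mul_le_mul_left ?_ k0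
    clear * - k N ε Y x a W hS hA c1 c2; linarith only [hS, hA, c1, c2]
  show ‖∑ n ∈ Icc 1 Y, a n‖ ≤ ε * Y
  refine le_of_mul_le_mul_right ?_ x0
  rw [div_le_iff₀ hε] at h4
  linarith only [hB, N1, h4, mul_nonneg_of_nonpos_of_nonpos (Mathlib.Tactic.Linarith.sub_nonpos_of_le (Mathlib.Tactic.Linarith.natCast_nonneg ℝ Y)) (Mathlib.Tactic.Linarith.sub_nonpos_of_le h4)]

end Pool.Agent.Lib.MR
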