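import Pool.Agent.Lib.MR.Kernel
import Pool.Agent.Lib.ANT.Katai

/-!
# Operations on functions with cancellation in short intervals
-/

set_option autoImplicit false
open Filter Topology Finset MeasureTheory

namespace Pool.Agent.Lib.MR

lemma shortOps_norm_le {g : ℕ → ℂ} (hg : ∀ n, ‖g n‖ ≤ 1) (x H : ℕ) :
    ‖∑ j ∈ range H, g (x + j)‖ ≤ H := by
  refine (norm_sum_le _ _).trans ?_
  simpa using sum_le_card_nsmul (range H) (fun j => ‖g (x + j)‖) 1 fun j _ => hg _

lemma shortOps_split {F : ℕ → ℝ} {B : ℝ} (h0 : ∀ x, 0 ≤ F x) (hB : ∀ x, F x ≤ B) (x₀ X : ℕ) :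
    ∑ x ∈ range X, F x ≤ (x₀ + 1) * B + ∑ x ∈ Icc x₀ X, F (x + 1) := by
  have h1 : ∑ x ∈ range X, F x ≤ ∑ x ∈ range (x₀ + 1), F x + ∑ x ∈ Icc (x₀ + 1) (X + 1), F x := by
    rw [← sum_union]
    · refine sum_le_sum_of_subset_of_nonneg ?_ fun x _ _ => h0 x
      intro x hx
      simp only [mem_union, mem_range, mem_Icc] at hx ⊢
      omega
    · rw [disjoint_left]
      intro x hx hx'
      simp only [mem_range, mem_Icc] at hx hx'
      omega
  have h2 : ∑ x ∈ range (x₀ + 1), F x ≤ (x₀ + 1) * B := by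
    simpa using sum_le_card_nsmul (range (x₀ + 1)) F B fun j _ => hB _
  have h3 : ∑ x ∈ Icc (x₀ + 1) (X + 1), F x = ∑ x ∈ Icc x₀ X, F (x + 1) := by
    rw [← Finset.map_add_right_Icc, sum_map]; rfl
  linarith

theorem short_of_MS {g : ℕ → ℂ} (hg : ∀ n, ‖g n‖ ≤ 1)
    (h : ∀ ε : ℝ, 0 < ε → ∃ h : ℝ, 1 ≤ h ∧
      ∀ᶠ X : ℕ in atTop, MS (X / h) Set.univ (DP (Icc 1 X) g) ≤ ε * (X : ℝ) ^ 2) : Short g := by
  intro ε hε
  obtain ⟨η, hη, rfl⟩ : ∃ η : ℝ, 0 < η ∧ ε = 6 * η := ⟨ε / 6, by positivity, by ring⟩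
  obtain ⟨k, hk, hX⟩ := h (η ^ 3 / 8) (by positivity)
  refine ⟨⌈3 * (1 + k) / η⌉₊, fun H hH => ?_⟩
  have hH' : 3 * (1 + k) / η ≤ H := (Nat.le_ceil _).trans (by exact_mod_cast hH)
  have hH1 : 3 * (1 + k) ≤ η * H := by rwa [div_le_iff₀ hη, mul_comm (H : ℝ)] at hH'
  have Hpos : (0 : ℝ) < H := by
    by_contra hc
    have : η * H ≤ 0 := mul_nonpos_of_nonneg_of_nonpos hη.le (not_lt.1 hc)
    linarith
  have e1 := (tendsto_add_atTop_nat H).eventually hX
  have e2 : ∀ᶠ X : ℕ in atTop, 2 / η ≤ (X : ℝ) :=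
    tendsto_natCast_atTop_atTop.eventually_ge_atTop _
  filter_upwards [e1, e2, eventually_ge_atTop H, eventually_ge_atTop 1] with X a1 a2 a3 a4
  have a2' : 2 ≤ η * X := by rwa [div_le_iff₀ hη, mul_comm (X : ℝ)] at a2
  have a3' : (H : ℝ) ≤ X := by exact_mod_cast a3
  have a4' : (1 : ℝ) ≤ X := by exact_mod_cast a4
  set x₀ := ⌈η * X⌉₊ with hx₀
  have x1 : η * X ≤ x₀ := Nat.le_ceil _
  have x2 : (x₀ : ℝ) < η * X + 1 := Nat.ceil_lt_add_one (by positivity)
  have x3 : 1 ≤ x₀ := Nat.ceil_pos.2 (by positivity)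
  have kpos : 0 < k := by linarith
  have Tpos : (0 : ℝ) < ((X + H : ℕ) : ℝ) / k := by push_cast; positivity
  have b1 := short_le_MS hg Tpos x3 X H
  have b2 : ((X : ℝ) + H) / (((X + H : ℕ) : ℝ) / k) = k := by
    push_cast; field_simp
  rw [b2] at b1
  have b3 : 2 * (H : ℝ) ^ 2 / (Real.pi * x₀) *
      MS (((X + H : ℕ) : ℝ) / k) Set.univ (DP (Icc 1 (X + H)) g) ≤ η ^ 2 * H ^ 2 * X := by
    have c1 : 2 * (H : ℝ) ^ 2 / (Real.pi * x₀) ≤ 2 * (H : ℝ) ^ 2 / (1 * (η * X)) := by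
      gcongr
      linarith [Real.pi_gt_three]
    have c2 : η ^ 3 / 8 * ((X + H : ℕ) : ℝ) ^ 2 ≤ η ^ 3 / 8 * (2 * X) ^ 2 := by
      gcongr; push_cast; linarith
    calc _ ≤ 2 * (H : ℝ) ^ 2 / (1 * (η * X)) * (η ^ 3 / 8 * (2 * X) ^ 2) :=
          mul_le_mul c1 (a1.trans c2) (MS_nonneg _ _ _) (by positivity)
      _ = _ := by field_simp; ring
  have b4 : 8 * (X : ℝ) * (1 + k) ^ 2 ≤ η ^ 2 * H ^ 2 * X := by
    have : (3 * (1 + k)) ^ 2 ≤ (η * H) ^ 2 := by gcongr
    have : 8 * (1 + k) ^ 2 ≤ η ^ 2 * H ^ 2 := by nlinarith [sq_nonneg (1 + k)]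
    nlinarith
  have b5 := shortOps_split (F := fun x => ‖∑ j ∈ range H, g (x + j)‖) (B := H)
    (fun _ => norm_nonneg _) (fun x => shortOps_norm_le hg x H) x₀ X
  have ηH : 0 < η * H := by positivity
  have b6 : ∑ x ∈ Icc x₀ X, ‖∑ j ∈ range H, g (x + 1 + j)‖ ≤
      X * (η * H) + (∑ x ∈ Icc x₀ X, ‖∑ j ∈ range H, g (x + 1 + j)‖ ^ 2) / (η * H) := by
    have c1 : ∑ x ∈ Icc x₀ X, η * H ≤ X * (η * H) := by
      rw [sum_const, nsmul_eq_mul]
      gcongr
      rw [Nat.card_Icc]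
      exact_mod_cast (by omega : X + 1 - x₀ ≤ X)
    refine le_trans ?_ (add_le_add c1 le_rfl)
    rw [sum_div, ← sum_add_distrib]
    refine sum_le_sum fun x _ => ?_
    generalize ‖∑ j ∈ range H, g (x + 1 + j)‖ = a
    rw [← sub_le_iff_le_add', le_div_iff₀ ηH]
    nlinarith [sq_nonneg (a - η * H), sq_nonneg a]
  have b7 : (∑ x ∈ Icc x₀ X, ‖∑ j ∈ range H, g (x + 1 + j)‖ ^ 2) / (η * H) ≤ 2 * η * H * X := by
    rw [div_le_iff₀ ηH]
    calc _ ≤ _ := b1
      _ ≤ η ^ 2 * H ^ 2 * X + η ^ 2 * H ^ 2 * X := add_le_add b3 b4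
      _ = _ := by ring
  have b8 : ((x₀ : ℝ) + 1) * H ≤ 2 * (η * X) * H := by
    gcongr; linarith
  have b9 : 0 ≤ η * H * X := by positivity
  linarith

lemma Short.add {f g : ℕ → ℂ} (hf : Short f) (hg : Short g) : Short fun n => f n + g n := by
  intro ε hε
  obtain ⟨H₁, h₁⟩ := hf (ε / 2) (by positivity)
  obtain ⟨H₂, h₂⟩ := hg (ε / 2) (by positivity)
  refine ⟨max H₁ H₂, fun H hH => ?_⟩
  filter_upwards [h₁ H (le_of_max_le_left hH), h₂ H (le_of_max_le_right hH)] with X a b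
  have : ∑ x ∈ range X, ‖∑ j ∈ range H, (f (x + j) + g (x + j))‖ ≤
      ∑ x ∈ range X, ‖∑ j ∈ range H, f (x + j)‖ + ∑ x ∈ range X, ‖∑ j ∈ range H, g (x + j)‖ := by
    rw [← sum_add_distrib]
    refine sum_le_sum fun x _ => ?_
    rw [sum_add_distrib]
    exact norm_add_le _ _
  linarith

lemma Short.zero : Short fun _ => 0 := by
  intro ε hε
  refine ⟨0, fun H _ => Eventually.of_forall fun X => ?_⟩
  simp only [sum_const_zero, norm_zero]
  positivity

lemma Short.const_mul {f : ℕ → ℂ} (hf : Short f) (c : ℂ) : Short fun n => c * f n := by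
  intro ε hε
  have hc : 0 < ‖c‖ + 1 := by positivity
  obtain ⟨H₁, h₁⟩ := hf (ε / (‖c‖ + 1)) (by positivity)
  refine ⟨H₁, fun H hH => ?_⟩
  filter_upwards [h₁ H hH] with X a
  simp only [← mul_sum, norm_mul]
  have h0 : 0 ≤ ∑ x ∈ range X, ‖∑ j ∈ range H, f (x + j)‖ := sum_nonneg fun _ _ => norm_nonneg _
  calc _ ≤ (‖c‖ + 1) * (ε / (‖c‖ + 1) * H * X) := mul_le_mul (by linarith) a h0 hc.le
    _ = _ := by field_simp

lemma Short.sum {ι : Type*} {s : Finset ι} {f : ι → ℕ → ℂ} (hf : ∀ i ∈ s, Short (f i)) :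
    Short fun n => ∑ i ∈ s, f i n := by
  classical
  induction s using Finset.induction_on with
  | empty => simpa using Short.zero
  | insert i s hi ih =>
    simp only [sum_insert hi]
    exact (hf i (mem_insert_self _ _)).add (ih fun j hj => hf j (mem_insert_of_mem hj))

lemma shortOps_init (f : ℕ → ℂ) (e y : ℕ) :
    ∑ n ∈ range y, (if e + 1 ∣ n then f (n / (e + 1)) else 0) =
      ∑ m ∈ range ((y + e) / (e + 1)), f m := by
  induction y with
  | zero => simp [Nat.div_eq_of_lt]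
  | succ y ih =>
    rw [sum_range_succ, ih, show y + 1 + e = y + e + 1 by ring, Nat.succ_div]
    have hd : e + 1 ∣ y + e + 1 ↔ e + 1 ∣ y := by
      rw [add_assoc]; exact (Nat.dvd_add_iff_left (dvd_refl _)).symm
    by_cases h : e + 1 ∣ y
    · rw [if_pos h, if_pos (hd.2 h), sum_range_succ]
      obtain ⟨k, rfl⟩ := h
      rw [Nat.mul_div_cancel_left _ e.succ_pos, Nat.mul_add_div e.succ_pos,
        Nat.div_eq_of_lt e.lt_succ_self, add_zero]
    · rw [if_neg h, if_neg (mt hd.1 h), add_zero, add_zero]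

lemma shortOps_blocks (G : ℕ → ℝ) {d : ℕ} (hd : 0 < d) (K : ℕ) :
    ∑ z ∈ range (d * K), G (z / d) = d * ∑ y ∈ range K, G y := by
  induction K with
  | zero => simp
  | succ K ih =>
    rw [mul_add_one, sum_range_add, ih, sum_range_succ, mul_add]
    congr 1
    rw [sum_congr rfl (g := fun _ => G K)]
    · simp
    · intro x hx
      rw [Nat.mul_add_div hd, Nat.div_eq_of_lt (mem_range.1 hx), add_zero]

lemma Short.dil {f : ℕ → ℂ} (hf : Short f) (hb : ∀ n, ‖f n‖ ≤ 1) {d : ℕ} (hd : 0 < d) :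
    Short fun n => if d ∣ n then f (n / d) else 0 := by
  obtain ⟨e, rfl⟩ : ∃ e, d = e + 1 := ⟨d - 1, by omega⟩
  intro ε hε
  obtain ⟨η, hη, rfl⟩ : ∃ η : ℝ, 0 < η ∧ ε = 3 * η := ⟨ε / 3, by positivity, by ring⟩
  obtain ⟨H₁, h₁⟩ := hf η hη
  refine ⟨max (H₁ * (e + 1)) ⌈1 / η⌉₊, fun H hH => ?_⟩
  have hH1 : H₁ ≤ H / (e + 1) := (Nat.le_div_iff_mul_le hd).2 (le_of_max_le_left hH)
  have hH2 : 1 / η ≤ H := (Nat.le_ceil _).trans (by exact_mod_cast le_of_max_le_right hH)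
  have hH3 : 1 ≤ η * H := by rwa [div_le_iff₀ hη, mul_comm (H : ℝ)] at hH2
  filter_upwards [(tendsto_add_atTop_nat 1).eventually (h₁ _ hH1), eventually_ge_atTop 1]
    with X a b
  set H' := H / (e + 1) with hH'
  let G : ℕ → ℝ := fun y => ‖∑ j ∈ range H', f (y + j)‖
  have k1 : ∀ x, ‖∑ j ∈ range H, (if e + 1 ∣ x + j then f ((x + j) / (e + 1)) else 0)‖ ≤
      G ((e + x) / (e + 1)) + 1 := by
    intro x
    have c1 := shortOps_init f e (x + H)
    rw [sum_range_add, shortOps_init f e x] at c1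
    have c2 : (x + H + e) / (e + 1) = (x + e) / (e + 1) + H' ∨
        (x + H + e) / (e + 1) = (x + e) / (e + 1) + H' + 1 := by
      rw [show x + H + e = x + e + H by ring, Nat.add_div hd]
      split_ifs
      exacts [Or.inr rfl, Or.inl rfl]
    rw [add_comm e x]
    rcases c2 with c2 | c2
    · rw [c2, sum_range_add] at c1
      rw [add_left_cancel c1]
      simp [G]
    · rw [c2, sum_range_succ, sum_range_add, add_assoc] at c1
      rw [add_left_cancel c1]
      exact (norm_add_le _ _).trans (add_le_add le_rfl (hb _))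
  have k2 : ∑ x ∈ range X, G ((e + x) / (e + 1)) ≤ ((e + 1 : ℕ) : ℝ) * ∑ y ∈ range (X + 1), G y := by
    rw [← shortOps_blocks G hd]
    have c1 : ∑ x ∈ range X, G ((e + x) / (e + 1)) ≤ ∑ z ∈ range (e + X), G (z / (e + 1)) := by
      rw [sum_range_add]
      exact le_add_of_nonneg_left (sum_nonneg fun _ _ => norm_nonneg _)
    refine c1.trans (sum_le_sum_of_subset_of_nonneg ?_ fun _ _ _ => norm_nonneg _)
    exact range_mono (by nlinarith)
  have k3 : ((e + 1 : ℕ) : ℝ) * H' ≤ H := by exact_mod_cast Nat.mul_div_le H (e + 1)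
  have b' : (1 : ℝ) ≤ X := by exact_mod_cast b
  have k4 : ((e + 1 : ℕ) : ℝ) * ∑ y ∈ range (X + 1), G y ≤ η * H * (2 * X) := by
    calc _ ≤ ((e + 1 : ℕ) : ℝ) * (η * H' * (X + 1 : ℕ)) := by gcongr
      _ = η * (((e + 1 : ℕ) : ℝ) * H') * (X + 1) := by push_cast; ring
      _ ≤ _ := by gcongr; linarith
  calc _ ≤ ∑ x ∈ range X, (G ((e + x) / (e + 1)) + 1) := sum_le_sum fun x _ => k1 x
    _ = ∑ x ∈ range X, G ((e + x) / (e + 1)) + X := by simp [sum_add_distrib]
    _ ≤ η * H * (2 * X) + η * H * X := by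
      refine add_le_add (k2.trans k4) ?_
      nlinarith
    _ = _ := by ring

lemma shortOps_expand {q : ℕ} [NeZero q] (h : ZMod q → ℂ) (hu : ∀ a, ¬ IsUnit a → h a = 0)
    (b : ZMod q) : h b = ∑ a : ZMod q, ∑ χ : DirichletCharacter ℂ q,
      (h a * χ a⁻¹ / q.totient) * χ b := by
  classical
  have hq : (q.totient : ℂ) ≠ 0 := by exact_mod_cast (Nat.totient_pos.2 (NeZero.pos q)).ne'
  have : ∀ a : ZMod q, ∑ χ : DirichletCharacter ℂ q, (h a * χ a⁻¹ / q.totient) * χ b =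
      if a = b then h a else 0 := by
    intro a
    by_cases ha : IsUnit a
    · have := DirichletCharacter.sum_char_inv_mul_char_eq ℂ ha b
      calc _ = h a / q.totient * ∑ χ : DirichletCharacter ℂ q, χ a⁻¹ * χ b := by
            rw [Finset.mul_sum]
            exact Finset.sum_congr rfl fun _ _ => by ring
        _ = _ := by
            rw [this]
            split_ifs
            · field_simp
            · simp
    · simp [hu a ha]
  simp [this]

theorem short_moebius_periodic {r : ℕ} [NeZero r]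
    (h : ∀ χ : DirichletCharacter ℂ r,
      Short fun n => ((ArithmeticFunction.moebius n : ℤ) : ℂ) * χ n) (f : ZMod r → ℂ) :
    Short fun n => ((ArithmeticFunction.moebius n : ℤ) : ℂ) * f n := by
  classical
  have hb : ∀ (χ : DirichletCharacter ℂ r) (n : ℕ),
      ‖((ArithmeticFunction.moebius n : ℤ) : ℂ) * χ n‖ ≤ 1 := by
    intro χ n
    rw [norm_mul, Complex.norm_intCast]
    have h1 : |(ArithmeticFunction.moebius n : ℝ)| ≤ 1 := by
      exact_mod_cast ArithmeticFunction.abs_moebius_le_one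
    exact mul_le_one₀ h1 (norm_nonneg _) (χ.norm_le_one _)
  let g : ℕ → ZMod r → ℂ := fun d a =>
    if IsUnit a then ((ArithmeticFunction.moebius d : ℤ) : ℂ) * f (d * a) else 0
  have h1 : Short fun n => ∑ d ∈ r.divisors, ∑ a : ZMod r, ∑ χ : DirichletCharacter ℂ r,
      (g d a * χ a⁻¹ / r.totient) * (if d ∣ n then
        ((ArithmeticFunction.moebius (n / d) : ℤ) : ℂ) * χ ((n / d : ℕ) : ZMod r) else 0) :=
    Short.sum fun d hd => Short.sum fun a _ => Short.sum fun χ _ =>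
      ((h χ).dil (hb χ) (Nat.pos_of_mem_divisors hd)).const_mul _
  convert h1 using 2 with n
  conv_lhs => rw [ANT.moebius_eq_sum_divisors (q := r) (n := n) (NeZero.ne r)]
  push_cast
  rw [sum_mul]
  refine sum_congr rfl fun d hd => ?_
  by_cases hdn : d ∣ n
  · simp only [hdn, true_and, if_true]
    have e1 := shortOps_expand (g d) (fun a ha => if_neg ha) ((n / d : ℕ) : ZMod r)
    have e2 : ∑ a : ZMod r, ∑ χ : DirichletCharacter ℂ r, (g d a * χ a⁻¹ / r.totient) *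
        (((ArithmeticFunction.moebius (n / d) : ℤ) : ℂ) * χ ((n / d : ℕ) : ZMod r)) =
        ((ArithmeticFunction.moebius (n / d) : ℤ) : ℂ) * g d ((n / d : ℕ) : ZMod r) := by
      rw [e1, mul_sum]
      refine sum_congr rfl fun a _ => ?_
      rw [mul_sum]
      exact sum_congr rfl fun χ _ => by ring
    rw [e2]
    have e3 : (d : ZMod r) * ((n / d : ℕ) : ZMod r) = n := by
      rw [← Nat.cast_mul, Nat.mul_div_cancel' hdn]
    simp only [g, ZMod.isUnit_iff_coprime, e3]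
    split_ifs <;> ring
  · simp [hdn]

lemma shortOps_mu_log (n : ℕ) : ((ArithmeticFunction.moebius n : ℤ) : ℝ) * Real.log n =
    -∑ x ∈ n.divisorsAntidiagonal,
      ArithmeticFunction.vonMangoldt x.1 * ((ArithmeticFunction.moebius x.2 : ℤ) : ℝ) := by
  let A : ArithmeticFunction ℝ :=
    ArithmeticFunction.pmul (ArithmeticFunction.moebius : ArithmeticFunction ℝ)
      ArithmeticFunction.log
  have h1 : A * (ArithmeticFunction.zeta : ArithmeticFunction ℝ) =
      -ArithmeticFunction.vonMangoldt := by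
    ext m
    rw [ArithmeticFunction.coe_mul_zeta_apply]
    exact ArithmeticFunction.sum_moebius_mul_log_eq
  have h2 : A = (-ArithmeticFunction.vonMangoldt) *
      (ArithmeticFunction.moebius : ArithmeticFunction ℝ) := by
    rw [← h1, mul_assoc, ArithmeticFunction.coe_zeta_mul_coe_moebius, mul_one]
  have h3 := congrArg (fun B : ArithmeticFunction ℝ => B n) h2
  simpa [A, ArithmeticFunction.mul_apply, ArithmeticFunction.log_apply] using h3

lemma moebius_char_mul_log {q : ℕ} (χ : DirichletCharacter ℂ q) (n : ℕ) :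
    ((ArithmeticFunction.moebius n : ℤ) : ℂ) * χ n * (Real.log n : ℝ)
      = ∑ x ∈ n.divisorsAntidiagonal, -(((ArithmeticFunction.vonMangoldt x.1 : ℝ) : ℂ) * χ x.1) *
        (((ArithmeticFunction.moebius x.2 : ℤ) : ℂ) * χ x.2) := by
  have h1 := congrArg (fun t : ℝ => (t : ℂ) * χ n) (shortOps_mu_log n)
  simp only [Complex.ofReal_mul, Complex.ofReal_neg, Complex.ofReal_sum,
    Complex.ofReal_intCast] at h1
  rw [mul_right_comm, h1, neg_mul, sum_mul, ← sum_neg_distrib]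
  refine sum_congr rfl fun x hx => ?_
  rw [← (Nat.mem_divisorsAntidiagonal.1 hx).1, Nat.cast_mul, map_mul]
  ring

end Pool.Agent.Lib.MR
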