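import Pool.Agent.Lib.MR.Lbound
import Pool.Agent.Lib.MR.Halasz
import Pool.Agent.Lib.MR.Core
import Pool.Agent.Lib.MR.ShortOps
import Pool.Agent.Lib.MR.Arcs

/-!
# Fourier uniformity of the Moebius function in almost all short intervals
-/

set_option autoImplicit false
open Filter Topology Finset MeasureTheory

namespace Pool.Agent.Lib.MR

theorem adm_moebius_char {q : ℕ} [NeZero q] (χ : DirichletCharacter ℂ q) :
    Adm fun n => ((ArithmeticFunction.moebius n : ℤ) : ℂ) * χ n := by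
  have hn : ∀ n : ℕ, ‖((ArithmeticFunction.moebius n : ℤ) : ℂ) * χ n‖ ≤ 1 := fun n => by
    rw [norm_mul]
    exact mul_le_one₀ (ANT.norm_moebius_le_one n) (norm_nonneg _) (χ.norm_le_one _)
  refine ⟨hn, fun p hp m hm => ?_, small_of_nonPret _
    (fun d => -(((ArithmeticFunction.vonMangoldt d : ℝ) : ℂ) * χ d)) hn (fun d => ?_)
    (moebius_char_mul_log χ) (nonPret_moebius_char χ)⟩
  · rw [ANT.moebius_prime_mul hp hm, Nat.cast_mul, map_mul]; ring
  · rw [norm_neg, norm_mul, Complex.norm_real,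
      Real.norm_of_nonneg ArithmeticFunction.vonMangoldt_nonneg]
    exact mul_le_of_le_one_right ArithmeticFunction.vonMangoldt_nonneg (χ.norm_le_one _)

theorem Adm.short {g : ℕ → ℂ} (hg : Adm g) : Short g :=
  short_of_MS hg.norm_le fun _ hε => hg.core hε

/-- Theorem of Matomaki, Radziwill and Tao (qualitative form). -/
theorem unif_moebius (ε : ℝ) (hε : 0 < ε) : ∃ H₀ : ℕ, ∀ H : ℕ, H₀ ≤ H → ∀ α : ℝ,
    ∀ᶠ X : ℕ in atTop,
      ∑ x ∈ range X, ‖∑ j ∈ range H, ((ArithmeticFunction.moebius (x + j) : ℤ) : ℂ) *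
        Complex.exp (2 * Real.pi * Complex.I * α * j)‖ ≤ ε * H * X :=
  unif_of_short (fun _ _ f => short_moebius_periodic (fun χ => (adm_moebius_char χ).short) f) ε hε

end Pool.Agent.Lib.MR
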