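import Pool.Agent.Lib.MR.Basic

/-!
# The Cauchy kernel: mean values and short sums
-/

set_option autoImplicit false
open Filter Topology Finset MeasureTheory

namespace Pool.Agent.Lib.MR

open scoped FourierTransform in
lemma fourier_exp_abs {T : ℝ} (hT : 0 < T) (w : ℝ) :
    Integrable (fun v : ℝ => Complex.exp (((-2 * Real.pi * v * w : ℝ) : ℂ) * Complex.I) •
      ((Real.exp (-(2 * Real.pi * T * |v|)) : ℝ) : ℂ)) ∧
    𝓕 (fun v : ℝ => ((Real.exp (-(2 * Real.pi * T * |v|)) : ℝ) : ℂ)) w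
      = ((wt T w / (Real.pi * T) : ℝ) : ℂ) := by
  have hπ := Real.pi_pos
  set a : ℂ := -(2 * Real.pi * (T + w * Complex.I)) with ha
  set b : ℂ := 2 * Real.pi * (T - w * Complex.I) with hb
  have har : a.re < 0 := by simp [ha]; positivity
  have hbr : 0 < b.re := by simp [hb]; positivity
  set F : ℝ → ℂ := fun v => Complex.exp (((-2 * Real.pi * v * w : ℝ) : ℂ) * Complex.I) •
      ((Real.exp (-(2 * Real.pi * T * |v|)) : ℝ) : ℂ) with hF
  have h1 : Set.EqOn F (fun v : ℝ => Complex.exp (a * v)) (Set.Ioi 0) := fun v hv => by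
    simp only [hF, abs_of_pos (Set.mem_Ioi.1 hv), smul_eq_mul, Complex.ofReal_exp,
      ← Complex.exp_add, ha]
    congr 1; push_cast; ring
  have h2 : Set.EqOn F (fun v : ℝ => Complex.exp (b * v)) (Set.Iic 0) := fun v hv => by
    simp only [hF, abs_of_nonpos (Set.mem_Iic.1 hv), smul_eq_mul, Complex.ofReal_exp,
      ← Complex.exp_add, hb]
    congr 1; push_cast; ring
  have i1 : IntegrableOn F (Set.Ioi 0) :=
    (integrableOn_exp_mul_complex_Ioi har 0).congr_fun h1.symm measurableSet_Ioi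
  have i2 : IntegrableOn F (Set.Iic 0) :=
    (integrableOn_exp_mul_complex_Iic hbr 0).congr_fun h2.symm measurableSet_Iic
  refine ⟨?_, ?_⟩
  · rw [← integrableOn_univ, ← Set.Iic_union_Ioi (a := (0 : ℝ))]
    exact i2.union i1
  · rw [Real.fourier_real_eq_integral_exp_smul, ← intervalIntegral.integral_Iic_add_Ioi i2 i1,
      setIntegral_congr_fun measurableSet_Ioi h1, setIntegral_congr_fun measurableSet_Iic h2,
      integral_exp_mul_complex_Ioi har, integral_exp_mul_complex_Iic hbr]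
    have ha0 : (T : ℂ) + w * Complex.I ≠ 0 := fun h => by
      have := congrArg Complex.re h; simp at this; linarith
    have hb0 : (T : ℂ) - w * Complex.I ≠ 0 := fun h => by
      have := congrArg Complex.re h; simp at this; linarith
    have hc : ((T : ℂ) ^ 2 + (w : ℂ) ^ 2) = (T + w * Complex.I) * (T - w * Complex.I) := by
      linear_combination (w : ℂ) ^ 2 * Complex.I_mul_I
    have hp : (Real.pi : ℂ) ≠ 0 := by exact_mod_cast hπ.ne'
    have hT' : (T : ℂ) ≠ 0 := by exact_mod_cast hT.ne'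
    simp only [wt, ha, hb]
    push_cast
    rw [hc, mul_zero, mul_zero, Complex.exp_zero]
    field_simp
    ring

open scoped FourierTransform in
theorem integral_cm_exp {T : ℝ} (hT : 0 < T) (x : ℝ) :
    ∫ u, Complex.exp (Complex.I * ((u * x : ℝ) : ℂ)) ∂(cm T)
      = ((Real.pi * T * Real.exp (-(T * |x|)) : ℝ) : ℂ) := by
  have hπ := Real.pi_pos
  set f : ℝ → ℂ := fun v => ((Real.exp (-(2 * Real.pi * T * |v|)) : ℝ) : ℂ) with hf
  have h1 : 𝓕 f = fun w => ((wt T w / (Real.pi * T) : ℝ) : ℂ) :=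
    funext fun w => (fourier_exp_abs hT w).2
  have h2 : Integrable f := by simpa [hf] using (fourier_exp_abs hT 0).1
  have h3 : Integrable (𝓕 f) := by
    rw [h1]; exact ((integrable_wt T).div_const _).ofReal
  have h4 := h2.fourierInv_fourier_eq h3 (v := x / (2 * Real.pi))
    (Continuous.continuousAt (by rw [hf]; fun_prop))
  rw [Real.fourierInv_eq', h1] at h4
  have h5 : f (x / (2 * Real.pi)) = ((Real.exp (-(T * |x|)) : ℝ) : ℂ) := by
    simp only [hf]
    congr 3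
    rw [abs_div, abs_of_pos (by positivity : 0 < 2 * Real.pi)]
    field_simp
  rw [integral_cm, Complex.ofReal_mul, ← h5, ← h4, ← integral_const_mul]
  refine integral_congr_ae (Eventually.of_forall fun u => ?_)
  have hp : (Real.pi : ℂ) ≠ 0 := by exact_mod_cast hπ.ne'
  have hT' : (T : ℂ) ≠ 0 := by exact_mod_cast hT.ne'
  have h6 : 2 * Real.pi * inner ℝ u (x / (2 * Real.pi)) = u * x := by
    simp only [RCLike.inner_apply, conj_trivial]
    field_simp
  simp only [h6, smul_eq_mul, mul_comm Complex.I]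
  push_cast
  field_simp

theorem MS_eq {ι : Type*} (s : Finset ι) (n : ι → ℕ) (a : ι → ℂ) {T : ℝ} (hT : 0 < T) :
    MS T Set.univ (fun u => ∑ i ∈ s, a i * nit (n i) u) = Real.pi * T * ∑ i ∈ s, ∑ j ∈ s,
      (a i * (starRingEnd ℂ) (a j)).re *
        Real.exp (-(T * |Real.log (n i) - Real.log (n j)|)) := by
  have hE : ∀ x : ℝ, Trig fun u => Complex.exp (Complex.I * ((u * x : ℝ) : ℂ)) := fun x =>
    ⟨by fun_prop, 1, fun u => by
      beta_reduce; rw [mul_comm, Complex.norm_exp_ofReal_mul_I]⟩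
  have h1 : ∀ u, ((‖∑ i ∈ s, a i * nit (n i) u‖ ^ 2 : ℝ) : ℂ) = ∑ i ∈ s, ∑ j ∈ s,
      a i * (starRingEnd ℂ) (a j) *
        Complex.exp (Complex.I * ((u * (Real.log (n i) - Real.log (n j)) : ℝ) : ℂ)) := fun u => by
    rw [Complex.ofReal_pow, ← Complex.mul_conj', map_sum, sum_mul_sum]
    refine sum_congr rfl fun i _ => sum_congr rfl fun j _ => ?_
    rw [map_mul, conj_nit, mul_mul_mul_comm, nit, nit, ← Complex.exp_add]
    congr 2; push_cast; ring
  have h2 : ((MS T Set.univ (fun u => ∑ i ∈ s, a i * nit (n i) u) : ℝ) : ℂ)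
      = ∑ i ∈ s, ∑ j ∈ s, a i * (starRingEnd ℂ) (a j) *
        ((Real.pi * T * Real.exp (-(T * |Real.log (n i) - Real.log (n j)|)) : ℝ) : ℂ) := by
    rw [MS, Measure.restrict_univ, ← integral_complex_ofReal]
    simp_rw [h1]
    rw [integral_finsetSum _ fun i _ =>
      (Trig.sum fun j _ => (Trig.const _).mul (hE _)).integrable _]
    refine sum_congr rfl fun i _ => ?_
    rw [integral_finsetSum _ fun j _ => ((Trig.const _).mul (hE _)).integrable _]
    refine sum_congr rfl fun j _ => ?_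
    rw [integral_const_mul, integral_cm_exp hT]
  have h3 := congrArg Complex.re h2
  rw [Complex.ofReal_re] at h3
  rw [h3, Complex.re_sum, mul_sum]
  refine sum_congr rfl fun i _ => ?_
  rw [Complex.re_sum, mul_sum]
  refine sum_congr rfl fun j _ => ?_
  rw [Complex.re_mul_ofReal]; ring

lemma sum_exp_neg_le {c : ℝ} (hc : 0 < c) (N : ℕ) :
    ∑ k ∈ range N, Real.exp (-(c * (k + 1))) ≤ 1 / c := by
  have key : ∀ N : ℕ, c * ∑ k ∈ range N, Real.exp (-(c * (k + 1))) ≤ 1 - Real.exp (-(c * N)) := by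
    intro N
    induction N with
    | zero => simp
    | succ N ih =>
      rw [sum_range_succ, mul_add]
      have h1 : Real.exp (-(c * N)) = Real.exp (-(c * (N + 1))) * Real.exp c := by
        rw [← Real.exp_add]; congr 1; ring
      have h2 := Real.add_one_le_exp c
      have h3 := Real.exp_pos (-(c * (N + 1)))
      push_cast
      nlinarith
  rw [le_div_iff₀' hc]
  linarith [key N, Real.exp_pos (-(c * N))]

lemma sum_kernel_le {N m : ℕ} (hm : m ∈ Icc 1 N) {T : ℝ} (hT : 0 < T) :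
    ∑ n ∈ Icc 1 N, Real.exp (-(T * |Real.log m - Real.log n|)) ≤ 1 + 2 * N / T := by
  obtain ⟨hm1, hmN⟩ := mem_Icc.1 hm
  have hN : (0 : ℝ) < N := by exact_mod_cast hm1.trans hmN
  have hl : ∀ a b : ℕ, 1 ≤ a → a ≤ b → b ≤ N → ((b : ℝ) - a) / N ≤ Real.log b - Real.log a := by
    intro a b ha hab hb
    have ha' : (0 : ℝ) < a := by exact_mod_cast ha
    have hab' : (a : ℝ) ≤ b := by exact_mod_cast hab
    have hb' : (b : ℝ) ≤ N := by exact_mod_cast hb
    have hb0 : (0 : ℝ) < b := by linarith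
    have h := Real.one_sub_inv_le_log_of_pos (div_pos hb0 ha')
    rw [Real.log_div hb0.ne' ha'.ne', inv_div] at h
    refine le_trans ?_ h
    rw [one_sub_div hb0.ne']
    gcongr
  set e : ℕ → ℝ := fun k => Real.exp (-(T / N * (k + 1))) with he
  have he0 : ∀ k, 0 ≤ e k := fun k => (Real.exp_pos _).le
  have hs := sum_exp_neg_le (div_pos hT hN) N
  have hsplit : Icc 1 N = Ico 1 m ∪ ({m} ∪ Ioc m N) := by
    ext n; simp only [mem_Icc, mem_union, mem_Ico, mem_singleton, mem_Ioc]; omega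
  have h1 : ∑ n ∈ Ico 1 m, Real.exp (-(T * |Real.log m - Real.log n|)) ≤ ∑ k ∈ range N, e k := by
    calc _ ≤ ∑ n ∈ Ico 1 m, e (m - 1 - n) := sum_le_sum fun n hn => by
          obtain ⟨h1, h2⟩ := mem_Ico.1 hn
          have h3 := (hl n m h1 h2.le hmN).trans (le_abs_self _)
          have h4 : ((m - 1 - n : ℕ) : ℝ) + 1 = m - n := by
            have : m = (m - 1 - n) + 1 + n := by omega
            nth_rewrite 2 [this]; push_cast; ring
          simp only [he, h4]
          refine Real.exp_le_exp.2 (neg_le_neg ?_)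
          rw [div_mul_eq_mul_div, mul_div_assoc]
          gcongr
      _ = ∑ k ∈ (Ico 1 m).image (fun n => m - 1 - n), e k := by
          rw [sum_image]
          intro a ha b hb hab
          simp only [coe_Ico, Set.mem_Ico] at ha hb hab
          omega
      _ ≤ _ := sum_le_sum_of_subset_of_nonneg (fun k hk => by
          obtain ⟨n, hn, rfl⟩ := mem_image.1 hk
          rw [mem_range]; omega) fun k _ _ => he0 k
  have h2 : ∑ n ∈ Ioc m N, Real.exp (-(T * |Real.log m - Real.log n|)) ≤ ∑ k ∈ range N, e k := by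
    calc _ ≤ ∑ n ∈ Ioc m N, e (n - m - 1) := sum_le_sum fun n hn => by
          obtain ⟨h1, h2⟩ := mem_Ioc.1 hn
          have h3 := (hl m n hm1 h1.le h2).trans (le_abs_self _)
          have h4 : ((n - m - 1 : ℕ) : ℝ) + 1 = n - m := by
            have : n = (n - m - 1) + 1 + m := by omega
            nth_rewrite 2 [this]; push_cast; ring
          simp only [he, h4]
          refine Real.exp_le_exp.2 (neg_le_neg ?_)
          rw [div_mul_eq_mul_div, mul_div_assoc, abs_sub_comm]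
          gcongr
      _ = ∑ k ∈ (Ioc m N).image (fun n => n - m - 1), e k := by
          rw [sum_image]
          intro a ha b hb hab
          simp only [coe_Ioc, Set.mem_Ioc] at ha hb hab
          omega
      _ ≤ _ := sum_le_sum_of_subset_of_nonneg (fun k hk => by
          obtain ⟨n, hn, rfl⟩ := mem_image.1 hk
          rw [mem_range]; have := mem_Ioc.1 hn; omega) fun k _ _ => he0 k
  rw [hsplit, sum_union, sum_union, sum_singleton]
  · simp only [sub_self, abs_zero, mul_zero, neg_zero, Real.exp_zero]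
    rw [one_div_div] at hs
    rw [mul_div_assoc]
    simp only [he] at h1 h2
    linarith
  · simp
  · rw [disjoint_left]; intro n h1 h2
    simp only [mem_union, mem_Ico, mem_singleton, mem_Ioc] at h1 h2; omega

/-- Mean value theorem for Dirichlet polynomials. -/
theorem mean_value {S : Finset ℕ} {N : ℕ} (hS : S ⊆ Icc 1 N) (a : ℕ → ℂ) {T : ℝ} (hT : 0 < T) :
    MS T Set.univ (DP S a) ≤ Real.pi * (T + 2 * N) * ∑ n ∈ S, ‖a n‖ ^ 2 := by
  have h := MS_eq S id a hT
  simp only [id] at h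
  rw [show DP S a = fun u => ∑ i ∈ S, a i * nit i u from rfl, h]
  set k : ℕ → ℕ → ℝ := fun m n => Real.exp (-(T * |Real.log m - Real.log n|)) with hk
  have hk0 : ∀ m n, 0 ≤ k m n := fun m n => (Real.exp_pos _).le
  have hks : ∀ m n, k m n = k n m := fun m n => by simp only [hk, abs_sub_comm]
  have h1 : ∑ i ∈ S, ∑ j ∈ S, (a i * (starRingEnd ℂ) (a j)).re * k i j
      ≤ ∑ i ∈ S, ∑ j ∈ S, (‖a i‖ ^ 2 / 2 * k i j + ‖a j‖ ^ 2 / 2 * k j i) := by
    refine sum_le_sum fun i _ => sum_le_sum fun j _ => ?_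
    rw [hks j i, ← add_mul]
    refine mul_le_mul_of_nonneg_right ((Complex.re_le_norm _).trans ?_) (hk0 i j)
    rw [norm_mul, Complex.norm_conj]
    nlinarith [sq_nonneg (‖a i‖ - ‖a j‖)]
  have h2 : ∑ i ∈ S, ∑ j ∈ S, ‖a i‖ ^ 2 / 2 * k i j ≤ (1 + 2 * N / T) / 2 * ∑ n ∈ S, ‖a n‖ ^ 2 := by
    rw [mul_sum]
    refine sum_le_sum fun i hi => ?_
    rw [← mul_sum]
    have := (sum_le_sum_of_subset_of_nonneg hS fun j _ _ => hk0 i j).trans (sum_kernel_le (hS hi) hT)
    nlinarith [sq_nonneg ‖a i‖]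
  simp only [sum_add_distrib] at h1
  rw [sum_comm (f := fun i j => ‖a j‖ ^ 2 / 2 * k j i)] at h1
  have h3 : Real.pi * (T + 2 * N) * ∑ n ∈ S, ‖a n‖ ^ 2
      = Real.pi * T * ((1 + 2 * N / T) * ∑ n ∈ S, ‖a n‖ ^ 2) := by field_simp
  rw [h3]
  have := Real.pi_pos
  gcongr
  linarith

/-- The same for a family of terms: only the collected coefficients matter. -/
theorem mean_value_fam {ι : Type*} (s : Finset ι) (n : ι → ℕ) {N : ℕ}
    (hn : ∀ i ∈ s, n i ∈ Icc 1 N) (a : ι → ℂ) {T : ℝ} (hT : 0 < T) :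
    MS T Set.univ (fun u => ∑ i ∈ s, a i * nit (n i) u)
      ≤ Real.pi * (T + 2 * N) * ∑ m ∈ Icc 1 N, ‖∑ i ∈ s with n i = m, a i‖ ^ 2 := by
  refine le_of_eq_of_le ?_ (mean_value (Subset.refl _) (fun m => ∑ i ∈ s with n i = m, a i) hT)
  congr 1
  ext u
  rw [DP, ← sum_fiberwise_of_maps_to hn]
  refine sum_congr rfl fun m _ => ?_
  rw [sum_mul]
  exact sum_congr rfl fun i hi => by rw [(mem_filter.1 hi).2]

lemma norm_sq_sum_eq {ι : Type*} (s : Finset ι) (b : ι → ℂ) :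
    ‖∑ i ∈ s, b i‖ ^ 2 = ∑ i ∈ s, ∑ j ∈ s, (b i * (starRingEnd ℂ) (b j)).re := by
  have h : ((‖∑ i ∈ s, b i‖ ^ 2 : ℝ) : ℂ) = ∑ i ∈ s, ∑ j ∈ s, b i * (starRingEnd ℂ) (b j) := by
    rw [Complex.ofReal_pow, ← Complex.mul_conj', map_sum, sum_mul_sum]
  have h3 := congrArg Complex.re h
  rw [Complex.ofReal_re] at h3
  simp only [h3, Complex.re_sum]

lemma telescope_ite (φ : ℕ → ℝ) {m : ℕ} (hm : 1 ≤ m) {J : ℕ} (hJ : m ≤ J) :
    ∑ t ∈ Icc 1 J, (if m ≤ t then φ t - φ (t + 1) else 0) + φ (J + 1) = φ m := by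
  induction J, hJ using Nat.le_induction with
  | base =>
    rw [sum_eq_single m (fun t ht hne => if_neg (by have := mem_Icc.1 ht; omega))
      (fun h => absurd (mem_Icc.2 ⟨hm, le_rfl⟩) h), if_pos le_rfl]
    ring
  | succ J hJ ih =>
    rw [sum_Icc_succ_top (by omega), if_pos (by omega), ← ih]
    ring

lemma exp_kernel_eq {m n : ℕ} (hm : 1 ≤ m) (hn : 1 ≤ n) (T : ℝ) :
    Real.exp (-(T * |Real.log m - Real.log n|))
      = (m : ℝ) ^ T * (n : ℝ) ^ T * ((max m n : ℕ) : ℝ) ^ (-(2 * T)) := by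
  have hm' : (0 : ℝ) < m := by exact_mod_cast hm
  have hn' : (0 : ℝ) < n := by exact_mod_cast hn
  rcases le_total m n with h | h
  · have : Real.log m ≤ Real.log n := Real.log_le_log hm' (by exact_mod_cast h)
    rw [max_eq_right h, abs_of_nonpos (by linarith), Real.rpow_def_of_pos hm',
      Real.rpow_def_of_pos hn', Real.rpow_def_of_pos hn', ← Real.exp_add, ← Real.exp_add]
    congr 1; ring
  · have : Real.log n ≤ Real.log m := Real.log_le_log hn' (by exact_mod_cast h)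
    rw [max_eq_left h, abs_of_nonneg (by linarith), Real.rpow_def_of_pos hm',
      Real.rpow_def_of_pos hn', Real.rpow_def_of_pos hm', ← Real.exp_add, ← Real.exp_add]
    congr 1; ring

theorem sum_sq_le_MS {ι : Type*} (s : Finset ι) (n : ι → ℕ) (hn : ∀ i ∈ s, 1 ≤ n i) (a : ι → ℂ)
    {T : ℝ} (hT : 0 < T) (J : ℕ) :
    Real.pi * T * ∑ j ∈ Icc 1 J, ‖∑ i ∈ s with n i ≤ j, a i * ((((n i : ℝ) / j) ^ T : ℝ) : ℂ)‖ ^ 2 *
        (1 - ((j : ℝ) / (j + 1)) ^ (2 * T))
      ≤ MS T Set.univ (fun u => ∑ i ∈ s, a i * nit (n i) u) := by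
  rw [MS_eq s n a hT]
  have hπ := Real.pi_pos
  refine mul_le_mul_of_nonneg_left ?_ (by positivity)
  set φ : ℕ → ℝ := fun t => (t : ℝ) ^ (-(2 * T)) with hφ
  set b : ι → ℂ := fun i => a i * (((n i : ℝ) ^ T : ℝ) : ℂ) with hb
  set J' := max J (s.sup n) with hJ'
  have hd : ∀ t, 1 ≤ t → 0 ≤ φ t - φ (t + 1) := fun t ht => sub_nonneg.2 <|
    Real.rpow_le_rpow_of_nonpos (by exact_mod_cast ht) (by push_cast; linarith) (by linarith)
  have h1 : ∀ t ∈ Icc 1 J, ‖∑ i ∈ s with n i ≤ t, a i * ((((n i : ℝ) / t) ^ T : ℝ) : ℂ)‖ ^ 2 *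
      (1 - ((t : ℝ) / (t + 1)) ^ (2 * T)) = ‖∑ i ∈ s with n i ≤ t, b i‖ ^ 2 * (φ t - φ (t + 1)) := by
    intro t ht
    have ht' : (0 : ℝ) < t := by exact_mod_cast (mem_Icc.1 ht).1
    have e1 : ∑ i ∈ s with n i ≤ t, a i * ((((n i : ℝ) / t) ^ T : ℝ) : ℂ)
        = (∑ i ∈ s with n i ≤ t, b i) * ((((t : ℝ) ^ T)⁻¹ : ℝ) : ℂ) := by
      rw [sum_mul]
      refine sum_congr rfl fun i _ => ?_
      rw [Real.div_rpow (Nat.cast_nonneg _) ht'.le, div_eq_mul_inv, Complex.ofReal_mul, hb,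
        mul_assoc]
    have e2 : 0 < (t : ℝ) ^ T := Real.rpow_pos_of_pos ht' T
    have e3 : 0 < ((t : ℝ) + 1) ^ (2 * T) := Real.rpow_pos_of_pos (by linarith) _
    have e4 : (t : ℝ) ^ (2 * T) = ((t : ℝ) ^ T) ^ 2 := by
      rw [mul_comm, Real.rpow_mul ht'.le, Real.rpow_two]
    rw [e1, norm_mul, Complex.norm_real, Real.norm_of_nonneg (by positivity), mul_pow, mul_assoc]
    congr 1
    simp only [hφ]
    push_cast
    rw [Real.div_rpow ht'.le (by linarith), Real.rpow_neg ht'.le, Real.rpow_neg (by linarith), e4]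
    field_simp
  have h2 : ∀ i ∈ s, ∀ j ∈ s, (a i * (starRingEnd ℂ) (a j)).re *
      Real.exp (-(T * |Real.log (n i) - Real.log (n j)|))
      = ∑ t ∈ Icc 1 J', (if n i ≤ t then if n j ≤ t then (b i * (starRingEnd ℂ) (b j)).re else 0
          else 0) * (φ t - φ (t + 1)) + (b i * (starRingEnd ℂ) (b j)).re * φ (J' + 1) := by
    intro i hi j hj
    have e1 : (b i * (starRingEnd ℂ) (b j)).re
        = (a i * (starRingEnd ℂ) (a j)).re * ((n i : ℝ) ^ T * (n j : ℝ) ^ T) := by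
      rw [← Complex.re_mul_ofReal]
      simp only [hb, map_mul, Complex.conj_ofReal]
      congr 1; push_cast; ring
    have e2 := telescope_ite φ (m := max (n i) (n j)) (le_max_of_le_left (hn i hi)) (J := J')
      (le_max_of_le_right (max_le (le_sup hi) (le_sup hj)))
    rw [exp_kernel_eq (hn i hi) (hn j hj), ← mul_assoc, ← e1]
    change _ * φ _ = _
    rw [← e2, mul_add, mul_sum]
    congr 1
    refine sum_congr rfl fun t _ => ?_
    by_cases c1 : n i ≤ t <;> by_cases c2 : n j ≤ t <;> simp [c1, c2]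
  rw [sum_congr rfl h1, sum_congr rfl fun i hi => sum_congr rfl (h2 i hi)]
  simp only [sum_add_distrib, ← sum_mul]
  rw [← norm_sq_sum_eq]
  have h3 : ∑ i ∈ s, ∑ j ∈ s, ∑ t ∈ Icc 1 J', (if n i ≤ t then if n j ≤ t then
        (b i * (starRingEnd ℂ) (b j)).re else 0 else 0) * (φ t - φ (t + 1))
      = ∑ t ∈ Icc 1 J', ‖∑ i ∈ s with n i ≤ t, b i‖ ^ 2 * (φ t - φ (t + 1)) := by
    rw [sum_congr rfl fun i _ => sum_comm, sum_comm]
    refine sum_congr rfl fun t _ => ?_
    rw [norm_sq_sum_eq, sum_filter, sum_mul]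
    refine sum_congr rfl fun i _ => ?_
    rw [← sum_mul, sum_filter]
    split_ifs <;> simp
  rw [h3]
  have h4 : 0 ≤ ‖∑ i ∈ s, b i‖ ^ 2 * φ (J' + 1) :=
    mul_nonneg (by positivity) (Real.rpow_nonneg (Nat.cast_nonneg _) _)
  refine le_trans ?_ (le_add_of_nonneg_right h4)
  exact sum_le_sum_of_subset_of_nonneg (Icc_subset_Icc_right (le_max_left _ _))
    fun t ht _ => mul_nonneg (by positivity) (hd t (mem_Icc.1 ht).1)

/-- Smoothed sums. -/
noncomputable def smo (a : ℕ → ℂ) (T : ℝ) (j : ℕ) : ℂ :=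
  ∑ i ∈ Icc 1 j, a i * ((((i : ℝ) / j) ^ T : ℝ) : ℂ)

lemma smo_succ (a : ℕ → ℂ) (T : ℝ) (j : ℕ) :
    smo a T (j + 1) = a (j + 1) + smo a T j * ((((j : ℝ) / (j + 1)) ^ T : ℝ) : ℂ) := by
  have h1 : ((j + 1 : ℕ) : ℝ) ≠ 0 := by positivity
  rw [smo, sum_Icc_succ_top (by omega), div_self h1, Real.one_rpow, Complex.ofReal_one, mul_one,
    add_comm, smo, sum_mul]
  congr 1
  refine sum_congr rfl fun i hi => ?_
  have hj : (0 : ℝ) < j := by exact_mod_cast (mem_Icc.1 hi).1.trans (mem_Icc.1 hi).2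
  rw [mul_assoc, ← Complex.ofReal_mul, ← Real.mul_rpow (by positivity) (by positivity)]
  congr 3
  push_cast
  field_simp

lemma ratio_bounds {T : ℝ} (hT : 0 < T) {j : ℕ} (hj : 1 ≤ j) :
    0 ≤ ((j : ℝ) / (j + 1)) ^ T ∧ ((j : ℝ) / (j + 1)) ^ T * (1 + T / (j + 1)) ≤ 1 ∧
      1 - ((j : ℝ) / (j + 1)) ^ T ≤ T / j := by
  have hj' : (0 : ℝ) < j := by exact_mod_cast hj
  have h0 : (0 : ℝ) < j / (j + 1) := by positivity
  have h1 := Real.log_le_sub_one_of_pos h0
  have h2 := Real.one_sub_inv_le_log_of_pos h0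
  have e1 : (j : ℝ) / (j + 1) - 1 = -(1 / (j + 1)) := by field_simp; ring
  have e2 : 1 - ((j : ℝ) / (j + 1))⁻¹ = -(1 / j) := by field_simp; ring
  rw [e1] at h1
  rw [e2] at h2
  rw [Real.rpow_def_of_pos h0]
  refine ⟨(Real.exp_pos _).le, ?_, ?_⟩
  · have h3 := Real.add_one_le_exp (T / (j + 1))
    calc _ ≤ Real.exp (Real.log (j / (j + 1)) * T) * Real.exp (T / (j + 1)) := by
          gcongr; linarith
      _ ≤ 1 := by
          rw [← Real.exp_add, Real.exp_le_one_iff]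
          have := mul_le_mul_of_nonneg_right h1 hT.le
          rw [neg_mul, one_div_mul_eq_div] at this
          linarith
  · have h3 := Real.add_one_le_exp (Real.log (j / (j + 1)) * T)
    have := mul_le_mul_of_nonneg_right h2 hT.le
    rw [neg_mul, one_div_mul_eq_div] at this
    linarith

lemma norm_smo_le {a : ℕ → ℂ} (ha : ∀ n, ‖a n‖ ≤ 1) {T : ℝ} (hT : 0 < T) (j : ℕ) :
    ‖smo a T j‖ ≤ 1 + j / T := by
  induction j with
  | zero => simp [smo]
  | succ j ih =>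
    rw [smo_succ]
    refine (norm_add_le _ _).trans (add_le_add (ha _) ?_)
    rcases Nat.eq_zero_or_pos j with rfl | hj
    · simp [smo, hT.le]
    obtain ⟨h1, h2, -⟩ := ratio_bounds hT hj
    rw [norm_mul, Complex.norm_real, Real.norm_of_nonneg h1]
    refine (mul_le_mul_of_nonneg_right ih h1).trans ?_
    have e : (1 + (j : ℝ) / T) ≤ (j + 1) / T * (1 + T / (j + 1)) := by
      have : ((j : ℝ) + 1) / T * (1 + T / (j + 1)) = 1 + j / T + 1 / T := by field_simp; ring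
      rw [this]
      exact le_add_of_nonneg_right (by positivity)
    push_cast
    calc _ ≤ (j + 1) / T * (1 + T / (j + 1)) * ((j : ℝ) / (j + 1)) ^ T := by gcongr
      _ = (j + 1) / T * (((j : ℝ) / (j + 1)) ^ T * (1 + T / (j + 1))) := by ring
      _ ≤ _ := mul_le_of_le_one_right (by positivity) h2

lemma sum_eq_smo (a : ℕ → ℂ) (T : ℝ) (x H : ℕ) :
    ∑ j ∈ range H, a (x + 1 + j) = smo a T (x + H) - smo a T x + ∑ k ∈ range H,
      smo a T (x + k) * ((1 - (((x + k : ℕ) : ℝ) / ((x + k : ℕ) + 1)) ^ T : ℝ) : ℂ) := by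
  induction H with
  | zero => simp
  | succ H ih =>
    rw [sum_range_succ, sum_range_succ, ih, ← add_assoc x H 1, smo_succ, add_right_comm x 1 H]
    push_cast
    ring

theorem short_le_MS {a : ℕ → ℂ} (ha : ∀ n, ‖a n‖ ≤ 1) {T : ℝ} (hT : 0 < T) {x₀ : ℕ} (hx : 1 ≤ x₀)
    (X H : ℕ) :
    ∑ x ∈ Icc x₀ X, ‖∑ j ∈ range H, a (x + 1 + j)‖ ^ 2 ≤
      2 * (H : ℝ) ^ 2 / (Real.pi * x₀) * MS T Set.univ (DP (Icc 1 (X + H)) a)
        + 8 * X * (1 + (X + H) / T) ^ 2 := by
  have hπ := Real.pi_pos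
  have hx' : (0 : ℝ) < x₀ := by exact_mod_cast hx
  set w : ℕ → ℝ := fun j => ‖smo a T j‖ ^ 2 * (1 - ((j : ℝ) / (j + 1)) ^ (2 * T)) with hw
  have hρ : ∀ j : ℕ, x₀ ≤ j → 0 ≤ w j ∧
      ‖smo a T j * ((1 - ((j : ℝ) / (j + 1)) ^ T : ℝ) : ℂ)‖ ^ 2 ≤ T / x₀ * w j := by
    intro j hj
    obtain ⟨h1, h2, h3⟩ := ratio_bounds hT (hx.trans hj)
    have h4 : ((j : ℝ) / (j + 1)) ^ T ≤ 1 :=
      le_trans (le_mul_of_one_le_right h1 (le_add_of_nonneg_right (by positivity))) h2
    have h5 : ((j : ℝ) / (j + 1)) ^ (2 * T) = (((j : ℝ) / (j + 1)) ^ T) ^ 2 := by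
      rw [mul_comm, Real.rpow_mul (by positivity), Real.rpow_two]
    have h6 : T / j ≤ T / x₀ := by gcongr
    simp only [hw, h5]
    set r := ((j : ℝ) / (j + 1)) ^ T
    have h7 : 1 - r ≤ 1 - r ^ 2 := by nlinarith
    refine ⟨mul_nonneg (by positivity) (by nlinarith), ?_⟩
    rw [norm_mul, Complex.norm_real, Real.norm_of_nonneg (by linarith), mul_pow, mul_left_comm]
    refine mul_le_mul_of_nonneg_left ?_ (by positivity)
    rw [sq (1 - r)]
    exact mul_le_mul (by linarith) h7 (by linarith) (by positivity)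
  have hW : Real.pi * T * ∑ j ∈ Icc x₀ (X + H), w j ≤ MS T Set.univ (DP (Icc 1 (X + H)) a) := by
    refine le_trans ?_ (sum_sq_le_MS (Icc 1 (X + H)) id (fun i hi => (mem_Icc.1 hi).1) a hT (X + H))
    refine mul_le_mul_of_nonneg_left ?_ (by positivity)
    have e : ∀ j ∈ Icc 1 (X + H), ‖∑ i ∈ Icc 1 (X + H) with id i ≤ j,
        a i * (((((id i : ℕ) : ℝ) / j) ^ T : ℝ) : ℂ)‖ ^ 2 * (1 - ((j : ℝ) / (j + 1)) ^ (2 * T))
        = w j := fun j hj => by
      have : (Icc 1 (X + H)).filter (fun i => id i ≤ j) = Icc 1 j := by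
        ext i; have := mem_Icc.1 hj; simp only [mem_filter, mem_Icc, id]; omega
      rw [this]; rfl
    rw [sum_congr rfl e]
    refine sum_le_sum_of_subset_of_nonneg (Icc_subset_Icc_left hx) fun j hj _ => ?_
    refine mul_nonneg (by positivity) (sub_nonneg.2 (Real.rpow_le_one (by positivity) ?_ (by positivity)))
    exact div_le_one_of_le₀ (by linarith) (by positivity)
  set B : ℝ := 1 + (X + H) / T with hB
  have h1 : ∀ x ∈ Icc x₀ X, ‖∑ j ∈ range H, a (x + 1 + j)‖ ^ 2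
      ≤ 2 * H * (T / x₀) * ∑ k ∈ range H, w (x + k) + 8 * B ^ 2 := by
    intro x hxm
    obtain ⟨hx1, hx2⟩ := mem_Icc.1 hxm
    have hx2' : (x : ℝ) ≤ X := by exact_mod_cast hx2
    have b1 : ‖smo a T (x + H)‖ ≤ B := (norm_smo_le ha hT _).trans (by push_cast; rw [hB]; gcongr)
    have b2 : ‖smo a T x‖ ≤ B := (norm_smo_le ha hT _).trans (by
      rw [hB]; gcongr; linarith [Nat.cast_nonneg (α := ℝ) H])
    rw [sum_eq_smo a T]
    set Z := ∑ k ∈ range H,
      smo a T (x + k) * ((1 - (((x + k : ℕ) : ℝ) / ((x + k : ℕ) + 1)) ^ T : ℝ) : ℂ) with hZ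
    have b3 : ‖Z‖ ^ 2 ≤ H * (T / x₀ * ∑ k ∈ range H, w (x + k)) := by
      refine (pow_le_pow_left₀ (norm_nonneg _) (norm_sum_le _ _) 2).trans
        (sq_sum_le_card_mul_sum_sq.trans ?_)
      rw [card_range]
      refine mul_le_mul_of_nonneg_left ?_ (by positivity)
      rw [mul_sum]
      exact sum_le_sum fun k _ => (hρ (x + k) (by omega)).2
    have b4 : ‖smo a T (x + H) - smo a T x + Z‖ ≤ 2 * B + ‖Z‖ :=
      (norm_add_le _ _).trans (by linarith [norm_sub_le (smo a T (x + H)) (smo a T x)])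
    have b5 := pow_le_pow_left₀ (norm_nonneg _) b4 2
    nlinarith [sq_nonneg (2 * B - ‖Z‖)]
  have h2 : ∑ x ∈ Icc x₀ X, ∑ k ∈ range H, w (x + k) ≤ H * ∑ j ∈ Icc x₀ (X + H), w j := by
    rw [sum_comm]
    calc _ ≤ ∑ _k ∈ range H, ∑ j ∈ Icc x₀ (X + H), w j := sum_le_sum fun k hk => by
          rw [← sum_image (s := Icc x₀ X) (g := fun x => x + k) (f := w)
            (fun a _ b _ h => by simpa using h)]
          refine sum_le_sum_of_subset_of_nonneg (fun j hj => ?_) fun j hj _ =>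
            (hρ j (mem_Icc.1 hj).1).1
          obtain ⟨y, hy, rfl⟩ := mem_image.1 hj
          have := mem_Icc.1 hy
          have := mem_range.1 hk
          rw [mem_Icc]; omega
      _ = _ := by simp
  refine (sum_le_sum h1).trans ?_
  rw [sum_add_distrib, ← mul_sum, sum_const, nsmul_eq_mul]
  have h3 : ((Icc x₀ X).card : ℝ) ≤ X := by
    rw [Nat.card_Icc]; exact_mod_cast (by omega : X + 1 - x₀ ≤ X)
  refine add_le_add ?_ (by nlinarith [sq_nonneg B])
  calc _ ≤ 2 * H * (T / x₀) * (H * ∑ j ∈ Icc x₀ (X + H), w j) := by gcongr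
    _ = 2 * (H : ℝ) ^ 2 / (Real.pi * x₀) * (Real.pi * T * ∑ j ∈ Icc x₀ (X + H), w j) := by
        field_simp
    _ ≤ _ := by gcongr

end Pool.Agent.Lib.MR
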