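import Pool.Agent.Lib.MR.Vdc
import Pool.Agent.Lib.ANT.Moebius
import Pool.Agent.Lib.ANT.LBound

/-!
# The Moebius function twisted by a character is not pretentious
-/

set_option autoImplicit false
open Filter Topology Finset MeasureTheory

namespace Pool.Agent.Lib.MR

lemma lb_norm_nit (n : ℕ) (u : ℝ) : ‖nit n u‖ = 1 := by
  rw [nit, mul_comm, Complex.norm_exp_ofReal_mul_I]

lemma lb_term_eq (a : ℕ → ℂ) (s : ℂ) {n : ℕ} (hn : n ≠ 0) :
    LSeries.term a s n = a n * (((n : ℝ) ^ (-s.re) : ℝ) : ℂ) * nit n (-s.im) := by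
  have hn' : (0 : ℝ) < n := by exact_mod_cast Nat.pos_of_ne_zero hn
  have hc : (n : ℂ) ≠ 0 := by exact_mod_cast hn
  rw [LSeries.term_of_ne_zero hn, div_eq_mul_inv, ← Complex.cpow_neg, mul_assoc,
    Complex.cpow_def_of_ne_zero hc, Real.rpow_def_of_pos hn', nit, Complex.ofReal_exp,
    ← Complex.exp_add, ← Complex.natCast_log]
  congr 2
  conv_lhs => rw [← Complex.re_add_im s]
  push_cast
  ring

lemma lb_tendsto {a : ℕ → ℂ} (ha : ∀ n, ‖a n‖ ≤ 1) {s : ℂ} (hs : 1 < s.re) :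
    Tendsto (fun Y : ℕ => DP (Icc 1 Y) (fun n => a n * (((n : ℝ) ^ (-s.re) : ℝ) : ℂ)) (-s.im))
      atTop (𝓝 (LSeries a s)) := by
  have h := (LSeriesSummable_of_bounded_of_one_lt_re (fun n _ => ha n) hs).hasSum.tendsto_sum_nat
  refine (h.comp (tendsto_add_atTop_nat 1)).congr fun Y => ?_
  simp only [Function.comp_apply, DP]
  rw [sum_range_succ', LSeries.term_zero, add_zero, ← Finset.Ico_add_one_right_eq_Icc,
    sum_Ico_eq_sum_range]
  simp only [add_tsub_cancel_right]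
  refine sum_congr rfl fun n _ => ?_
  rw [lb_term_eq a s (Nat.succ_ne_zero n), add_comm 1 n]

lemma lb_sum_Icc_add (f : ℕ → ℂ) (N M : ℕ) :
    ∑ n ∈ Icc 1 (M + N), f n = ∑ n ∈ Icc 1 N, f n + ∑ n ∈ range M, f (n + N + 1) := by
  induction M with
  | zero => simp
  | succ M ih =>
    rw [show M + 1 + N = M + N + 1 by ring, sum_Icc_succ_top (by omega), ih, sum_range_succ,
      add_assoc]

lemma lb_tail {a : ℕ → ℂ} (ha : ∀ n, ‖a n‖ ≤ 1) {s : ℂ} (hs : 1 < s.re) {Y : ℕ} (hY : 0 < Y) :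
    ‖LSeries a s - DP (Icc 1 Y) (fun n => a n * (((n : ℝ) ^ (-s.re) : ℝ) : ℂ)) (-s.im)‖
      ≤ (Y : ℝ) ^ (-(s.re - 1)) / (s.re - 1) := by
  have h := (((lb_tendsto ha hs).comp (tendsto_add_atTop_nat Y)).sub_const
    (DP (Icc 1 Y) (fun n => a n * (((n : ℝ) ^ (-s.re) : ℝ) : ℂ)) (-s.im))).norm
  refine le_of_tendsto' h fun M => ?_
  simp only [Function.comp_apply, DP]
  rw [lb_sum_Icc_add, add_sub_cancel_left]
  refine (norm_sum_le _ _).trans (le_trans (sum_le_sum fun n _ => ?_)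
    (ANT.sum_rpow_tail_le (sub_pos.2 hs) hY M))
  rw [norm_mul, lb_norm_nit, mul_one, norm_mul, Complex.norm_real,
    Real.norm_of_nonneg (by positivity), show -(s.re - 1) - 1 = -s.re by ring]
  exact mul_le_of_le_one_left (by positivity) (ha _)

lemma lb_head {a : ℕ → ℂ} (ha : ∀ n, ‖a n‖ ≤ 1) {σ : ℝ} (hσ : 1 ≤ σ) (u : ℝ) (Y : ℕ) :
    ‖DP (Icc 1 Y) (fun n => a n * (((n : ℝ) ^ (-σ) : ℝ) : ℂ)) u‖ ≤ 1 + Real.log Y := by
  have h := lb_sum_Icc_add (fun n => a n * (((n : ℝ) ^ (-σ) : ℝ) : ℂ) * nit n u) 0 Y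
  simp only [add_zero] at h
  rw [DP, h]
  simp only [show Icc 1 0 = (∅ : Finset ℕ) by simp, sum_empty, zero_add]
  refine (norm_sum_le _ _).trans (le_trans (sum_le_sum fun n _ => ?_) (ANT.sum_range_inv_le Y))
  rw [norm_mul, lb_norm_nit, mul_one, norm_mul, Complex.norm_real,
    Real.norm_of_nonneg (by positivity), ← Real.rpow_neg_one]
  refine (mul_le_of_le_one_left (by positivity) (ha _)).trans ?_
  exact Real.rpow_le_rpow_of_exponent_le (by exact_mod_cast Nat.succ_pos _) (by linarith)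

lemma lb_trivial {a : ℕ → ℂ} (ha : ∀ n, ‖a n‖ ≤ 1) {s : ℂ} (hs : 1 < s.re) :
    ‖LSeries a s‖ ≤ 1 + 1 / (s.re - 1) := by
  have h1 := lb_tail ha hs one_pos
  have h2 := lb_head ha hs.le (-s.im) 1
  simp only [Nat.cast_one, Real.one_rpow, Real.log_one, add_zero] at h1 h2
  have h3 := norm_le_insert' (LSeries a s)
    (DP (Icc 1 1) (fun n => a n * (((n : ℝ) ^ (-s.re) : ℝ) : ℂ)) (-s.im))
  linarith

lemma lb_sum_range_mul (f : ℕ → ℂ) (q M : ℕ) :
    ∑ n ∈ range (q * M), f n = ∑ m ∈ range M, ∑ a ∈ range q, f (q * m + a) := by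
  induction M with
  | zero => simp
  | succ M ih => rw [mul_add_one, sum_range_add, ih, sum_range_succ]

lemma lb_norm_sum_range_le {f : ℕ → ℂ} (hf : ∀ n, ‖f n‖ ≤ 1) (k : ℕ) :
    ‖∑ n ∈ range k, f n‖ ≤ k := by
  refine (norm_sum_le _ _).trans ((sum_le_card_nsmul _ _ 1 fun n _ => hf n).trans ?_)
  simp

/-- Twisted sums of a periodic function. -/
lemma lb_periodic {q : ℕ} [NeZero q] (ψ : ZMod q → ℂ) (hψ : ∀ a, ‖ψ a‖ ≤ 1) (K : ℕ) :
    ∃ c : ℝ, 0 < c ∧ ∃ C : ℝ, 0 ≤ C ∧ ∀ y : ℕ, 1 ≤ y → ∀ τ : ℝ, τ ≠ 0 → |τ| ≤ (y : ℝ) ^ K →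
      ‖∑ n ∈ Icc 1 y, ψ n * nit n τ‖ ≤ 2 * q / |τ| * y + C * (y : ℝ) ^ (1 - c) := by
  obtain ⟨c, hc, C, hC⟩ := exp_sum_log K
  have hq : 0 < q := NeZero.pos q
  have hq' : (0 : ℝ) < q := by exact_mod_cast hq
  refine ⟨min c 1, lt_min hc one_pos, q * |C| + 2 * q + 1, by positivity,
    fun y hy τ hτ hτy => ?_⟩
  have hy' : (1 : ℝ) ≤ y := by exact_mod_cast hy
  have hτ' : 0 < |τ| := abs_pos.2 hτ
  set f : ℕ → ℂ := fun n => ψ n * nit n τ with hf
  have hf1 : ∀ n, ‖f n‖ ≤ 1 := fun n => by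
    rw [hf]; simp only [norm_mul, lb_norm_nit, mul_one]; exact hψ _
  set M := y / q with hM
  have hMy : (M : ℝ) ≤ y := by exact_mod_cast Nat.div_le_self y q
  have hpow1 : (1 : ℝ) ≤ (y : ℝ) ^ (1 - min c 1) :=
    Real.one_le_rpow hy' (by linarith [min_le_right c 1])
  have hpow2 : (y : ℝ) ^ (1 - c) ≤ (y : ℝ) ^ (1 - min c 1) :=
    Real.rpow_le_rpow_of_exponent_le hy' (by linarith [min_le_left c 1])
  have hA : ∀ a ∈ range q, ‖∑ m ∈ range M, f (q * (m + 1) + a)‖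
      ≤ 2 / |τ| * y + |C| * (y : ℝ) ^ (1 - min c 1) := by
    intro a ha
    have haq : (a : ℝ) ≤ q := by exact_mod_cast (mem_range.1 ha).le
    have hβ1 : (a : ℝ) / q ≤ 1 := (div_le_one hq').2 haq
    have h1 := hC y hy' (a / q) (by positivity) hβ1 τ hτy M hMy
    have h2 : ∑ m ∈ range M, f (q * (m + 1) + a) = ψ a * nit q τ *
        ∑ m ∈ Icc 1 M, Complex.exp (Complex.I * ((τ * Real.log (m + a / q) : ℝ) : ℂ)) := by
      have h := lb_sum_Icc_add
        (fun m => Complex.exp (Complex.I * ((τ * Real.log (m + a / q) : ℝ) : ℂ))) 0 M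
      simp only [add_zero] at h
      rw [h]
      simp only [show Icc 1 0 = (∅ : Finset ℕ) by simp, sum_empty, zero_add, mul_sum]
      refine sum_congr rfl fun m _ => ?_
      have e1 : ((q * (m + 1) + a : ℕ) : ZMod q) = a := by simp
      have e2 : Real.log ((q * (m + 1) + a : ℕ) : ℝ)
          = Real.log q + Real.log (((m + 1 : ℕ) : ℝ) + a / q) := by
        rw [← Real.log_mul hq'.ne' (by positivity)]
        congr 1
        push_cast
        field_simp
      rw [hf]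
      simp only [e1, nit, e2]
      rw [mul_assoc, ← Complex.exp_add]
      congr 2
      push_cast
      ring
    have h3 : ‖(((M : ℝ) + a / q : ℝ) : ℂ) *
        Complex.exp (Complex.I * ((τ * Real.log (M + a / q) : ℝ) : ℂ)) / (1 + Complex.I * τ)‖
        ≤ 2 / |τ| * y := by
      have h4 : |τ| ≤ ‖(1 + Complex.I * τ : ℂ)‖ := by
        simpa using Complex.abs_im_le_norm (1 + Complex.I * τ)
      rw [norm_div, norm_mul, mul_comm Complex.I, Complex.norm_exp_ofReal_mul_I, mul_one,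
        Complex.norm_real, Real.norm_of_nonneg (by positivity), div_mul_eq_mul_div]
      exact div_le_div₀ (by positivity) (by linarith) hτ' h4
    have h5 : C * (y : ℝ) ^ (1 - c) ≤ |C| * (y : ℝ) ^ (1 - min c 1) :=
      mul_le_mul (le_abs_self C) hpow2 (by positivity) (abs_nonneg C)
    rw [h2, norm_mul, norm_mul, lb_norm_nit, mul_one]
    refine (mul_le_of_le_one_left (norm_nonneg _) (hψ _)).trans ?_
    exact (norm_le_insert' _ _).trans (add_le_add h3 (h1.trans h5))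
  have hB : ‖∑ m ∈ range M, ∑ a ∈ range q, f (q * (m + 1) + a)‖
      ≤ q * (2 / |τ| * y + |C| * (y : ℝ) ^ (1 - min c 1)) := by
    rw [sum_comm]
    refine (norm_sum_le _ _).trans ((sum_le_card_nsmul _ _ _ hA).trans ?_)
    rw [card_range, nsmul_eq_mul]
  obtain ⟨k, hk, hkq⟩ : ∃ k, q * (M + 1) = y + 1 + k ∧ k ≤ q := by
    have h1 : q * M + y % q = y := Nat.div_add_mod y q
    have h2 : y % q < q := Nat.mod_lt y hq
    exact ⟨q - 1 - y % q, by rw [mul_add_one]; omega, by omega⟩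
  have h1 := lb_sum_range_mul f q (M + 1)
  rw [hk, sum_range_add, sum_range_succ', sum_range_succ'] at h1
  have h2 := lb_sum_Icc_add f 0 y
  simp only [add_zero, show Icc 1 0 = (∅ : Finset ℕ) by simp, sum_empty, zero_add] at h2
  have h3 : ∑ n ∈ Icc 1 y, f n = ∑ m ∈ range M, ∑ a ∈ range q, f (q * (m + 1) + a)
      + ∑ a ∈ range q, f (q * 0 + a) - f 0 - ∑ n ∈ range k, f (y + 1 + n) := by
    rw [h2, ← h1]; ring
  have h4 := lb_norm_sum_range_le (f := fun a => f (q * 0 + a)) (fun n => hf1 _) q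
  have h5 := lb_norm_sum_range_le (f := fun n => f (y + 1 + n)) (fun n => hf1 _) k
  have h6 : (k : ℝ) ≤ q := by exact_mod_cast hkq
  have h7 : ‖∑ n ∈ Icc 1 y, f n‖ ≤ q * (2 / |τ| * y + |C| * (y : ℝ) ^ (1 - min c 1))
      + q + 1 + q := by
    rw [h3]
    refine (norm_sub_le _ _).trans (add_le_add ((norm_sub_le _ _).trans (add_le_add
      ((norm_add_le _ _).trans (add_le_add hB h4)) (hf1 0))) (h5.trans h6))
  refine h7.trans ?_
  have h8 : (2 * q + 1 : ℝ) ≤ (2 * q + 1) * (y : ℝ) ^ (1 - min c 1) :=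
    le_mul_of_one_le_right (by positivity) hpow1
  have h9 : (q : ℝ) * (2 / |τ| * y) = 2 * q / |τ| * y := by ring
  nlinarith

lemma lb_abel (b : ℕ → ℂ) (w : ℕ → ℂ) (N M : ℕ) :
    ∑ n ∈ range M, b (n + N + 1) * w (n + N + 1) =
      (∑ n ∈ Icc 1 (M + N), b n) * w (M + N + 1) - (∑ n ∈ Icc 1 N, b n) * w (N + 1) +
        ∑ n ∈ range M, (∑ k ∈ Icc 1 (n + N + 1), b k) * (w (n + N + 1) - w (n + N + 2)) := by
  induction M with
  | zero => simp
  | succ M ih =>
    rw [sum_range_succ, ih, sum_range_succ, show M + 1 + N = M + N + 1 by ring,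
      sum_Icc_succ_top (by omega : 1 ≤ M + N + 1)]
    ring

lemma lb_rpow_diff {σ n : ℝ} (hσ : 0 ≤ σ) (hn : 0 < n) :
    |n ^ (-σ) - (n + 1) ^ (-σ)| ≤ σ * n ^ (-σ - 1) := by
  have h := ANT.norm_cpow_sub_le (s := (σ : ℂ)) (by simpa using hσ) hn (u := n + 1) (by linarith)
  rw [← Complex.ofReal_neg, ← Complex.ofReal_cpow (by linarith), ← Complex.ofReal_cpow hn.le,
    ← Complex.ofReal_sub, Complex.norm_real, Complex.norm_real, Real.norm_of_nonneg hσ,
    Real.norm_eq_abs, abs_sub_comm] at h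
  simpa using h

/-- Abel summation against the weight `n ^ (-σ)`. -/
lemma lb_abel_le {b : ℕ → ℂ} (hb : ∀ n, ‖b n‖ ≤ 1) {δ B C c : ℝ} (hδ : 0 < δ) (hδ1 : δ ≤ 1)
    (hB : 0 ≤ B) (hC : 0 ≤ C) (hc : 0 < c) {N : ℕ} (hN : 0 < N)
    (hE : ∀ y : ℕ, N ≤ y → ‖∑ n ∈ Icc 1 y, b n‖ ≤ B * y + C * (y : ℝ) ^ (1 - c)) (M : ℕ) :
    ‖∑ n ∈ range M, b (n + N + 1) * ((((n + N + 1 : ℕ) : ℝ) ^ (-(1 + δ)) : ℝ) : ℂ)‖
      ≤ 2 + 2 * B / δ + 2 * C / c := by
  have hN' : (1 : ℝ) ≤ N := by exact_mod_cast hN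
  have h0 : ∀ y : ℕ, ‖(∑ n ∈ Icc 1 y, b n) * ((((y + 1 : ℕ) : ℝ) ^ (-(1 + δ)) : ℝ) : ℂ)‖ ≤ 1 := by
    intro y
    have h1 : ‖∑ n ∈ Icc 1 y, b n‖ ≤ ((y + 1 : ℕ) : ℝ) := by
      refine (norm_sum_le _ _).trans ((sum_le_card_nsmul _ _ 1 fun n _ => hb n).trans ?_)
      simp
    have h2 : ((y + 1 : ℕ) : ℝ) ^ (-(1 + δ)) ≤ (((y + 1 : ℕ) : ℝ))⁻¹ := by
      rw [← Real.rpow_neg_one]
      exact Real.rpow_le_rpow_of_exponent_le (by exact_mod_cast Nat.succ_pos _) (by linarith)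
    rw [norm_mul, Complex.norm_real, Real.norm_of_nonneg (by positivity)]
    refine (mul_le_mul h1 h2 (by positivity) (by positivity)).trans_eq ?_
    exact mul_inv_cancel₀ (by positivity)
  have h1 : ∀ n : ℕ, ‖(∑ k ∈ Icc 1 (n + N + 1), b k) *
      (((((n + N + 1 : ℕ) : ℝ) ^ (-(1 + δ)) : ℝ) : ℂ) -
        ((((n + N + 2 : ℕ) : ℝ) ^ (-(1 + δ)) : ℝ) : ℂ))‖ ≤
      2 * B * ((n + N + 1 : ℕ) : ℝ) ^ (-δ - 1) + 2 * C * ((n + N + 1 : ℕ) : ℝ) ^ (-c - 1) := by
    intro n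
    have hy : (1 : ℝ) ≤ ((n + N + 1 : ℕ) : ℝ) := by exact_mod_cast Nat.succ_pos _
    have e : ((n + N + 2 : ℕ) : ℝ) = ((n + N + 1 : ℕ) : ℝ) + 1 := by push_cast; ring
    have h2 := hE (n + N + 1) (by omega)
    rw [norm_mul, ← Complex.ofReal_sub, Complex.norm_real, Real.norm_eq_abs, e]
    generalize ((n + N + 1 : ℕ) : ℝ) = y at hy h2 ⊢
    have hy0 : 0 < y := by linarith
    have h3 := lb_rpow_diff (σ := 1 + δ) (by linarith) hy0
    have h4 : (1 + δ) * y ^ (-(1 + δ) - 1) ≤ 2 * y ^ (-(1 + δ) - 1) :=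
      mul_le_mul_of_nonneg_right (by linarith) (by positivity)
    refine (mul_le_mul h2 (h3.trans h4) (abs_nonneg _) (by positivity)).trans ?_
    have h5 : y * y ^ (-(1 + δ) - 1) = y ^ (-δ - 1) := by
      rw [← Real.rpow_one_add' hy0.le (by linarith)]; congr 1; ring
    have h6 : y ^ (1 - c) * y ^ (-(1 + δ) - 1) ≤ y ^ (-c - 1) := by
      rw [← Real.rpow_add hy0]
      exact Real.rpow_le_rpow_of_exponent_le hy (by linarith)
    calc _ = 2 * B * (y * y ^ (-(1 + δ) - 1)) + 2 * C * (y ^ (1 - c) * y ^ (-(1 + δ) - 1)) := by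
          ring
      _ ≤ _ := by rw [h5]; gcongr
  have h2 : ∀ r : ℝ, 0 < r → ∑ n ∈ range M, ((n + N + 1 : ℕ) : ℝ) ^ (-r - 1) ≤ 1 / r :=
    fun r hr => (ANT.sum_rpow_tail_le hr hN M).trans (div_le_div_of_nonneg_right
      (Real.rpow_le_one_of_one_le_of_nonpos hN' (by linarith)) hr.le)
  rw [lb_abel b (fun n => ((((n : ℕ) : ℝ) ^ (-(1 + δ)) : ℝ) : ℂ)) N M]
  refine (norm_add_le _ _).trans ?_
  have h3 := (norm_sub_le _ _).trans (add_le_add (h0 (M + N)) (h0 N))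
  have h4 := (norm_sum_le _ _).trans (sum_le_sum (s := range M) fun n _ => h1 n)
  rw [sum_add_distrib, ← mul_sum, ← mul_sum] at h4
  have h5 := mul_le_mul_of_nonneg_left (h2 δ hδ) (by positivity : 0 ≤ 2 * B)
  have h6 := mul_le_mul_of_nonneg_left (h2 c hc) (by positivity : 0 ≤ 2 * C)
  rw [mul_one_div] at h5 h6
  linarith

/-- The Dirichlet series of a periodic function is `o(x)` on `re s = 1 + 1 / x`, away from the
real axis. -/
lemma lb_upper {q : ℕ} [NeZero q] (ψ : ZMod q → ℂ) (hψ : ∀ a, ‖ψ a‖ ≤ 1) (K : ℝ) {η : ℝ}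
    (hη : 0 < η) : ∃ u₀ : ℝ, 0 < u₀ ∧ ∀ᶠ x : ℝ in atTop, ∀ s : ℂ, s.re = 1 + 1 / x → u₀ ≤ |s.im| →
      |s.im| ≤ 2 * Real.exp (K * x) → ‖LSeries (fun n => ψ n) s‖ ≤ η * x := by
  obtain ⟨K', hK'⟩ := exists_nat_ge ((|K| + 1) / (η / 3))
  rw [div_le_iff₀ (by positivity)] at hK'
  obtain ⟨c, hc, C, hC, hE⟩ := lb_periodic ψ hψ K'
  have hq : (0 : ℝ) < q := by exact_mod_cast NeZero.pos q
  refine ⟨12 * q / η, by positivity, ?_⟩
  filter_upwards [eventually_ge_atTop 1, eventually_ge_atTop ((4 + 2 * C / c) / (η / 3))]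
    with x hx1 hx2 s hs hu₀ hu
  rw [div_le_iff₀ (by positivity)] at hx2
  have hx0 : 0 < x := by linarith
  have hτ : 0 < |s.im| := lt_of_lt_of_le (by positivity) hu₀
  have hs1 : 1 < s.re := by rw [hs]; linarith [one_div_pos.2 hx0]
  set N := ⌈Real.exp (η / 3 * x)⌉₊ with hN
  have hN0 : 0 < N := Nat.ceil_pos.2 (Real.exp_pos _)
  have hN1 : Real.exp (η / 3 * x) ≤ N := Nat.le_ceil _
  have hN2 : Real.log N ≤ 1 + η / 3 * x := by
    have h1 : (N : ℝ) < Real.exp (η / 3 * x) + 1 := Nat.ceil_lt_add_one (Real.exp_pos _).le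
    have h2 : 1 ≤ Real.exp (η / 3 * x) := Real.one_le_exp (by positivity)
    have h3 : 2 ≤ Real.exp 1 := by linarith [Real.add_one_le_exp 1]
    rw [Real.log_le_iff_le_exp (by exact_mod_cast hN0), Real.exp_add]
    nlinarith
  have hb : ∀ n : ℕ, ‖ψ n * nit n (-s.im)‖ ≤ 1 := fun n => by
    rw [norm_mul, lb_norm_nit, mul_one]; exact hψ _
  have hE' : ∀ y : ℕ, N ≤ y → ‖∑ n ∈ Icc 1 y, ψ n * nit n (-s.im)‖
      ≤ η / 6 * y + C * (y : ℝ) ^ (1 - c) := by
    intro y hy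
    have hy' : (N : ℝ) ≤ y := by exact_mod_cast hy
    have h1 : |-s.im| ≤ (y : ℝ) ^ K' := by
      rw [abs_neg]
      refine hu.trans (le_trans ?_ (pow_le_pow_left₀ (Real.exp_pos _).le (hN1.trans hy') K'))
      rw [← Real.exp_nat_mul]
      have h2 : 2 ≤ Real.exp x := by linarith [Real.add_one_le_exp x]
      calc 2 * Real.exp (K * x) ≤ Real.exp x * Real.exp (K * x) := by gcongr
        _ = Real.exp (x + K * x) := (Real.exp_add _ _).symm
        _ ≤ _ := Real.exp_le_exp.2 (by nlinarith [le_abs_self K])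
    refine (hE y (hN0.trans_le hy) (-s.im) (neg_ne_zero.2 (abs_pos.1 hτ)) h1).trans ?_
    have h2 : 2 * q / |-s.im| ≤ η / 6 := by
      rw [abs_neg, div_le_iff₀ hτ]
      rw [div_le_iff₀ hη] at hu₀
      linarith
    gcongr
  have hδ1 : 1 / x ≤ 1 := (div_le_one hx0).2 hx1
  refine le_of_tendsto' ((lb_tendsto (a := fun n => ψ n) (fun n => hψ _) hs1).comp
    (tendsto_add_atTop_nat N)).norm fun M => ?_
  have h1 := lb_abel_le hb (one_div_pos.2 hx0) hδ1 (by positivity) hC hc hN0 hE' M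
  have h2 := lb_head (a := fun n => ψ n) (fun n => hψ _) hs1.le (-s.im) N
  simp only [Function.comp_apply, DP] at h2 ⊢
  rw [lb_sum_Icc_add]
  refine (norm_add_le _ _).trans ?_
  have h3 : ∑ n ∈ range M, ψ (n + N + 1 : ℕ) * ((((n + N + 1 : ℕ) : ℝ) ^ (-s.re) : ℝ) : ℂ) *
      nit (n + N + 1) (-s.im) = ∑ n ∈ range M, ψ (n + N + 1 : ℕ) * nit (n + N + 1) (-s.im) *
        ((((n + N + 1 : ℕ) : ℝ) ^ (-(1 + 1 / x)) : ℝ) : ℂ) :=
    sum_congr rfl fun n _ => by rw [hs]; ring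
  rw [h3]
  have h4 : 2 * (η / 6) / (1 / x) = η / 3 * x := by field_simp; ring
  rw [h4] at h1
  linarith

lemma lb_compact {q : ℕ} [NeZero q] (χ : DirichletCharacter ℂ q) (u₀ : ℝ) :
    ∃ M : ℝ, ∀ s : ℂ, 1 < s.re → s.re ≤ 2 → |s.im| ≤ u₀ → ‖(χ.LFunction s)⁻¹‖ ≤ M := by
  obtain ⟨G, hG, hGL⟩ : ∃ G : ℂ → ℂ, ContinuousOn G {s | 1 ≤ s.re} ∧
      ∀ s : ℂ, 1 < s.re → G s = (χ.LFunction s)⁻¹ := by
    by_cases hχ : χ = 1
    · refine ⟨fun s => (s - 1) / DirichletCharacter.LFunctionTrivChar₁ q s, ?_, fun s hs => ?_⟩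
      · refine ContinuousOn.div (by fun_prop)
          (DirichletCharacter.differentiable_LFunctionTrivChar₁ q).continuous.continuousOn
          fun s hs => ?_
        rcases eq_or_ne s 1 with rfl | hs1
        · exact DirichletCharacter.LFunctionTrivChar₁_apply_one_ne_zero q
        · rw [DirichletCharacter.LFunctionTrivChar₁, Function.update_of_ne hs1]
          exact mul_ne_zero (sub_ne_zero.2 hs1)
            (DirichletCharacter.LFunction_ne_zero_of_one_le_re 1 (.inr hs1) hs)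
      · have hs1 : s ≠ 1 := by
          rintro rfl
          simp at hs
        simp only
        rw [DirichletCharacter.LFunctionTrivChar₁, Function.update_of_ne hs1, hχ,
          DirichletCharacter.LFunctionTrivChar]
        have := sub_ne_zero.2 hs1
        field_simp
    · exact ⟨fun s => (χ.LFunction s)⁻¹,
        (DirichletCharacter.differentiable_LFunction hχ).continuous.continuousOn.inv₀
          fun s hs => DirichletCharacter.LFunction_ne_zero_of_one_le_re χ (.inl hχ) hs,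
        fun _ _ => rfl⟩
  have hK : IsCompact (Set.Icc (1 : ℝ) 2 ×ℂ Set.Icc (-u₀) u₀) :=
    isCompact_Icc.reProdIm isCompact_Icc
  obtain ⟨M, hM⟩ := hK.exists_bound_of_continuousOn
    (hG.mono fun s hs => (Complex.mem_reProdIm.1 hs).1.1)
  refine ⟨M, fun s h1 h2 h3 => ?_⟩
  rw [← hGL s h1]
  exact hM s (Complex.mem_reProdIm.2 ⟨⟨h1.le, h2⟩, abs_le.1 h3⟩)

/-- The reciprocal of the `L`-function is `o(x)` on the line `re s = 1 + 1 / x`. -/
lemma lb_inv {q : ℕ} [NeZero q] (χ : DirichletCharacter ℂ q) (K : ℝ) {η : ℝ} (hη : 0 < η) :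
    ∀ᶠ x : ℝ in atTop, ∀ t : ℝ, |t| ≤ Real.exp (K * x) →
      ‖(LSeries (fun n => χ n) (1 + (1 / x : ℝ) + Complex.I * t))⁻¹‖ ≤ η * x := by
  obtain ⟨u₀, hu₀, hup⟩ := lb_upper (fun a => (χ ^ 2) a) (fun a => (χ ^ 2).norm_le_one a) K
    (η := η ^ 4 / 8) (by positivity)
  obtain ⟨M, hM⟩ := lb_compact χ u₀
  filter_upwards [hup, eventually_ge_atTop 1, eventually_ge_atTop (M / η)] with x hx hx1 hx2 t ht
  have hx0 : 0 < x := by linarith
  have hδ : 0 < 1 / x := one_div_pos.2 hx0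
  have hδ1 : 1 / x ≤ 1 := (div_le_one hx0).2 hx1
  have hre : (1 + ((1 / x : ℝ) : ℂ) + Complex.I * t).re = 1 + 1 / x := by
    simp only [Complex.add_re, Complex.one_re, Complex.ofReal_re, Complex.mul_re, Complex.I_re,
      Complex.I_im, Complex.ofReal_im]
    ring
  have him : (1 + ((1 / x : ℝ) : ℂ) + Complex.I * t).im = t := by
    simp only [Complex.add_im, Complex.one_im, Complex.ofReal_re, Complex.mul_im, Complex.I_re,
      Complex.I_im, Complex.ofReal_im]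
    ring
  rcases le_total |t| u₀ with h | h
  · rw [← χ.LFunction_eq_LSeries (by rw [hre]; linarith)]
    refine (hM _ (by rw [hre]; linarith) (by rw [hre]; linarith) (by rwa [him])).trans ?_
    rw [div_le_iff₀ hη] at hx2
    linarith
  · have h1 := χ.norm_LSeries_product_ge_one hδ t
    have h2 : ‖LSeries (fun n => (1 : DirichletCharacter ℂ q) n) (1 + (1 / x : ℝ))‖ ≤ 2 * x := by
      have hre' : (1 + ((1 / x : ℝ) : ℂ)).re = 1 + 1 / x := by
        simp only [Complex.add_re, Complex.one_re, Complex.ofReal_re]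
      refine (lb_trivial (fun n => (1 : DirichletCharacter ℂ q).norm_le_one _)
        (by rw [hre']; linarith)).trans ?_
      rw [hre', add_sub_cancel_left, one_div_one_div]
      linarith
    have him2 : (1 + ((1 / x : ℝ) : ℂ) + 2 * Complex.I * t).im = 2 * t := by
      simp only [Complex.add_im, Complex.one_im, Complex.ofReal_re, Complex.mul_im, Complex.I_re,
        Complex.I_im, Complex.ofReal_im, Complex.mul_re, Complex.re_ofNat, Complex.im_ofNat]
      ring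
    have h3 := hx (1 + (1 / x : ℝ) + 2 * Complex.I * t) (by
      simp only [Complex.add_re, Complex.one_re, Complex.ofReal_re, Complex.mul_im, Complex.I_re,
        Complex.I_im, Complex.ofReal_im, Complex.mul_re, Complex.re_ofNat, Complex.im_ofNat]
      ring) (by rw [him2, abs_mul, abs_two]; linarith)
      (by rw [him2, abs_mul, abs_two]; linarith)
    rw [norm_mul, norm_mul, norm_pow, norm_pow] at h1
    rw [norm_inv]
    have hL := norm_nonneg (LSeries (fun n => χ n) (1 + (1 / x : ℝ) + Complex.I * t))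
    generalize ‖LSeries (fun n => χ n) (1 + (1 / x : ℝ) + Complex.I * t)‖ = L at h1 hL ⊢
    have h4 : 1 ≤ (2 * x) ^ 3 * L ^ 4 * (η ^ 4 / 8 * x) := by
      refine le_trans h1 ?_
      gcongr
    have h5 : 1 ≤ η * x * L := by
      refine (one_le_pow_iff_of_nonneg (by positivity) (by norm_num : 4 ≠ 0)).1 (h4.trans_eq ?_)
      ring
    rcases hL.eq_or_lt with rfl | hL
    · rw [inv_zero]; positivity
    · rwa [← one_div, div_le_iff₀ hL]

theorem nonPret_moebius_char {q : ℕ} [NeZero q] (χ : DirichletCharacter ℂ q) :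
    NonPret fun n => ((ArithmeticFunction.moebius n : ℤ) : ℂ) * χ n := by
  intro K η hη
  have hb : ∀ n : ℕ, ‖((ArithmeticFunction.moebius n : ℤ) : ℂ) * χ n‖ ≤ 1 := by
    intro n
    rw [norm_mul, Complex.norm_intCast]
    have h1 : |(ArithmeticFunction.moebius n : ℝ)| ≤ 1 := by
      exact_mod_cast ArithmeticFunction.abs_moebius_le_one
    exact mul_le_one₀ h1 (norm_nonneg _) (χ.norm_le_one _)
  filter_upwards [lb_inv χ K (half_pos hη), eventually_gt_atTop 0] with x hx hx0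
  have hδ : 0 < 1 / x := one_div_pos.2 hx0
  have h1 : Tendsto (fun Y : ℕ => (Y : ℝ) ^ (-(1 / x)) / (1 / x)) atTop (𝓝 0) := by
    simpa using ((tendsto_rpow_neg_atTop hδ).comp tendsto_natCast_atTop_atTop).div_const (1 / x)
  filter_upwards [h1.eventually (ge_mem_nhds (by positivity : 0 < η / 2 * x)),
    eventually_gt_atTop 0] with Y hY hY0 u hu
  set s : ℂ := 1 + (1 / x : ℝ) + Complex.I * (-u : ℝ) with hs
  have hre : s.re = 1 + 1 / x := by
    simp only [hs, Complex.add_re, Complex.one_re, Complex.ofReal_re, Complex.mul_re, Complex.I_re,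
      Complex.I_im, Complex.ofReal_im]
    ring
  have him : -s.im = u := by
    simp only [hs, Complex.add_im, Complex.one_im, Complex.ofReal_re, Complex.mul_im, Complex.I_re,
      Complex.I_im, Complex.ofReal_im]
    ring
  have hs1 : 1 < s.re := by rw [hre]; linarith
  have h2 := lb_tail hb hs1 hY0
  rw [hre, him, add_sub_cancel_left] at h2
  have h3 := hx (-u) (by rwa [abs_neg])
  have h4 : LSeries (fun n : ℕ => ((ArithmeticFunction.moebius n : ℤ) : ℂ) * χ n) s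
      = (LSeries (fun n => χ n) s)⁻¹ := by
    rw [← eq_inv_of_mul_eq_one_right (DirichletCharacter.LSeries.mul_mu_eq_one χ hs1)]
    congr 1
    ext n
    simp [mul_comm]
  rw [← hs, ← h4] at h3
  have h5 := norm_le_insert
    (LSeries (fun n : ℕ => ((ArithmeticFunction.moebius n : ℤ) : ℂ) * χ n) s)
    (DP (Icc 1 Y) (fun n => ((ArithmeticFunction.moebius n : ℤ) : ℂ) * χ n *
      (((n : ℝ) ^ (-(1 + 1 / x)) : ℝ) : ℂ)) u)
  linarith

end Pool.Agent.Lib.MR
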