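import Pool.Agent.Lib.MR.Kernel

/-!
# High moments of prime polynomials
-/

set_option autoImplicit false
open Filter Topology Finset MeasureTheory

namespace Pool.Agent.Lib.MR

lemma Moment_nit_prod {ι : Type*} (s : Finset ι) (p : ι → ℕ) (hp : ∀ i ∈ s, p i ≠ 0) (u : ℝ) :
    nit (∏ i ∈ s, p i) u = ∏ i ∈ s, nit (p i) u := by
  classical
  induction s using Finset.induction_on with
  | empty => simp [nit]
  | insert a s ha ih =>
    rw [prod_insert ha, prod_insert ha, nit_mul (hp a (mem_insert_self _ _))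
      (prod_ne_zero_iff.2 fun i hi => hp i (mem_insert_of_mem hi)),
      ih fun i hi => hp i (mem_insert_of_mem hi)]

lemma Moment_gcd_prod {ι : Type*} (s : Finset ι) (p : ι → ℕ) (k : ℕ) :
    Nat.gcd k (∏ i ∈ s, p i) ∣ ∏ i ∈ s, Nat.gcd k (p i) := by
  classical
  induction s using Finset.induction_on with
  | empty => simp
  | insert a s ha ih =>
    rw [prod_insert ha, prod_insert ha]
    exact (Nat.gcd_mul_right_dvd_mul_gcd _ _ _).trans (Nat.mul_dvd_mul_left _ ih)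

lemma Moment_count {k k' : ℕ} (hk' : 0 < k') (M : ℕ) :
    ∑ m' ∈ Icc 1 M, ∑ m ∈ Icc 1 M, (if k * m = k' * m' then (1 : ℝ) else 0)
      ≤ M * (Nat.gcd k' k : ℝ) / k' := by
  set g := Nat.gcd k' k with hg
  have hg0 : 0 < g := Nat.gcd_pos_of_pos_left _ hk'
  obtain ⟨d, hd⟩ : g ∣ k' := Nat.gcd_dvd_left _ _
  obtain ⟨e, he⟩ : g ∣ k := Nat.gcd_dvd_right _ _
  have hd0 : 0 < d := by
    rcases Nat.eq_zero_or_pos d with h | h
    · rw [h] at hd; omega
    · exact h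
  have hco : Nat.Coprime d e := by
    have h1 := Nat.coprime_div_gcd_div_gcd (m := k') (n := k) hg0
    rw [← hg] at h1
    have e1 : k' / g = d := by rw [hd]; exact Nat.mul_div_cancel_left _ hg0
    have e2 : k / g = e := by rw [he]; exact Nat.mul_div_cancel_left _ hg0
    rwa [e1, e2] at h1
  rw [sum_comm]
  have h1 : ∀ m ∈ Icc 1 M, ∑ m' ∈ Icc 1 M, (if k * m = k' * m' then (1 : ℝ) else 0) ≤
      if d ∣ m then 1 else 0 := by
    intro m _
    split_ifs with h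
    · rw [← sum_filter, sum_const, nsmul_eq_mul, mul_one]
      have : ((Icc 1 M).filter fun m' => k * m = k' * m').card ≤ 1 := by
        refine card_le_one.2 fun a ha b hb => ?_
        have h1 := (mem_filter.1 ha).2
        have h2 := (mem_filter.1 hb).2
        exact Nat.eq_of_mul_eq_mul_left hk' (h1.symm.trans h2)
      exact_mod_cast this
    · refine le_of_eq (sum_eq_zero fun m' _ => if_neg fun hh => h ?_)
      have h2 : e * m = d * m' := by
        apply Nat.eq_of_mul_eq_mul_left hg0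
        rw [← mul_assoc, ← mul_assoc, ← he, ← hd, hh]
      exact hco.dvd_of_dvd_mul_left ⟨m', h2⟩
  refine (sum_le_sum h1).trans ?_
  rw [← sum_filter, sum_const, nsmul_eq_mul, mul_one]
  have h2 : ((Icc 1 M).filter fun m => d ∣ m).card = M / d := by
    have : Icc 1 M = Ioc 0 M := rfl
    rw [this, Nat.Ioc_filter_dvd_card_eq_div]
  rw [h2]
  refine Nat.cast_div_le.trans (le_of_eq ?_)
  have hgR : (0 : ℝ) < g := by exact_mod_cast hg0
  have hdR : (0 : ℝ) < d := by exact_mod_cast hd0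
  have : (k' : ℝ) = g * d := by exact_mod_cast hd
  rw [this]; field_simp

lemma Moment_card {I : Finset ℕ} {R : ℝ} (hR : 1 ≤ R)
    (hI : ∀ p ∈ I, p.Prime ∧ R ≤ p ∧ (p : ℝ) ≤ 2 * R) : (I.card : ℝ) ≤ 2 * R := by
  have h1 : I ⊆ Icc 1 ⌊2 * R⌋₊ := fun p hp =>
    mem_Icc.2 ⟨(hI p hp).1.one_le, Nat.le_floor (hI p hp).2.2⟩
  have h2 := card_le_card h1
  rw [Nat.card_Icc, Nat.add_sub_cancel] at h2
  have h3 : (I.card : ℝ) ≤ ⌊2 * R⌋₊ := by exact_mod_cast h2
  exact h3.trans (Nat.floor_le (by linarith))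

lemma Moment_sum_gcd {I : Finset ℕ} {R : ℝ} (hR : 1 ≤ R)
    (hI : ∀ p ∈ I, p.Prime ∧ R ≤ p ∧ (p : ℝ) ≤ 2 * R) {l : ℕ} (q : Fin l → ℕ)
    (hq : ∀ i, q i ∈ I) : ∑ p ∈ I, (Nat.gcd (∏ i, q i) p : ℝ) ≤ (2 * l + 2) * R := by
  classical
  have h1 : ∀ p ∈ I, (Nat.gcd (∏ i, q i) p : ℝ) ≤ 1 + if p ∈ univ.image q then 2 * R else 0 := by
    intro p hp
    obtain ⟨hpr, -, h2⟩ := hI p hp
    split_ifs with h
    · have : (Nat.gcd (∏ i, q i) p : ℝ) ≤ p := by exact_mod_cast Nat.gcd_le_right _ hpr.pos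
      linarith
    · have : Nat.gcd (∏ i, q i) p = 1 := by
        refine Nat.Coprime.symm ((Nat.Prime.coprime_iff_not_dvd hpr).2 fun hd => h ?_)
        obtain ⟨i, -, hi⟩ := (Prime.dvd_finsetProd_iff hpr.prime _).1 hd
        exact mem_image.2 ⟨i, mem_univ _,
          ((Nat.prime_dvd_prime_iff_eq hpr (hI _ (hq i)).1).1 hi).symm⟩
      rw [this]; simp
  refine (sum_le_sum h1).trans ?_
  rw [sum_add_distrib, sum_const, nsmul_eq_mul, mul_one, ← sum_filter, sum_const, nsmul_eq_mul]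
  have h2 : (I.filter fun p => p ∈ univ.image q).card ≤ l := by
    refine (card_le_card (t := univ.image q) fun p hp => (mem_filter.1 hp).2).trans ?_
    exact card_image_le.trans (by simp)
  have h3 : ((I.filter fun p => p ∈ univ.image q).card : ℝ) ≤ l := by exact_mod_cast h2
  have h4 := Moment_card hR hI
  nlinarith

lemma Moment_sum_inv {I : Finset ℕ} {R : ℝ} (hR : 1 ≤ R)
    (hI : ∀ p ∈ I, p.Prime ∧ R ≤ p ∧ (p : ℝ) ≤ 2 * R) : ∑ p ∈ I, (p : ℝ)⁻¹ ≤ 2 := by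
  have h1 : ∀ p ∈ I, (p : ℝ)⁻¹ ≤ R⁻¹ := fun p hp => inv_anti₀ (by linarith) (hI p hp).2.1
  refine (sum_le_sum h1).trans ?_
  rw [sum_const, nsmul_eq_mul, ← div_eq_mul_inv, div_le_iff₀ (by linarith)]
  exact Moment_card hR hI

lemma Moment_pairs {I : Finset ℕ} {R : ℝ} (hR : 1 ≤ R)
    (hI : ∀ p ∈ I, p.Prime ∧ R ≤ p ∧ (p : ℝ) ≤ 2 * R) (l M : ℕ) :
    ∑ x ∈ (Fintype.piFinset fun _ : Fin l => I) ×ˢ Icc 1 M,
      ∑ y ∈ (Fintype.piFinset fun _ : Fin l => I) ×ˢ Icc 1 M,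
        (if (∏ i, y.1 i) * y.2 = (∏ i, x.1 i) * x.2 then (1 : ℝ) else 0)
      ≤ M * ((4 * l + 4) * R) ^ l := by
  rw [sum_product]
  have h1 : ∀ q ∈ Fintype.piFinset fun _ : Fin l => I, ∑ m' ∈ Icc 1 M,
      ∑ y ∈ (Fintype.piFinset fun _ : Fin l => I) ×ˢ Icc 1 M,
        (if (∏ i, y.1 i) * y.2 = (∏ i, q i) * m' then (1 : ℝ) else 0) ≤
      M * ((2 * l + 2) * R) ^ l * ∏ i, ((q i : ℝ))⁻¹ := by
    intro q hq
    have hq' : ∀ i, q i ∈ I := Fintype.mem_piFinset.1 hq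
    have hk' : 0 < ∏ i, q i := prod_pos fun i _ => (hI _ (hq' i)).1.pos
    simp only [sum_product]
    rw [sum_comm]
    have h2 : ∀ p ∈ Fintype.piFinset fun _ : Fin l => I, ∑ m' ∈ Icc 1 M, ∑ m ∈ Icc 1 M,
        (if (∏ i, p i) * m = (∏ i, q i) * m' then (1 : ℝ) else 0) ≤
        (M * ∏ i, ((q i : ℝ))⁻¹) * ∏ i, (Nat.gcd (∏ i, q i) (p i) : ℝ) := by
      intro p hp
      refine (Moment_count (k := ∏ i, p i) hk' M).trans ?_
      have h3 : (Nat.gcd (∏ i, q i) (∏ i, p i) : ℝ) ≤ ∏ i, (Nat.gcd (∏ i, q i) (p i) : ℝ) := by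
        have := Nat.le_of_dvd (prod_pos fun i _ => Nat.gcd_pos_of_pos_left _ hk')
          (Moment_gcd_prod univ p (∏ i, q i))
        exact_mod_cast this
      rw [prod_inv_distrib, ← Nat.cast_prod q univ, div_eq_mul_inv, mul_right_comm]
      exact mul_le_mul_of_nonneg_left h3 (by positivity)
    refine (sum_le_sum h2).trans ?_
    rw [← mul_sum, ← prod_univ_sum (fun _ : Fin l => I)
      (fun _ p => (Nat.gcd (∏ i, q i) p : ℝ)), prod_const, card_univ, Fintype.card_fin,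
      mul_right_comm]
    refine mul_le_mul_of_nonneg_right (mul_le_mul_of_nonneg_left
      (pow_le_pow_left₀ (by positivity) (Moment_sum_gcd hR hI q hq') _) (Nat.cast_nonneg _))
      (by positivity)
  refine (sum_le_sum h1).trans ?_
  rw [← mul_sum, ← prod_univ_sum (fun _ : Fin l => I) (fun _ p => ((p : ℕ) : ℝ)⁻¹), prod_const,
    card_univ, Fintype.card_fin, mul_assoc, ← mul_pow]
  refine mul_le_mul_of_nonneg_left (pow_le_pow_left₀ (by positivity) ?_ _) (Nat.cast_nonneg _)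
  have h2 := Moment_sum_inv hR hI
  have h3 : (0 : ℝ) ≤ (2 * l + 2) * R := by positivity
  nlinarith

theorem moment {I : Finset ℕ} {R : ℝ} (hR : 1 ≤ R) (hI : ∀ p ∈ I, p.Prime ∧ R ≤ p ∧ (p : ℝ) ≤ 2 * R)
    {a b : ℕ → ℂ} (ha : ∀ n, ‖a n‖ ≤ 1) (hb : ∀ n, ‖b n‖ ≤ 1) (l M : ℕ) {T : ℝ} (hT : 0 < T) :
    MS T Set.univ (fun u => DP I a u ^ l * DP (Icc 1 M) b u)
      ≤ Real.pi * (T + 2 * (2 * R) ^ l * M) * M * ((4 * l + 4) * R) ^ l := by
  set s := (Fintype.piFinset fun _ : Fin l => I) ×ˢ Icc 1 M with hs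
  set n : (Fin l → ℕ) × ℕ → ℕ := fun x => (∏ i, x.1 i) * x.2 with hn
  set c : (Fin l → ℕ) × ℕ → ℂ := fun x => (∏ i, a (x.1 i)) * b x.2 with hc
  have e1 : (fun u => DP I a u ^ l * DP (Icc 1 M) b u) = fun u => ∑ x ∈ s, c x * nit (n x) u := by
    funext u
    have e2 : DP I a u ^ l = ∏ _i : Fin l, ∑ p ∈ I, a p * nit p u := by
      rw [prod_const, card_univ, Fintype.card_fin]; rfl
    rw [e2, prod_univ_sum, DP, sum_mul_sum, hs, sum_product]
    refine sum_congr rfl fun p hp => sum_congr rfl fun m hm => ?_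
    have hp' : ∀ i, p i ≠ 0 := fun i => (hI _ (Fintype.mem_piFinset.1 hp i)).1.ne_zero
    have hm' : m ≠ 0 := by have := (mem_Icc.1 hm).1; omega
    simp only [hn, hc]
    rw [nit_mul (prod_ne_zero_iff.2 fun i _ => hp' i) hm', Moment_nit_prod _ _ fun i _ => hp' i,
      prod_mul_distrib]
    ring
  have hmem : ∀ x ∈ s, n x ∈ Icc 1 (⌊2 * R⌋₊ ^ l * M) := by
    intro x hx
    obtain ⟨h1, h2⟩ := mem_product.1 hx
    have h3 := Fintype.mem_piFinset.1 h1
    obtain ⟨h4, h5⟩ := mem_Icc.1 h2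
    refine mem_Icc.2 ⟨Nat.mul_pos (prod_pos fun i _ => (hI _ (h3 i)).1.pos) h4,
      Nat.mul_le_mul ?_ h5⟩
    refine (prod_le_pow_card _ _ ⌊2 * R⌋₊ fun i _ => Nat.le_floor (hI _ (h3 i)).2.2).trans ?_
    simp
  rw [e1]
  refine (mean_value_fam s n hmem c hT).trans ?_
  have hcn : ∀ x, ‖c x‖ ≤ 1 := by
    intro x
    simp only [hc, norm_mul, norm_prod]
    exact mul_le_one₀ (prod_le_one (fun _ _ => norm_nonneg _) fun _ _ => ha _) (norm_nonneg _) (hb _)
  have h2 : ∑ m ∈ Icc 1 (⌊2 * R⌋₊ ^ l * M), ‖∑ i ∈ s with n i = m, c i‖ ^ 2 ≤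
      M * ((4 * l + 4) * R) ^ l := by
    refine le_trans ?_ (Moment_pairs hR hI l M)
    rw [← hs, ← sum_fiberwise_of_maps_to hmem]
    refine sum_le_sum fun m _ => ?_
    have h3 : ‖∑ i ∈ s with n i = m, c i‖ ≤ ((s.filter fun i => n i = m).card : ℝ) := by
      refine (norm_sum_le _ _).trans ((sum_le_sum fun i _ => hcn i).trans ?_)
      simp
    refine (pow_le_pow_left₀ (norm_nonneg _) h3 2).trans (le_of_eq ?_)
    rw [sum_congr rfl (g := fun _ => ((s.filter fun i => n i = m).card : ℝ))]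
    · rw [sum_const, nsmul_eq_mul, sq]
    · intro x hx
      rw [← sum_filter, sum_const, nsmul_eq_mul, mul_one]
      congr 2
      have := (mem_filter.1 hx).2
      ext y
      simp only [mem_filter]
      rw [← this]
  have h3 : ((⌊2 * R⌋₊ ^ l * M : ℕ) : ℝ) ≤ (2 * R) ^ l * M := by
    push_cast
    exact mul_le_mul_of_nonneg_right
      (pow_le_pow_left₀ (Nat.cast_nonneg _) (Nat.floor_le (by linarith)) _) (Nat.cast_nonneg _)
  rw [mul_assoc (Real.pi * _)]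
  refine mul_le_mul (mul_le_mul_of_nonneg_left (by linarith) Real.pi_pos.le) h2
    (sum_nonneg fun _ _ => sq_nonneg _) ?_
  have : (0 : ℝ) ≤ (2 * R) ^ l * M := by positivity
  have h4 : 0 ≤ T + 2 * (2 * R) ^ l * M := by linarith
  exact mul_nonneg Real.pi_pos.le h4

end Pool.Agent.Lib.MR
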