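import Pool.Agent.Lib.MR.Defs

/-!
# Kusmin-Landau inequality, Weyl differencing and the derivative test
-/

set_option autoImplicit false
open Finset

namespace Pool.Agent.Lib.MR

/-- `exp (i x)` -/
noncomputable def ce (x : ℝ) : ℂ := Complex.exp (Complex.I * (x : ℂ))

lemma norm_ce (x : ℝ) : ‖ce x‖ = 1 := Complex.norm_exp_I_mul_ofReal x

lemma ce_add (x y : ℝ) : ce (x + y) = ce x * ce y := by
  unfold ce; rw [← Complex.exp_add]; push_cast; ring_nf

lemma conj_ce (x : ℝ) : (starRingEnd ℂ) (ce x) = ce (-x) := by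
  unfold ce; rw [← Complex.exp_conj]; simp

lemma ce_eq (x : ℝ) : ce x = (Real.cos x : ℂ) + (Real.sin x : ℂ) * Complex.I := by
  unfold ce; rw [mul_comm, Complex.exp_mul_I]; push_cast; rfl

lemma norm_ce_sub (a b : ℝ) : ‖ce a - ce b‖ ≤ |a - b| := by
  have e : ce a - ce b = ce b * (ce (a - b) - 1) := by
    rw [mul_sub, ← ce_add]; congr 2 <;> ring
  rw [e, norm_mul, norm_ce, one_mul]
  exact Real.norm_exp_I_mul_ofReal_sub_one_le

lemma kl_weight {d : ℝ} (h : Real.sin (d / 2) ≠ 0) :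
    (-1 / 2 - ((Real.cos (d / 2) / Real.sin (d / 2) / 2 : ℝ) : ℂ) * Complex.I) * (ce d - 1) = 1 := by
  have e : ce d = ce (d / 2) * ce (d / 2) := by rw [← ce_add]; congr 1; ring
  rw [e, ce_eq]
  have h1 := Real.cos_sq_add_sin_sq (d / 2)
  set C := Real.cos (d / 2)
  set S := Real.sin (d / 2)
  apply Complex.ext
  · simp
    field_simp
    linear_combination h1
  · simp
    field_simp
    linear_combination (-C) * h1

lemma kusmin (f : ℕ → ℝ) (n : ℕ) (lam : ℝ) (hl : 0 < lam)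
    (h1 : ∀ m, m ≤ n → lam ≤ f (m + 1) - f m ∧ f (m + 1) - f m ≤ Real.pi)
    (h2 : ∀ m, m ≤ n → f (m + 2) - f (m + 1) ≤ f (m + 1) - f m) :
    ‖∑ m ∈ range n, ce (f m)‖ ≤ 8 / lam := by
  set c : ℕ → ℝ := fun m => Real.cos ((f (m + 1) - f m) / 2) / Real.sin ((f (m + 1) - f m) / 2) / 2
    with hc
  set w : ℕ → ℂ := fun m => -1 / 2 - ((c m : ℝ) : ℂ) * Complex.I with hw
  have hpi := Real.pi_pos
  have hs : ∀ m, m ≤ n → lam / Real.pi ≤ Real.sin ((f (m + 1) - f m) / 2) := fun m hm => by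
    obtain ⟨a1, a2⟩ := h1 m hm
    refine le_trans ?_ (Real.mul_le_sin (by linarith) (by linarith))
    rw [div_le_iff₀ hpi]; field_simp; linarith
  have hs0 : ∀ m, m ≤ n → 0 < Real.sin ((f (m + 1) - f m) / 2) := fun m hm =>
    lt_of_lt_of_le (by positivity) (hs m hm)
  have hc0 : ∀ m, m ≤ n → 0 ≤ c m ∧ c m ≤ Real.pi / lam / 2 := fun m hm => by
    obtain ⟨a1, a2⟩ := h1 m hm
    have b1 : 0 ≤ Real.cos ((f (m + 1) - f m) / 2) :=
      Real.cos_nonneg_of_neg_pi_div_two_le_of_le (by linarith) (by linarith)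
    have b2 := hs0 m hm
    refine ⟨by simp only [hc]; positivity, ?_⟩
    simp only [hc]
    refine div_le_div_of_nonneg_right ?_ (by norm_num)
    rw [div_le_div_iff₀ b2 hl]
    have b3 := Real.cos_le_one ((f (m + 1) - f m) / 2)
    have b4 := hs m hm
    rw [div_le_iff₀ hpi] at b4
    nlinarith
  have hpl : 1 ≤ Real.pi / lam := by
    rw [le_div_iff₀ hl]; have := h1 0 (Nat.zero_le _); linarith
  have hwn : ∀ m, m ≤ n → ‖w m‖ ≤ Real.pi / lam := fun m hm => by
    obtain ⟨a1, a2⟩ := hc0 m hm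
    refine (norm_sub_le _ _).trans ?_
    rw [norm_mul, Complex.norm_I, Complex.norm_real, Real.norm_of_nonneg a1]
    norm_num; linarith
  have hz : ∀ m, m ≤ n → ce (f m) = w m * ce (f (m + 1)) - w m * ce (f m) := fun m hm => by
    have e := kl_weight (hs0 m hm).ne'
    have e2 : ce (f (m + 1)) = ce (f (m + 1) - f m) * ce (f m) := by rw [← ce_add]; congr 1; ring
    rw [e2]
    linear_combination (-(ce (f m))) * e
  have hmono : ∀ m, m + 1 ≤ n → c m ≤ c (m + 1) := fun m hm => by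
    simp only [hc]
    refine div_le_div_of_nonneg_right ?_ (by norm_num)
    rw [div_le_div_iff₀ (hs0 m (by omega)) (hs0 (m + 1) hm)]
    have a1 := h1 m (by omega)
    have a2 := h1 (m + 1) hm
    have a3 := h2 m (by omega)
    have := Real.sin_nonneg_of_nonneg_of_le_pi
      (x := (f (m + 1) - f m) / 2 - (f (m + 1 + 1) - f (m + 1)) / 2) (by linarith) (by linarith)
    rw [Real.sin_sub] at this
    linarith
  have key : ∀ k, k ≤ n → ‖∑ m ∈ range k, ce (f m) - w k * ce (f k)‖ ≤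
      Real.pi / lam + (c k - c 0) := by
    intro k
    induction k with
    | zero =>
      intro _
      simpa [norm_ce] using hwn 0 (Nat.zero_le _)
    | succ k ih =>
      intro hk
      have e : ∑ m ∈ range (k + 1), ce (f m) - w (k + 1) * ce (f (k + 1)) =
          (∑ m ∈ range k, ce (f m) - w k * ce (f k)) +
            ((c (k + 1) - c k : ℝ) : ℂ) * Complex.I * ce (f (k + 1)) := by
        rw [sum_range_succ]
        have := hz k (by omega)
        simp only [hw] at this ⊢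
        push_cast
        linear_combination this
      rw [e]
      refine (norm_add_le _ _).trans ?_
      rw [norm_mul, norm_mul, norm_ce, Complex.norm_I, Complex.norm_real,
        Real.norm_of_nonneg (sub_nonneg.2 (hmono k hk))]
      have := ih (by omega)
      linarith
  have k1 := key n le_rfl
  have k2 := norm_add_le (∑ m ∈ range n, ce (f m) - w n * ce (f n)) (w n * ce (f n))
  rw [sub_add_cancel, norm_mul, norm_ce, mul_one] at k2
  have k3 := hwn n le_rfl
  have k4 := hc0 n le_rfl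
  have k5 := hc0 0 (Nat.zero_le _)
  have k6 : Real.pi / lam ≤ 3.15 / lam := div_le_div_of_nonneg_right Real.pi_lt_d2.le hl.le
  have k7 : 3.15 / lam = 3.15 * lam⁻¹ := div_eq_mul_inv _ _
  have k8 : 8 / lam = 8 * lam⁻¹ := div_eq_mul_inv _ _
  have k9 : 0 < lam⁻¹ := inv_pos.2 hl
  linarith

lemma shift_sum (g : ℕ → ℂ) {n n' H h : ℕ} (hn : n' ≤ n) (hh : h ≤ H) :
    ∑ j ∈ range (n + H), (if H ≤ j + h ∧ j + h < n' + H then g (j + h - H) else 0) =
      ∑ m ∈ range n', g m := by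
  rw [← sum_filter]
  refine sum_nbij' (fun j => j + h - H) (fun m => m + H - h) ?_ ?_ ?_ ?_ ?_
  · intro j hj; simp only [mem_filter, mem_range] at hj ⊢; omega
  · intro m hm; simp only [mem_filter, mem_range] at hm ⊢; omega
  · intro j hj; simp only [mem_filter, mem_range] at hj ⊢; omega
  · intro m hm; simp only [mem_range] at hm ⊢; omega
  · intro j _; rfl

lemma weyl_vdc (z : ℕ → ℂ) (hz : ∀ m, ‖z m‖ ≤ 1) {n N H H0 : ℕ} {B : ℝ} (hn : n ≤ N)
    (hH : 1 ≤ H) (hHN : H ≤ N) (hB0 : 0 ≤ B)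
    (hB : ∀ h, H0 ≤ h → h < H →
      ‖∑ m ∈ range (n - h), z (m + h) * (starRingEnd ℂ) (z m)‖ ≤ B) :
    ‖∑ m ∈ range n, z m‖ ^ 2 * H ≤ 4 * N ^ 2 * H0 + 2 * N * B * H := by
  set Z : ℕ → ℂ := fun k => if H ≤ k ∧ k < n + H then z (k - H) else 0 with hZ
  set T : ℕ → ℂ := fun h => ∑ m ∈ range (n - h), z (m + h) * (starRingEnd ℂ) (z m) with hT
  have hTN : ∀ h, ‖T h‖ ≤ N := fun h => by
    refine (norm_sum_le _ _).trans ((sum_le_card_nsmul _ _ 1 fun m _ => ?_).trans ?_)
    · rw [norm_mul, Complex.norm_conj]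
      exact mul_le_one₀ (hz _) (norm_nonneg _) (hz _)
    · simp only [card_range, nsmul_eq_mul, mul_one]; exact_mod_cast (by omega : n - h ≤ N)
  have cor : ∀ h δ, h ≤ H → ∑ j ∈ range (n + H), Z (j + (h + δ)) * (starRingEnd ℂ) (Z (j + h))
      = T δ := fun h δ hh => by
    rw [hT]
    beta_reduce
    rw [← shift_sum (fun m => z (m + δ) * (starRingEnd ℂ) (z m)) (n := n) (Nat.sub_le n δ) hh]
    refine sum_congr rfl fun j _ => ?_
    simp only [hZ]
    by_cases c : H ≤ j + h ∧ j + h < n - δ + H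
    · rw [if_pos c, if_pos (by omega), if_pos (by omega)]
      congr 2; omega
    · rw [if_neg c]
      by_cases c2 : H ≤ j + h
      · rw [if_neg (by omega), zero_mul]
      · rw [if_neg (show ¬ (H ≤ j + h ∧ j + h < n + H) by omega), map_zero, mul_zero]
  have cor2 : ∀ h ∈ range H, ∀ h' ∈ range H,
      ‖∑ j ∈ range (n + H), Z (j + h) * (starRingEnd ℂ) (Z (j + h'))‖ ≤
        (if h < h' + H0 ∧ h' < h + H0 then (N : ℝ) else 0) + B := fun h hh h' hh' => by
    rw [mem_range] at hh hh'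
    have e : ∃ δ, δ < H ∧ (h = h' + δ ∨ h' = h + δ) ∧
        ‖∑ j ∈ range (n + H), Z (j + h) * (starRingEnd ℂ) (Z (j + h'))‖ = ‖T δ‖ := by
      rcases le_total h' h with c | c
      · obtain ⟨δ, rfl⟩ := Nat.exists_eq_add_of_le c
        exact ⟨δ, by omega, Or.inl rfl, by rw [cor h' δ hh'.le]⟩
      · obtain ⟨δ, rfl⟩ := Nat.exists_eq_add_of_le c
        refine ⟨δ, by omega, Or.inr rfl, ?_⟩
        rw [← cor h δ hh.le, ← Complex.norm_conj, map_sum]
        congr 1
        exact sum_congr rfl fun j _ => by rw [map_mul, Complex.conj_conj, mul_comm]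
    obtain ⟨δ, d1, d2, d3⟩ := e
    rw [d3]
    split_ifs with c
    · have := hTN δ; linarith
    · have := hB δ (by omega) d1; rw [zero_add]; exact this
  have e1 : (H : ℂ) * ∑ m ∈ range n, z m = ∑ j ∈ range (n + H), ∑ h ∈ range H, Z (j + h) := by
    rw [sum_comm, sum_congr rfl (g := fun _ => ∑ m ∈ range n, z m) fun h hh =>
      shift_sum z le_rfl (mem_range.1 hh).le]
    simp
  have e2 : ((∑ j ∈ range (n + H), ‖∑ h ∈ range H, Z (j + h)‖ ^ 2 : ℝ) : ℂ) =
      ∑ h ∈ range H, ∑ h' ∈ range H, ∑ j ∈ range (n + H),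
        Z (j + h) * (starRingEnd ℂ) (Z (j + h')) := by
    push_cast
    rw [sum_congr rfl (g := fun j => ∑ h ∈ range H, ∑ h' ∈ range H,
      Z (j + h) * (starRingEnd ℂ) (Z (j + h'))) fun j _ => by
        rw [← Complex.mul_conj', map_sum, sum_mul_sum], sum_comm]
    exact sum_congr rfl fun h _ => sum_comm
  have e3 : ∑ j ∈ range (n + H), ‖∑ h ∈ range H, Z (j + h)‖ ^ 2 ≤ H * (2 * H0 * N + H * B) := by
    have a1 := congrArg norm e2
    rw [Complex.norm_real, Real.norm_of_nonneg (sum_nonneg fun _ _ => by positivity)] at a1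
    rw [a1]
    refine (norm_sum_le _ _).trans ((sum_le_card_nsmul _ _ (2 * H0 * N + H * B)
      fun h hh => ?_).trans (by rw [card_range, nsmul_eq_mul]))
    refine (norm_sum_le _ _).trans ((sum_le_sum (cor2 h hh)).trans ?_)
    rw [sum_add_distrib, ← sum_filter, sum_const, sum_const, card_range, nsmul_eq_mul,
      nsmul_eq_mul]
    have c1 : ((range H).filter fun h' => h < h' + H0 ∧ h' < h + H0).card ≤ 2 * H0 := by
      refine (card_le_card (t := Ico (h - H0) (h + H0)) fun x hx => ?_).trans ?_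
      · simp only [mem_filter, mem_Ico] at hx ⊢; omega
      · rw [Nat.card_Ico]; omega
    have c2 : (((range H).filter fun h' => h < h' + H0 ∧ h' < h + H0).card : ℝ) ≤ 2 * H0 := by
      exact_mod_cast c1
    have := mul_le_mul_of_nonneg_right c2 (Nat.cast_nonneg (α := ℝ) N)
    linarith
  have e4 : (H : ℝ) * ‖∑ m ∈ range n, z m‖ ≤
      ∑ j ∈ range (n + H), ‖∑ h ∈ range H, Z (j + h)‖ := by
    have := norm_sum_le (range (n + H)) fun j => ∑ h ∈ range H, Z (j + h)
    rwa [← e1, norm_mul, Complex.norm_natCast] at this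
  have e5 := sq_sum_le_card_mul_sum_sq (s := range (n + H))
    (f := fun j => ‖∑ h ∈ range H, Z (j + h)‖)
  rw [card_range] at e5
  have e6 : ((n + H : ℕ) : ℝ) ≤ 2 * N := by exact_mod_cast (by omega : n + H ≤ 2 * N)
  have hH0 : (0 : ℝ) < H := by exact_mod_cast hH
  have e7 := pow_le_pow_left₀ (by positivity) e4 2
  have e8 := mul_le_mul e6 e3 (sum_nonneg fun _ _ => by positivity) (by positivity)
  have e9 : H * (‖∑ m ∈ range n, z m‖ ^ 2 * H) ≤ H * (4 * N ^ 2 * H0 + 2 * N * B * H) := by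
    nlinarith
  exact le_of_mul_le_mul_left e9 hH0

/-- iterated forward differences -/
def fd : ℕ → (ℝ → ℝ) → ℝ → ℝ
  | 0, f, x => f x
  | k + 1, f, x => fd k f (x + 1) - fd k f x

lemma fd_shift (k : ℕ) (f : ℝ → ℝ) (h x : ℝ) :
    fd k (fun y => f (y + h) - f y) x = fd k f (x + h) - fd k f x := by
  induction k generalizing x with
  | zero => rfl
  | succ k ih => simp only [fd, ih]; rw [add_right_comm]; ring

lemma fd_tel (k : ℕ) (f : ℝ → ℝ) (h : ℕ) (x : ℝ) :
    fd k (fun y => f (y + h) - f y) x = ∑ i ∈ range h, fd (k + 1) f (x + i) := by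
  rw [fd_shift]
  induction h with
  | zero => simp
  | succ h ih => rw [sum_range_succ, ← ih]; simp only [fd]; push_cast; rw [add_assoc]; ring

lemma deriv_test (k : ℕ) : ∀ (f : ℝ → ℝ) (x0 : ℝ) (n N H H0 : ℕ) (lam Lam η : ℝ), n ≤ N →
    1 ≤ H0 → 1 ≤ H → H ≤ N → 0 < lam → 0 < η → η ≤ 1 → (H : ℝ) ^ k * Lam ≤ Real.pi →
    (H0 : ℝ) ≤ η ^ 2 ^ k * H → 1 ≤ η ^ 2 ^ k * N * H0 ^ k * lam →
    (∀ m : ℕ, m ≤ n → lam ≤ fd (k + 1) f (x0 + m) ∧ fd (k + 1) f (x0 + m) ≤ Lam ∧
      fd (k + 2) f (x0 + m) ≤ 0) →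
    ‖∑ m ∈ range n, ce (f (x0 + m))‖ ≤ 8 * N * η := by
  induction k with
  | zero =>
    intro f x0 n N H H0 lam Lam η hn _ _ _ hl hη _ a1 _ a3 a4
    simp only [pow_zero, pow_one, one_mul, mul_one] at a1 a3
    refine (kusmin (fun m => f (x0 + m)) n lam hl (fun m hm => ?_) (fun m hm => ?_)).trans ?_
    · have := a4 m hm
      simp only [fd] at this
      push_cast; rw [← add_assoc]; constructor <;> linarith
    · have := (a4 m hm).2.2
      simp only [fd] at this
      push_cast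
      rw [show x0 + (m + 2 : ℝ) = x0 + m + 1 + 1 by ring, ← add_assoc]; linarith
    · rw [div_le_iff₀ hl]; linarith
  | succ k ih =>
    intro f x0 n N H H0 lam Lam η hn h0 h1 hHN hl hη hη1 a1 a2 a3 a4
    have hLam : 0 ≤ Lam := by have := a4 0 (Nat.zero_le _); linarith
    have hp : (η ^ 2) ^ 2 ^ k = η ^ 2 ^ (k + 1) := by rw [← pow_mul, pow_succ']
    have hH0 : (0 : ℝ) < H0 := by exact_mod_cast h0
    have hH : (0 : ℝ) < H := by exact_mod_cast h1
    have w := weyl_vdc (fun m => ce (f (x0 + m))) (fun m => (norm_ce _).le) (H0 := H0)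
      (B := 8 * N * η ^ 2) hn h1 hHN (by positivity) fun h b1 b2 => by
      by_cases c : h ≤ n
      · have := ih (fun y => f (y + h) - f y) x0 (n - h) N H H0 (H0 * lam) (H * Lam) (η ^ 2)
          (by omega) h0 h1 hHN (by positivity) (by positivity) (pow_le_one₀ hη.le hη1)
          (by rw [pow_succ] at a1; linarith) (by rwa [hp])
          (by rw [hp]; rw [pow_succ (H0 : ℝ)] at a3; linarith) fun m hm => by
            have b3 : ∀ i ∈ range h, _ := fun i hi => a4 (m + i) (by rw [mem_range] at hi; omega)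
            simp only [Nat.cast_add, ← add_assoc] at b3
            rw [fd_tel, fd_tel]
            have c1 : (H0 : ℝ) ≤ h := by exact_mod_cast b1
            have c2 : (h : ℝ) ≤ H := by exact_mod_cast b2.le
            refine ⟨le_trans ?_ (card_nsmul_le_sum _ _ lam fun i hi => (b3 i hi).1),
              (sum_le_card_nsmul _ _ Lam fun i hi => (b3 i hi).2.1).trans ?_,
              sum_nonpos fun i hi => (b3 i hi).2.2⟩
            · rw [card_range, nsmul_eq_mul]; exact mul_le_mul_of_nonneg_right c1 hl.le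
            · rw [card_range, nsmul_eq_mul]; exact mul_le_mul_of_nonneg_right c2 hLam
        convert this using 3 with m _
        rw [conj_ce, ← ce_add]; push_cast; rw [← add_assoc]; rfl
      · rw [show n - h = 0 by omega]; simp; positivity
    have p1 : η ^ 2 ^ (k + 1) ≤ η ^ 2 :=
      pow_le_pow_of_le_one hη.le hη1 (by rw [pow_succ]; have := Nat.one_le_two_pow (n := k); omega)
    have p2 : (H0 : ℝ) ≤ η ^ 2 * H := a2.trans (mul_le_mul_of_nonneg_right p1 hH.le)
    have p3 := mul_le_mul_of_nonneg_left p2 (show (0 : ℝ) ≤ 4 * N ^ 2 by positivity)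
    have p4 : ‖∑ m ∈ range n, ce (f (x0 + m))‖ ^ 2 * H ≤ (8 * N * η) ^ 2 * H := by
      have : (0 : ℝ) ≤ N ^ 2 * η ^ 2 * H := by positivity
      nlinarith
    exact (pow_le_pow_iff_left₀ (norm_nonneg _) (by positivity) two_ne_zero).1
      (le_of_mul_le_mul_right p4 hH)

lemma fd_deriv (F : ℕ → ℝ → ℝ) (hF : ∀ j x, 0 < x → HasDerivAt (F j) (F (j + 1) x) x) (k : ℕ) :
    ∀ j x, 0 < x → HasDerivAt (fd k (F j)) (fd k (F (j + 1)) x) x := by
  induction k with
  | zero => exact hF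
  | succ k ih =>
    intro j x hx
    exact (HasDerivAt.comp_add_const x 1 (ih j (x + 1) (by linarith))).sub (ih j x hx)

lemma fd_mvt (F : ℕ → ℝ → ℝ) (hF : ∀ j x, 0 < x → HasDerivAt (F j) (F (j + 1) x) x) (k : ℕ) :
    ∀ (j : ℕ) (x : ℝ), 0 < x → ∃ ξ : ℝ, x ≤ ξ ∧ ξ ≤ x + k ∧ fd k (F j) x = F (j + k) ξ := by
  induction k with
  | zero => intro j x _; exact ⟨x, le_rfl, by simp, rfl⟩
  | succ k ih =>
    intro j x hx
    obtain ⟨c, hc, e⟩ := exists_hasDerivAt_eq_slope (fd k (F j)) (fd k (F (j + 1)))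
      (show x < x + 1 by linarith)
      (fun y hy => (fd_deriv F hF k j y (by linarith [hy.1])).continuousAt.continuousWithinAt)
      (fun y hy => fd_deriv F hF k j y (by linarith [hy.1]))
    obtain ⟨ξ, a1, a2, a3⟩ := ih (j + 1) c (by linarith [hc.1])
    refine ⟨ξ, by linarith [hc.1], by push_cast; linarith [hc.2], ?_⟩
    rw [show j + (k + 1) = j + 1 + k by ring, ← a3, e]
    simp [fd]

end Pool.Agent.Lib.MR
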